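import Pool.Agent.Work.MP_8826fd_mp.K2.Cert
import Pool.Agent.Work.MP_8826fd_mp.Defs

/-! Bundle of small proof modules (one section per former module). -/

section

/-!
# The inequality of the second mode

Notation: `p = m + B / 2`, `M = B / 2 - m`, `B = p + M`, `q = p ^ 2 - λ`; `α = D_(m+2)`,
`β = D_(m-2)`; the claim is `(2 p + q) ^ 2 / α + (2 p - q) ^ 2 / β > 2 p M`.
-/

set_option autoImplicit false

noncomputable section

namespace Pool.Agent.Work.MP_8826fd_mp.K2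

/-- the quadratic consequence of the Riccati bound -/
theorem Ek_nonneg {p x s : ℝ} (hp : 0 < p) (hx : 0 ≤ x) (hxp : x ≤ p) (hs : p + 2 ≤ s)
    (hH : 0 ≤ Hk p x s) : 0 ≤ Ek p x s := by
  have hD : 0 < s ^ 2 + s - p - x := by nlinarith
  have h : (s ^ 2 + s - p - x) * Ek p x s =
      (s + 1) * Hk p x s + 8 * ((p + x) * (s + 2 * p + x)) := by
    unfold Ek Hk
    ring
  have h1 : 0 ≤ (s ^ 2 + s - p - x) * Ek p x s := by
    rw [h]
    have h2 : 0 ≤ (s + 1) * Hk p x s := mul_nonneg (by linarith) hH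
    have h3 : 0 ≤ (p + x) * (s + 2 * p + x) := mul_nonneg (by linarith) (by linarith)
    linarith
  exact nonneg_of_mul_nonneg_right h1 hD

/-- the case `q ≤ 0`, `x = -q` -/
theorem Fk_pos {p x s : ℝ} (hp : 0 < p) (hx : 0 ≤ x) (hxp : x ≤ p) (hs : p + 2 ≤ s)
    (hs2 : p ^ 2 - p + x ≤ s) (hH : 0 ≤ Hk p x s) : 0 < Fk p x s := by
  have hE := Ek_nonneg hp hx hxp hs hH
  obtain ⟨θ, hθ, hτ, rfl⟩ : ∃ θ, 0 ≤ θ ∧ 0 ≤ 1 - θ ∧ x = θ * p := by
    refine ⟨x / p, div_nonneg hx hp.le, ?_, (div_mul_cancel₀ x hp.ne').symm⟩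
    rw [sub_nonneg, div_le_one hp]
    exact hxp
  rcases le_total p 1 with h1 | h1
  · -- region I
    obtain ⟨σ, rfl⟩ : ∃ σ, s = p + 2 + σ := ⟨s - (p + 2), by ring⟩
    have h := cI p (1 - p) θ (1 - θ) σ hp.le (by linarith) hθ hτ (by linarith) rfl rfl
    linarith
  rcases le_total p 2 with h2 | h2
  · -- region II
    obtain ⟨r, rfl⟩ : ∃ r, p = 1 + r := ⟨p - 1, by ring⟩
    obtain ⟨σ, rfl⟩ : ∃ σ, s = 1 + r + 2 + σ := ⟨s - (1 + r + 2), by ring⟩
    have h := cII r (1 - r) θ (1 - θ) σ (by linarith) (by linarith) hθ hτ (by linarith) rfl rfl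
    have h3 : 0 ≤ (1 + r) * (3 * (1 + r) - 2) * Hk (1 + r) (θ * (1 + r)) (1 + r + 2 + σ) :=
      mul_nonneg (mul_nonneg hp.le (by linarith)) hH
    linarith
  rcases le_total p (11 / 5) with h3 | h3
  · -- region IIb
    obtain ⟨r, rfl⟩ : ∃ r, p = 2 + r := ⟨p - 2, by ring⟩
    obtain ⟨σ, rfl⟩ : ∃ σ, s = 2 + r + 2 + σ := ⟨s - (2 + r + 2), by ring⟩
    have h := cIIb r (1 / 5 - r) θ (1 - θ) σ (by linarith) (by linarith) hθ hτ (by linarith)
      rfl rfl
    have h4 : 0 ≤ 4 * (2 + r) * Hk (2 + r) (θ * (2 + r)) (2 + r + 2 + σ) :=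
      mul_nonneg (by linarith) hH
    linarith
  have hx2 : 0 ≤ (θ * p) ^ 2 := sq_nonneg _
  have htop : 0 ≤ 4 * p * (5 * p + θ * p - 8) + 2 * (θ * p) ^ 2 - 12 * p := by
    have h4 : 0 ≤ p * (5 * p - 11) := mul_nonneg hp.le (by linarith)
    have h5 : 0 ≤ p * (θ * p) := mul_nonneg hp.le hx
    nlinarith
  have hpp : 0 ≤ p ^ 2 - p := by nlinarith
  rcases le_total p 3 with h4 | h4
  · -- region IIIa
    obtain ⟨r, rfl⟩ : ∃ r, p = 11 / 5 + r := ⟨p - 11 / 5, by ring⟩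
    obtain ⟨σ, rfl⟩ : ∃ σ, s = (11 / 5 + r) ^ 2 - (11 / 5 + r) + θ * (11 / 5 + r) + σ :=
      ⟨s - ((11 / 5 + r) ^ 2 - (11 / 5 + r) + θ * (11 / 5 + r)), by ring⟩
    have h := cIIIa r (4 / 5 - r) θ (1 - θ) σ (by linarith) (by linarith) hθ hτ (by linarith)
      rfl rfl
    have h5 := mul_nonneg (add_nonneg (mul_nonneg (mul_nonneg (show (0 : ℝ) ≤ 4 by norm_num) hp.le)
      (show 0 ≤ (11 / 5 + r) ^ 2 - (11 / 5 + r) + θ * (11 / 5 + r) + σ + 1 by linarith))
      (mul_nonneg (show (0 : ℝ) ≤ 1 / 5 by norm_num) htop)) hE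
    linarith
  rcases le_total p 5 with h5 | h5
  · -- region IIIb
    obtain ⟨r, rfl⟩ : ∃ r, p = 3 + r := ⟨p - 3, by ring⟩
    obtain ⟨σ, rfl⟩ : ∃ σ, s = (3 + r) ^ 2 - (3 + r) + θ * (3 + r) + σ :=
      ⟨s - ((3 + r) ^ 2 - (3 + r) + θ * (3 + r)), by ring⟩
    have h := cIIIb r (2 - r) θ (1 - θ) σ (by linarith) (by linarith) hθ hτ (by linarith)
      rfl rfl
    have h6 := mul_nonneg (add_nonneg (mul_nonneg (mul_nonneg (show (0 : ℝ) ≤ 4 by norm_num) hp.le)
      (show 0 ≤ (3 + r) ^ 2 - (3 + r) + θ * (3 + r) + σ + 1 by linarith))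
      (mul_nonneg (show (0 : ℝ) ≤ 1 / 2 by norm_num) htop)) hE
    linarith
  rcases le_total p (51 / 10) with h6 | h6
  · -- region IIIc
    obtain ⟨r, rfl⟩ : ∃ r, p = 5 + r := ⟨p - 5, by ring⟩
    obtain ⟨σ, rfl⟩ : ∃ σ, s = (5 + r) ^ 2 - (5 + r) + θ * (5 + r) + σ :=
      ⟨s - ((5 + r) ^ 2 - (5 + r) + θ * (5 + r)), by ring⟩
    have h := cIIIc r (1 / 10 - r) θ (1 - θ) σ (by linarith) (by linarith) hθ hτ (by linarith)
      rfl rfl
    have h7 := mul_nonneg (show 0 ≤ 4 * (5 + r) by linarith) hH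
    linarith
  · -- region IV
    obtain ⟨r, rfl⟩ : ∃ r, p = 51 / 10 + r := ⟨p - 51 / 10, by ring⟩
    obtain ⟨σ, rfl⟩ : ∃ σ, s = (51 / 10 + r) ^ 2 - (51 / 10 + r) + θ * (51 / 10 + r) + σ :=
      ⟨s - ((51 / 10 + r) ^ 2 - (51 / 10 + r) + θ * (51 / 10 + r)), by ring⟩
    have h := cIV r 0 θ (1 - θ) σ (by linarith) le_rfl hθ hτ (by linarith) rfl
    linarith

/-- the case `0 ≤ q` -/
theorem Fk_pos' {p x s : ℝ} (hp : 0 < p) (hx : 0 ≤ x) (hxp : x ≤ p) (hs : p + 2 ≤ s) :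
    0 < Fk p (-x) s := by
  obtain ⟨θ, hθ, hτ, rfl⟩ : ∃ θ, 0 ≤ θ ∧ 0 ≤ 1 - θ ∧ x = θ * p := by
    refine ⟨x / p, div_nonneg hx hp.le, ?_, (div_mul_cancel₀ x hp.ne').symm⟩
    rw [sub_nonneg, div_le_one hp]
    exact hxp
  rcases le_total p 1 with h1 | h1
  · obtain ⟨σ, rfl⟩ : ∃ σ, s = p + 2 + σ := ⟨s - (p + 2), by ring⟩
    have h := cU1 p (1 - p) θ (1 - θ) σ hp.le (by linarith) hθ hτ (by linarith) rfl rfl
    linarith
  · obtain ⟨r, rfl⟩ : ∃ r, p = 1 + r := ⟨p - 1, by ring⟩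
    obtain ⟨σ, rfl⟩ : ∃ σ, s = 1 + r + 2 + σ := ⟨s - (1 + r + 2), by ring⟩
    have h := cU2 r 0 θ (1 - θ) σ (by linarith) le_rfl hθ hτ (by linarith) rfl
    linarith

/-- the inequality of the second mode for `m ≤ -1`, in terms of the numerators and denominators of
`α = 2 (M (2p + q + 1) - (p + q)) / (M² - M + p + q)` and
`β = 2 (M (2p - q - 1) + (p - q)) / (M² + M - p + q)` -/
theorem mode_two {p q M α β : ℝ} (hp : 0 < p) (hq : |q| ≤ p) (hM : p + 2 ≤ M)
    (hlam : p ^ 2 - q ≤ p + M)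
    (hα : α * (M ^ 2 - M + p + q) = 2 * (M * (2 * p + q + 1) - (p + q)))
    (hβ : β * (M ^ 2 + M - p + q) = 2 * (M * (2 * p - q - 1) + (p - q)))
    (hβ0 : 0 < β) (hR : (β + 1) ^ 2 ≤ (3 - p) ^ 2 + (p + M) - (p ^ 2 - q)) :
    2 * p * M < (2 * p + q) ^ 2 / α + (2 * p - q) ^ 2 / β := by
  obtain ⟨hq1, hq2⟩ := abs_le.1 hq
  have hDa : 0 < M ^ 2 - M + p + q := by nlinarith
  have hDb : 0 < M ^ 2 + M - p + q := by nlinarith
  have hNb : 0 < M * (2 * p - q - 1) + (p - q) := by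
    have := mul_pos hβ0 hDb
    linarith
  have hNa : 0 < M * (2 * p + q + 1) - (p + q) := by
    have h1 : 0 ≤ (M - 1) * (p + q) := mul_nonneg (by linarith) (by linarith)
    have h2 : 0 < M * (p + 1) := mul_pos (by linarith) (by linarith)
    linarith
  have hα' : α = 2 * (M * (2 * p + q + 1) - (p + q)) / (M ^ 2 - M + p + q) :=
    (eq_div_iff hDa.ne').2 hα
  have hβ' : β = 2 * (M * (2 * p - q - 1) + (p - q)) / (M ^ 2 + M - p + q) :=
    (eq_div_iff hDb.ne').2 hβ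
  have hF : 0 < Fk p (-q) M := by
    rcases le_total 0 q with h0 | h0
    · exact Fk_pos' hp h0 hq2 hM
    · refine Fk_pos hp (by linarith) (by linarith) hM (by linarith) ?_
      -- the Riccati bound
      have h1 : 4 * β ≤ (3 - p) ^ 2 + (p + M) - (p ^ 2 - q) := by nlinarith [sq_nonneg (β - 1)]
      have h2 := mul_le_mul_of_nonneg_right h1 hDb.le
      have h3 : 4 * β * (M ^ 2 + M - p + q) = 8 * (M * (2 * p - q - 1) + (p - q)) := by
        rw [mul_assoc, hβ]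
        ring
      rw [h3] at h2
      unfold Hk
      nlinarith
  have hval : (2 * p + q) ^ 2 / α + (2 * p - q) ^ 2 / β - 2 * p * M = Fk p (-q) M /
      (2 * (M * (2 * p + q + 1) - (p + q)) * (M * (2 * p - q - 1) + (p - q))) := by
    rw [hα', hβ']
    unfold Fk
    field_simp
    ring
  have hpos : 0 < Fk p (-q) M /
      (2 * (M * (2 * p + q + 1) - (p + q)) * (M * (2 * p - q - 1) + (p - q))) :=
    div_pos hF (mul_pos (mul_pos two_pos hNa) hNb)
  linarith

/-- the inequality of the second mode for `m = 0` -/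
theorem mode_two_zero {p q α β : ℝ} (hp : 0 < p) (hq0 : 0 < q) (hqp : q ≤ p)
    (hα : α * (p ^ 2 + q) = 2 * (p * (2 * p + q + 1) - (p + q)))
    (hβ : β * (p ^ 2 + q) = 2 * (p * (2 * p - q - 1) + (p - q))) (hβ0 : 0 < β) (hα0 : 0 < α) :
    2 * p * p < (2 * p + q) ^ 2 / α + (2 * p - q) ^ 2 / β := by
  have hD : 0 < p ^ 2 + q := by positivity
  have hNb : 0 < p * (2 * p - q - 1) + (p - q) := by
    have := mul_pos hβ0 hD
    linarith
  have hNa : 0 < p * (2 * p + q + 1) - (p + q) := by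
    have := mul_pos hα0 hD
    linarith
  have hα' : α = 2 * (p * (2 * p + q + 1) - (p + q)) / (p ^ 2 + q) := (eq_div_iff hD.ne').2 hα
  have hβ' : β = 2 * (p * (2 * p - q - 1) + (p - q)) / (p ^ 2 + q) := (eq_div_iff hD.ne').2 hβ
  have hF : 0 < q * (12 * p ^ 4 - 3 * p ^ 2 * q ^ 2 - 6 * p ^ 2 * q - q ^ 3) := by
    refine mul_pos hq0 ?_
    have h1 : q * (p + 1) < 2 * p ^ 2 := by nlinarith
    have h2 : q ^ 2 ≤ 2 * p ^ 3 := by
      have h3 : q ^ 2 ≤ p * q := by nlinarith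
      have h4 : q ≤ 2 * p ^ 2 := by nlinarith
      nlinarith
    have h5 : 6 * p ^ 2 * (q * (p + 1)) < 6 * p ^ 2 * (2 * p ^ 2) :=
      mul_lt_mul_of_pos_left h1 (by positivity)
    have h6 : q * (3 * p ^ 2 * q) ≤ q * (3 * p ^ 2 * p) := by
      have : 3 * p ^ 2 * q ≤ 3 * p ^ 2 * p := mul_le_mul_of_nonneg_left hqp (by positivity)
      exact mul_le_mul_of_nonneg_left this hq0.le
    have h7 : q * q ^ 2 ≤ q * (2 * p ^ 3) := mul_le_mul_of_nonneg_left h2 hq0.le
    have h8 : 0 < q * p ^ 3 := by positivity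
    nlinarith
  have hval : (2 * p + q) ^ 2 / α + (2 * p - q) ^ 2 / β - 2 * p * p =
      (q * (12 * p ^ 4 - 3 * p ^ 2 * q ^ 2 - 6 * p ^ 2 * q - q ^ 3)) * 2 /
      (2 * (p * (2 * p + q + 1) - (p + q)) * (p * (2 * p - q - 1) + (p - q))) := by
    rw [hα', hβ']
    field_simp
    ring
  have hpos : 0 < (q * (12 * p ^ 4 - 3 * p ^ 2 * q ^ 2 - 6 * p ^ 2 * q - q ^ 3)) * 2 /
      (2 * (p * (2 * p + q + 1) - (p + q)) * (p * (2 * p - q - 1) + (p - q))) :=
    div_pos (mul_pos hF two_pos) (mul_pos (mul_pos two_pos hNa) hNb)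
  linarith

end Pool.Agent.Work.MP_8826fd_mp.K2

end
end

section

/-! # Kummer functions and the spectral data (items K.., R..) -/

set_option autoImplicit false

namespace Pool.Agent.MFK

open MeasureTheory Set Filter Topology

/-- coefficients of `1F1(A; b; z)` -/
noncomputable def kc (A b : ℝ) (k : ℕ) : ℝ :=
  ∏ i ∈ Finset.range k, ((A + i) / ((b + i) * (i + 1)))

/-- `1F1(A; b; z)` -/
noncomputable def Phi (A b z : ℝ) : ℝ := ∑' k, kc A b k * z ^ k

/-- derivative of `Phi A b` -/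
noncomputable def Phi1 (A b z : ℝ) : ℝ := A / b * Phi (A + 1) (b + 1) z

/-- second derivative -/
noncomputable def Phi2 (A b z : ℝ) : ℝ := A / b * ((A + 1) / (b + 1) * Phi (A + 2) (b + 2) z)

def KSum : Prop := ∀ A b z : ℝ, 0 < b → Summable (fun k => kc A b k * z ^ k) ∧
  Summable (fun k => |kc A b k * z ^ k|)
def KDer : Prop := ∀ A b z : ℝ, 0 < b → HasDerivAt (Phi A b) (Phi1 A b z) z
def KDer2 : Prop := ∀ A b z : ℝ, 0 < b → HasDerivAt (Phi1 A b) (Phi2 A b z) z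
def KSmooth : Prop := ∀ A b : ℝ, 0 < b → ContDiff ℝ 2 (Phi A b)
/-- contiguous relation up -/
def KUp : Prop := ∀ A b z : ℝ, 0 < b → Phi A b z - Phi1 A b z = (b - A) / b * Phi A (b + 1) z
/-- contiguous relation down (`b + 1` to `b`) -/
def KDown : Prop := ∀ A b z : ℝ, 0 < b →
  b * Phi A (b + 1) z + z * Phi1 A (b + 1) z = b * Phi A b z
def KOde : Prop := ∀ A b z : ℝ, 0 < b →
  z * Phi2 A b z + (b - z) * Phi1 A b z - A * Phi A b z = 0
def KPos : Prop := ∀ A b z : ℝ, 0 ≤ A → 0 < b → 0 ≤ z → 1 ≤ Phi A b z ∧ 0 ≤ Phi1 A b z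
/-- `A ≤ b`: logarithmic derivative between `A/b` and `1` -/
def KBd : Prop := ∀ A b z : ℝ, 0 ≤ A → A ≤ b → 0 < b → 0 ≤ z →
  A / b * Phi A b z ≤ Phi1 A b z ∧ Phi1 A b z ≤ Phi A b z
def KCont : Prop := ∀ b z : ℝ, 0 < b → Continuous (fun A => Phi A b z)
/-- monotonicity of the logarithmic derivative in `b` -/
def KF4 : Prop := ∀ A b z : ℝ, 0 ≤ A → A ≤ b → 0 < b → 0 ≤ z →
  Phi1 A (b + 1) z * Phi A b z ≤ Phi1 A b z * Phi A (b + 1) z
/-- log-convexity -/
def KF5 : Prop := ∀ A b z : ℝ, 0 ≤ A → A ≤ b → 0 < b → 0 ≤ z →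
  Phi1 A b z ^ 2 ≤ Phi2 A b z * Phi A b z

/-- first Kummer parameter of mode `n` -/
noncomputable def An (B lam : ℝ) (n : ℤ) : ℝ := 1 / 2 - lam / (2 * B) + (if n < 0 then (n.natAbs : ℝ) else 0)

/-- `F_n(s) = exp(-B s/4) 1F1(A_n; |n|+1; B s/2)` -/
noncomputable def FK (B lam : ℝ) (n : ℤ) (s : ℝ) : ℝ :=
  Real.exp (-(B * s / 4)) * Phi (An B lam n) (n.natAbs + 1) (B * s / 2)

/-- the family `F_n` gives positive regular solutions of the radial equations -/
def RRad : Prop := ∀ (B lam : ℝ) (n : ℤ), 0 < B → lam < B → Rad B lam n (FK B lam n)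

/-- value and derivative of `a_n` at `r = 1`: `a_n'(1) = e^{-B/4} ((N - B/2) Phi + B Phi1)` -/
def RVal : Prop := ∀ (B lam : ℝ) (n : ℤ), 0 < B →
  deriv (radf n (FK B lam n)) 1 = Real.exp (-(B / 4)) *
    (((n.natAbs : ℝ) - B / 2) * Phi (An B lam n) (n.natAbs + 1) (B / 2)
      + B * Phi1 (An B lam n) (n.natAbs + 1) (B / 2)) ∧
  (lam ≤ B → dtn (fun n => FK B lam n) n = (n.natAbs : ℝ) - B / 2
      + B * (Phi1 (An B lam n) (n.natAbs + 1) (B / 2) / Phi (An B lam n) (n.natAbs + 1) (B / 2)))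

/-- the first order ladder relations -/
def RUp : Prop := ∀ (B lam : ℝ) (n : ℕ) (r : ℝ), 0 < B → lam < B → 0 < r →
  (n / r + B * r / 2) * radf n (FK B lam n) r - deriv (radf n (FK B lam n)) r
    = B * ((n + 1 - (1 / 2 - lam / (2 * B))) / (n + 1)) * radf (n + 1) (FK B lam (n + 1)) r

def RDown : Prop := ∀ (B lam : ℝ) (n : ℤ), 0 < B → lam < B → ∃ C > (0 : ℝ), ∀ r : ℝ, 0 < r →
  (n / r + B * r / 2) * radf n (FK B lam n) r + deriv (radf n (FK B lam n)) r
    = C * radf (n - 1) (FK B lam (n - 1)) r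

/-- recursion for the Dirichlet to Neumann numbers from a ladder relation (abstract) -/
def RRecUp : Prop := ∀ (B lam : ℝ) (n : ℤ) (F G : ℝ → ℝ) (C : ℝ), Rad B lam n F →
  Rad B lam (n + 1) G → 0 < C →
  (∀ r : ℝ, 0 < r → (n / r + B * r / 2) * radf n F r - deriv (radf n F) r = C * radf (n + 1) G r) →
  0 < n + B / 2 - deriv (radf n F) 1 / F 1 ∧
  deriv (radf (n + 1) G) 1 / G 1 * (n + B / 2 - deriv (radf n F) 1 / F 1)
    = (1 + n + B / 2) * (deriv (radf n F) 1 / F 1) - ((n - B / 2) ^ 2 + (n - B / 2) - lam)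

def RRecDown : Prop := ∀ (B lam : ℝ) (n : ℤ) (F G : ℝ → ℝ) (C : ℝ), Rad B lam n F →
  Rad B lam (n - 1) G → 0 < C →
  (∀ r : ℝ, 0 < r → (n / r + B * r / 2) * radf n F r + deriv (radf n F) r = C * radf (n - 1) G r) →
  0 < n + B / 2 + deriv (radf n F) 1 / F 1 ∧
  deriv (radf (n - 1) G) 1 / G 1 * (n + B / 2 + deriv (radf n F) 1 / F 1)
    = (n + B / 2 - 1) * (deriv (radf n F) 1 / F 1) + ((n - B / 2) ^ 2 - (n - B / 2) - lam)

/-- signs of `a_n'(1)` used for the existence of the ground state -/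
def RSign : Prop := ∀ B : ℝ, 0 < B →
  (∀ (lam : ℝ) (n : ℤ), lam ≤ B → n < 0 → 0 < deriv (radf n (FK B lam n)) 1) ∧
  (∀ (lam : ℝ) (n : ℕ), lam ≤ B → B / 2 < n → 0 < deriv (radf n (FK B lam n)) 1) ∧
  (∀ n : ℕ, 0 < deriv (radf n (FK B 0 n)) 1) ∧
  deriv (radf 0 (FK B B 0)) 1 < 0

def RCont : Prop := ∀ (B : ℝ) (n : ℕ), 0 < B → Continuous (fun lam => deriv (radf n (FK B lam n)) 1)

/-- existence of the ground state -/
def RGround : Prop := ∀ B : ℝ, 0 < B → ∃ (lam : ℝ) (m : ℕ), 0 < lam ∧ lam < B ∧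
  (∀ n : ℤ, 0 ≤ deriv (radf n (FK B lam n)) 1) ∧ deriv (radf m (FK B lam m)) 1 = 0

/-- F4 and F5 for the Dirichlet to Neumann numbers -/
def RF : Prop := ∀ (B lam : ℝ), 0 < B → 0 < lam → lam < B →
  (∀ n : ℕ, dtn (fun n => FK B lam n) (n + 1) ≤ dtn (fun n => FK B lam n) n + 1) ∧
  (∀ n : ℕ, (dtn (fun n => FK B lam n) n + 1) ^ 2 ≤ (n + 1 - B / 2) ^ 2 + B - lam) ∧
  (∀ N : ℕ, (dtn (fun n => FK B lam n) (-N) + 1) ^ 2 ≤ (N + 1 + B / 2) ^ 2 - B - lam) ∧
  (∀ N : ℕ, dtn (fun n => FK B lam n) (-N) ≤ N + B / 2) ∧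
  (∀ n : ℕ, n - B / 2 ≤ dtn (fun n => FK B lam n) n)

end Pool.Agent.MFK

end

section

/-! # First consequences of `Facts`, reduction of the algebraic lemma -/

set_option autoImplicit false

namespace Pool.Agent.MFK

namespace AL0

variable {p M lam : ℝ} {m : ℕ} {al be : ℕ → ℝ}

theorem M_pos (F : Facts p M lam m al be) : 0 < M := by
  rw [F.hM]; have := F.hp; positivity

theorem al_one (F : Facts p M lam m al be) : al 1 * M = p + (p ^ 2 - lam) := by
  have h := F.al_rec 0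
  rw [F.al0] at h
  simp only [Nat.cast_zero, zero_add] at h
  linear_combination h

theorem be_one (F : Facts p M lam m al be) : be 1 * M = p - (p ^ 2 - lam) := by
  have h := F.be_rec 0
  rw [F.be0] at h
  simp only [Nat.cast_zero, zero_add] at h
  linear_combination h

theorem q_bd (F : Facts p M lam m al be) : |p ^ 2 - lam| ≤ p := by
  have hM := M_pos F
  have h1 := al_one F
  have h2 := be_one F
  have h3 := mul_nonneg (F.al_nonneg 1) hM.le
  have h4 := mul_nonneg (F.be_nonneg 1) hM.le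
  rw [abs_le]; constructor <;> linarith

theorem p_sq (F : Facts p M lam m al be) : p ^ 2 < M + 2 * p := by
  have h := abs_le.1 (q_bd F)
  linarith [F.lam_lt]

theorem al_two (F : Facts p M lam m al be) :
    al 2 * (M ^ 2 - M + p + (p ^ 2 - lam)) = 2 * (M * (2 * p + (p ^ 2 - lam) + 1) - (p + (p ^ 2 - lam))) := by
  have h := F.al_rec 1
  have h1 := al_one F
  simp only [Nat.cast_one, one_add_one_eq_two] at h
  linear_combination M * h + (M - 2 - al 2) * h1

theorem be_two (F : Facts p M lam m al be) :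
    be 2 * (M ^ 2 + M - p + (p ^ 2 - lam)) = 2 * (M * (2 * p - (p ^ 2 - lam) - 1) + (p - (p ^ 2 - lam))) := by
  have h := F.be_rec 1
  have h1 := be_one F
  simp only [Nat.cast_one, one_add_one_eq_two] at h
  linear_combination M * h + (M + 2 + be 2) * h1

theorem be_le (F : Facts p M lam m al be) (k : ℕ) : be k ≤ k := by
  induction k with
  | zero => rw [F.be0]; simp
  | succ k ih => push_cast; linarith [F.F4 k]

theorem be_pos (F : Facts p M lam m al be) {k : ℕ} (hk : 2 ≤ k) : 0 < be k := by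
  rcases (F.be_nonneg k).lt_or_eq with h | h
  · exact h
  exfalso
  obtain ⟨j, rfl⟩ : ∃ j, k = j + 1 := ⟨k - 1, by omega⟩
  have hj : (1 : ℝ) ≤ j := by exact_mod_cast (by omega : 1 ≤ j)
  have hM := M_pos F
  have hq := abs_le.1 (q_bd F)
  have h1 := F.be_rec j
  have h2 := F.be_rec (j + 1)
  rw [← h] at h1 h2
  push_cast at h1 h2
  have h3 : 0 ≤ (1 + M + j) * be j := mul_nonneg (by positivity) (F.be_nonneg j)
  have h4 : 0 ≤ be (j + 1 + 1) * (M + (j + 1) - 0) := by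
    apply mul_nonneg (F.be_nonneg _); linarith
  have hp := F.hp
  nlinarith

theorem al_pos (F : Facts p M lam m al be) {k : ℕ} (hk : 2 ≤ k) : 0 < al k := by
  rcases (F.al_nonneg k).lt_or_eq with h | h
  · exact h
  exfalso
  obtain ⟨j, rfl⟩ : ∃ j, k = j + 1 := ⟨k - 1, by omega⟩
  have hj : (1 : ℝ) ≤ j := by exact_mod_cast (by omega : 1 ≤ j)
  have hq := abs_le.1 (q_bd F)
  have h1 := F.al_rec j
  have hd := F.al_den (j + 1)
  rw [← h] at h1 hd
  push_cast at h1 hd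
  have h3 : 0 ≤ (M - j - 1) * al j := mul_nonneg (by linarith) (F.al_nonneg j)
  have hp := F.hp
  nlinarith

theorem sneg_of (F : Facts p M lam m al be) {k : ℕ} (hk : 2 ≤ k)
    (h : 2 * p * M < (k * p + (p ^ 2 - lam)) ^ 2 / al k + (k * p - (p ^ 2 - lam)) ^ 2 / be k) :
    SNeg p M lam al be k := by
  have ha := al_pos F hk
  have hb := be_pos F hk
  refine ⟨-(k * p + (p ^ 2 - lam)) / al k, (k * p - (p ^ 2 - lam)) / be k, ?_⟩
  have e : 2 * p * M + 2 * ((k * p - (p ^ 2 - lam)) / be k) * (p ^ 2 - lam - k * p)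
      + 2 * (-(k * p + (p ^ 2 - lam)) / al k) * (p ^ 2 - lam + k * p)
      + ((k * p - (p ^ 2 - lam)) / be k) ^ 2 * be k + (-(k * p + (p ^ 2 - lam)) / al k) ^ 2 * al k
      = 2 * p * M - ((k * p + (p ^ 2 - lam)) ^ 2 / al k + (k * p - (p ^ 2 - lam)) ^ 2 / be k) := by
    field_simp
    ring
  rw [e]
  linarith

theorem sneg_zero (F : Facts p M lam m al be) (hm : m = 0) {k : ℕ} (hk : 2 ≤ k) :
    SNeg p M lam al be k := by
  apply sneg_of F hk
  have hM : M = p := by rw [F.hM, hm]; simp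
  have hp := F.hp
  have h1 := p_sq F
  rw [hM] at h1
  have hp3 : p < 3 := by nlinarith
  have hk' : (2 : ℝ) ≤ k := by exact_mod_cast hk
  have ha := al_pos F hk
  have hb := be_pos F hk
  have ha' : al k ≤ p + k := F.al_le k (by omega)
  have hb' := be_le F k
  set q := p ^ 2 - lam
  have h2 : (k * p + q) ^ 2 / (p + k) ≤ (k * p + q) ^ 2 / al k :=
    div_le_div_of_nonneg_left (sq_nonneg _) ha ha'
  have h3 : (k * p - q) ^ 2 / k ≤ (k * p - q) ^ 2 / be k :=
    div_le_div_of_nonneg_left (sq_nonneg _) hb hb'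
  refine lt_of_lt_of_le ?_ (add_le_add h2 h3)
  rw [hM, div_add_div _ _ (by positivity) (by positivity), lt_div_iff₀ (by positivity)]
  have h4 : 0 < k * (k - 1) * 2 - p := by nlinarith
  have h5 : (k * p + q) ^ 2 * k + (p + k) * (k * p - q) ^ 2 - 2 * p * p * ((p + k) * k)
      = ((2 * k + p) * q - k * p * p) ^ 2 / (2 * k + p)
        + 2 * p * p * (k * (p + k)) * (k * (k - 1) * 2 - p) / (2 * k + p) := by
    have : (2 * (k : ℝ) + p) ≠ 0 := by positivity
    field_simp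
    ring
  have h6 : 0 < 2 * p * p * (k * (p + k)) * (k * (k - 1) * 2 - p) / (2 * k + p) := by positivity
  have h7 : 0 ≤ ((2 * k + p) * q - k * p * p) ^ 2 / (2 * k + p) := by positivity
  linarith

theorem sneg_two (F : Facts p M lam m al be) (hm : 1 ≤ m) : SNeg p M lam al be 2 := by
  apply sneg_of F le_rfl
  have hq := q_bd F
  have hm' : (1 : ℝ) ≤ m := by exact_mod_cast hm
  have h := Pool.Agent.Work.MP_8826fd_mp.K2.mode_two (p := p) (q := p ^ 2 - lam) (M := M)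
    (α := al 2) (β := be 2) F.hp hq (by rw [F.hM]; linarith) (by linarith [F.lam_lt])
    (al_two F) (be_two F) (be_pos F le_rfl) (by
      have := F.F5b 2
      push_cast at this
      nlinarith)
  exact_mod_cast h

/-- reduction of the algebraic lemma to `k ≥ 3`, `m ≥ 1` -/
theorem stAL_of
    (H : ∀ (p M lam : ℝ) (m : ℕ) (al be : ℕ → ℝ), Facts p M lam m al be → 1 ≤ m → ∀ k : ℕ, 3 ≤ k →
      2 * p * M < (k * p + (p ^ 2 - lam)) ^ 2 / al k + (k * p - (p ^ 2 - lam)) ^ 2 / be k) :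
    StAL := by
  intro p M lam m al be F k hk
  rcases Nat.eq_zero_or_pos m with hm | hm
  · exact sneg_zero F hm hk
  · rcases Nat.lt_or_ge k 3 with h | h
    · have : k = 2 := by omega
      subst this
      exact sneg_two F hm
    · exact sneg_of F hk (H p M lam m al be F hm k h)

end AL0

end Pool.Agent.MFK

end

section

/-! # Item K4: contiguous relations of the Kummer function -/

set_option autoImplicit false

namespace Pool.Agent.MFK

open MeasureTheory Set Filter Topology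

namespace K4

theorem congr {f g : ℕ → ℝ} {a : ℝ} (h : ∀ k, f k = g k) (hg : HasSum g a) : HasSum f a := by
  rw [show f = g from funext h]; exact hg

theorem kc_zero (A b : ℝ) : kc A b 0 = 1 := by simp [kc]

theorem kc_succ (A b : ℝ) (k : ℕ) :
    kc A b (k + 1) = kc A b k * ((A + k) / ((b + k) * (k + 1))) := by
  rw [kc, kc, Finset.prod_range_succ]

theorem kc_up (A b : ℝ) (hb : 0 < b) (k : ℕ) :
    A / b * kc (A + 1) (b + 1) k = (A + k) / (b + k) * kc A b k := by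
  induction k with
  | zero => simp [kc_zero]
  | succ n ih =>
    have h1 : (0 : ℝ) < b + n := by positivity
    have h2 : (0 : ℝ) < b + 1 + n := by positivity
    have h3 : (0 : ℝ) < (n : ℝ) + 1 := by positivity
    rw [kc_succ, kc_succ, ← mul_assoc, ih]
    push_cast
    have h4 : b + ((n : ℝ) + 1) = b + 1 + n := by ring
    have h5 : A + ((n : ℝ) + 1) = A + 1 + n := by ring
    rw [h4, h5]
    field_simp

theorem kc_b (A b : ℝ) (hb : 0 < b) (k : ℕ) :
    kc A (b + 1) k = b / (b + k) * kc A b k := by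
  induction k with
  | zero => simp [kc_zero, hb.ne']
  | succ n ih =>
    have h1 : (0 : ℝ) < b + n := by positivity
    have h2 : (0 : ℝ) < b + 1 + n := by positivity
    have h3 : (0 : ℝ) < (n : ℝ) + 1 := by positivity
    rw [kc_succ, kc_succ, ih]
    push_cast
    have h4 : b + ((n : ℝ) + 1) = b + 1 + n := by ring
    rw [h4]
    field_simp

theorem hasSum_Phi (h : KSum) (A b z : ℝ) (hb : 0 < b) :
    HasSum (fun k => kc A b k * z ^ k) (Phi A b z) := (h A b z hb).1.hasSum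

theorem hasSum_Phi1 (h : KSum) (A b z : ℝ) (hb : 0 < b) :
    HasSum (fun k : ℕ => (A + k) / (b + k) * kc A b k * z ^ k) (Phi1 A b z) := by
  have h1 := (hasSum_Phi h (A + 1) (b + 1) z (by positivity)).mul_left (A / b)
  refine K4.congr (fun k => ?_) h1
  rw [← mul_assoc, kc_up A b hb]

end K4

theorem kUpDown (h : KSum) : KUp ∧ KDown := by
  refine ⟨?_, ?_⟩
  · intro A b z hb
    have h1 := K4.hasSum_Phi h A b z hb
    have h2 := K4.hasSum_Phi1 h A b z hb
    have h3 := h1.sub h2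
    have h4 := (K4.hasSum_Phi h A (b + 1) z (by positivity)).mul_left ((b - A) / b)
    refine h3.unique (K4.congr (fun k => ?_) h4)
    have h5 : (0 : ℝ) < b + k := by positivity
    rw [K4.kc_b A b hb]
    field_simp
    ring
  · intro A b z hb
    have hb1 : 0 < b + 1 := by positivity
    have h1 := (K4.hasSum_Phi h A (b + 1) z hb1).mul_left b
    have h2 := (K4.hasSum_Phi1 h A (b + 1) z hb1).mul_left z
    have h3 : HasSum (fun k : ℕ => (k : ℝ) * kc A (b + 1) k * z ^ k) (z * Phi1 A (b + 1) z) := by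
      rw [← hasSum_nat_add_iff' 1]
      simp only [Finset.range_one, Finset.sum_singleton, CharP.cast_eq_zero, zero_mul, sub_zero]
      refine K4.congr (fun k => ?_) h2
      have h5 : (0 : ℝ) < b + 1 + k := by positivity
      have h6 : (0 : ℝ) < (k : ℝ) + 1 := by positivity
      rw [K4.kc_succ, pow_succ]
      push_cast
      field_simp
    have h4 := h1.add h3
    refine h4.unique (K4.congr (fun k => ?_) ((K4.hasSum_Phi h A b z hb).mul_left b))
    have h5 : (0 : ℝ) < b + k := by positivity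
    rw [K4.kc_b A b hb]
    field_simp

end Pool.Agent.MFK

end
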