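import Pool.Agent.Work.MP_8826fd_mp.Bd.B01
import Pool.Agent.Work.MP_8826fd_mp.StmtsU

/-! Bundle of small proof modules (one section per former module). -/

section

/-! # Item K8: monotonicity in `b` and log-convexity (Cauchy-Schwarz) -/

set_option autoImplicit false

namespace Pool.Agent.MFK

open MeasureTheory Set Filter Topology

namespace K8

theorem kc_nonneg (A b : ℝ) (hA : 0 ≤ A) (hb : 0 < b) (k : ℕ) : 0 ≤ kc A b k := by
  unfold kc
  exact Finset.prod_nonneg fun i _ => by positivity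

/-- Cauchy-Schwarz for sums with weights -/
theorem cs {f w : ℕ → ℝ} {S0 S1 S2 : ℝ} (hf : ∀ k, 0 ≤ f k) (h0 : HasSum f S0)
    (h1 : HasSum (fun k => w k * f k) S1) (h2 : HasSum (fun k => w k ^ 2 * f k) S2)
    (hS : 0 < S0) : S1 ^ 2 ≤ S2 * S0 := by
  have h3 := ((h2.mul_left (S0 ^ 2)).sub (h1.mul_left (2 * S0 * S1))).add (h0.mul_left (S1 ^ 2))
  have h4 : 0 ≤ S0 ^ 2 * S2 - 2 * S0 * S1 * S1 + S1 ^ 2 * S0 := by
    refine h3.nonneg fun k => ?_
    have : S0 ^ 2 * (w k ^ 2 * f k) - 2 * S0 * S1 * (w k * f k) + S1 ^ 2 * f k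
        = (S0 * w k - S1) ^ 2 * f k := by ring
    rw [this]
    exact mul_nonneg (sq_nonneg _) (hf k)
  have h5 : 0 ≤ S0 * (S2 * S0 - S1 ^ 2) := by
    calc 0 ≤ S0 ^ 2 * S2 - 2 * S0 * S1 * S1 + S1 ^ 2 * S0 := h4
      _ = S0 * (S2 * S0 - S1 ^ 2) := by ring
  linarith [nonneg_of_mul_nonneg_right h5 hS]

theorem pos (h : KSum) (A b z : ℝ) (hA : 0 ≤ A) (hb : 0 < b) (hz : 0 ≤ z) : 0 < Phi A b z := by
  have h1 := K4.hasSum_Phi h A b z hb
  have h2 : kc A b 0 * z ^ 0 ≤ Phi A b z :=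
    le_hasSum h1 0 fun k _ => mul_nonneg (kc_nonneg A b hA hb k) (pow_nonneg hz k)
  rw [K4.kc_zero] at h2
  linarith [h2]

end K8

theorem kCS (h : KSum) : KF4 ∧ KF5 := by
  refine ⟨?_, ?_⟩
  · intro A b z hA hAb hb hz
    have hb1 : 0 < b + 1 := by positivity
    have hf : ∀ k, 0 ≤ kc A b k * z ^ k := fun k =>
      mul_nonneg (K8.kc_nonneg A b hA hb k) (pow_nonneg hz k)
    have h0 := K4.hasSum_Phi h A b z hb
    have hS := K8.pos h A b z hA hb hz
    -- `Phi A (b+1) = ∑ s f`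
    have hT : HasSum (fun k : ℕ => b / (b + k) * (kc A b k * z ^ k)) (Phi A (b + 1) z) := by
      refine K4.congr (fun k => ?_) (K4.hasSum_Phi h A (b + 1) z hb1)
      rw [K4.kc_b A b hb]
      ring
    -- `∑ s^2 f`
    have hs2 : Summable (fun k : ℕ => (b / (b + k)) ^ 2 * (kc A b k * z ^ k)) := by
      refine Summable.of_nonneg_of_le (fun k => mul_nonneg (sq_nonneg _) (hf k)) (fun k => ?_)
        h0.summable
      have h1 : (0 : ℝ) < b + k := by positivity
      have h2 : b / (b + k) ≤ 1 := by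
        rw [div_le_one h1]
        linarith [(Nat.cast_nonneg k : (0 : ℝ) ≤ k)]
      have h3 : (b / (b + k)) ^ 2 ≤ 1 := pow_le_one₀ (by positivity) h2
      exact mul_le_of_le_one_left (hf k) h3
    have h2 := hs2.hasSum
    have hcs := K8.cs hf h0 hT h2 hS
    -- `Phi A (b+1) - Phi1 A (b+1) = ∑ (b+1-A)/(b+1+k) s f`
    have hU : HasSum (fun k : ℕ => (b + 1 - A) / (b + 1 + k) * (b / (b + k)) * (kc A b k * z ^ k))
        (Phi A (b + 1) z - Phi1 A (b + 1) z) := by
      refine K4.congr (fun k => ?_)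
        ((K4.hasSum_Phi h A (b + 1) z hb1).sub (K4.hasSum_Phi1 h A (b + 1) z hb1))
      have h1 : (0 : ℝ) < b + k := by positivity
      have h3 : (0 : ℝ) < b + 1 + k := by positivity
      rw [K4.kc_b A b hb]
      field_simp
      ring
    have hle : (b - A) / b * ∑' k : ℕ, (b / (b + k)) ^ 2 * (kc A b k * z ^ k) ≤
        Phi A (b + 1) z - Phi1 A (b + 1) z := by
      refine hasSum_le (fun k => ?_) (h2.mul_left ((b - A) / b)) hU
      rw [← mul_assoc]
      refine mul_le_mul_of_nonneg_right ?_ (hf k)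
      have h1 : (0 : ℝ) < b + k := by positivity
      have h3 : (0 : ℝ) < b + 1 + k := by positivity
      have e1 : (b - A) / b * (b / (b + k)) ^ 2 = (b - A) / (b + k) * (b / (b + k)) := by
        field_simp
      rw [e1]
      refine mul_le_mul_of_nonneg_right ?_ (by positivity)
      rw [div_le_div_iff₀ h1 h3]
      have e2 : (b + 1 - A) * (b + k) - (b - A) * (b + 1 + k) = A + k := by ring
      have e3 : (0 : ℝ) ≤ A + k := by positivity
      linarith
    have hup := (kUpDown h).1 A b z hb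
    -- conclusion
    have hq : 0 ≤ (b - A) / b := div_nonneg (by linarith) hb.le
    have h5 : (b - A) / b * (Phi A (b + 1) z) ^ 2 ≤
        (Phi A (b + 1) z - Phi1 A (b + 1) z) * Phi A b z := by
      calc (b - A) / b * (Phi A (b + 1) z) ^ 2
          ≤ (b - A) / b * ((∑' k : ℕ, (b / (b + k)) ^ 2 * (kc A b k * z ^ k)) * Phi A b z) :=
            mul_le_mul_of_nonneg_left hcs hq
        _ = ((b - A) / b * ∑' k : ℕ, (b / (b + k)) ^ 2 * (kc A b k * z ^ k)) * Phi A b z := by
            ring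
        _ ≤ _ := mul_le_mul_of_nonneg_right hle hS.le
    have h6 : Phi1 A b z = Phi A b z - (b - A) / b * Phi A (b + 1) z := by linarith
    rw [h6]
    calc Phi1 A (b + 1) z * Phi A b z
        = Phi A (b + 1) z * Phi A b z - (Phi A (b + 1) z - Phi1 A (b + 1) z) * Phi A b z := by ring
      _ ≤ Phi A (b + 1) z * Phi A b z - (b - A) / b * (Phi A (b + 1) z) ^ 2 := by linarith
      _ = (Phi A b z - (b - A) / b * Phi A (b + 1) z) * Phi A (b + 1) z := by ring
  · intro A b z hA hAb hb hz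
    have hb1 : 0 < b + 1 := by positivity
    have hf : ∀ k, 0 ≤ kc A b k * z ^ k := fun k =>
      mul_nonneg (K8.kc_nonneg A b hA hb k) (pow_nonneg hz k)
    have h0 := K4.hasSum_Phi h A b z hb
    have hS := K8.pos h A b z hA hb hz
    have h1 : HasSum (fun k : ℕ => (A + k) / (b + k) * (kc A b k * z ^ k)) (Phi1 A b z) := by
      refine K4.congr (fun k => ?_) (K4.hasSum_Phi1 h A b z hb)
      ring
    have hr : ∀ k : ℕ, 0 ≤ (A + k) / (b + k) ∧ (A + k) / (b + k) ≤ 1 := fun k => by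
      have h1 : (0 : ℝ) < b + k := by positivity
      refine ⟨by positivity, ?_⟩
      rw [div_le_one h1]
      linarith
    have hs2 : Summable (fun k : ℕ => ((A + k) / (b + k)) ^ 2 * (kc A b k * z ^ k)) := by
      refine Summable.of_nonneg_of_le (fun k => mul_nonneg (sq_nonneg _) (hf k)) (fun k => ?_)
        h0.summable
      exact mul_le_of_le_one_left (hf k) (pow_le_one₀ (hr k).1 (hr k).2)
    have h2 := hs2.hasSum
    have hcs := K8.cs hf h0 h1 h2 hS
    refine hcs.trans (mul_le_mul_of_nonneg_right ?_ hS.le)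
    have h3 : HasSum (fun k : ℕ => (A + 1 + k) / (b + 1 + k) * ((A + k) / (b + k)) *
        (kc A b k * z ^ k)) (Phi2 A b z) := by
      have h4 := (K4.hasSum_Phi1 h (A + 1) (b + 1) z hb1).mul_left (A / b)
      have h5 : A / b * Phi1 (A + 1) (b + 1) z = Phi2 A b z := by
        unfold Phi2 Phi1
        have e1 : A + 1 + 1 = A + 2 := by ring
        have e2 : b + 1 + 1 = b + 2 := by ring
        rw [e1, e2]
      rw [h5] at h4
      refine K4.congr (fun k => ?_) h4
      have h6 := K4.kc_up A b hb k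
      calc (A + 1 + k) / (b + 1 + k) * ((A + k) / (b + k)) * (kc A b k * z ^ k)
          = (A + 1 + k) / (b + 1 + k) * ((A + k) / (b + k) * kc A b k) * z ^ k := by ring
        _ = (A + 1 + k) / (b + 1 + k) * (A / b * kc (A + 1) (b + 1) k) * z ^ k := by rw [h6]
        _ = A / b * ((A + 1 + k) / (b + 1 + k) * kc (A + 1) (b + 1) k * z ^ k) := by ring
    refine hasSum_le (fun k => ?_) h2 h3
    refine mul_le_mul_of_nonneg_right ?_ (hf k)
    rw [sq]
    refine mul_le_mul_of_nonneg_right ?_ (hr k).1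
    have h7 : (0 : ℝ) < b + k := by positivity
    have h8 : (0 : ℝ) < b + 1 + k := by positivity
    rw [div_le_div_iff₀ h7 h8]
    have e2 : (A + 1 + k) * (b + k) - (A + k) * (b + 1 + k) = b - A := by ring
    linarith

end Pool.Agent.MFK

end

section

/-! # The angular function (item U10) -/

set_option autoImplicit false

namespace Pool.Agent.MFK

open MeasureTheory Set Filter Topology

namespace U10

/-- the complex number of a point of the plane -/
noncomputable def cx (z : ℝ × ℝ) : ℂ := ⟨z.1, z.2⟩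

theorem cx_contDiff : ContDiff ℝ 1 cx := Complex.equivRealProdCLM.symm.contDiff

theorem cx_ne {z : ℝ × ℝ} (h : z ≠ 0) : cx z ≠ 0 := by
  intro h0
  apply h
  have h1 := congrArg Complex.re h0
  have h2 := congrArg Complex.im h0
  simp only [cx, Complex.zero_re, Complex.zero_im] at h1 h2
  exact Prod.ext h1 h2

/-- periodic functions of an argument -/
theorem per_of_exp {H : ℝ → ℝ} (hper : ∀ θ, H (θ + 2 * Real.pi) = H θ) {a b : ℝ}
    (h : Complex.exp (a * Complex.I) = Complex.exp (b * Complex.I)) : H a = H b := by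
  obtain ⟨n, hn⟩ := Complex.exp_eq_exp_iff_exists_int.1 h
  have h1 : a = b + n * (2 * Real.pi) := by
    have h2 : ((a : ℂ) - (b + n * (2 * Real.pi))) * Complex.I = 0 := by
      linear_combination hn
    rcases mul_eq_zero.1 h2 with h3 | h3
    · have h4 := sub_eq_zero.1 h3
      exact_mod_cast h4
    · exact absurd h3 Complex.I_ne_zero
  have hp : Function.Periodic H (2 * Real.pi) := hper
  rw [h1]
  exact (hp.int_mul n) b

theorem exp_arg (z : ℂ) (hz : z ≠ 0) :
    Complex.exp (Complex.arg z * Complex.I) = z / (‖z‖ : ℂ) := by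
  have h := Complex.norm_mul_exp_arg_mul_I z
  have hn : (‖z‖ : ℂ) ≠ 0 := by exact_mod_cast norm_ne_zero_iff.2 hz
  rw [eq_div_iff hn, mul_comm]
  exact h

theorem arg_neg {H : ℝ → ℝ} (hper : ∀ θ, H (θ + 2 * Real.pi) = H θ) {z : ℂ} (hz : z ≠ 0) :
    H (Complex.arg z) = H (Complex.arg (-z) + Real.pi) := by
  apply per_of_exp hper
  rw [exp_arg z hz]
  push_cast
  rw [add_mul, Complex.exp_add, exp_arg (-z) (neg_ne_zero.2 hz), Complex.exp_pi_mul_I, norm_neg]
  ring

theorem arg_pt {H : ℝ → ℝ} (hper : ∀ θ, H (θ + 2 * Real.pi) = H θ) {r θ : ℝ} (hr : 0 < r) :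
    H (Complex.arg (cx (pt r θ))) = H θ := by
  apply per_of_exp hper
  have h1 : cx (pt r θ) = r * Complex.exp (θ * Complex.I) := by
    rw [Complex.exp_mul_I]
    apply Complex.ext
    · simp [cx, pt, Complex.cos_ofReal_re, Complex.sin_ofReal_im, Complex.cos_ofReal_im]
    · simp [cx, pt, Complex.cos_ofReal_im, Complex.sin_ofReal_re, Complex.cos_ofReal_re]
  have h2 : cx (pt r θ) ≠ 0 := by
    rw [h1]
    exact mul_ne_zero (by exact_mod_cast hr.ne') (Complex.exp_ne_zero _)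
  have h3 : ‖cx (pt r θ)‖ = r := by
    rw [h1, norm_mul, Complex.norm_exp_ofReal_mul_I, mul_one, Complex.norm_real,
      Real.norm_eq_abs, abs_of_pos hr]
  rw [exp_arg _ h2, h3, h1]
  have : (r : ℂ) ≠ 0 := by exact_mod_cast hr.ne'
  field_simp

theorem neg_mem_slit {z : ℂ} (hz : z ≠ 0) (h : z ∉ Complex.slitPlane) :
    -z ∈ Complex.slitPlane := by
  rw [Complex.mem_slitPlane_iff] at h ⊢
  push Not at h
  left
  rw [Complex.neg_re]
  rcases h.1.eq_or_lt with h1 | h1
  · exact absurd (Complex.ext h1 h.2) hz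
  · linarith

theorem arg_contDiffAt {z : ℂ} (h : z ∈ Complex.slitPlane) : ContDiffAt ℝ 1 Complex.arg z := by
  have h1 : ContDiffAt ℝ 1 Complex.log z := (Complex.contDiffAt_log h).restrict_scalars ℝ
  have h2 : ContDiffAt ℝ 1 (fun w => Complex.imCLM (Complex.log w)) z :=
    Complex.imCLM.contDiff.contDiffAt.comp z h1
  have h3 : (fun w => Complex.imCLM (Complex.log w)) = Complex.arg := by
    funext w
    simp [Complex.log_im]
  rw [← h3]
  exact h2

/-- a periodic `C¹` function of the argument is `C¹` away from the origin -/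
theorem ang_contDiffAt {H : ℝ → ℝ} (hH : ContDiff ℝ 1 H)
    (hper : ∀ θ, H (θ + 2 * Real.pi) = H θ) {z : ℝ × ℝ} (hz : z ≠ 0) :
    ContDiffAt ℝ 1 (fun w => H (Complex.arg (cx w))) z := by
  by_cases h : cx z ∈ Complex.slitPlane
  · have h1 : ContDiffAt ℝ 1 (fun w => Complex.arg (cx w)) z :=
      (arg_contDiffAt h).comp z cx_contDiff.contDiffAt
    exact hH.contDiffAt.comp z h1
  · have h0 := neg_mem_slit (cx_ne hz) h
    have h1 : ContDiffAt ℝ 1 (fun w => Complex.arg (-cx w) + Real.pi) z :=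
      ((arg_contDiffAt h0).comp z cx_contDiff.contDiffAt.neg).add contDiffAt_const
    have h2 : ContDiffAt ℝ 1 (fun w => H (Complex.arg (-cx w) + Real.pi)) z :=
      hH.contDiffAt.comp z h1
    refine h2.congr_of_eventuallyEq ?_
    have h3 : ∀ᶠ w in 𝓝 z, w ≠ 0 := isOpen_ne.mem_nhds hz
    filter_upwards [h3] with w hw
    exact arg_neg hper (cx_ne hw)

end U10

theorem uAngular : UAngular := by
  intro X H H' s0 hX hs0 hX0 hH hH' hper
  have hC : ContDiff ℝ 1 H := by
    rw [contDiff_one_iff_deriv]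
    refine ⟨fun θ => (hH θ).differentiableAt, ?_⟩
    have : deriv H = H' := funext fun θ => (hH θ).deriv
    rw [this]
    exact hH'
  have hq : ContDiff ℝ 1 (fun z : ℝ × ℝ => z.1 ^ 2 + z.2 ^ 2) := by fun_prop
  refine ⟨?_, fun r θ hr => ?_⟩
  · rw [contDiff_iff_contDiffAt]
    intro z
    by_cases hz : z = 0
    · subst hz
      have h1 : ∀ᶠ w : ℝ × ℝ in 𝓝 0, w.1 ^ 2 + w.2 ^ 2 < s0 := by
        refine hq.continuous.continuousAt.eventually_lt continuousAt_const ?_
        simpa using hs0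
      have h2 : wang X H =ᶠ[𝓝 0] fun _ => (0 : ℝ) := by
        filter_upwards [h1] with w hw
        unfold wang
        rw [hX0 _ hw.le, zero_mul]
      exact contDiffAt_const.congr_of_eventuallyEq h2
    · have h1 : ContDiffAt ℝ 1 (fun w : ℝ × ℝ => X (w.1 ^ 2 + w.2 ^ 2)) z :=
        (hX.comp hq).contDiffAt
      exact h1.mul (U10.ang_contDiffAt hC hper hz)
  · unfold wang
    have h1 : (pt r θ).1 ^ 2 + (pt r θ).2 ^ 2 = r ^ 2 := by
      simp only [pt]
      have := Real.sin_sq_add_cos_sq θ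
      linear_combination r ^ 2 * this
    rw [h1]
    congr 1
    exact U10.arg_pt hper hr

end Pool.Agent.MFK

end

section

/-! # Item U11: smoothness and polar form of the test function -/

set_option autoImplicit false

namespace Pool.Agent.MFK

open MeasureTheory Set Filter Topology

namespace U11

theorem exp_add (m k : ℕ) (θ : ℝ) :
    Complex.exp (Complex.I * (((m : ℤ) + (k : ℤ) : ℤ) : ℂ) * θ)
      = Complex.exp (Complex.I * m * θ) *
        ((Real.cos (k * θ) : ℂ) + Complex.I * (Real.sin (k * θ) : ℂ)) := by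
  have h1 : Complex.I * (((m : ℤ) + (k : ℤ) : ℤ) : ℂ) * θ
      = Complex.I * m * θ + ((k * θ : ℝ) : ℂ) * Complex.I := by
    push_cast; ring
  rw [h1, Complex.exp_add, Complex.exp_mul_I, Complex.ofReal_cos, Complex.ofReal_sin]
  ring

theorem exp_sub (m k : ℕ) (θ : ℝ) :
    Complex.exp (Complex.I * (((m : ℤ) - (k : ℤ) : ℤ) : ℂ) * θ)
      = Complex.exp (Complex.I * m * θ) *
        ((Real.cos (k * θ) : ℂ) - Complex.I * (Real.sin (k * θ) : ℂ)) := by
  have h1 : Complex.I * (((m : ℤ) - (k : ℤ) : ℤ) : ℂ) * θ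
      = Complex.I * m * θ + ((-(k * θ) : ℝ) : ℂ) * Complex.I := by
    push_cast; ring
  rw [h1, Complex.exp_add, Complex.exp_mul_I, ← Complex.ofReal_cos, ← Complex.ofReal_sin,
    Real.cos_neg, Real.sin_neg]
  push_cast
  ring

theorem term (y x R1 R2 F1 F2 A B c s : ℝ) (E : ℂ) :
    (y : ℂ) * (((A : ℂ) - Complex.I * (B : ℂ)) / 2) *
        ((R1 : ℂ) * (E * ((c : ℂ) + Complex.I * (s : ℂ))) / (F1 : ℂ))
      + (x : ℂ) * (((A : ℂ) + Complex.I * (B : ℂ)) / 2) *
        ((R2 : ℂ) * (E * ((c : ℂ) - Complex.I * (s : ℂ))) / (F2 : ℂ))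
    = E * ((((y * (R1 / F1) + x * (R2 / F2)) * ((A * c + B * s) / 2) : ℝ) : ℂ)
        + Complex.I * (((y * (R1 / F1) - x * (R2 / F2)) * ((A * s - B * c) / 2) : ℝ) : ℂ)) := by
  push_cast
  have hI : Complex.I ^ 2 = -1 := Complex.I_sq
  simp only [div_eq_mul_inv]
  linear_combination (-(y : ℂ) * R1 * (F1 : ℂ)⁻¹ * E * B * s * 2⁻¹
    - (x : ℂ) * R2 * (F2 : ℂ)⁻¹ * E * B * s * 2⁻¹) * hI

end U11

theorem uTest (h1 : UMode) (h2 : UAngular) (h3 : UFour2) : UTest := by
  intro P h hP hh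
  obtain ⟨s0, hs0, hX0⟩ := hP.X0
  obtain ⟨hH, hHper, hHc, -, -⟩ := h3 h P.K hh
  have hsm : ∀ n : ℤ, ContDiff ℝ 2 (P.F n) := fun n => (hP.data.rad n).smooth
  have hang := h2 P.X (Hh h P.K) (hhigh h P.K) s0 (hP.Xs.of_le (by norm_num)) hs0 hX0 hH hHc hHper
  refine ⟨?_, ?_⟩
  · have hw : ∀ n : ℤ, ContDiff ℝ 1 (wmode n (P.F n)) := fun n => (h1 n (P.F n) (hsm n)).1
    have hwa : ContDiff ℝ 1 (fun z => ((wang P.X (Hh h P.K) z : ℝ) : ℂ)) :=
      Complex.ofRealCLM.contDiff.comp hang.1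
    unfold utest
    refine ContDiff.add (ContDiff.add ((hw _).div_const _) ?_) ?_
    · refine ContDiff.sum (fun k _ => ContDiff.add ?_ ?_)
      · exact contDiff_const.mul ((hw _).div_const _)
      · exact contDiff_const.mul ((hw _).div_const _)
    · exact (contDiff_const.mul hwa).mul ((hw _).div_const _)
  · intro r θ hr
    have hw : ∀ n : ℤ, wmode n (P.F n) (pt r θ)
        = ((radf n (P.F n) r : ℝ) : ℂ) * Complex.exp (Complex.I * n * θ) :=
      fun n => (h1 n (P.F n) (hsm n)).2 r θ hr.le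
    have hwa := hang.2 r θ hr
    unfold utest
    rw [hwa]
    simp only [hw]
    have hsum : (∑ k ∈ Finset.Icc 2 P.K,
      ((P.y k : ℂ) * ((fA h k - Complex.I * fB h k) / 2) *
          (((radf (P.m + k) (P.F (P.m + k)) r : ℝ) : ℂ) *
            Complex.exp (Complex.I * (((P.m : ℤ) + (k : ℤ) : ℤ) : ℂ) * θ) / (P.F (P.m + k) 1 : ℝ))
      + (P.x k : ℂ) * ((fA h k + Complex.I * fB h k) / 2) *
          (((radf (P.m - k) (P.F (P.m - k)) r : ℝ) : ℂ) *
            Complex.exp (Complex.I * (((P.m : ℤ) - (k : ℤ) : ℤ) : ℂ) * θ) / (P.F (P.m - k) 1 : ℝ))))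
      = Complex.exp (Complex.I * P.m * θ) *
        (((P.V1 h r θ : ℝ) : ℂ) + Complex.I *
          ((∑ k ∈ Finset.Icc 2 P.K, P.ps k r * Sk h k θ : ℝ) : ℂ)) := by
      have : ∀ k ∈ Finset.Icc 2 P.K,
        ((P.y k : ℂ) * ((fA h k - Complex.I * fB h k) / 2) *
          (((radf (P.m + k) (P.F (P.m + k)) r : ℝ) : ℂ) *
            Complex.exp (Complex.I * (((P.m : ℤ) + (k : ℤ) : ℤ) : ℂ) * θ) / (P.F (P.m + k) 1 : ℝ))
        + (P.x k : ℂ) * ((fA h k + Complex.I * fB h k) / 2) *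
          (((radf (P.m - k) (P.F (P.m - k)) r : ℝ) : ℂ) *
            Complex.exp (Complex.I * (((P.m : ℤ) - (k : ℤ) : ℤ) : ℂ) * θ) / (P.F (P.m - k) 1 : ℝ)))
        = Complex.exp (Complex.I * P.m * θ) *
          (((P.ph k r * Ck h k θ : ℝ) : ℂ) + Complex.I * ((P.ps k r * Sk h k θ : ℝ) : ℂ)) := by
        intro k _
        rw [U11.exp_add, U11.exp_sub]
        exact U11.term (P.y k) (P.x k) _ _ _ _ (fA h k) (fB h k) (Real.cos (k * θ))
          (Real.sin (k * θ)) _
      rw [Finset.sum_congr rfl this, ← Finset.mul_sum, Finset.sum_add_distrib, ← Finset.mul_sum]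
      unfold Par.V1
      push_cast
      rfl
    rw [hsum]
    unfold Par.V2 Par.GG Par.g
    push_cast
    ring

end Pool.Agent.MFK

end

section

/-! # U14: continuity and integrability of the density -/

set_option autoImplicit false

namespace Pool.Agent.MFK

open MeasureTheory Set Filter Topology

namespace U14

theorem cont_pt : Continuous (fun z : ℝ × ℝ => pt z.1 z.2) := by
  unfold pt
  fun_prop

theorem cont_eden (B : ℝ) (u : ℝ × ℝ → ℂ) (hu : ContDiff ℝ 1 u) : Continuous (eden B u) := by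
  have h1 : Continuous (fderiv ℝ u) := hu.continuous_fderiv one_ne_zero
  have h2 : Continuous u := hu.continuous
  have h3 : Continuous (fun x : ℝ × ℝ => fderiv ℝ u x ((1 : ℝ), (0 : ℝ))) :=
    h1.clm_apply continuous_const
  have h4 : Continuous (fun x : ℝ × ℝ => fderiv ℝ u x ((0 : ℝ), (1 : ℝ))) :=
    h1.clm_apply continuous_const
  have h5 : Continuous (fun x : ℝ × ℝ => ((-(B * x.2 / 2) : ℝ) : ℂ)) :=
    Complex.continuous_ofReal.comp (by fun_prop)
  have h6 : Continuous (fun x : ℝ × ℝ => ((B * x.1 / 2 : ℝ) : ℂ)) :=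
    Complex.continuous_ofReal.comp (by fun_prop)
  unfold eden
  exact ((h3.sub ((continuous_const.mul h5).mul h2)).norm.pow 2).add
    ((h4.sub ((continuous_const.mul h6).mul h2)).norm.pow 2)

end U14

theorem uCont (h1 : UTest) (h2 : UDens) : UCont := by
  intro P h hP hh
  have hu := (h1 P h hP hh).1
  refine ⟨fun z => (eden P.B (utest P h) (pt z.1 z.2)
    - P.lam * ‖utest P h (pt z.1 z.2)‖ ^ 2) * z.1, ?_, ?_⟩
  · have e1 : Continuous (fun z : ℝ × ℝ => eden P.B (utest P h) (pt z.1 z.2)) :=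
      (U14.cont_eden P.B _ hu).comp U14.cont_pt
    have e2 : Continuous (fun z : ℝ × ℝ => utest P h (pt z.1 z.2)) :=
      hu.continuous.comp U14.cont_pt
    exact (e1.sub (continuous_const.mul (e2.norm.pow 2))).mul continuous_fst
  · intro r θ hr
    show (eden P.B (utest P h) (pt r θ) - P.lam * ‖utest P h (pt r θ)‖ ^ 2) * r = _
    rw [h2 P h r θ hP hh hr]

theorem uInt (h : UCont) : UInt := by
  intro P h0 hP hh
  obtain ⟨f, hf, hfd⟩ := h P h0 hP hh
  constructor
  · intro θ t ht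
    have e1 : IntervalIntegrable (fun r => f (r, θ)) volume 0 t :=
      (hf.comp (by fun_prop : Continuous fun r : ℝ => (r, θ))).intervalIntegrable 0 t
    refine e1.congr ?_
    intro r hr
    rw [uIoc_of_le ht] at hr
    exact hfd r θ hr.1
  · intro ρ hρ hρ0
    have e2 : Continuous (fun θ => ∫ r in (0 : ℝ)..(ρ θ), f (r, θ)) := by
      have := intervalIntegral.continuous_parametric_intervalIntegral_of_continuous
        (μ := volume) (f := fun θ r => f (r, θ)) (a₀ := (0 : ℝ)) (s := ρ)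
        (by
          have : Continuous (fun z : ℝ × ℝ => f (z.2, z.1)) :=
            hf.comp (by fun_prop : Continuous fun z : ℝ × ℝ => (z.2, z.1))
          exact this) hρ
      exact this
    refine e2.congr fun θ => ?_
    refine intervalIntegral.integral_congr_ae (Filter.Eventually.of_forall fun r hr => ?_)
    rw [uIoc_of_le (hρ0 θ)] at hr
    exact hfd r θ hr.1

end Pool.Agent.MFK

end

section

/-! # Angular integral of the density of the test function -/

set_option autoImplicit false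

namespace Pool.Agent.MFK

open MeasureTheory Set Filter Topology

namespace U16

theorem int_cos (k : ℕ) (hk : 1 ≤ k) :
    (∫ θ in (0 : ℝ)..(2 * Real.pi), Real.cos (k * θ)) = 0 := by
  have hk0 : (k : ℝ) ≠ 0 := by
    have : (1 : ℝ) ≤ k := by exact_mod_cast hk
    linarith
  have hd : ∀ t ∈ uIcc (0 : ℝ) (2 * Real.pi),
      HasDerivAt (fun s : ℝ => Real.sin (k * s) / k) (Real.cos (k * t)) t := by
    intro t _
    have h1 : HasDerivAt (fun s : ℝ => (k : ℝ) * s) (k : ℝ) t := by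
      simpa using (hasDerivAt_id t).const_mul (k : ℝ)
    have h2 := (h1.sin).div_const (k : ℝ)
    refine h2.congr_deriv ?_
    field_simp
  rw [intervalIntegral.integral_eq_sub_of_hasDerivAt hd
    ((by fun_prop : Continuous (fun θ : ℝ => Real.cos (k * θ))).intervalIntegrable _ _)]
  have e : Real.sin ((k : ℝ) * (2 * Real.pi)) = 0 := by
    have := Real.sin_nat_mul_pi (2 * k)
    rw [← this]
    congr 1
    push_cast
    ring
  rw [e, mul_zero, Real.sin_zero]
  simp

theorem int_sin (k : ℕ) (hk : 1 ≤ k) :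
    (∫ θ in (0 : ℝ)..(2 * Real.pi), Real.sin (k * θ)) = 0 := by
  have hk0 : (k : ℝ) ≠ 0 := by
    have : (1 : ℝ) ≤ k := by exact_mod_cast hk
    linarith
  have hd : ∀ t ∈ uIcc (0 : ℝ) (2 * Real.pi),
      HasDerivAt (fun s : ℝ => -(Real.cos (k * s) / k)) (Real.sin (k * t)) t := by
    intro t _
    have h1 : HasDerivAt (fun s : ℝ => (k : ℝ) * s) (k : ℝ) t := by
      simpa using (hasDerivAt_id t).const_mul (k : ℝ)
    have h2 := ((h1.cos).div_const (k : ℝ)).neg
    refine h2.congr_deriv ?_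
    field_simp
  rw [intervalIntegral.integral_eq_sub_of_hasDerivAt hd
    ((by fun_prop : Continuous (fun θ : ℝ => Real.sin (k * θ))).intervalIntegrable _ _)]
  have e : Real.cos ((k : ℝ) * (2 * Real.pi)) = 1 := Real.cos_nat_mul_two_pi k
  rw [e, mul_zero, Real.cos_zero]
  ring

theorem cont_Ck (h : ℝ → ℝ) (k : ℕ) : Continuous (Ck h k) := by
  unfold Ck
  fun_prop

theorem cont_Sk (h : ℝ → ℝ) (k : ℕ) : Continuous (Sk h k) := by
  unfold Sk
  fun_prop

theorem int_Ck (h : ℝ → ℝ) (k : ℕ) (hk : 1 ≤ k) :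
    (∫ θ in (0 : ℝ)..(2 * Real.pi), Ck h k θ) = 0 := by
  have e : (fun θ => Ck h k θ) = fun θ =>
      (fA h k / 2) * Real.cos (k * θ) + (fB h k / 2) * Real.sin (k * θ) := by
    funext θ
    unfold Ck
    ring
  rw [e, intervalIntegral.integral_add, intervalIntegral.integral_const_mul,
    intervalIntegral.integral_const_mul, int_cos k hk, int_sin k hk]
  · ring
  · exact (by fun_prop : Continuous (fun θ : ℝ => fA h k / 2 * Real.cos (k * θ))).intervalIntegrable _ _
  · exact (by fun_prop : Continuous (fun θ : ℝ => fB h k / 2 * Real.sin (k * θ))).intervalIntegrable _ _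

theorem int_sum_Ck (h : ℝ → ℝ) (K : ℕ) (c : ℕ → ℝ) :
    (∫ θ in (0 : ℝ)..(2 * Real.pi), ∑ k ∈ Finset.Icc 2 K, c k * Ck h k θ) = 0 := by
  rw [intervalIntegral.integral_finsetSum]
  · refine Finset.sum_eq_zero ?_
    intro k hk
    rw [intervalIntegral.integral_const_mul, int_Ck h k (by
      have := (Finset.mem_Icc.1 hk).1
      omega), mul_zero]
  · intro k _
    exact (continuous_const.mul (cont_Ck h k)).intervalIntegrable _ _

theorem Q2_split (q lam r a b v1r v2r v1 v2 v1t v2t : ℝ) :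
    Q2 q lam r (a + v1r) v2r (b + v1) v2 v1t v2t
      = Q2 q lam r v1r v2r v1 v2 v1t v2t + ((a ^ 2 + (q ^ 2 - lam) * b ^ 2)
        + (2 * a * v1r + 2 * b * (q ^ 2 - lam) * v1 + 2 * q * b / r * v2t)) := by
  unfold Q2
  ring

theorem alg (k q r lam y x a b a' b' : ℝ) :
    (y * b' + x * a') ^ 2 + (y * b' - x * a') ^ 2
      + (k * (y * b + x * a) / r + q * (y * b - x * a)) ^ 2
      + (k * (y * b - x * a) / r + q * (y * b + x * a)) ^ 2
      - lam * ((y * b + x * a) ^ 2 + (y * b - x * a) ^ 2)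
    = 2 * (y ^ 2 * (b' ^ 2 + ((q + k / r) ^ 2 - lam) * b ^ 2)
        + x ^ 2 * (a' ^ 2 + ((q - k / r) ^ 2 - lam) * a ^ 2)) := by
  ring

theorem diff_bb (h3 : RReg) (P : Par) (hP : P.Good) (k : ℕ) (r : ℝ) :
    DifferentiableAt ℝ (P.bb k) r := by
  have h := (h3 P.B P.lam _ _ (hP.data.rad ((P.m : ℤ) + k))).1 r
  exact (h.div_const (P.F (P.m + k) 1)).differentiableAt

theorem diff_aa (h3 : RReg) (P : Par) (hP : P.Good) (k : ℕ) (r : ℝ) :
    DifferentiableAt ℝ (P.aa k) r := by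
  have h := (h3 P.B P.lam _ _ (hP.data.rad ((P.m : ℤ) - k))).1 r
  exact (h.div_const (P.F (P.m - k) 1)).differentiableAt

theorem deriv_ph (h3 : RReg) (P : Par) (hP : P.Good) (k : ℕ) (r : ℝ) :
    deriv (P.ph k) r = P.y k * deriv (P.bb k) r + P.x k * deriv (P.aa k) r := by
  have hb := (diff_bb h3 P hP k r).hasDerivAt
  have ha := (diff_aa h3 P hP k r).hasDerivAt
  exact ((hb.const_mul (P.y k)).add (ha.const_mul (P.x k))).deriv

theorem deriv_ps (h3 : RReg) (P : Par) (hP : P.Good) (k : ℕ) (r : ℝ) :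
    deriv (P.ps k) r = P.y k * deriv (P.bb k) r - P.x k * deriv (P.aa k) r := by
  have hb := (diff_bb h3 P hP k r).hasDerivAt
  have ha := (diff_aa h3 P hP k r).hasDerivAt
  exact ((hb.const_mul (P.y k)).sub (ha.const_mul (P.x k))).deriv

end U16

theorem uDiscA (h1 : UAng) (h2 : UFour2) (h3 : RReg) : UDiscA := by
  intro P h r hP hh hr
  obtain ⟨hHd, -, hhc, -, h2c⟩ := h2 h P.K hh
  have hHc : Continuous (Hh h P.K) := continuous_iff_continuousAt.2 (fun θ => (hHd θ).continuousAt)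
  have hang := h1 h P.K (fun k => P.ph k r) (fun k => P.ps k r) (fun k => deriv (P.ph k) r)
    (fun k => deriv (P.ps k) r) (P.GG r) (deriv P.GG r) (P.q r) P.lam r hh hr.ne'
  have cV1r : Continuous (fun θ => P.V1r h r θ) := by
    unfold Par.V1r
    exact continuous_finsetSum _ (fun k _ => continuous_const.mul (U16.cont_Ck h k))
  have cV1 : Continuous (fun θ => P.V1 h r θ) := by
    unfold Par.V1
    exact continuous_finsetSum _ (fun k _ => continuous_const.mul (U16.cont_Ck h k))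
  have cV2r : Continuous (fun θ => P.V2r h r θ) := by
    unfold Par.V2r
    exact (continuous_finsetSum _ (fun k _ => continuous_const.mul (U16.cont_Sk h k))).add
      (continuous_const.mul hHc)
  have cV2 : Continuous (fun θ => P.V2 h r θ) := by
    unfold Par.V2
    exact (continuous_finsetSum _ (fun k _ => continuous_const.mul (U16.cont_Sk h k))).add
      (continuous_const.mul hHc)
  have cV1t : Continuous (fun θ => P.V1t h r θ) := by
    unfold Par.V1t
    exact continuous_finsetSum _ (fun k _ => (continuous_const.mul (U16.cont_Sk h k)).neg)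
  have cV2t : Continuous (fun θ => P.V2t h r θ) := by
    unfold Par.V2t
    exact (continuous_finsetSum _ (fun k _ => continuous_const.mul (U16.cont_Ck h k))).add
      (continuous_const.mul hhc)
  have iV1r : (∫ θ in (0 : ℝ)..(2 * Real.pi), P.V1r h r θ) = 0 :=
    U16.int_sum_Ck h P.K (fun k => deriv (P.ph k) r)
  have iV1 : (∫ θ in (0 : ℝ)..(2 * Real.pi), P.V1 h r θ) = 0 :=
    U16.int_sum_Ck h P.K (fun k => P.ph k r)
  have ihh : (∫ θ in (0 : ℝ)..(2 * Real.pi), hhigh h P.K θ) = 0 := by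
    have := (h2c 0 (Nat.zero_le _)).1
    simpa using this
  have iV2t : (∫ θ in (0 : ℝ)..(2 * Real.pi), P.V2t h r θ) = 0 := by
    have e : (fun θ => P.V2t h r θ) = fun θ =>
        (∑ k ∈ Finset.Icc 2 P.K, (fun k : ℕ => (k : ℝ) * P.ps k r) k * Ck h k θ)
          + P.GG r * hhigh h P.K θ := rfl
    rw [e, intervalIntegral.integral_add, U16.int_sum_Ck h P.K (fun k : ℕ => (k : ℝ) * P.ps k r),
      intervalIntegral.integral_const_mul, ihh]
    · ring
    · exact (continuous_finsetSum _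
        (fun k _ => continuous_const.mul (U16.cont_Ck h k))).intervalIntegrable _ _
    · exact (continuous_const.mul hhc).intervalIntegrable _ _
  have eden : (fun θ => P.dens h r θ) = fun θ =>
      Q2 (P.q r) P.lam r (P.V1r h r θ) (P.V2r h r θ) (P.V1 h r θ) (P.V2 h r θ)
        (P.V1t h r θ) (P.V2t h r θ)
      + ((deriv P.g r ^ 2 + (P.q r ^ 2 - P.lam) * P.g r ^ 2)
        + (2 * deriv P.g r * P.V1r h r θ + 2 * P.g r * (P.q r ^ 2 - P.lam) * P.V1 h r θ
          + 2 * P.q r * P.g r / r * P.V2t h r θ)) := by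
    funext θ
    unfold Par.dens
    exact U16.Q2_split _ _ _ _ _ _ _ _ _ _ _
  have cQ : Continuous (fun θ =>
      Q2 (P.q r) P.lam r (P.V1r h r θ) (P.V2r h r θ) (P.V1 h r θ) (P.V2 h r θ)
        (P.V1t h r θ) (P.V2t h r θ)) := by
    unfold Q2
    fun_prop
  have cL : Continuous (fun θ => 2 * deriv P.g r * P.V1r h r θ
      + 2 * P.g r * (P.q r ^ 2 - P.lam) * P.V1 h r θ + 2 * P.q r * P.g r / r * P.V2t h r θ) := by
    fun_prop
  have iL : (∫ θ in (0 : ℝ)..(2 * Real.pi), (2 * deriv P.g r * P.V1r h r θ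
      + 2 * P.g r * (P.q r ^ 2 - P.lam) * P.V1 h r θ + 2 * P.q r * P.g r / r * P.V2t h r θ)) = 0 := by
    rw [intervalIntegral.integral_add, intervalIntegral.integral_add,
      intervalIntegral.integral_const_mul, intervalIntegral.integral_const_mul,
      intervalIntegral.integral_const_mul, iV1r, iV1, iV2t]
    · ring
    · exact (by fun_prop : Continuous (fun θ => 2 * deriv P.g r * P.V1r h r θ)).intervalIntegrable _ _
    · exact (by fun_prop : Continuous (fun θ =>
        2 * P.g r * (P.q r ^ 2 - P.lam) * P.V1 h r θ)).intervalIntegrable _ _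
    · exact (by fun_prop : Continuous (fun θ => 2 * deriv P.g r * P.V1r h r θ
        + 2 * P.g r * (P.q r ^ 2 - P.lam) * P.V1 h r θ)).intervalIntegrable _ _
    · exact (by fun_prop : Continuous (fun θ =>
        2 * P.q r * P.g r / r * P.V2t h r θ)).intervalIntegrable _ _
  have iQ : (∫ θ in (0 : ℝ)..(2 * Real.pi),
      Q2 (P.q r) P.lam r (P.V1r h r θ) (P.V2r h r θ) (P.V1 h r θ) (P.V2 h r θ)
        (P.V1t h r θ) (P.V2t h r θ))
      = (∑ k ∈ Finset.Icc 2 P.K, Real.pi * hsq h k * (deriv (P.ph k) r ^ 2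
          + deriv (P.ps k) r ^ 2 + (k * P.ph k r / r + P.q r * P.ps k r) ^ 2
        + (k * P.ps k r / r + P.q r * P.ph k r) ^ 2 - P.lam * (P.ph k r ^ 2 + P.ps k r ^ 2)))
    + (deriv P.GG r ^ 2 + (P.q r ^ 2 - P.lam) * P.GG r ^ 2)
        * (∫ θ in (0 : ℝ)..(2 * Real.pi), Hh h P.K θ ^ 2)
    + P.GG r ^ 2 / r ^ 2 * ∫ θ in (0 : ℝ)..(2 * Real.pi), hhigh h P.K θ ^ 2 := hang
  have hsum : (∑ k ∈ Finset.Icc 2 P.K, Real.pi * hsq h k * (deriv (P.ph k) r ^ 2
          + deriv (P.ps k) r ^ 2 + (k * P.ph k r / r + P.q r * P.ps k r) ^ 2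
        + (k * P.ps k r / r + P.q r * P.ph k r) ^ 2 - P.lam * (P.ph k r ^ 2 + P.ps k r ^ 2)))
      = 2 * Real.pi * (∑ k ∈ Finset.Icc 2 P.K, hsq h k *
        (P.y k ^ 2 * (deriv (P.bb k) r ^ 2 + (qn P.B (P.m + k) r ^ 2 - P.lam) * P.bb k r ^ 2)
          + P.x k ^ 2 * (deriv (P.aa k) r ^ 2
            + (qn P.B (P.m - k) r ^ 2 - P.lam) * P.aa k r ^ 2))) := by
    rw [Finset.mul_sum]
    refine Finset.sum_congr rfl ?_
    intro k _
    have ep : P.ph k r = P.y k * P.bb k r + P.x k * P.aa k r := rfl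
    have es : P.ps k r = P.y k * P.bb k r - P.x k * P.aa k r := rfl
    have eq1 : qn P.B (P.m + k) r = P.q r + k / r := by
      unfold Par.q qn
      push_cast
      ring
    have eq2 : qn P.B (P.m - k) r = P.q r - k / r := by
      unfold Par.q qn
      push_cast
      ring
    rw [U16.deriv_ph h3 P hP, U16.deriv_ps h3 P hP, ep, es, eq1, eq2,
      U16.alg (k : ℝ) (P.q r) r P.lam (P.y k) (P.x k) (P.aa k r) (P.bb k r)
        (deriv (P.aa k) r) (deriv (P.bb k) r)]
    ring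
  have cCL : Continuous (fun θ => (deriv P.g r ^ 2 + (P.q r ^ 2 - P.lam) * P.g r ^ 2)
      + (2 * deriv P.g r * P.V1r h r θ
      + 2 * P.g r * (P.q r ^ 2 - P.lam) * P.V1 h r θ + 2 * P.q r * P.g r / r * P.V2t h r θ)) :=
    continuous_const.add cL
  rw [eden, intervalIntegral.integral_add (cQ.intervalIntegrable _ _)
    (cCL.intervalIntegrable _ _),
    intervalIntegral.integral_add (continuous_const.intervalIntegrable _ _)
    (cL.intervalIntegrable _ _), iL, iQ, hsum, intervalIntegral.integral_const, smul_eq_mul]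
  ring

end Pool.Agent.MFK

end

section

/-! # Fourier splitting: the high part and its primitive (item U2) -/

set_option autoImplicit false

namespace Pool.Agent.MFK

open MeasureTheory Set Filter Topology

namespace U2

theorem sin2 (n : ℤ) : Real.sin ((n : ℝ) * (2 * Real.pi)) = 0 := by
  have := Real.sin_int_mul_pi (n * 2)
  push_cast at this
  rw [← this]
  congr 1
  ring

theorem icos (n : ℤ) (hn : n ≠ 0) :
    (∫ t in (0 : ℝ)..(2 * Real.pi), Real.cos ((n : ℝ) * t)) = 0 := by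
  have hc : (n : ℝ) ≠ 0 := by exact_mod_cast hn
  rw [intervalIntegral.integral_comp_mul_left (f := Real.cos) hc, integral_cos, mul_zero,
    Real.sin_zero, sub_zero, sin2, smul_zero]

theorem isin (n : ℤ) : (∫ t in (0 : ℝ)..(2 * Real.pi), Real.sin ((n : ℝ) * t)) = 0 := by
  rcases eq_or_ne n 0 with rfl | hn
  · simp
  · have hc : (n : ℝ) ≠ 0 := by exact_mod_cast hn
    rw [intervalIntegral.integral_comp_mul_left (f := Real.sin) hc, integral_sin, mul_zero,
      Real.cos_zero, Real.cos_int_mul_two_pi, sub_self, smul_zero]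

theorem ii (f : ℝ → ℝ) (hf : Continuous f) (a b : ℝ) : IntervalIntegrable f volume a b :=
  hf.intervalIntegrable a b

theorem cc (j k : ℕ) (hj : 1 ≤ j) :
    (∫ t in (0 : ℝ)..(2 * Real.pi), Real.cos (j * t) * Real.cos (k * t)) =
      if j = k then Real.pi else 0 := by
  have e : ∀ t : ℝ, Real.cos (j * t) * Real.cos (k * t) =
      (1 / 2) * (Real.cos (((j : ℤ) - k : ℤ) * t) + Real.cos (((j : ℤ) + k : ℤ) * t)) := by
    intro t
    push_cast
    rw [sub_mul, add_mul, Real.cos_sub, Real.cos_add]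
    ring
  simp_rw [e]
  rw [intervalIntegral.integral_const_mul, intervalIntegral.integral_add
    (ii _ (by fun_prop) _ _) (ii _ (by fun_prop) _ _), icos ((j : ℤ) + k) (by omega)]
  split_ifs with h
  · subst h
    simp
  · rw [icos ((j : ℤ) - k) (by omega)]
    ring

theorem ss (j k : ℕ) (hj : 1 ≤ j) :
    (∫ t in (0 : ℝ)..(2 * Real.pi), Real.sin (j * t) * Real.sin (k * t)) =
      if j = k then Real.pi else 0 := by
  have e : ∀ t : ℝ, Real.sin (j * t) * Real.sin (k * t) =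
      (1 / 2) * (Real.cos (((j : ℤ) - k : ℤ) * t) - Real.cos (((j : ℤ) + k : ℤ) * t)) := by
    intro t
    push_cast
    rw [sub_mul, add_mul, Real.cos_sub, Real.cos_add]
    ring
  simp_rw [e]
  rw [intervalIntegral.integral_const_mul, intervalIntegral.integral_sub
    (ii _ (by fun_prop) _ _) (ii _ (by fun_prop) _ _), icos ((j : ℤ) + k) (by omega)]
  split_ifs with h
  · subst h
    simp
  · rw [icos ((j : ℤ) - k) (by omega)]
    ring

theorem sc (j k : ℕ) :
    (∫ t in (0 : ℝ)..(2 * Real.pi), Real.sin (j * t) * Real.cos (k * t)) = 0 := by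
  have e : ∀ t : ℝ, Real.sin (j * t) * Real.cos (k * t) =
      (1 / 2) * (Real.sin (((j : ℤ) - k : ℤ) * t) + Real.sin (((j : ℤ) + k : ℤ) * t)) := by
    intro t
    push_cast
    rw [sub_mul, add_mul, Real.sin_sub, Real.sin_add]
    ring
  simp_rw [e]
  rw [intervalIntegral.integral_const_mul, intervalIntegral.integral_add
    (ii _ (by fun_prop) _ _) (ii _ (by fun_prop) _ _), isin, isin]
  ring

theorem cont_Ck (h : ℝ → ℝ) (k : ℕ) : Continuous (Ck h k) := by
  unfold Ck; fun_prop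

theorem cont_hlow (h : ℝ → ℝ) (K : ℕ) : Continuous (hlow h K) := by
  unfold hlow
  exact continuous_finsetSum _ fun k _ => (cont_Ck h k).const_mul 2

theorem cont_hhigh {h : ℝ → ℝ} (hh : Continuous h) (K : ℕ) : Continuous (hhigh h K) := by
  unfold hhigh
  exact hh.sub (cont_hlow h K)

theorem trig_per (k : ℕ) (θ : ℝ) : Real.cos (k * (θ + 2 * Real.pi)) = Real.cos (k * θ) ∧
    Real.sin (k * (θ + 2 * Real.pi)) = Real.sin (k * θ) := by
  rw [mul_add]
  exact ⟨Real.cos_add_nat_mul_two_pi _ _, Real.sin_add_nat_mul_two_pi _ _⟩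

theorem per_hhigh {h : ℝ → ℝ} (hh : Adm h) (K : ℕ) (θ : ℝ) :
    hhigh h K (θ + 2 * Real.pi) = hhigh h K θ := by
  unfold hhigh hlow Ck
  simp only [hh.per, (trig_per _ θ).1, (trig_per _ θ).2]

theorem orth_cos {h : ℝ → ℝ} (hh : Adm h) {K k : ℕ} (hk : k ≤ K) :
    (∫ θ in (0 : ℝ)..(2 * Real.pi), hhigh h K θ * Real.cos (k * θ)) = 0 := by
  have e : ∀ θ : ℝ, hhigh h K θ * Real.cos (k * θ) = h θ * Real.cos (k * θ) -
      ∑ j ∈ Finset.Icc 1 K, (fA h j * (Real.cos (j * θ) * Real.cos (k * θ)) +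
        fB h j * (Real.sin (j * θ) * Real.cos (k * θ))) := by
    intro θ
    unfold hhigh hlow Ck
    rw [sub_mul, Finset.sum_mul]
    congr 1
    refine Finset.sum_congr rfl fun j _ => ?_
    ring
  have hc := hh.cont
  simp_rw [e]
  rw [intervalIntegral.integral_sub (ii _ (by fun_prop) _ _) (ii _ (by fun_prop) _ _),
    intervalIntegral.integral_finsetSum fun j _ => ii _ (by fun_prop) _ _]
  have e2 : ∀ j ∈ Finset.Icc 1 K, (∫ θ in (0 : ℝ)..(2 * Real.pi),
      (fA h j * (Real.cos (j * θ) * Real.cos (k * θ)) +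
        fB h j * (Real.sin (j * θ) * Real.cos (k * θ)))) =
      if j = k then fA h j * Real.pi else 0 := by
    intro j hj
    rw [intervalIntegral.integral_add (ii _ (by fun_prop) _ _) (ii _ (by fun_prop) _ _),
      intervalIntegral.integral_const_mul, intervalIntegral.integral_const_mul,
      cc j k (Finset.mem_Icc.1 hj).1, sc]
    split_ifs <;> ring
  rw [Finset.sum_congr rfl e2, Finset.sum_ite_eq']
  rcases Nat.eq_zero_or_pos k with rfl | hk0
  · simpa using hh.mean
  · rw [if_pos (Finset.mem_Icc.2 ⟨hk0, hk⟩), fA]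
    have := Real.pi_ne_zero
    field_simp
    ring

theorem orth_sin {h : ℝ → ℝ} (hh : Adm h) {K k : ℕ} (hk : k ≤ K) :
    (∫ θ in (0 : ℝ)..(2 * Real.pi), hhigh h K θ * Real.sin (k * θ)) = 0 := by
  have e : ∀ θ : ℝ, hhigh h K θ * Real.sin (k * θ) = h θ * Real.sin (k * θ) -
      ∑ j ∈ Finset.Icc 1 K, (fA h j * (Real.sin (k * θ) * Real.cos (j * θ)) +
        fB h j * (Real.sin (j * θ) * Real.sin (k * θ))) := by
    intro θ
    unfold hhigh hlow Ck
    rw [sub_mul, Finset.sum_mul]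
    congr 1
    refine Finset.sum_congr rfl fun j _ => ?_
    ring
  have hc := hh.cont
  simp_rw [e]
  rw [intervalIntegral.integral_sub (ii _ (by fun_prop) _ _) (ii _ (by fun_prop) _ _),
    intervalIntegral.integral_finsetSum fun j _ => ii _ (by fun_prop) _ _]
  have e2 : ∀ j ∈ Finset.Icc 1 K, (∫ θ in (0 : ℝ)..(2 * Real.pi),
      (fA h j * (Real.sin (k * θ) * Real.cos (j * θ)) +
        fB h j * (Real.sin (j * θ) * Real.sin (k * θ)))) =
      if j = k then fB h j * Real.pi else 0 := by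
    intro j hj
    rw [intervalIntegral.integral_add (ii _ (by fun_prop) _ _) (ii _ (by fun_prop) _ _),
      intervalIntegral.integral_const_mul, intervalIntegral.integral_const_mul,
      ss j k (Finset.mem_Icc.1 hj).1, sc]
    split_ifs <;> ring
  rw [Finset.sum_congr rfl e2, Finset.sum_ite_eq']
  rcases Nat.eq_zero_or_pos k with rfl | hk0
  · simp
  · rw [if_pos (Finset.mem_Icc.2 ⟨hk0, hk⟩), fB]
    have := Real.pi_ne_zero
    field_simp
    ring

theorem hasDerivAt_Hh {h : ℝ → ℝ} (hh : Continuous h) (K : ℕ) (θ : ℝ) :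
    HasDerivAt (Hh h K) (hhigh h K θ) θ := by
  have hc := cont_hhigh hh K
  have h1 : HasDerivAt (Hprim h K) (hhigh h K θ) θ :=
    intervalIntegral.integral_hasDerivAt_right (ii _ hc _ _)
      hc.aestronglyMeasurable.stronglyMeasurableAtFilter hc.continuousAt
  exact h1.sub_const _

theorem per_Hh {h : ℝ → ℝ} (hh : Adm h) (K : ℕ) (θ : ℝ) :
    Hh h K (θ + 2 * Real.pi) = Hh h K θ := by
  unfold Hh
  congr 1
  unfold Hprim
  have hc := cont_hhigh hh.cont K
  rw [← intervalIntegral.integral_add_adjacent_intervals (ii _ hc 0 θ) (ii _ hc θ _)]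
  have hper : Function.Periodic (hhigh h K) (2 * Real.pi) := per_hhigh hh K
  rw [hper.intervalIntegral_add_eq θ 0, zero_add]
  have := orth_cos hh (Nat.zero_le K)
  simp only [Nat.cast_zero, zero_mul, Real.cos_zero, mul_one] at this
  rw [this, add_zero]

theorem cont_Hh {h : ℝ → ℝ} (hh : Continuous h) (K : ℕ) : Continuous (Hh h K) :=
  continuous_iff_continuousAt.2 fun θ => (hasDerivAt_Hh hh K θ).continuousAt

theorem mean_Hh {h : ℝ → ℝ} (hh : Continuous h) (K : ℕ) :
    (∫ θ in (0 : ℝ)..(2 * Real.pi), Hh h K θ) = 0 := by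
  have hc : Continuous (Hprim h K) := by
    have : Hprim h K = fun θ => Hh h K θ +
        (1 / (2 * Real.pi)) * ∫ s in (0 : ℝ)..(2 * Real.pi), Hprim h K s := by
      funext θ
      unfold Hh
      ring
    rw [this]
    exact (cont_Hh hh K).add continuous_const
  unfold Hh
  rw [intervalIntegral.integral_sub (ii _ hc _ _) (ii _ continuous_const _ _),
    intervalIntegral.integral_const]
  have := Real.pi_ne_zero
  rw [smul_eq_mul, sub_zero]
  field_simp
  ring

theorem byparts {h : ℝ → ℝ} (hh : Adm h) {K k : ℕ} (hk : k ≤ K) (hk0 : 0 < k) :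
    (∫ θ in (0 : ℝ)..(2 * Real.pi), Hh h K θ * Real.cos (k * θ)) = 0 ∧
    (∫ θ in (0 : ℝ)..(2 * Real.pi), Hh h K θ * Real.sin (k * θ)) = 0 := by
  have hkr : (k : ℝ) ≠ 0 := by exact_mod_cast hk0.ne'
  have hc := cont_hhigh hh.cont K
  have hper : Hh h K (2 * Real.pi) = Hh h K 0 := by
    have := per_Hh hh K 0
    rwa [zero_add] at this
  have ds : ∀ θ : ℝ, HasDerivAt (fun t : ℝ => Real.sin (k * t)) (k * Real.cos (k * θ)) θ := by
    intro θ
    have := ((hasDerivAt_id θ).const_mul (k : ℝ)).sin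
    simpa [mul_comm] using this
  have dc : ∀ θ : ℝ, HasDerivAt (fun t : ℝ => Real.cos (k * t)) (-(k * Real.sin (k * θ))) θ := by
    intro θ
    have := ((hasDerivAt_id θ).const_mul (k : ℝ)).cos
    simpa [mul_comm] using this
  have hs2 : Real.sin (k * (2 * Real.pi)) = 0 := by exact_mod_cast sin2 (k : ℤ)
  have hk00 : (k : ℝ) * 0 = 0 := mul_zero _
  have hc2 : Real.cos (k * (2 * Real.pi)) = 1 := Real.cos_nat_mul_two_pi k
  constructor
  · have h1 := intervalIntegral.integral_mul_deriv_eq_deriv_mul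
      (a := 0) (b := 2 * Real.pi) (u := Hh h K) (v := fun t : ℝ => Real.sin (k * t))
      (u' := hhigh h K) (v' := fun θ => k * Real.cos (k * θ))
      (fun θ _ => hasDerivAt_Hh hh.cont K θ) (fun θ _ => ds θ) (ii _ hc _ _)
      (ii _ (by fun_prop) _ _)
    rw [orth_sin hh hk, hs2, hk00, Real.sin_zero, mul_zero, mul_zero, sub_zero, sub_zero] at h1
    have h2 : (∫ θ in (0 : ℝ)..(2 * Real.pi), Hh h K θ * (k * Real.cos (k * θ))) =
        k * ∫ θ in (0 : ℝ)..(2 * Real.pi), Hh h K θ * Real.cos (k * θ) := by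
      rw [← intervalIntegral.integral_const_mul]
      congr 1
      funext θ
      ring
    rw [h2] at h1
    exact (mul_eq_zero.1 h1).resolve_left hkr
  · have h1 := intervalIntegral.integral_mul_deriv_eq_deriv_mul
      (a := 0) (b := 2 * Real.pi) (u := Hh h K) (v := fun t : ℝ => Real.cos (k * t))
      (u' := hhigh h K) (v' := fun θ => -(k * Real.sin (k * θ)))
      (fun θ _ => hasDerivAt_Hh hh.cont K θ) (fun θ _ => dc θ) (ii _ hc _ _)
      (ii _ (by fun_prop) _ _)
    rw [orth_cos hh hk, hc2, hk00, Real.cos_zero, hper, sub_self, sub_zero] at h1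
    have h2 : (∫ θ in (0 : ℝ)..(2 * Real.pi), Hh h K θ * -(k * Real.sin (k * θ))) =
        -k * ∫ θ in (0 : ℝ)..(2 * Real.pi), Hh h K θ * Real.sin (k * θ) := by
      rw [← intervalIntegral.integral_const_mul]
      congr 1
      funext θ
      ring
    rw [h2] at h1
    exact (mul_eq_zero.1 h1).resolve_left (neg_ne_zero.2 hkr)

end U2

theorem uFour2 : UFour2 := by
  intro h K hh
  refine ⟨U2.hasDerivAt_Hh hh.cont K, U2.per_Hh hh K, U2.cont_hhigh hh.cont K, U2.per_hhigh hh K,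
    fun k hk => ⟨U2.orth_cos hh hk, U2.orth_sin hh hk, ?_, ?_⟩⟩
  · rcases Nat.eq_zero_or_pos k with rfl | hk0
    · simpa using U2.mean_Hh hh.cont K
    · exact (U2.byparts hh hk hk0).1
  · rcases Nat.eq_zero_or_pos k with rfl | hk0
    · simp
    · exact (U2.byparts hh hk hk0).2

end Pool.Agent.MFK

end

section

set_option autoImplicit false

namespace Pool.Agent.MFK

open MeasureTheory Set Filter Topology

namespace U22

theorem trig_bound (ρ T : ℝ → ℝ) (η : ℝ) (hη : η ≤ 1 / 2) (hρ : Near ρ η) (hT : Continuous T)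
    (hT1 : ∀ t, |T t| ≤ 1) (hTi : (∫ t in (0 : ℝ)..(2 * Real.pi), T t) = 0)
    (hb : (∫ θ in (0 : ℝ)..(2 * Real.pi), ρ θ ^ 3 * T θ) = 0) :
    |∫ θ in (0 : ℝ)..(2 * Real.pi), (ρ θ ^ 2 - 1) / 2 * T θ|
      ≤ 2 * ∫ θ in (0 : ℝ)..(2 * Real.pi), ((ρ θ ^ 2 - 1) / 2) ^ 2 := by
  have hc := hρ.cont
  have hpi : (0 : ℝ) ≤ 2 * Real.pi := by positivity
  have key : (∫ θ in (0 : ℝ)..(2 * Real.pi), (ρ θ ^ 2 - 1) / 2 * T θ)
      = ∫ θ in (0 : ℝ)..(2 * Real.pi), -(1 / 3) * ((3 / 2 * (ρ θ - 1) ^ 2 + (ρ θ - 1) ^ 3) * T θ) := by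
    have i1 : IntervalIntegrable (fun θ => (1 / 3) * (ρ θ ^ 3 * T θ)) volume 0 (2 * Real.pi) := by
      apply Continuous.intervalIntegrable; fun_prop
    have i2 : IntervalIntegrable (fun θ => (1 / 3) * T θ) volume 0 (2 * Real.pi) := by
      apply Continuous.intervalIntegrable; fun_prop
    have i3 : IntervalIntegrable (fun θ => -(1 / 3) * ((3 / 2 * (ρ θ - 1) ^ 2 + (ρ θ - 1) ^ 3) * T θ))
        volume 0 (2 * Real.pi) := by
      apply Continuous.intervalIntegrable; fun_prop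
    have e : (fun θ => (ρ θ ^ 2 - 1) / 2 * T θ) = fun θ =>
        ((1 / 3) * (ρ θ ^ 3 * T θ) - (1 / 3) * T θ)
          + -(1 / 3) * ((3 / 2 * (ρ θ - 1) ^ 2 + (ρ θ - 1) ^ 3) * T θ) := by
      funext θ; ring
    rw [e, intervalIntegral.integral_add (i1.sub i2) i3, intervalIntegral.integral_sub i1 i2,
      intervalIntegral.integral_const_mul, intervalIntegral.integral_const_mul, hb, hTi]
    ring
  rw [key, ← intervalIntegral.integral_const_mul]
  refine (intervalIntegral.abs_integral_le_integral_abs hpi).trans ?_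
  apply intervalIntegral.integral_mono_on hpi
  · apply Continuous.intervalIntegrable; fun_prop
  · apply Continuous.intervalIntegrable; fun_prop
  intro θ _
  have h1 := hρ.close θ
  set d := ρ θ - 1 with hd
  have hr : ρ θ = 1 + d := by rw [hd]; ring
  have h2 : |d| ≤ 1 / 2 := h1.trans hη
  have h3 := abs_le.mp h2
  rw [abs_mul, abs_mul, hr]
  have h4 : |3 / 2 * d ^ 2 + d ^ 3| ≤ 2 * d ^ 2 := by
    rw [abs_le]
    constructor <;> nlinarith [sq_nonneg d, mul_nonneg (sq_nonneg d) (by linarith [h3.1] : (0:ℝ) ≤ d + 1 / 2),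
      mul_nonneg (sq_nonneg d) (by linarith [h3.2] : (0:ℝ) ≤ 1 / 2 - d)]
  have h5 : |3 / 2 * d ^ 2 + d ^ 3| * |T θ| ≤ 2 * d ^ 2 := by
    calc |3 / 2 * d ^ 2 + d ^ 3| * |T θ| ≤ |3 / 2 * d ^ 2 + d ^ 3| * 1 :=
          mul_le_mul_of_nonneg_left (hT1 θ) (abs_nonneg _)
      _ ≤ 2 * d ^ 2 := by rw [mul_one]; exact h4
  have h6 : |(-(1 / 3) : ℝ)| = 1 / 3 := by rw [abs_neg]; norm_num
  rw [h6]
  have h7 : d ^ 2 * (1 + d / 2) ^ 2 ≥ d ^ 2 * (9 / 16) := by
    apply mul_le_mul_of_nonneg_left _ (sq_nonneg d)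
    nlinarith [h3.1, h3.2]
  have h8 : (((1 + d) ^ 2 - 1) / 2) ^ 2 = d ^ 2 * (1 + d / 2) ^ 2 := by ring
  rw [h8]
  nlinarith [sq_nonneg d]

theorem cos_int : (∫ t in (0 : ℝ)..(2 * Real.pi), Real.cos t) = 0 := by simp
theorem sin_int : (∫ t in (0 : ℝ)..(2 * Real.pi), Real.sin t) = 0 := by simp

end U22

open U22 in
/-- area and barycentre -/
theorem uBary : UBary := by
  refine ⟨4, by norm_num, ?_⟩
  intro ρ η hη hρ
  have hc := hρ.cont
  have hpi : (0 : ℝ) ≤ 2 * Real.pi := by positivity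
  have hη0 : 0 ≤ η := (abs_nonneg _).trans (hρ.close 0)
  constructor
  · refine ⟨by fun_prop, fun θ => by simp only [hρ.per θ], ?_⟩
    have i1 : IntervalIntegrable (fun θ => ρ θ ^ 2 / 2) volume 0 (2 * Real.pi) := by
      apply Continuous.intervalIntegrable; fun_prop
    have i2 : IntervalIntegrable (fun _ : ℝ => (1 / 2 : ℝ)) volume 0 (2 * Real.pi) :=
      intervalIntegrable_const
    have e : (fun θ => (ρ θ ^ 2 - 1) / 2) = fun θ => ρ θ ^ 2 / 2 - 1 / 2 := by
      funext θ; ring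
    rw [e, intervalIntegral.integral_sub i1 i2, intervalIntegral.integral_div, hρ.area]
    simp
    ring
  · set S : ℝ := ∫ θ in (0 : ℝ)..(2 * Real.pi), ((ρ θ ^ 2 - 1) / 2) ^ 2 with hS
    have hS0 : 0 ≤ S := intervalIntegral.integral_nonneg hpi (fun θ _ => sq_nonneg _)
    have b1 := trig_bound ρ Real.cos η hη hρ Real.continuous_cos (fun t => Real.abs_cos_le_one t)
      cos_int hρ.bar1
    have b2 := trig_bound ρ Real.sin η hη hρ Real.continuous_sin (fun t => Real.abs_sin_le_one t)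
      sin_int hρ.bar2
    have hS7 : S ≤ 7 * η := by
      have : S ≤ ∫ θ in (0 : ℝ)..(2 * Real.pi), η := by
        apply intervalIntegral.integral_mono_on hpi
        · apply Continuous.intervalIntegrable; fun_prop
        · exact intervalIntegrable_const
        intro θ _
        have h1 := hρ.close θ
        set d := ρ θ - 1 with hd
        have hr : ρ θ = 1 + d := by rw [hd]; ring
        rw [hr]
        have h2 : |d| ≤ 1 / 2 := h1.trans hη
        have h3 := abs_le.mp h2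
        have h8 : (((1 + d) ^ 2 - 1) / 2) ^ 2 = d ^ 2 * (1 + d / 2) ^ 2 := by ring
        rw [h8]
        have h9 : d ^ 2 ≤ η ^ 2 := sq_le_sq' (by linarith [(abs_le.mp h1).1]) (abs_le.mp h1).2
        have h10 : (1 + d / 2) ^ 2 ≤ 2 := by nlinarith [h3.1, h3.2]
        calc d ^ 2 * (1 + d / 2) ^ 2 ≤ η ^ 2 * 2 :=
              mul_le_mul h9 h10 (sq_nonneg _) (sq_nonneg _)
          _ ≤ η := by nlinarith
      refine this.trans ?_
      simp only [intervalIntegral.integral_const, sub_zero, smul_eq_mul]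
      nlinarith [Real.pi_lt_d2, Real.pi_pos]
    have hpi1 : 1 / Real.pi ≤ 1 / 2 := by
      apply one_div_le_one_div_of_le (by norm_num)
      linarith [Real.pi_gt_three]
    have hpi0 : 0 ≤ 1 / Real.pi := by positivity
    have fa : |fA (fun s => (ρ s ^ 2 - 1) / 2) 1| ≤ S := by
      unfold fA
      simp only [Nat.cast_one, one_mul]
      rw [abs_mul, abs_of_nonneg hpi0]
      calc 1 / Real.pi * |∫ θ in (0 : ℝ)..(2 * Real.pi), (ρ θ ^ 2 - 1) / 2 * Real.cos θ|
          ≤ 1 / 2 * (2 * S) := mul_le_mul hpi1 b1 (abs_nonneg _) (by norm_num)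
        _ = S := by ring
    have fb : |fB (fun s => (ρ s ^ 2 - 1) / 2) 1| ≤ S := by
      unfold fB
      simp only [Nat.cast_one, one_mul]
      rw [abs_mul, abs_of_nonneg hpi0]
      calc 1 / Real.pi * |∫ θ in (0 : ℝ)..(2 * Real.pi), (ρ θ ^ 2 - 1) / 2 * Real.sin θ|
          ≤ 1 / 2 * (2 * S) := mul_le_mul hpi1 b2 (abs_nonneg _) (by norm_num)
        _ = S := by ring
    have fa2 : (fA (fun s => (ρ s ^ 2 - 1) / 2) 1) ^ 2 ≤ S ^ 2 :=
      sq_le_sq' (abs_le.mp fa).1 (abs_le.mp fa).2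
    have fb2 : (fB (fun s => (ρ s ^ 2 - 1) / 2) 1) ^ 2 ≤ S ^ 2 :=
      sq_le_sq' (abs_le.mp fb).1 (abs_le.mp fb).2
    unfold hsq
    nlinarith [mul_nonneg hS0 (by linarith : (0:ℝ) ≤ 7 * η - S), mul_nonneg hS0 hη0]

end Pool.Agent.MFK

end

section

set_option autoImplicit false

namespace Pool.Agent.MFK

open MeasureTheory Set Filter Topology

namespace U25

theorem eden_nonneg (B : ℝ) (u : ℝ × ℝ → ℂ) (x : ℝ × ℝ) : 0 ≤ eden B u x := by
  unfold eden; positivity

theorem eden_smul (B : ℝ) (u : ℝ × ℝ → ℂ) (x : ℝ × ℝ) (c : ℝ) (hu : DifferentiableAt ℝ u x) :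
    eden B (fun y => c • u y) x = c ^ 2 * eden B u x := by
  unfold eden
  have h : fderiv ℝ (fun y => c • u y) x = c • fderiv ℝ u x := fderiv_fun_const_smul hu c
  rw [h]
  simp only [_root_.smul_apply, Complex.real_smul]
  have e1 : (c : ℂ) * (fderiv ℝ u x) (1, 0) - Complex.I * ((-(B * x.2 / 2) : ℝ) : ℂ) * ((c : ℂ) * u x)
      = (c : ℂ) * ((fderiv ℝ u x) (1, 0) - Complex.I * ((-(B * x.2 / 2) : ℝ) : ℂ) * u x) := by ring
  have e2 : (c : ℂ) * (fderiv ℝ u x) (0, 1) - Complex.I * ((B * x.1 / 2 : ℝ) : ℂ) * ((c : ℂ) * u x)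
      = (c : ℂ) * ((fderiv ℝ u x) (0, 1) - Complex.I * ((B * x.1 / 2 : ℝ) : ℂ) * u x) := by ring
  rw [e1, e2, norm_mul, norm_mul, mul_pow, mul_pow, Complex.norm_real, Real.norm_eq_abs, sq_abs]
  ring

end U25

open U25 in
/-- Rayleigh quotient -/
theorem uRay : URay := by
  intro B Ω u hu hm ho h2 he hN
  set N : ℝ := ∫ x in Ω, ‖u x‖ ^ 2 with hNdef
  set c : ℝ := (Real.sqrt N)⁻¹ with hc
  have hc2 : c ^ 2 = N⁻¹ := by
    rw [hc, inv_pow, Real.sq_sqrt hN.le]
  have hnorm : (fun x => ‖c • u x‖ ^ 2) = fun x => c ^ 2 * ‖u x‖ ^ 2 := by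
    funext x
    rw [norm_smul, mul_pow, Real.norm_eq_abs, sq_abs]
  have heq : EqOn (fun x => eden B (fun y => c • u y) x) (fun x => c ^ 2 * eden B u x) Ω := by
    intro x hx
    exact eden_smul B u x c ((hu.differentiableOn (by norm_num)).differentiableAt (ho.mem_nhds hx))
  unfold lamN
  apply csInf_le
  · refine ⟨0, ?_⟩
    rintro q ⟨w, _, _, _, _, rfl⟩
    exact setIntegral_nonneg hm (fun x _ => eden_nonneg B w x)
  · refine ⟨fun y => c • u y, hu.const_smul c, ?_, ?_, ?_, ?_⟩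
    · rw [hnorm]; exact h2.const_mul _
    · have h3 : IntegrableOn (fun x => c ^ 2 * eden B u x) Ω := he.const_mul (c ^ 2)
      exact h3.congr_fun heq.symm hm
    · rw [hnorm, integral_const_mul, ← hNdef, hc2, inv_mul_cancel₀ hN.ne']
    · rw [setIntegral_congr_fun hm heq, integral_const_mul, hc2]
      field_simp

end Pool.Agent.MFK

end

section

/-! # Wirtinger inequality for the high modes -/

set_option autoImplicit false

namespace Pool.Agent.MFK

open MeasureTheory Set Filter Topology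

namespace U3

/-- integration by parts -/
lemma fc_deriv (V W : ℝ → ℝ) (hd : ∀ θ, HasDerivAt V (W θ) θ) (hc : Continuous W)
    (hp : ∀ θ, V (θ + 2 * Real.pi) = V θ) (n : ℤ) :
    fc (fun θ => (W θ : ℂ)) n = Complex.I * n * fc (fun θ => (V θ : ℂ)) n := by
  have hVc : Continuous V := continuous_iff_continuousAt.2 fun θ => (hd θ).continuousAt
  have hu : ∀ x : ℝ, HasDerivAt (fun θ : ℝ => (V θ : ℂ)) ((W x : ℝ) : ℂ) x := fun x =>
    (hd x).ofReal_comp
  have hv : ∀ x : ℝ, HasDerivAt (fun θ : ℝ => Complex.exp (-(Complex.I * n * θ)))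
      (-(Complex.I * n) * Complex.exp (-(Complex.I * n * x))) x := by
    intro x
    have h1 : HasDerivAt (fun θ : ℝ => -(Complex.I * n * (θ : ℂ))) (-(Complex.I * n)) x := by
      have h0 : HasDerivAt (fun θ : ℝ => (θ : ℂ)) 1 x := by
        have := (hasDerivAt_id x).ofReal_comp
        simpa using this
      have h00 := h0.const_mul (-(Complex.I * n))
      rw [mul_one] at h00
      refine h00.congr_of_eventuallyEq (Filter.Eventually.of_forall fun y => ?_)
      simp only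
      ring
    have h2 := h1.cexp
    convert h2 using 1
    ring
  have hparts := intervalIntegral.integral_deriv_mul_eq_sub (a := 0) (b := 2 * Real.pi)
    (u := fun θ : ℝ => (V θ : ℂ)) (v := fun θ : ℝ => Complex.exp (-(Complex.I * n * θ)))
    (u' := fun θ => ((W θ : ℝ) : ℂ))
    (v' := fun θ : ℝ => -(Complex.I * n) * Complex.exp (-(Complex.I * n * θ)))
    (fun x _ => hu x) (fun x _ => hv x)
    ((Complex.continuous_ofReal.comp hc).intervalIntegrable _ _)
    (Continuous.intervalIntegrable (by fun_prop) _ _)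
  have hbd : Complex.exp (-(Complex.I * n * ((2 * Real.pi : ℝ) : ℂ))) = 1 := by
    rw [Complex.exp_eq_one_iff]
    refine ⟨-n, ?_⟩
    push_cast
    ring
  have hb2 : V (2 * Real.pi) = V 0 := by
    have := hp 0
    rwa [zero_add] at this
  have hr : ((V (2 * Real.pi) : ℝ) : ℂ) * Complex.exp (-(Complex.I * n * ((2 * Real.pi : ℝ) : ℂ))) -
      ((V 0 : ℝ) : ℂ) * Complex.exp (-(Complex.I * n * ((0 : ℝ) : ℂ))) = 0 := by
    rw [hbd, hb2]
    simp
  rw [hr] at hparts
  have hsplit : (∫ x in (0 : ℝ)..(2 * Real.pi), ((W x : ℝ) : ℂ) * Complex.exp (-(Complex.I * n * x)) +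
        ((V x : ℝ) : ℂ) * (-(Complex.I * n) * Complex.exp (-(Complex.I * n * x)))) =
      (∫ x in (0 : ℝ)..(2 * Real.pi), ((W x : ℝ) : ℂ) * Complex.exp (-(Complex.I * n * x))) +
      -(Complex.I * n) * ∫ x in (0 : ℝ)..(2 * Real.pi), ((V x : ℝ) : ℂ) *
        Complex.exp (-(Complex.I * n * x)) := by
    rw [intervalIntegral.integral_add, ← intervalIntegral.integral_const_mul]
    · congr 1
      apply intervalIntegral.integral_congr
      intro x _
      simp only
      ring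
    · exact Continuous.intervalIntegrable (by fun_prop) _ _
    · exact Continuous.intervalIntegrable (by fun_prop) _ _
  rw [hsplit] at hparts
  unfold fc
  linear_combination ((1 / (2 * Real.pi) : ℝ) : ℂ) * hparts

/-- vanishing low coefficients -/
lemma fc_low (V : ℝ → ℝ) (hc : Continuous V) (K : ℕ)
    (hz : ∀ k ≤ K, (∫ θ in (0 : ℝ)..(2 * Real.pi), V θ * Real.cos (k * θ)) = 0 ∧
      (∫ θ in (0 : ℝ)..(2 * Real.pi), V θ * Real.sin (k * θ)) = 0) (n : ℤ) (hn : n.natAbs ≤ K) :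
    fc (fun θ => (V θ : ℂ)) n = 0 := by
  obtain ⟨h1, h2⟩ := hz n.natAbs hn
  have h3 : ∀ (σ : ℝ), (∫ θ in (0 : ℝ)..(2 * Real.pi), ((V θ : ℝ) : ℂ) *
      (((Real.cos (n.natAbs * θ) : ℝ) : ℂ) + (σ : ℂ) * Complex.I *
        ((Real.sin (n.natAbs * θ) : ℝ) : ℂ))) = 0 := by
    intro σ
    have e1 : ∀ θ : ℝ, ((V θ : ℝ) : ℂ) *
        (((Real.cos (n.natAbs * θ) : ℝ) : ℂ) + (σ : ℂ) * Complex.I *
          ((Real.sin (n.natAbs * θ) : ℝ) : ℂ)) =
        ((V θ * Real.cos (n.natAbs * θ) : ℝ) : ℂ) + ((σ : ℂ) * Complex.I) *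
          ((V θ * Real.sin (n.natAbs * θ) : ℝ) : ℂ) := by
      intro θ
      push_cast
      ring
    simp_rw [e1]
    rw [intervalIntegral.integral_add, intervalIntegral.integral_const_mul,
      intervalIntegral.integral_ofReal, intervalIntegral.integral_ofReal, h1, h2]
    · simp
    · exact Continuous.intervalIntegrable (by fun_prop) _ _
    · exact Continuous.intervalIntegrable (by fun_prop) _ _
  have hexp : ∀ θ : ℝ, Complex.exp (-(Complex.I * n * θ)) =
      ((Real.cos (n.natAbs * θ) : ℝ) : ℂ) + ((-(n.sign : ℝ) : ℝ) : ℂ) * Complex.I *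
          ((Real.sin (n.natAbs * θ) : ℝ) : ℂ) := by
    intro θ
    have hn2 : (n : ℂ) = (n.sign : ℂ) * (n.natAbs : ℂ) := by
      rw [← Int.cast_natCast n.natAbs, ← Int.cast_mul, Int.sign_mul_natAbs]
    have h5 : -(Complex.I * n * θ) = ((-(n.sign : ℝ) * (n.natAbs * θ) : ℝ) : ℂ) * Complex.I := by
      rw [hn2]
      push_cast
      ring
    rw [h5, Complex.exp_mul_I, ← Complex.ofReal_cos, ← Complex.ofReal_sin]
    rcases lt_trichotomy n 0 with h | h | h
    · rw [Int.sign_eq_neg_one_of_neg h]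
      simp
      try ring
    · subst h
      simp
    · rw [Int.sign_eq_one_of_pos h]
      simp
      ring
  unfold fc
  simp_rw [hexp]
  rw [h3, mul_zero]

end U3

/-- [U3] -/
theorem uFour3 (h : UFour2) (h2 : LPars) : UFour3 := by
  intro g K hg
  obtain ⟨hd, hp, hc, hpw, hz⟩ := h g K hg
  have hVc : Continuous (Hh g K) := continuous_iff_continuousAt.2 fun θ => (hd θ).continuousAt
  have sV := h2 (fun θ => (Hh g K θ : ℂ)) (by fun_prop) (fun θ => by rw [hp θ])
  have sW := h2 (fun θ => (hhigh g K θ : ℂ)) (by fun_prop) (fun θ => by rw [hpw θ])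
  have nV : ∀ x : ℝ, ‖(x : ℂ)‖ ^ 2 = x ^ 2 := by
    intro x
    rw [Complex.norm_real, Real.norm_eq_abs, sq_abs]
  simp_rw [nV] at sV sW
  refine hasSum_le (fun n : ℤ => ?_) (sV.mul_left (((K : ℝ) + 1) ^ 2)) sW
  have h3 : fc (fun θ => (hhigh g K θ : ℂ)) n = Complex.I * n * fc (fun θ => (Hh g K θ : ℂ)) n :=
    U3.fc_deriv (Hh g K) (hhigh g K) hd hc hp n
  have h4 : ‖fc (fun θ => (hhigh g K θ : ℂ)) n‖ ^ 2 =
      (n : ℝ) ^ 2 * ‖fc (fun θ => (Hh g K θ : ℂ)) n‖ ^ 2 := by
    rw [h3, norm_mul, norm_mul, Complex.norm_I, one_mul, mul_pow, Complex.norm_intCast, sq_abs]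
  rw [h4]
  by_cases hn : n.natAbs ≤ K
  · have h5 := U3.fc_low (Hh g K) hVc K (fun k hk => ⟨(hz k hk).2.2.1, (hz k hk).2.2.2⟩) n hn
    rw [h5]
    simp
  · have h6 : ((K : ℝ) + 1) ^ 2 ≤ (n : ℝ) ^ 2 := by
      have h7 : K + 1 ≤ n.natAbs := by omega
      have h8 : (n : ℝ) ^ 2 = ((n.natAbs : ℕ) : ℝ) ^ 2 := by
        rw [Nat.cast_natAbs]
        push_cast
        rw [sq_abs]
      rw [h8]
      have h9 : ((K : ℝ) + 1) ≤ (n.natAbs : ℝ) := by exact_mod_cast h7
      gcongr
    have h10 : 0 ≤ 2 * Real.pi * ‖fc (fun θ => (Hh g K θ : ℂ)) n‖ ^ 2 := by positivity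
    nlinarith

end Pool.Agent.MFK

end

section

set_option autoImplicit false

namespace Pool.Agent.MFK

open MeasureTheory Set Filter Topology

namespace U4

theorem abs_Ck_le (h : ℝ → ℝ) (k : ℕ) (θ : ℝ) : |Ck h k θ| ≤ Real.sqrt (hsq h k) := by
  apply Real.abs_le_sqrt
  unfold Ck hsq
  have e := Real.sin_sq_add_cos_sq (k * θ)
  nlinarith [sq_nonneg (fA h k * Real.sin (k * θ) - fB h k * Real.cos (k * θ)), e,
    sq_nonneg (fA h k), sq_nonneg (fB h k)]

theorem abs_Sk_le (h : ℝ → ℝ) (k : ℕ) (θ : ℝ) : |Sk h k θ| ≤ Real.sqrt (hsq h k) := by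
  apply Real.abs_le_sqrt
  unfold Sk hsq
  have e := Real.sin_sq_add_cos_sq (k * θ)
  nlinarith [sq_nonneg (fA h k * Real.cos (k * θ) + fB h k * Real.sin (k * θ)), e,
    sq_nonneg (fA h k), sq_nonneg (fB h k)]

theorem hsq_nonneg (h : ℝ → ℝ) (k : ℕ) : 0 ≤ hsq h k := by
  unfold hsq
  positivity

theorem l1_le_l2 (f : ℝ → ℝ) (hf : Continuous f) :
    (∫ t in (0 : ℝ)..(2 * Real.pi), |f t|)
      ≤ 4 * Real.sqrt (∫ t in (0 : ℝ)..(2 * Real.pi), f t ^ 2) := by
  set I := ∫ t in (0 : ℝ)..(2 * Real.pi), |f t| with hI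
  set S := ∫ t in (0 : ℝ)..(2 * Real.pi), f t ^ 2 with hS
  have hpi := Real.pi_pos
  have hpi2 : Real.pi < 3.15 := Real.pi_lt_d2
  have hS0 : 0 ≤ S := intervalIntegral.integral_nonneg (by positivity) fun t _ => sq_nonneg _
  have key : ∀ c : ℝ, 0 < c → I ≤ (S / c + 2 * Real.pi * c) / 2 := by
    intro c hc
    have h1 : I ≤ ∫ t in (0 : ℝ)..(2 * Real.pi), (f t ^ 2 / c + c) / 2 := by
      apply intervalIntegral.integral_mono_on (by positivity) (hf.abs.intervalIntegrable _ _)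
        (Continuous.intervalIntegrable (by fun_prop) _ _)
      intro t _
      rw [le_div_iff₀ (by norm_num), ← sub_nonneg]
      have : f t ^ 2 / c + c - |f t| * 2 = (|f t| - c) ^ 2 / c := by
        field_simp
        rw [← sq_abs (f t)]
        ring
      rw [this]
      positivity
    have h2 : (∫ t in (0 : ℝ)..(2 * Real.pi), (f t ^ 2 / c + c) / 2) = (S / c + 2 * Real.pi * c) / 2 := by
      rw [intervalIntegral.integral_div, intervalIntegral.integral_add
        (Continuous.intervalIntegrable (by fun_prop) _ _) (by simp), intervalIntegral.integral_div,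
        intervalIntegral.integral_const, smul_eq_mul, sub_zero]
    rw [h2] at h1
    exact h1
  rcases hS0.eq_or_lt with h0 | h0
  · rw [← h0, Real.sqrt_zero, mul_zero]
    by_contra hneg
    push Not at hneg
    have h3 := key (I / (2 * Real.pi)) (by positivity)
    rw [← h0, zero_div, zero_add] at h3
    have h4 : 2 * Real.pi * (I / (2 * Real.pi)) = I := by field_simp
    rw [h4] at h3
    linarith
  · have hs : 0 < Real.sqrt S := Real.sqrt_pos.2 h0
    have h3 := key (Real.sqrt S) hs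
    have h4 : S / Real.sqrt S = Real.sqrt S := by
      rw [div_eq_iff hs.ne']
      exact (Real.mul_self_sqrt hS0).symm
    rw [h4] at h3
    nlinarith

theorem abs_sub_le (H f : ℝ → ℝ) (hf : Continuous f) (hd : ∀ θ, HasDerivAt H (f θ) θ)
    {s t : ℝ} (hs : s ∈ Icc (0 : ℝ) (2 * Real.pi)) (ht : t ∈ Icc (0 : ℝ) (2 * Real.pi)) :
    |H t - H s| ≤ ∫ u in (0 : ℝ)..(2 * Real.pi), |f u| := by
  have e : H t - H s = ∫ u in s..t, f u :=
    (intervalIntegral.integral_eq_sub_of_hasDerivAt (fun u _ => hd u) (hf.intervalIntegrable _ _)).symm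
  rw [e, ← Real.norm_eq_abs]
  refine (intervalIntegral.norm_integral_le_integral_norm_uIoc).trans ?_
  rw [intervalIntegral.integral_of_le (by positivity)]
  simp only [Real.norm_eq_abs]
  apply setIntegral_mono_set
  · exact (hf.abs.integrableOn_Icc (a := 0) (b := 2 * Real.pi)).mono_set Ioc_subset_Icc_self
  · exact Eventually.of_forall fun u => abs_nonneg _
  · refine HasSubset.Subset.eventuallyLE ?_
    intro u hu
    rw [mem_uIoc] at hu
    rcases hu with ⟨h1, h2⟩ | ⟨h1, h2⟩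
    · exact ⟨lt_of_le_of_lt hs.1 h1, h2.trans ht.2⟩
    · exact ⟨lt_of_le_of_lt ht.1 h1, h2.trans hs.2⟩

theorem abs_H_le (H f : ℝ → ℝ) (hf : Continuous f) (hd : ∀ θ, HasDerivAt H (f θ) θ)
    (hp : ∀ θ, H (θ + 2 * Real.pi) = H θ)
    (hm : (∫ θ in (0 : ℝ)..(2 * Real.pi), H θ) = 0) (θ : ℝ) :
    |H θ| ≤ ∫ u in (0 : ℝ)..(2 * Real.pi), |f u| := by
  have hpi := Real.pi_pos
  have hper : Function.Periodic H (2 * Real.pi) := hp
  obtain ⟨y, hy, hyx⟩ := hper.exists_mem_Ico₀ (by positivity : (0 : ℝ) < 2 * Real.pi) θ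
  rw [hyx]
  have hH : Continuous H := continuous_iff_continuousAt.2 fun x => (hd x).continuousAt
  have hy' : y ∈ Icc (0 : ℝ) (2 * Real.pi) := Ico_subset_Icc_self hy
  set J := ∫ u in (0 : ℝ)..(2 * Real.pi), |f u| with hJ
  have e : 2 * Real.pi * H y = ∫ s in (0 : ℝ)..(2 * Real.pi), (H y - H s) := by
    rw [intervalIntegral.integral_sub (by simp) (hH.intervalIntegrable _ _), hm,
      intervalIntegral.integral_const, smul_eq_mul]
    ring
  have h1 : ‖∫ s in (0 : ℝ)..(2 * Real.pi), (H y - H s)‖ ≤ J * |2 * Real.pi - 0| := by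
    apply intervalIntegral.norm_integral_le_of_norm_le_const
    intro s hs
    rw [Real.norm_eq_abs]
    rw [uIoc_of_le (by positivity)] at hs
    exact abs_sub_le H f hf hd ⟨hs.1.le, hs.2⟩ hy'
  rw [← e, sub_zero, Real.norm_eq_abs, abs_mul, abs_of_pos (by positivity : (0 : ℝ) < 2 * Real.pi)] at h1
  rw [mul_comm J] at h1
  exact le_of_mul_le_mul_left h1 (by positivity)

end U4

theorem uFour5 (h1 : UFour1) (h2 : UFour2) : UFour5 := by
  intro h K hA
  have hpi := Real.pi_pos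
  have hpi3 := Real.pi_gt_three
  refine ⟨fun k θ => ⟨U4.abs_Ck_le h k θ, U4.abs_Sk_le h k θ⟩, fun k hk => ?_, fun θ => ?_⟩
  · rw [h1 h k hA]
    have e1 : hsq h k ≤ ∑ j ∈ Finset.Icc 1 k, hsq h j :=
      Finset.single_le_sum (fun j _ => U4.hsq_nonneg h j) (Finset.mem_Icc.2 ⟨hk, le_refl k⟩)
    have e2 : 0 ≤ ∫ θ in (0 : ℝ)..(2 * Real.pi), hhigh h k θ ^ 2 :=
      intervalIntegral.integral_nonneg (by positivity) fun t _ => sq_nonneg _
    have e3 := U4.hsq_nonneg h k
    nlinarith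
  · obtain ⟨hd, hp, hc, -, hz⟩ := h2 h K hA
    have hz0 := (hz 0 (Nat.zero_le _)).2.2.1
    simp only [Nat.cast_zero, zero_mul, Real.cos_zero, mul_one] at hz0
    exact (U4.abs_H_le _ _ hc hd hp hz0 θ).trans (U4.l1_le_l2 _ hc)

end Pool.Agent.MFK

end

section

/-! # Item U5: angular integration -/

set_option autoImplicit false

namespace Pool.Agent.MFK

open MeasureTheory Set Filter Topology

namespace U5

lemma int_cos (n : ℤ) : (∫ t in (0 : ℝ)..(2 * Real.pi), Real.cos (n * t)) =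
    if n = 0 then 2 * Real.pi else 0 := by
  split_ifs with hn
  · subst hn
    simp
  · have hn' : (n : ℝ) ≠ 0 := by exact_mod_cast hn
    rw [intervalIntegral.integral_comp_mul_left (fun x => Real.cos x) hn', integral_cos]
    have h1 : Real.sin ((n : ℝ) * (2 * Real.pi)) = 0 := by
      have := Real.sin_int_mul_pi (2 * n)
      push_cast at this
      rw [← this]
      congr 1
      ring
    rw [h1]
    simp

lemma int_sin (n : ℤ) : (∫ t in (0 : ℝ)..(2 * Real.pi), Real.sin (n * t)) = 0 := by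
  by_cases hn : n = 0
  · subst hn
    simp
  · have hn' : (n : ℝ) ≠ 0 := by exact_mod_cast hn
    rw [intervalIntegral.integral_comp_mul_left (fun x => Real.sin x) hn', integral_sin]
    have h1 : Real.cos ((n : ℝ) * (2 * Real.pi)) = 1 := Real.cos_int_mul_two_pi n
    rw [h1]
    simp

lemma ii {f : ℝ → ℝ} (hf : Continuous f) : IntervalIntegrable f volume 0 (2 * Real.pi) :=
  hf.intervalIntegrable _ _

lemma int_cc (k j : ℕ) (hk : 1 ≤ k) : (∫ t in (0 : ℝ)..(2 * Real.pi), Real.cos (k * t) * Real.cos (j * t)) =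
    if k = j then Real.pi else 0 := by
  have h : ∀ t : ℝ, Real.cos (k * t) * Real.cos (j * t) =
      (1 / 2) * Real.cos (((k : ℤ) - (j : ℤ) : ℤ) * t) + (1 / 2) * Real.cos (((k : ℤ) + (j : ℤ) : ℤ) * t) := by
    intro t
    push_cast
    rw [sub_mul, add_mul, Real.cos_sub, Real.cos_add]
    ring
  simp_rw [h]
  rw [intervalIntegral.integral_add (ii (by fun_prop)) (ii (by fun_prop)),
    intervalIntegral.integral_const_mul, intervalIntegral.integral_const_mul, int_cos, int_cos]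
  have h2 : ((k : ℤ) + (j : ℤ)) ≠ 0 := by omega
  rw [if_neg h2]
  split_ifs with h3 h4 h4
  · ring
  · omega
  · omega
  · ring

lemma int_ss (k j : ℕ) (hk : 1 ≤ k) : (∫ t in (0 : ℝ)..(2 * Real.pi), Real.sin (k * t) * Real.sin (j * t)) =
    if k = j then Real.pi else 0 := by
  have h : ∀ t : ℝ, Real.sin (k * t) * Real.sin (j * t) =
      (1 / 2) * Real.cos (((k : ℤ) - (j : ℤ) : ℤ) * t) - (1 / 2) * Real.cos (((k : ℤ) + (j : ℤ) : ℤ) * t) := by
    intro t
    push_cast
    rw [sub_mul, add_mul, Real.cos_sub, Real.cos_add]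
    ring
  simp_rw [h]
  rw [intervalIntegral.integral_sub (ii (by fun_prop)) (ii (by fun_prop)),
    intervalIntegral.integral_const_mul, intervalIntegral.integral_const_mul, int_cos, int_cos]
  have h2 : ((k : ℤ) + (j : ℤ)) ≠ 0 := by omega
  rw [if_neg h2]
  split_ifs with h3 h4 h4
  · ring
  · omega
  · omega
  · ring

lemma int_sc (k j : ℕ) : (∫ t in (0 : ℝ)..(2 * Real.pi), Real.sin (k * t) * Real.cos (j * t)) = 0 := by
  have h : ∀ t : ℝ, Real.sin (k * t) * Real.cos (j * t) =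
      (1 / 2) * Real.sin (((k : ℤ) + (j : ℤ) : ℤ) * t) + (1 / 2) * Real.sin (((k : ℤ) - (j : ℤ) : ℤ) * t) := by
    intro t
    push_cast
    rw [sub_mul, add_mul, Real.sin_sub, Real.sin_add]
    ring
  simp_rw [h]
  rw [intervalIntegral.integral_add (ii (by fun_prop)) (ii (by fun_prop)),
    intervalIntegral.integral_const_mul, intervalIntegral.integral_const_mul, int_sin, int_sin]
  ring

/-- the basic four term integral -/
lemma int_four (k j : ℕ) (hk : 1 ≤ k) (a b c d : ℝ) :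
    (∫ t in (0 : ℝ)..(2 * Real.pi), (a * Real.cos (k * t) + b * Real.sin (k * t)) *
      (c * Real.cos (j * t) + d * Real.sin (j * t))) =
    if k = j then Real.pi * (a * c + b * d) else 0 := by
  have h : ∀ t : ℝ, (a * Real.cos (k * t) + b * Real.sin (k * t)) *
      (c * Real.cos (j * t) + d * Real.sin (j * t)) =
      ((a * c) * (Real.cos (k * t) * Real.cos (j * t)) + (b * d) * (Real.sin (k * t) * Real.sin (j * t))) +
      ((b * c) * (Real.sin (k * t) * Real.cos (j * t)) + (a * d) * (Real.sin (j * t) * Real.cos (k * t))) := by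
    intro t
    ring
  simp_rw [h]
  rw [intervalIntegral.integral_add (ii (by fun_prop)) (ii (by fun_prop)),
    intervalIntegral.integral_add (ii (by fun_prop)) (ii (by fun_prop)),
    intervalIntegral.integral_add (ii (by fun_prop)) (ii (by fun_prop)),
    intervalIntegral.integral_const_mul, intervalIntegral.integral_const_mul,
    intervalIntegral.integral_const_mul, intervalIntegral.integral_const_mul,
    int_cc k j hk, int_ss k j hk, int_sc, int_sc]
  split_ifs <;> ring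

lemma cont_Ck (h : ℝ → ℝ) (k : ℕ) : Continuous (Ck h k) := by
  unfold Ck
  fun_prop

lemma cont_Sk (h : ℝ → ℝ) (k : ℕ) : Continuous (Sk h k) := by
  unfold Sk
  fun_prop

lemma int_CC (h : ℝ → ℝ) (k j : ℕ) (hk : 1 ≤ k) :
    (∫ t in (0 : ℝ)..(2 * Real.pi), Ck h k t * Ck h j t) = if k = j then Real.pi * hsq h k else 0 := by
  have h1 : ∀ t : ℝ, Ck h k t * Ck h j t =
      (fA h k / 2 * Real.cos (k * t) + fB h k / 2 * Real.sin (k * t)) *
      (fA h j / 2 * Real.cos (j * t) + fB h j / 2 * Real.sin (j * t)) := by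
    intro t
    unfold Ck
    ring
  simp_rw [h1]
  rw [int_four k j hk]
  split_ifs with hkj
  · subst hkj
    unfold hsq
    ring
  · rfl

lemma int_SS (h : ℝ → ℝ) (k j : ℕ) (hk : 1 ≤ k) :
    (∫ t in (0 : ℝ)..(2 * Real.pi), Sk h k t * Sk h j t) = if k = j then Real.pi * hsq h k else 0 := by
  have h1 : ∀ t : ℝ, Sk h k t * Sk h j t =
      (-(fB h k / 2) * Real.cos (k * t) + fA h k / 2 * Real.sin (k * t)) *
      (-(fB h j / 2) * Real.cos (j * t) + fA h j / 2 * Real.sin (j * t)) := by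
    intro t
    unfold Sk
    ring
  simp_rw [h1]
  rw [int_four k j hk]
  split_ifs with hkj
  · subst hkj
    unfold hsq
    ring
  · rfl

/-- integral of a square -/
lemma int_sq (s : Finset ℕ) (f : ℕ → ℝ → ℝ) (g : ℝ → ℝ) (w a : ℕ → ℝ) (c : ℝ)
    (hf : ∀ k, Continuous (f k)) (hg : Continuous g)
    (h1 : ∀ k ∈ s, ∀ j ∈ s, (∫ t in (0 : ℝ)..(2 * Real.pi), f k t * f j t) = if k = j then w k else 0)
    (h2 : ∀ k ∈ s, (∫ t in (0 : ℝ)..(2 * Real.pi), f k t * g t) = 0) :
    (∫ t in (0 : ℝ)..(2 * Real.pi), (∑ k ∈ s, a k * f k t + c * g t) ^ 2) =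
      (∑ k ∈ s, w k * a k ^ 2) + c ^ 2 * ∫ t in (0 : ℝ)..(2 * Real.pi), g t ^ 2 := by
  have h : ∀ t : ℝ, (∑ k ∈ s, a k * f k t + c * g t) ^ 2 =
      (∑ k ∈ s, ∑ j ∈ s, (a k * a j) * (f k t * f j t)) + (∑ k ∈ s, (2 * c * a k) * (f k t * g t)) +
        c ^ 2 * g t ^ 2 := by
    intro t
    have e1 : (∑ k ∈ s, ∑ j ∈ s, (a k * a j) * (f k t * f j t)) = (∑ k ∈ s, a k * f k t) ^ 2 := by
      rw [sq, Finset.sum_mul_sum]
      refine Finset.sum_congr rfl fun k _ => Finset.sum_congr rfl fun j _ => ?_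
      ring
    have e2 : (∑ k ∈ s, (2 * c * a k) * (f k t * g t)) = 2 * (∑ k ∈ s, a k * f k t) * (c * g t) := by
      rw [Finset.mul_sum, Finset.sum_mul]
      refine Finset.sum_congr rfl fun k _ => ?_
      ring
    rw [e1, e2]
    ring
  simp_rw [h]
  rw [intervalIntegral.integral_add (ii (by fun_prop)) (ii (by fun_prop)),
    intervalIntegral.integral_add (ii (by fun_prop)) (ii (by fun_prop)),
    intervalIntegral.integral_finsetSum (fun k _ => ii (by fun_prop)),
    intervalIntegral.integral_finsetSum (fun k _ => ii (by fun_prop)),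
    intervalIntegral.integral_const_mul]
  have e3 : (∑ k ∈ s, ∫ t in (0 : ℝ)..(2 * Real.pi), (2 * c * a k) * (f k t * g t)) = 0 := by
    refine Finset.sum_eq_zero fun k hk => ?_
    rw [intervalIntegral.integral_const_mul, h2 k hk, mul_zero]
  have e4 : (∑ k ∈ s, ∫ t in (0 : ℝ)..(2 * Real.pi), ∑ j ∈ s, (a k * a j) * (f k t * f j t)) =
      ∑ k ∈ s, w k * a k ^ 2 := by
    refine Finset.sum_congr rfl fun k hk => ?_
    rw [intervalIntegral.integral_finsetSum (fun j _ => ii (by fun_prop))]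
    have e5 : ∀ j ∈ s, (∫ t in (0 : ℝ)..(2 * Real.pi), (a k * a j) * (f k t * f j t)) =
        if k = j then w k * a k ^ 2 else 0 := by
      intro j hj
      rw [intervalIntegral.integral_const_mul, h1 k hk j hj]
      split_ifs with hkj
      · subst hkj
        ring
      · ring
    rw [Finset.sum_congr rfl e5, Finset.sum_ite_eq, if_pos hk]
  rw [e3, e4, add_zero]

end U5

theorem uAng (h4 : UFour2) : UAng := by
  intro h K ph ps ph' ps' G G' q lam r hA hr
  obtain ⟨hd, hper, hch, hph, horth⟩ := h4 h K hA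
  have hcH : Continuous (Hh h K) := continuous_iff_continuousAt.2 fun t => (hd t).continuousAt
  have hCH : ∀ k ∈ Finset.Icc 2 K, (∫ t in (0 : ℝ)..(2 * Real.pi), Ck h k t * hhigh h K t) = 0 := by
    intro k hk
    obtain ⟨o1, o2, -, -⟩ := horth k (Finset.mem_Icc.1 hk).2
    have e : ∀ t : ℝ, Ck h k t * hhigh h K t = (fA h k / 2) * (hhigh h K t * Real.cos (k * t)) +
        (fB h k / 2) * (hhigh h K t * Real.sin (k * t)) := by
      intro t
      unfold Ck
      ring
    simp_rw [e]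
    rw [intervalIntegral.integral_add (U5.ii (by fun_prop)) (U5.ii (by fun_prop)),
      intervalIntegral.integral_const_mul, intervalIntegral.integral_const_mul, o1, o2]
    ring
  have hSH : ∀ k ∈ Finset.Icc 2 K, (∫ t in (0 : ℝ)..(2 * Real.pi), Sk h k t * Hh h K t) = 0 := by
    intro k hk
    obtain ⟨-, -, o1, o2⟩ := horth k (Finset.mem_Icc.1 hk).2
    have e : ∀ t : ℝ, Sk h k t * Hh h K t = (fA h k / 2) * (Hh h K t * Real.sin (k * t)) -
        (fB h k / 2) * (Hh h K t * Real.cos (k * t)) := by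
      intro t
      unfold Sk
      ring
    simp_rw [e]
    rw [intervalIntegral.integral_sub (U5.ii (by fun_prop)) (U5.ii (by fun_prop)),
      intervalIntegral.integral_const_mul, intervalIntegral.integral_const_mul, o1, o2]
    ring
  have hC := fun (a : ℕ → ℝ) (c : ℝ) => U5.int_sq (Finset.Icc 2 K) (fun k => Ck h k) (hhigh h K)
    (fun k => Real.pi * hsq h k) a c (U5.cont_Ck h) hch
    (fun k hk j _ => U5.int_CC h k j (by have := (Finset.mem_Icc.1 hk).1; omega)) hCH
  have hS := fun (a : ℕ → ℝ) (c : ℝ) => U5.int_sq (Finset.Icc 2 K) (fun k => Sk h k) (Hh h K)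
    (fun k => Real.pi * hsq h k) a c (U5.cont_Sk h) hcH
    (fun k hk j _ => U5.int_SS h k j (by have := (Finset.mem_Icc.1 hk).1; omega)) hSH
  have hcC := U5.cont_Ck h
  have hcS := U5.cont_Sk h
  have e : ∀ θ : ℝ, Q2 q lam r
      (∑ k ∈ Finset.Icc 2 K, ph' k * Ck h k θ) (∑ k ∈ Finset.Icc 2 K, ps' k * Sk h k θ + G' * Hh h K θ)
      (∑ k ∈ Finset.Icc 2 K, ph k * Ck h k θ) (∑ k ∈ Finset.Icc 2 K, ps k * Sk h k θ + G * Hh h K θ)
      (∑ k ∈ Finset.Icc 2 K, -(k * ph k * Sk h k θ))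
      (∑ k ∈ Finset.Icc 2 K, k * ps k * Ck h k θ + G * hhigh h K θ) =
      (∑ k ∈ Finset.Icc 2 K, ph' k * Ck h k θ + 0 * hhigh h K θ) ^ 2 +
      (∑ k ∈ Finset.Icc 2 K, ps' k * Sk h k θ + G' * Hh h K θ) ^ 2 +
      (∑ k ∈ Finset.Icc 2 K, (k * ph k / r + q * ps k) * Sk h k θ + (q * G) * Hh h K θ) ^ 2 +
      (∑ k ∈ Finset.Icc 2 K, (k * ps k / r + q * ph k) * Ck h k θ + (G / r) * hhigh h K θ) ^ 2 -
      lam * ((∑ k ∈ Finset.Icc 2 K, ph k * Ck h k θ + 0 * hhigh h K θ) ^ 2 +
        (∑ k ∈ Finset.Icc 2 K, ps k * Sk h k θ + G * Hh h K θ) ^ 2) := by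
    intro θ
    have e1 : (∑ k ∈ Finset.Icc 2 K, -((k : ℝ) * ph k * Sk h k θ)) / r -
        q * (∑ k ∈ Finset.Icc 2 K, ps k * Sk h k θ + G * Hh h K θ) =
        -(∑ k ∈ Finset.Icc 2 K, ((k : ℝ) * ph k / r + q * ps k) * Sk h k θ + (q * G) * Hh h K θ) := by
      have : ∑ k ∈ Finset.Icc 2 K, ((k : ℝ) * ph k / r + q * ps k) * Sk h k θ =
          -((∑ k ∈ Finset.Icc 2 K, -((k : ℝ) * ph k * Sk h k θ)) / r) +
            q * ∑ k ∈ Finset.Icc 2 K, ps k * Sk h k θ := by
        rw [Finset.sum_div, ← Finset.sum_neg_distrib, Finset.mul_sum, ← Finset.sum_add_distrib]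
        refine Finset.sum_congr rfl fun k _ => ?_
        ring
      rw [this]
      ring
    have e2 : (∑ k ∈ Finset.Icc 2 K, (k : ℝ) * ps k * Ck h k θ + G * hhigh h K θ) / r +
        q * (∑ k ∈ Finset.Icc 2 K, ph k * Ck h k θ) =
        ∑ k ∈ Finset.Icc 2 K, ((k : ℝ) * ps k / r + q * ph k) * Ck h k θ + (G / r) * hhigh h K θ := by
      have : ∑ k ∈ Finset.Icc 2 K, ((k : ℝ) * ps k / r + q * ph k) * Ck h k θ =
          (∑ k ∈ Finset.Icc 2 K, (k : ℝ) * ps k * Ck h k θ) / r +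
            q * ∑ k ∈ Finset.Icc 2 K, ph k * Ck h k θ := by
        rw [Finset.sum_div, Finset.mul_sum, ← Finset.sum_add_distrib]
        refine Finset.sum_congr rfl fun k _ => ?_
        ring
      rw [this]
      ring
    unfold Q2
    rw [e1, e2, zero_mul, add_zero, add_zero]
    ring
  simp_rw [e]
  rw [intervalIntegral.integral_sub (U5.ii (by fun_prop)) (U5.ii (by fun_prop)),
    intervalIntegral.integral_add (U5.ii (by fun_prop)) (U5.ii (by fun_prop)),
    intervalIntegral.integral_add (U5.ii (by fun_prop)) (U5.ii (by fun_prop)),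
    intervalIntegral.integral_add (U5.ii (by fun_prop)) (U5.ii (by fun_prop)),
    intervalIntegral.integral_const_mul,
    intervalIntegral.integral_add (U5.ii (by fun_prop)) (U5.ii (by fun_prop)),
    hC ph' 0, hS ps' G', hS (fun k => k * ph k / r + q * ps k) (q * G),
    hC (fun k => k * ps k / r + q * ph k) (G / r), hC ph 0, hS ps G]
  have e5 : (∑ k ∈ Finset.Icc 2 K, Real.pi * hsq h k * (ph' k ^ 2 + ps' k ^ 2 + (k * ph k / r + q * ps k) ^ 2
        + (k * ps k / r + q * ph k) ^ 2 - lam * (ph k ^ 2 + ps k ^ 2))) =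
      (∑ k ∈ Finset.Icc 2 K, Real.pi * hsq h k * ph' k ^ 2) +
      (∑ k ∈ Finset.Icc 2 K, Real.pi * hsq h k * ps' k ^ 2) +
      (∑ k ∈ Finset.Icc 2 K, Real.pi * hsq h k * (k * ph k / r + q * ps k) ^ 2) +
      (∑ k ∈ Finset.Icc 2 K, Real.pi * hsq h k * (k * ps k / r + q * ph k) ^ 2) -
      lam * ((∑ k ∈ Finset.Icc 2 K, Real.pi * hsq h k * ph k ^ 2) +
      (∑ k ∈ Finset.Icc 2 K, Real.pi * hsq h k * ps k ^ 2)) := by
    rw [mul_add, Finset.mul_sum, Finset.mul_sum, ← Finset.sum_add_distrib, ← Finset.sum_add_distrib,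
      ← Finset.sum_add_distrib, ← Finset.sum_add_distrib, ← Finset.sum_sub_distrib]
    refine Finset.sum_congr rfl fun k _ => ?_
    ring
  rw [e5]
  ring

end Pool.Agent.MFK

end

section

/-! # Radial energy identities (item U6) -/

set_option autoImplicit false

namespace Pool.Agent.MFK

open MeasureTheory Set Filter Topology

namespace U6

/-- `r a a'` -/
noncomputable def ff (a : ℝ → ℝ) (r : ℝ) : ℝ := r * a r * deriv a r

theorem ff_cd {a : ℝ → ℝ} (ha : ContDiff ℝ 2 a) : ContDiff ℝ 1 (ff a) := by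
  have h1 : ContDiff ℝ 1 (deriv a) := by
    have : ContDiff ℝ (1 + 1) a := by simpa [one_add_one_eq_two] using ha
    exact ((contDiff_succ_iff_deriv (n := 1)).1 this).2.2
  have h2 : ContDiff ℝ 1 a := ha.of_le (by norm_num)
  unfold ff
  exact (contDiff_id.mul h2).mul h1

theorem deriv_ff (h : RReg) {B lam : ℝ} {n : ℤ} {F : ℝ → ℝ} (hR : Rad B lam n F) {r : ℝ} (hr : 0 < r) :
    deriv (ff (radf n F)) r
      = (deriv (radf n F) r ^ 2 + (qn B n r ^ 2 - lam) * radf n F r ^ 2) * r := by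
  obtain ⟨h1, -, -, -, -, -, -, -⟩ := h B lam n F hR
  have h2 := hR.ode r hr
  have h3 : HasDerivAt (fun t => radf n F t * (t * deriv (radf n F) t))
      (deriv (radf n F) r * (r * deriv (radf n F) r)
        + radf n F r * (r * ((qn B n r) ^ 2 - lam) * radf n F r)) r := (h1 r).mul h2
  have h4 : ff (radf n F) = fun t => radf n F t * (t * deriv (radf n F) t) := by
    funext t; unfold ff; ring
  rw [h4, h3.deriv]
  ring

theorem ftc {G : ℝ → ℝ} (hG : ContDiff ℝ 1 G) :
    (∫ r in (0 : ℝ)..1, deriv G r) = G 1 - G 0 := by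
  have hd : Differentiable ℝ G := hG.differentiable (by norm_num)
  have hc : Continuous (deriv G) := hG.continuous_deriv (le_refl _)
  exact intervalIntegral.integral_deriv_eq_sub (fun x _ => hd x) (hc.intervalIntegrable _ _)

end U6

theorem uEn (h : RReg) : UEn := by
  intro B lam n F hR
  obtain ⟨h1, h2, -, -, h5, -, -, -⟩ := h B lam n F hR
  have hcd := U6.ff_cd h2
  have hc : Continuous (deriv (U6.ff (radf n F))) := hcd.continuous_deriv (le_refl _)
  have hEq : ∀ r ∈ Set.uIoc (0 : ℝ) 1, deriv (U6.ff (radf n F)) r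
      = (deriv (radf n F) r ^ 2 + (qn B n r ^ 2 - lam) * radf n F r ^ 2) * r := by
    intro r hr
    rw [uIoc_of_le zero_le_one] at hr
    exact U6.deriv_ff h hR hr.1
  refine ⟨(hc.intervalIntegrable 0 1).congr hEq, ?_⟩
  rw [← intervalIntegral.integral_congr_ae (Eventually.of_forall hEq), U6.ftc hcd]
  unfold U6.ff
  ring

theorem uPh (h : RReg) : UPh := by
  intro B lam n F X s0 hR h0 hX hs0 hXs
  obtain ⟨h1, h2, h3, -, h5, -, -, -⟩ := h B lam n F hR
  have hcd := U6.ff_cd h2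
  have ha1 : ContDiff ℝ 1 (radf n F) := h2.of_le (by norm_num)
  have hcc : ContDiff ℝ 1 (fun t : ℝ => X (t ^ 2)) := hX.comp (contDiff_id.pow 2)
  have hG : ContDiff ℝ 1 (fun t : ℝ => X (t ^ 2) ^ 2 * U6.ff (radf n F) t) := (hcc.pow 2).mul hcd
  have hcG : Continuous (deriv (fun t : ℝ => X (t ^ 2) ^ 2 * U6.ff (radf n F) t)) :=
    hG.continuous_deriv (le_refl _)
  have hcc' : Continuous (deriv (fun t : ℝ => X (t ^ 2))) := hcc.continuous_deriv (le_refl _)
  have hI1 : Continuous (fun r => (deriv (fun t => X (t ^ 2)) r) ^ 2 * radf n F r ^ 2 * r) :=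
    ((hcc'.pow 2).mul (ha1.continuous.pow 2)).mul continuous_id
  have hEq : ∀ r ∈ Set.uIoc (0 : ℝ) 1, (deriv (fun t => X (t ^ 2)) r) ^ 2 * radf n F r ^ 2 * r
        + deriv (fun t : ℝ => X (t ^ 2) ^ 2 * U6.ff (radf n F) t) r
      = (deriv (fun t => X (t ^ 2) * radf n F t) r ^ 2
      + (qn B n r ^ 2 - lam) * (X (r ^ 2) * radf n F r) ^ 2) * r := by
    intro r hr
    rw [uIoc_of_le zero_le_one] at hr
    have hdc : HasDerivAt (fun t : ℝ => X (t ^ 2)) (deriv (fun t : ℝ => X (t ^ 2)) r) r :=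
      (hcc.differentiable (by norm_num) r).hasDerivAt
    have hdf : HasDerivAt (U6.ff (radf n F)) (deriv (U6.ff (radf n F)) r) r :=
      (hcd.differentiable (by norm_num) r).hasDerivAt
    have e1 := (hdc.mul (h1 r)).deriv
    have e2 := ((hdc.pow 2).mul hdf).deriv
    have e1' : deriv (fun t => X (t ^ 2) * radf n F t) r
        = deriv (fun t : ℝ => X (t ^ 2)) r * radf n F r + X (r ^ 2) * deriv (radf n F) r := by
      exact e1
    have e2' : deriv (fun t : ℝ => X (t ^ 2) ^ 2 * U6.ff (radf n F) t) r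
        = 2 * X (r ^ 2) * deriv (fun t : ℝ => X (t ^ 2)) r * U6.ff (radf n F) r
          + X (r ^ 2) ^ 2 * deriv (U6.ff (radf n F)) r := by
      have : deriv (fun t : ℝ => X (t ^ 2) ^ 2 * U6.ff (radf n F) t) r
        = ((2 : ℕ) : ℝ) * X (r ^ 2) ^ (2 - 1) * deriv (fun t : ℝ => X (t ^ 2)) r * U6.ff (radf n F) r
          + X (r ^ 2) ^ 2 * deriv (U6.ff (radf n F)) r := by
        exact e2
      rw [this]; norm_num
    rw [e1', e2', U6.deriv_ff h hR hr.1]
    unfold U6.ff
    ring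
  have hint1 : IntervalIntegrable (fun r => (deriv (fun t => X (t ^ 2)) r) ^ 2 * radf n F r ^ 2 * r)
      volume 0 1 := hI1.intervalIntegrable _ _
  have hint2 : IntervalIntegrable (deriv (fun t : ℝ => X (t ^ 2) ^ 2 * U6.ff (radf n F) t))
      volume 0 1 := hcG.intervalIntegrable _ _
  refine ⟨(hint1.add hint2).congr hEq, ?_⟩
  rw [← intervalIntegral.integral_congr_ae (Eventually.of_forall hEq), intervalIntegral.integral_add hint1 hint2, U6.ftc hG]
  have z1 : U6.ff (radf n F) 1 = 0 := by unfold U6.ff; rw [h0]; ring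
  have z0 : U6.ff (radf n F) 0 = 0 := by unfold U6.ff; ring
  simp only [z1, z0, mul_zero, sub_self, add_zero]

end Pool.Agent.MFK

end

section

/-! # Upper bound for nearly circular domains -/

set_option autoImplicit false

namespace Pool.Agent.MFK

open MeasureTheory Set Filter Topology

theorem uB (h1 : UPar) (h2 : UPolar) (h3 : UJ) (h4 : UNorm) (h5 : URay) (h6 : UOpen) (h7 : UBary)
    (h8 : UTest) : StUB := by
  intro B lam m F hB hD hp hS
  obtain ⟨P, hP, hPB, hPl⟩ := h1 B lam m F hB hD hp hS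
  obtain ⟨ε1, hε1, c, hc, hJ⟩ := h3 P hP
  obtain ⟨C, hC, hN⟩ := h4 P hP
  obtain ⟨C2, hC2, hbary⟩ := h7
  refine ⟨min ε1 (1 / 2), by positivity, c / C * (1 / 4), by positivity, ?_⟩
  intro ρ hρ
  have hρ1 : Near ρ ε1 := ⟨hρ.cont, hρ.per, fun θ => (hρ.close θ).trans (min_le_left _ _), hρ.area,
    hρ.bar1, hρ.bar2⟩
  have hρ2 : Near ρ (1 / 2) := ⟨hρ.cont, hρ.per, fun θ => (hρ.close θ).trans (min_le_right _ _), hρ.area,
    hρ.bar1, hρ.bar2⟩
  have hpos : ∀ θ, 1 / 2 ≤ ρ θ := fun θ => by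
    have := abs_le.1 (hρ2.close θ); linarith
  have hle : ∀ θ, ρ θ ≤ 3 / 2 := fun θ => by
    have := abs_le.1 (hρ2.close θ); linarith
  obtain ⟨hadm, -⟩ := hbary ρ (1 / 2) le_rfl hρ2
  set h : ℝ → ℝ := fun s => (ρ s ^ 2 - 1) / 2 with hh
  obtain ⟨hi1, hi2, heq⟩ := h2 P ρ (1 / 2) h hP hρ2 le_rfl hadm
  obtain ⟨hN1, hN2⟩ := hN ρ (1 / 2) le_rfl hρ2
  have hJ' := hJ ρ hρ1
  obtain ⟨hop, -⟩ := h6 ρ hρ.cont (fun θ => by linarith [hpos θ]) hρ.per
  obtain ⟨hsm, -⟩ := h8 P h hP hadm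
  have hray := h5 P.B (polarDom ρ) (utest P h) hsm.contDiffOn hop.measurableSet hop hi1 hi2 hN1
  rw [hPB] at hray
  rw [hPB, hPl] at heq
  set E := ∫ x in polarDom ρ, eden B (utest P h) x with hE
  set N := ∫ x in polarDom ρ, ‖utest P h x‖ ^ 2 with hNdef
  set S := ∫ θ in (0 : ℝ)..(2 * Real.pi), h θ ^ 2 with hSdef
  have hJ'' : E - lam * N ≤ -c * S := by rw [heq]; exact hJ'
  have hSnn : 0 ≤ S := intervalIntegral.integral_nonneg (by positivity) (fun θ _ => sq_nonneg _)
  have h9 : E / N ≤ lam - c / C * S := by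
    rw [div_le_iff₀ hN1]
    have h10 : c / C * S * N ≤ c * S := by
      calc c / C * S * N ≤ c / C * S * C := mul_le_mul_of_nonneg_left hN2 (by positivity)
        _ = c * S := by field_simp
    nlinarith
  have h11 : (∫ θ in (0 : ℝ)..(2 * Real.pi), (ρ θ - 1) ^ 2) ≤ 4 * S := by
    rw [hSdef, ← intervalIntegral.integral_const_mul]
    refine intervalIntegral.integral_mono_on (by positivity) ?_ ?_ (fun θ _ => ?_)
    · exact ((hρ.cont.sub continuous_const).pow 2).intervalIntegrable _ _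
    · exact (continuous_const.mul (hadm.cont.pow 2)).intervalIntegrable _ _
    · simp only [hh]
      have h12 : 1 ≤ (ρ θ + 1) ^ 2 := by nlinarith [hpos θ]
      nlinarith [sq_nonneg (ρ θ - 1)]
  have h13 : c / C * (1 / 4) * (∫ θ in (0 : ℝ)..(2 * Real.pi), (ρ θ - 1) ^ 2) ≤ c / C * S := by
    calc c / C * (1 / 4) * (∫ θ in (0 : ℝ)..(2 * Real.pi), (ρ θ - 1) ^ 2)
        ≤ c / C * (1 / 4) * (4 * S) := mul_le_mul_of_nonneg_left h11 (by positivity)
      _ = c / C * S := by ring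
  linarith

end Pool.Agent.MFK

end
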