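import Pool.Agent.Work.MP_8826fd_mp.StmtsU

/-! Bundle of small proof modules (one section per former module). -/

section

/-! # Orthogonality of the Fourier modes (items UFour1, UFour4) -/

set_option autoImplicit false

namespace Pool.Agent.MFK

open MeasureTheory Set Filter Topology

namespace U1

theorem int_cos (n : ℤ) : (∫ t in (0 : ℝ)..(2 * Real.pi), Real.cos (n * t))
    = if n = 0 then 2 * Real.pi else 0 := by
  by_cases hn : n = 0
  · subst hn
    simp
  · have hn' : (n : ℝ) ≠ 0 := by exact_mod_cast hn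
    rw [if_neg hn]
    rw [intervalIntegral.integral_comp_mul_left (fun x => Real.cos x) hn', integral_cos]
    have h1 : Real.sin ((n : ℝ) * (2 * Real.pi)) = 0 := by
      have := Real.sin_int_mul_pi (2 * n)
      have h2 : ((2 * n : ℤ) : ℝ) * Real.pi = (n : ℝ) * (2 * Real.pi) := by push_cast; ring
      rwa [h2] at this
    rw [h1]
    simp

theorem int_sin (n : ℤ) : (∫ t in (0 : ℝ)..(2 * Real.pi), Real.sin (n * t)) = 0 := by
  by_cases hn : n = 0
  · subst hn
    simp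
  · have hn' : (n : ℝ) ≠ 0 := by exact_mod_cast hn
    rw [intervalIntegral.integral_comp_mul_left (fun x => Real.sin x) hn', integral_sin]
    have h1 : Real.cos ((n : ℝ) * (2 * Real.pi)) = 1 := by
      have := Real.cos_int_mul_two_pi n
      exact this
    rw [h1]
    simp

theorem ii {f : ℝ → ℝ} (hf : Continuous f) :
    IntervalIntegrable f volume (0 : ℝ) (2 * Real.pi) := hf.intervalIntegrable _ _

theorem int_cc (k j : ℕ) (hk : 1 ≤ k) :
    (∫ t in (0 : ℝ)..(2 * Real.pi), Real.cos (k * t) * Real.cos (j * t))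
    = if k = j then Real.pi else 0 := by
  have e : ∀ t : ℝ, Real.cos (k * t) * Real.cos (j * t)
      = (Real.cos ((((k : ℤ) - j : ℤ) : ℝ) * t) + Real.cos ((((k : ℤ) + j : ℤ) : ℝ) * t)) / 2 := by
    intro t
    have h1 := Real.cos_sub (k * t) (j * t)
    have h2 := Real.cos_add (k * t) (j * t)
    have e1 : ((((k : ℤ) - j : ℤ) : ℝ) * t) = k * t - j * t := by push_cast; ring
    have e2 : ((((k : ℤ) + j : ℤ) : ℝ) * t) = k * t + j * t := by push_cast; ring
    rw [e1, e2, h1, h2]; ring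
  simp_rw [e]
  rw [intervalIntegral.integral_div, intervalIntegral.integral_add (ii (by fun_prop)) (ii (by fun_prop)),
    int_cos, int_cos]
  have hne : ((k : ℤ) + j) ≠ 0 := by omega
  rw [if_neg hne]
  by_cases h : k = j
  · subst h
    simp
  · have : ((k : ℤ) - j) ≠ 0 := by omega
    rw [if_neg this, if_neg h]; simp

theorem int_ss (k j : ℕ) (hk : 1 ≤ k) :
    (∫ t in (0 : ℝ)..(2 * Real.pi), Real.sin (k * t) * Real.sin (j * t))
    = if k = j then Real.pi else 0 := by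
  have e : ∀ t : ℝ, Real.sin (k * t) * Real.sin (j * t)
      = (Real.cos ((((k : ℤ) - j : ℤ) : ℝ) * t) - Real.cos ((((k : ℤ) + j : ℤ) : ℝ) * t)) / 2 := by
    intro t
    have h1 := Real.cos_sub (k * t) (j * t)
    have h2 := Real.cos_add (k * t) (j * t)
    have e1 : ((((k : ℤ) - j : ℤ) : ℝ) * t) = k * t - j * t := by push_cast; ring
    have e2 : ((((k : ℤ) + j : ℤ) : ℝ) * t) = k * t + j * t := by push_cast; ring
    rw [e1, e2, h1, h2]; ring
  simp_rw [e]
  rw [intervalIntegral.integral_div, intervalIntegral.integral_sub (ii (by fun_prop)) (ii (by fun_prop)),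
    int_cos, int_cos]
  have hne : ((k : ℤ) + j) ≠ 0 := by omega
  rw [if_neg hne]
  by_cases h : k = j
  · subst h
    simp
  · have : ((k : ℤ) - j) ≠ 0 := by omega
    rw [if_neg this, if_neg h]; simp

theorem int_sc (k j : ℕ) :
    (∫ t in (0 : ℝ)..(2 * Real.pi), Real.sin (k * t) * Real.cos (j * t)) = 0 := by
  have e : ∀ t : ℝ, Real.sin (k * t) * Real.cos (j * t)
      = (Real.sin ((((k : ℤ) + j : ℤ) : ℝ) * t) + Real.sin ((((k : ℤ) - j : ℤ) : ℝ) * t)) / 2 := by
    intro t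
    have h1 := Real.sin_sub (k * t) (j * t)
    have h2 := Real.sin_add (k * t) (j * t)
    have e1 : ((((k : ℤ) - j : ℤ) : ℝ) * t) = k * t - j * t := by push_cast; ring
    have e2 : ((((k : ℤ) + j : ℤ) : ℝ) * t) = k * t + j * t := by push_cast; ring
    rw [e1, e2, h1, h2]; ring
  simp_rw [e]
  rw [intervalIntegral.integral_div, intervalIntegral.integral_add (ii (by fun_prop)) (ii (by fun_prop)),
    int_sin, int_sin]
  simp

theorem cont_Ck (h : ℝ → ℝ) (k : ℕ) : Continuous (Ck h k) := by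
  unfold Ck
  fun_prop

theorem cont_hlow (h : ℝ → ℝ) (K : ℕ) : Continuous (hlow h K) := by
  unfold hlow
  exact continuous_finsetSum _ (fun k _ => continuous_const.mul (cont_Ck h k))

theorem int_CC (h : ℝ → ℝ) (k j : ℕ) (hk : 1 ≤ k) :
    (∫ t in (0 : ℝ)..(2 * Real.pi), Ck h k t * Ck h j t)
    = if k = j then Real.pi * hsq h k else 0 := by
  have e : ∀ t : ℝ, Ck h k t * Ck h j t =
      (fA h k * fA h j / 4) * (Real.cos (k * t) * Real.cos (j * t))
      + (fB h k * fB h j / 4) * (Real.sin (k * t) * Real.sin (j * t))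
      + (fB h k * fA h j / 4) * (Real.sin (k * t) * Real.cos (j * t))
      + (fA h k * fB h j / 4) * (Real.sin (j * t) * Real.cos (k * t)) := by
    intro t; unfold Ck; ring
  simp_rw [e]
  rw [intervalIntegral.integral_add (ii (by fun_prop)) (ii (by fun_prop)),
    intervalIntegral.integral_add (ii (by fun_prop)) (ii (by fun_prop)),
    intervalIntegral.integral_add (ii (by fun_prop)) (ii (by fun_prop)),
    intervalIntegral.integral_const_mul, intervalIntegral.integral_const_mul,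
    intervalIntegral.integral_const_mul, intervalIntegral.integral_const_mul,
    int_cc k j hk, int_ss k j hk, int_sc, int_sc]
  by_cases hkj : k = j
  · subst hkj
    simp only [if_true]
    unfold hsq; ring
  · simp [hkj]

theorem int_hC (h : ℝ → ℝ) (hc : Continuous h) (k : ℕ) :
    (∫ t in (0 : ℝ)..(2 * Real.pi), h t * Ck h k t) = 2 * Real.pi * hsq h k := by
  have e : ∀ t : ℝ, h t * Ck h k t =
      (fA h k / 2) * (h t * Real.cos (k * t)) + (fB h k / 2) * (h t * Real.sin (k * t)) := by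
    intro t; unfold Ck; ring
  simp_rw [e]
  rw [intervalIntegral.integral_add (ii (by fun_prop)) (ii (by fun_prop)),
    intervalIntegral.integral_const_mul, intervalIntegral.integral_const_mul]
  have hpi : Real.pi ≠ 0 := Real.pi_ne_zero
  have h1 : (∫ t in (0 : ℝ)..(2 * Real.pi), h t * Real.cos (k * t)) = Real.pi * fA h k := by
    unfold fA; field_simp
  have h2 : (∫ t in (0 : ℝ)..(2 * Real.pi), h t * Real.sin (k * t)) = Real.pi * fB h k := by
    unfold fB; field_simp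
  rw [h1, h2]; unfold hsq; ring

theorem int_hlow (h : ℝ → ℝ) (hc : Continuous h) (K : ℕ) :
    (∫ t in (0 : ℝ)..(2 * Real.pi), h t * hlow h K t)
      = 4 * Real.pi * ∑ k ∈ Finset.Icc 1 K, hsq h k := by
  have e : ∀ t : ℝ, h t * hlow h K t = ∑ k ∈ Finset.Icc 1 K, 2 * (h t * Ck h k t) := by
    intro t; unfold hlow; rw [Finset.mul_sum]
    exact Finset.sum_congr rfl (fun k _ => by ring)
  simp_rw [e]
  have hi : ∀ k ∈ Finset.Icc 1 K,
      IntervalIntegrable (fun t : ℝ => 2 * (h t * Ck h k t)) volume (0 : ℝ) (2 * Real.pi) :=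
    fun k _ => ii (continuous_const.mul (hc.mul (cont_Ck h k)))
  rw [intervalIntegral.integral_finsetSum hi, Finset.mul_sum]
  refine Finset.sum_congr rfl (fun k _ => ?_)
  rw [intervalIntegral.integral_const_mul, int_hC h hc k]; ring

theorem int_hlow_sq (h : ℝ → ℝ) (K : ℕ) :
    (∫ t in (0 : ℝ)..(2 * Real.pi), hlow h K t ^ 2)
      = 4 * Real.pi * ∑ k ∈ Finset.Icc 1 K, hsq h k := by
  have e : ∀ t : ℝ, hlow h K t ^ 2 = ∑ k ∈ Finset.Icc 1 K, ∑ j ∈ Finset.Icc 1 K,
      4 * (Ck h k t * Ck h j t) := by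
    intro t; unfold hlow; rw [sq, Finset.sum_mul_sum]
    exact Finset.sum_congr rfl (fun k _ => Finset.sum_congr rfl (fun j _ => by ring))
  simp_rw [e]
  have hc4 : ∀ k j : ℕ, Continuous (fun t : ℝ => 4 * (Ck h k t * Ck h j t)) :=
    fun k j => continuous_const.mul ((cont_Ck h k).mul (cont_Ck h j))
  have hi : ∀ k ∈ Finset.Icc 1 K, IntervalIntegrable
      (fun t : ℝ => ∑ j ∈ Finset.Icc 1 K, 4 * (Ck h k t * Ck h j t)) volume (0 : ℝ)
        (2 * Real.pi) :=
    fun k _ => ii (continuous_finsetSum _ (fun j _ => hc4 k j))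
  rw [intervalIntegral.integral_finsetSum hi, Finset.mul_sum]
  refine Finset.sum_congr rfl (fun k hk => ?_)
  have hk1 : 1 ≤ k := (Finset.mem_Icc.1 hk).1
  have hi2 : ∀ j ∈ Finset.Icc 1 K, IntervalIntegrable
      (fun t : ℝ => 4 * (Ck h k t * Ck h j t)) volume (0 : ℝ) (2 * Real.pi) :=
    fun j _ => ii (hc4 k j)
  rw [intervalIntegral.integral_finsetSum hi2]
  have : ∀ j ∈ Finset.Icc 1 K,
      (∫ t in (0 : ℝ)..(2 * Real.pi), 4 * (Ck h k t * Ck h j t))
        = if k = j then 4 * Real.pi * hsq h k else 0 := by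
    intro j _
    rw [intervalIntegral.integral_const_mul, int_CC h k j hk1]
    by_cases hkj : k = j
    · simp only [hkj, if_true]; ring
    · simp [hkj]
  rw [Finset.sum_congr rfl this, Finset.sum_ite_eq, if_pos hk]

theorem int_hhigh_sq (h : ℝ → ℝ) (hc : Continuous h) (K : ℕ) :
    (∫ t in (0 : ℝ)..(2 * Real.pi), hhigh h K t ^ 2)
      = (∫ t in (0 : ℝ)..(2 * Real.pi), h t ^ 2)
        - 4 * Real.pi * ∑ k ∈ Finset.Icc 1 K, hsq h k := by
  have hl := cont_hlow h K
  have e : ∀ t : ℝ, hhigh h K t ^ 2 = (h t ^ 2 - 2 * (h t * hlow h K t)) + hlow h K t ^ 2 := by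
    intro t; unfold hhigh; ring
  simp_rw [e]
  rw [intervalIntegral.integral_add (ii (by fun_prop)) (ii (by fun_prop)),
    intervalIntegral.integral_sub (ii (by fun_prop)) (ii (by fun_prop)),
    intervalIntegral.integral_const_mul, int_hlow h hc K, int_hlow_sq h K]
  ring

theorem int_h_hhigh (h : ℝ → ℝ) (hc : Continuous h) (K : ℕ) :
    (∫ t in (0 : ℝ)..(2 * Real.pi), h t * hhigh h K t)
      = (∫ t in (0 : ℝ)..(2 * Real.pi), h t ^ 2)
        - 4 * Real.pi * ∑ k ∈ Finset.Icc 1 K, hsq h k := by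
  have hl := cont_hlow h K
  have e : ∀ t : ℝ, h t * hhigh h K t = h t ^ 2 - h t * hlow h K t := by
    intro t; unfold hhigh; ring
  simp_rw [e]
  rw [intervalIntegral.integral_sub (ii (by fun_prop)) (ii (by fun_prop)), int_hlow h hc K]

end U1

theorem uFour1 : UFour1 := by
  intro h K hA
  rw [U1.int_hhigh_sq h hA.cont K]; ring

theorem uFour4 : UFour4 := by
  intro h K hA
  refine ⟨fun k _ => U1.int_hC h hA.cont k, ?_⟩
  rw [U1.int_h_hhigh h hA.cont K, U1.int_hhigh_sq h hA.cont K]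

end Pool.Agent.MFK

end

section

/-! # Partial derivatives of the real functions (item U12) -/

set_option autoImplicit false

namespace Pool.Agent.MFK

open MeasureTheory Set Filter Topology

namespace U12

theorem diff_radf (h1 : RReg) {B lam : ℝ} {n : ℤ} {F : ℝ → ℝ} (h : Rad B lam n F) (r : ℝ) :
    DifferentiableAt ℝ (radf n F) r := ((h1 B lam n F h).1 r).differentiableAt

theorem hasDerivAt_Ck (h : ℝ → ℝ) (k : ℕ) (θ : ℝ) :
    HasDerivAt (Ck h k) (-(k * Sk h k θ)) θ := by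
  have h0 : HasDerivAt (fun t : ℝ => (k : ℝ) * t) k θ := by
    simpa using (hasDerivAt_id θ).const_mul (k : ℝ)
  have h1 := h0.cos
  have h2 := h0.sin
  have h3 := ((h1.const_mul (fA h k)).add (h2.const_mul (fB h k))).div_const 2
  refine h3.congr_deriv ?_
  unfold Sk
  ring

theorem hasDerivAt_Sk (h : ℝ → ℝ) (k : ℕ) (θ : ℝ) :
    HasDerivAt (Sk h k) (k * Ck h k θ) θ := by
  have h0 : HasDerivAt (fun t : ℝ => (k : ℝ) * t) k θ := by
    simpa using (hasDerivAt_id θ).const_mul (k : ℝ)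
  have h1 := h0.cos
  have h2 := h0.sin
  have h3 := ((h2.const_mul (fA h k)).sub (h1.const_mul (fB h k))).div_const 2
  refine h3.congr_deriv ?_
  unfold Ck
  ring

end U12

open U12 in
theorem uDer (h1 : RReg) (h2 : UFour2) : UDer := by
  intro P h r θ hP hh hr
  have hrad : ∀ n : ℤ, Rad P.B P.lam n (P.F n) := hP.data.rad
  have hg : DifferentiableAt ℝ P.g r := by
    have := (diff_radf h1 (hrad (P.m : ℤ)) r).div_const (P.F P.m 1)
    exact this
  have hb : ∀ k, DifferentiableAt ℝ (P.bb k) r := by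
    intro k
    have := (diff_radf h1 (hrad ((P.m : ℤ) + k)) r).div_const (P.F (P.m + k) 1)
    exact this
  have ha : ∀ k, DifferentiableAt ℝ (P.aa k) r := by
    intro k
    have := (diff_radf h1 (hrad ((P.m : ℤ) - k)) r).div_const (P.F (P.m - k) 1)
    exact this
  have hph : ∀ k, DifferentiableAt ℝ (P.ph k) r := by
    intro k
    have := ((hb k).const_mul (P.y k)).add ((ha k).const_mul (P.x k))
    exact this
  have hps : ∀ k, DifferentiableAt ℝ (P.ps k) r := by
    intro k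
    have := ((hb k).const_mul (P.y k)).sub ((ha k).const_mul (P.x k))
    exact this
  have hX : DifferentiableAt ℝ (fun t : ℝ => P.X (t ^ 2)) r := by
    have h3 : ContDiff ℝ 2 (fun t : ℝ => P.X (t ^ 2)) := hP.Xs.comp (contDiff_id.pow 2)
    exact (h3.differentiable (by norm_num)) r
  have hGG : DifferentiableAt ℝ P.GG r := by
    have := (hX.mul hg).const_mul P.M
    exact this
  refine ⟨hg.hasDerivAt, ?_, ?_, ?_, ?_⟩
  · unfold Par.V1 Par.V1r
    apply HasDerivAt.fun_sum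
    intro k _
    exact (hph k).hasDerivAt.mul_const _
  · unfold Par.V2 Par.V2r
    apply HasDerivAt.add
    · apply HasDerivAt.fun_sum
      intro k _
      exact (hps k).hasDerivAt.mul_const _
    · exact hGG.hasDerivAt.mul_const _
  · unfold Par.V1 Par.V1t
    apply HasDerivAt.fun_sum
    intro k _
    refine ((hasDerivAt_Ck h k θ).const_mul (P.ph k r)).congr_deriv ?_
    ring
  · unfold Par.V2 Par.V2t
    apply HasDerivAt.add
    · apply HasDerivAt.fun_sum
      intro k _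
      refine ((hasDerivAt_Sk h k θ).const_mul (P.ps k r)).congr_deriv ?_
      ring
    · exact ((h2 h P.K hh).1 θ).const_mul _

end Pool.Agent.MFK

end

section

/-! # The density of the test function -/

set_option autoImplicit false

namespace Pool.Agent.MFK

open MeasureTheory Set Filter Topology

namespace U13

theorem norm_phase (m : ℕ) (θ : ℝ) : ‖Complex.exp (Complex.I * m * θ)‖ = 1 := by
  have h : Complex.I * (m : ℂ) * (θ : ℂ) = (((m : ℝ) * θ : ℝ) : ℂ) * Complex.I := by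
    push_cast
    ring
  rw [h, Complex.norm_exp_ofReal_mul_I]

theorem nsq (a b : ℝ) : ‖((a : ℝ) : ℂ) + Complex.I * ((b : ℝ) : ℂ)‖ ^ 2 = a ^ 2 + b ^ 2 := by
  rw [← Complex.normSq_eq_norm_sq, Complex.normSq_apply]
  simp
  ring

theorem hasDerivAt_phase (m : ℕ) (θ : ℝ) :
    HasDerivAt (fun t : ℝ => Complex.exp (Complex.I * m * t))
      (Complex.exp (Complex.I * m * θ) * (Complex.I * m)) θ := by
  have h1 : HasDerivAt (fun t : ℝ => (Complex.I * m) * (t : ℂ)) ((Complex.I * m) * 1) θ :=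
    (Complex.ofRealCLM.hasDerivAt (x := θ)).const_mul (Complex.I * m)
  rw [mul_one] at h1
  exact h1.cexp

end U13

open U13 in
theorem uDens (h1 : UTest) (h2 : UDer) (h3 : PDens) : UDens := by
  intro P h r θ hP hh hr
  obtain ⟨hC, hpol⟩ := h1 P h hP hh
  obtain ⟨dg, dV1, dV2, tV1, tV2⟩ := h2 P h r θ hP hh hr
  have hdiff : DifferentiableAt ℝ (utest P h) (pt r θ) :=
    (hC.differentiable (by norm_num)) _
  obtain ⟨-, -, he⟩ := h3 P.B (utest P h) r θ hr hdiff
  -- radial derivative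
  have hrad : HasDerivAt (fun t => utest P h (pt t θ))
      (Complex.exp (Complex.I * P.m * θ) *
        (((deriv P.g r + P.V1r h r θ : ℝ) : ℂ) + Complex.I * ((P.V2r h r θ : ℝ) : ℂ))) r := by
    have e1 : HasDerivAt (fun t : ℝ => ((P.g t + P.V1 h t θ : ℝ) : ℂ))
        ((deriv P.g r + P.V1r h r θ : ℝ) : ℂ) r := (dg.add dV1).ofReal_comp
    have e2 : HasDerivAt (fun t : ℝ => ((P.V2 h t θ : ℝ) : ℂ)) ((P.V2r h r θ : ℝ) : ℂ) r :=
      dV2.ofReal_comp
    have e3 := (e1.add (e2.const_mul Complex.I)).const_mul (Complex.exp (Complex.I * P.m * θ))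
    refine e3.congr_of_eventuallyEq ?_
    filter_upwards [lt_mem_nhds hr] with t ht
    exact hpol t θ ht
  have hang : HasDerivAt (fun t => utest P h (pt r t))
      (Complex.exp (Complex.I * P.m * θ) * (Complex.I * P.m) *
        (((P.g r + P.V1 h r θ : ℝ) : ℂ) + Complex.I * ((P.V2 h r θ : ℝ) : ℂ))
       + Complex.exp (Complex.I * P.m * θ) *
        (((P.V1t h r θ : ℝ) : ℂ) + Complex.I * ((P.V2t h r θ : ℝ) : ℂ))) θ := by
    have e1 : HasDerivAt (fun t : ℝ => ((P.g r + P.V1 h r t : ℝ) : ℂ))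
        ((P.V1t h r θ : ℝ) : ℂ) θ := (tV1.const_add (P.g r)).ofReal_comp
    have e2 : HasDerivAt (fun t : ℝ => ((P.V2 h r t : ℝ) : ℂ)) ((P.V2t h r θ : ℝ) : ℂ) θ :=
      tV2.ofReal_comp
    have e3 := (hasDerivAt_phase P.m θ).mul (e1.add (e2.const_mul Complex.I))
    refine e3.congr_of_eventuallyEq ?_
    exact Eventually.of_forall fun t => hpol r t hr
  rw [he, hrad.deriv, hang.deriv, hpol r θ hr]
  have hr0 : (r : ℂ) ≠ 0 := by exact_mod_cast hr.ne'
  have hq : P.q r = P.m / r - P.B * r / 2 := by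
    unfold Par.q qn
    simp
  have key : ((1 / r : ℝ) : ℂ) * (Complex.exp (Complex.I * P.m * θ) * (Complex.I * P.m) *
        (((P.g r + P.V1 h r θ : ℝ) : ℂ) + Complex.I * ((P.V2 h r θ : ℝ) : ℂ))
       + Complex.exp (Complex.I * P.m * θ) *
        (((P.V1t h r θ : ℝ) : ℂ) + Complex.I * ((P.V2t h r θ : ℝ) : ℂ)))
      - Complex.I * ((P.B * r / 2 : ℝ) : ℂ) * (Complex.exp (Complex.I * P.m * θ) *
        (((P.g r + P.V1 h r θ : ℝ) : ℂ) + Complex.I * ((P.V2 h r θ : ℝ) : ℂ)))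
      = Complex.exp (Complex.I * P.m * θ) *
        (((P.V1t h r θ / r - P.q r * P.V2 h r θ : ℝ) : ℂ)
          + Complex.I * ((P.V2t h r θ / r + P.q r * (P.g r + P.V1 h r θ) : ℝ) : ℂ)) := by
    rw [hq]
    push_cast
    have hI : Complex.I ^ 2 = -1 := Complex.I_sq
    field_simp
    ring_nf
    simp only [hI]
    ring
  rw [key]
  simp only [norm_mul, norm_phase, one_mul, nsq]
  unfold Par.dens Q2
  ring

end Pool.Agent.MFK

end

section

/-! # Open star-shaped domains and the energy excess in polar coordinates (item U15) -/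

set_option autoImplicit false

namespace Pool.Agent.MFK

open MeasureTheory Set Filter Topology

namespace U15

/-- the complex number of a point of the plane -/
noncomputable def cx (z : ℝ × ℝ) : ℂ := ⟨z.1, z.2⟩

theorem cx_cont : Continuous cx := Complex.equivRealProdCLM.symm.continuous

theorem cx_ne {z : ℝ × ℝ} (h : z ≠ 0) : cx z ≠ 0 := by
  intro h0
  apply h
  have h1 := congrArg Complex.re h0
  have h2 := congrArg Complex.im h0
  simp only [cx, Complex.zero_re, Complex.zero_im] at h1 h2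
  exact Prod.ext h1 h2

theorem per_of_exp {H : ℝ → ℝ} (hper : ∀ θ, H (θ + 2 * Real.pi) = H θ) {a b : ℝ}
    (h : Complex.exp (a * Complex.I) = Complex.exp (b * Complex.I)) : H a = H b := by
  obtain ⟨n, hn⟩ := Complex.exp_eq_exp_iff_exists_int.1 h
  have h1 : a = b + n * (2 * Real.pi) := by
    have h2 : ((a : ℂ) - (b + n * (2 * Real.pi))) * Complex.I = 0 := by
      linear_combination hn
    rcases mul_eq_zero.1 h2 with h3 | h3
    · have h4 := sub_eq_zero.1 h3
      exact_mod_cast h4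
    · exact absurd h3 Complex.I_ne_zero
  have hp : Function.Periodic H (2 * Real.pi) := hper
  rw [h1]
  exact (hp.int_mul n) b

theorem exp_arg (z : ℂ) (hz : z ≠ 0) :
    Complex.exp (Complex.arg z * Complex.I) = z / (‖z‖ : ℂ) := by
  have h := Complex.norm_mul_exp_arg_mul_I z
  have hn : (‖z‖ : ℂ) ≠ 0 := by exact_mod_cast norm_ne_zero_iff.2 hz
  rw [eq_div_iff hn, mul_comm]
  exact h

theorem arg_neg {H : ℝ → ℝ} (hper : ∀ θ, H (θ + 2 * Real.pi) = H θ) {z : ℂ} (hz : z ≠ 0) :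
    H (Complex.arg z) = H (Complex.arg (-z) + Real.pi) := by
  apply per_of_exp hper
  rw [exp_arg z hz]
  push_cast
  rw [add_mul, Complex.exp_add, exp_arg (-z) (neg_ne_zero.2 hz), Complex.exp_pi_mul_I, norm_neg]
  ring

theorem neg_mem_slit {z : ℂ} (hz : z ≠ 0) (h : z ∉ Complex.slitPlane) :
    -z ∈ Complex.slitPlane := by
  rw [Complex.mem_slitPlane_iff] at h ⊢
  push Not at h
  left
  rw [Complex.neg_re]
  rcases h.1.eq_or_lt with h1 | h1
  · exact absurd (Complex.ext h1 h.2) hz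
  · linarith

/-- a periodic continuous function of the argument is continuous away from the origin -/
theorem ang_continuousAt {H : ℝ → ℝ} (hH : Continuous H)
    (hper : ∀ θ, H (θ + 2 * Real.pi) = H θ) {z : ℝ × ℝ} (hz : z ≠ 0) :
    ContinuousAt (fun w => H (Complex.arg (cx w))) z := by
  by_cases h : cx z ∈ Complex.slitPlane
  · have h1 : ContinuousAt (fun w => Complex.arg (cx w)) z :=
      ContinuousAt.comp (Complex.continuousAt_arg h) cx_cont.continuousAt
    exact ContinuousAt.comp hH.continuousAt h1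
  · have h0 := neg_mem_slit (cx_ne hz) h
    have h1 : ContinuousAt (fun w => Complex.arg (-cx w)) z :=
      ContinuousAt.comp (g := Complex.arg) (f := fun w => -cx w)
        (Complex.continuousAt_arg h0) cx_cont.neg.continuousAt
    have h2 : ContinuousAt (fun w => H (Complex.arg (-cx w) + Real.pi)) z :=
      ContinuousAt.comp (g := H) (f := fun w => Complex.arg (-cx w) + Real.pi) hH.continuousAt
        (h1.add continuousAt_const)
    refine h2.congr ?_
    have h3 : ∀ᶠ w in 𝓝 z, w ≠ 0 := isOpen_ne.mem_nhds hz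
    filter_upwards [h3] with w hw
    exact (arg_neg hper (cx_ne hw)).symm

theorem bounds {ρ : ℝ → ℝ} (hc : Continuous ρ) (hpos : ∀ θ, 0 < ρ θ)
    (hper : ∀ θ, ρ (θ + 2 * Real.pi) = ρ θ) : ∃ a b : ℝ, 0 < a ∧ 0 < b ∧
      ∀ θ, a ≤ ρ θ ∧ ρ θ ≤ b := by
  have hp : Function.Periodic ρ (2 * Real.pi) := hper
  have hK : IsCompact (range ρ) := hp.compact_of_continuous (by positivity) hc
  obtain ⟨a, ha, ha'⟩ := hK.exists_isLeast (range_nonempty ρ)
  obtain ⟨b, hb, hb'⟩ := hK.exists_isGreatest (range_nonempty ρ)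
  obtain ⟨x, rfl⟩ := ha
  obtain ⟨y, rfl⟩ := hb
  exact ⟨ρ x, ρ y, hpos x, hpos y, fun θ => ⟨ha' (mem_range_self θ), hb' (mem_range_self θ)⟩⟩

theorem eden_cont {B : ℝ} {u : ℝ × ℝ → ℂ} (hu : ContDiff ℝ 1 u) :
    Continuous (fun x => eden B u x) := by
  have h1 : Continuous (fun x => fderiv ℝ u x) := hu.continuous_fderiv one_ne_zero
  have h2 : Continuous u := hu.continuous
  unfold eden
  have h3 : Continuous (fun x => fderiv ℝ u x ((1 : ℝ), (0 : ℝ))) := h1.clm_apply continuous_const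
  have h4 : Continuous (fun x => fderiv ℝ u x ((0 : ℝ), (1 : ℝ))) := h1.clm_apply continuous_const
  fun_prop

theorem int_of_cont {s : Set (ℝ × ℝ)} (hs : Bornology.IsBounded s) {f : ℝ × ℝ → ℝ}
    (hf : Continuous f) : IntegrableOn f s :=
  (hf.locallyIntegrable.integrableOn_isCompact hs.isCompact_closure).mono_set subset_closure

end U15

theorem uOpen : UOpen := by
  intro ρ hc hpos hper
  obtain ⟨a, b, ha, hb, hab⟩ := U15.bounds hc hpos hper
  constructor
  · rw [isOpen_iff_mem_nhds]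
    intro x hx
    by_cases h0 : x = 0
    · subst h0
      have h1 : Continuous (fun w : ℝ × ℝ => w.1 ^ 2 + w.2 ^ 2) := by fun_prop
      have h2 : ∀ᶠ w : ℝ × ℝ in 𝓝 0, w.1 ^ 2 + w.2 ^ 2 < a ^ 2 := by
        refine h1.continuousAt.eventually_lt continuousAt_const ?_
        have : 0 < a ^ 2 := by positivity
        simpa using this
      filter_upwards [h2] with w hw
      show w.1 ^ 2 + w.2 ^ 2 < _
      refine hw.trans_le ?_
      have := (hab (Complex.arg (⟨w.1, w.2⟩ : ℂ))).1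
      gcongr
    · have h1 : Continuous (fun w : ℝ × ℝ => w.1 ^ 2 + w.2 ^ 2) := by fun_prop
      have h2 := U15.ang_continuousAt hc hper h0
      exact h1.continuousAt.eventually_lt (h2.pow 2) hx
  · rw [isBounded_iff_forall_norm_le]
    refine ⟨b, fun x hx => ?_⟩
    have h1 : x.1 ^ 2 + x.2 ^ 2 < ρ (Complex.arg (⟨x.1, x.2⟩ : ℂ)) ^ 2 := hx
    have h2 := (hab (Complex.arg (⟨x.1, x.2⟩ : ℂ))).2
    have h3 := hpos (Complex.arg (⟨x.1, x.2⟩ : ℂ))
    have h4 : x.1 ^ 2 + x.2 ^ 2 < b ^ 2 := h1.trans_le (by gcongr)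
    rw [Prod.norm_def]
    refine max_le ?_ ?_
    · exact abs_le_of_sq_le_sq (by nlinarith [sq_nonneg x.2]) hb.le
    · exact abs_le_of_sq_le_sq (by nlinarith [sq_nonneg x.1]) hb.le

theorem uPolar (h1 : UTest) (h2 : UDens) (h3 : PInt) (h4 : UOpen) : UPolar := by
  intro P ρ ε h hP hρ hε hh
  have hpos : ∀ θ, 0 < ρ θ := fun θ => by
    have := (abs_le.1 (hρ.close θ)).1
    linarith
  obtain ⟨hop, hbd⟩ := h4 ρ hρ.cont hpos hρ.per
  have hu := (h1 P h hP hh).1
  have c1 : Continuous (fun x => ‖utest P h x‖ ^ 2) := by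
    have := hu.continuous
    fun_prop
  have c2 : Continuous (fun x => eden P.B (utest P h) x) := U15.eden_cont hu
  have i1 := U15.int_of_cont hbd c1
  have i2 := U15.int_of_cont hbd c2
  refine ⟨i1, i2, ?_⟩
  have c3 : Continuous (fun x => eden P.B (utest P h) x - P.lam * ‖utest P h x‖ ^ 2) :=
    c2.sub (continuous_const.mul c1)
  have i3 := U15.int_of_cont hbd c3
  have e1 : (∫ x in polarDom ρ, eden P.B (utest P h) x)
      - P.lam * (∫ x in polarDom ρ, ‖utest P h x‖ ^ 2)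
      = ∫ x in polarDom ρ, (eden P.B (utest P h) x - P.lam * ‖utest P h x‖ ^ 2) := by
    rw [integral_sub i2 (i1.const_mul _), integral_const_mul]
  rw [e1, (h3 ρ _ hρ.cont hpos hρ.per i3).2.2]
  refine intervalIntegral.integral_congr fun θ _ => ?_
  rw [intervalIntegral.integral_of_le (hpos θ).le, intervalIntegral.integral_of_le (hpos θ).le]
  refine setIntegral_congr_fun measurableSet_Ioc fun r hr => ?_
  rw [h2 P h r θ hP hh hr.1]

end Pool.Agent.MFK

end

section

/-! # Exact value of the form on the disc (item U17) -/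

set_option autoImplicit false

namespace Pool.Agent.MFK

open MeasureTheory Set Filter Topology

namespace U17

theorem swap (f : ℝ × ℝ → ℝ) (hf : Continuous f) (a b c d : ℝ) (hab : a ≤ b) (hcd : c ≤ d) :
    (∫ θ in a..b, ∫ r in c..d, f (r, θ)) = ∫ r in c..d, ∫ θ in a..b, f (r, θ) := by
  have h1 : ∀ θ : ℝ, (∫ r in c..d, f (r, θ)) = ∫ r in Ioc c d, f (r, θ) :=
    fun θ => intervalIntegral.integral_of_le hcd
  have h2 : ∀ r : ℝ, (∫ θ in a..b, f (r, θ)) = ∫ θ in Ioc a b, f (r, θ) :=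
    fun r => intervalIntegral.integral_of_le hab
  simp only [h1, h2]
  rw [intervalIntegral.integral_of_le hab, intervalIntegral.integral_of_le hcd]
  refine MeasureTheory.integral_integral_swap (f := fun θ r => f (r, θ)) ?_
  rw [Measure.prod_restrict]
  have hc : Continuous (Function.uncurry fun θ r : ℝ => f (r, θ)) :=
    hf.comp (continuous_snd.prodMk continuous_fst)
  have hK : IsCompact (Icc a b ×ˢ Icc c d) := isCompact_Icc.prod isCompact_Icc
  exact (hc.continuousOn.integrableOn_compact hK).mono_set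
    (Set.prod_mono Ioc_subset_Icc_self Ioc_subset_Icc_self)

/-- energy identity for a normalised mode -/
theorem mode (h2 : UEn) (h4 : RReg) (B lam : ℝ) (n : ℤ) (F : ℤ → ℝ → ℝ) (hR : Rad B lam n (F n)) :
    IntervalIntegrable (fun r => (deriv (fun t => radf n (F n) t / F n 1) r ^ 2
        + (qn B n r ^ 2 - lam) * (radf n (F n) r / F n 1) ^ 2) * r) volume 0 1 ∧
    (∫ r in (0 : ℝ)..1, (deriv (fun t => radf n (F n) t / F n 1) r ^ 2
        + (qn B n r ^ 2 - lam) * (radf n (F n) r / F n 1) ^ 2) * r) = dtn F n := by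
  obtain ⟨hI, hE⟩ := h2 B lam n (F n) hR
  obtain ⟨_, _, _, _, h1, _⟩ := h4 B lam n (F n) hR
  have hp : 0 < F n 1 := hR.pos 1 (by norm_num)
  have he : (fun r => (deriv (fun t => radf n (F n) t / F n 1) r ^ 2
        + (qn B n r ^ 2 - lam) * (radf n (F n) r / F n 1) ^ 2) * r)
      = fun r => (1 / F n 1 ^ 2) * ((deriv (radf n (F n)) r ^ 2
        + (qn B n r ^ 2 - lam) * radf n (F n) r ^ 2) * r) := by
    funext r
    have hd : deriv (fun t => radf n (F n) t / F n 1) r = deriv (radf n (F n)) r / F n 1 := by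
      simp only [div_eq_mul_inv]
      exact deriv_mul_const_field _
    rw [hd]
    field_simp
  rw [he]
  refine ⟨hI.const_mul _, ?_⟩
  rw [intervalIntegral.integral_const_mul, hE, h1]
  unfold dtn
  field_simp

theorem cont2 (X g : ℝ → ℝ) (hX : Continuous X) (hg : Continuous g) (s0 : ℝ) (hs : 0 < s0)
    (h0 : ∀ s ≤ s0, X s = 0) : Continuous (fun r : ℝ => (X (r ^ 2) * g r) ^ 2 / r) := by
  rw [continuous_iff_continuousAt]
  intro r
  by_cases hr : r = 0
  · subst hr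
    have hev : (fun r : ℝ => (X (r ^ 2) * g r) ^ 2 / r) =ᶠ[𝓝 0] fun _ => 0 := by
      have h1 : ∀ᶠ r : ℝ in 𝓝 0, r ^ 2 < s0 := by
        have hc : Continuous fun r : ℝ => r ^ 2 := by fun_prop
        have := hc.tendsto 0
        exact this.eventually_lt_const (by simpa using hs)
      filter_upwards [h1] with r hr
      rw [h0 _ hr.le]
      simp
    exact (continuousAt_const.congr hev.symm)
  · have h1 : ContinuousAt (fun r : ℝ => (X (r ^ 2) * g r) ^ 2) r := by
      have : Continuous (fun r : ℝ => (X (r ^ 2) * g r) ^ 2) := by fun_prop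
      exact this.continuousAt
    exact h1.div continuousAt_id hr

end U17

/-- exact value on the disc -/
theorem uDisc (h0 : UCont) (h1 : UDiscA) (h2 : UEn) (h3 : UPh) (h4 : RReg) : UDisc := by
  intro P h hG hA
  obtain ⟨f, hfc, hf⟩ := h0 P h hG hA
  have hpi : (0 : ℝ) ≤ 2 * Real.pi := by positivity
  -- replace the density by the continuous function
  have e1 : ∀ θ : ℝ, (∫ r in (0 : ℝ)..1, P.dens h r θ * r) = ∫ r in (0 : ℝ)..1, f (r, θ) := by
    intro θ
    rw [intervalIntegral.integral_of_le zero_le_one, intervalIntegral.integral_of_le zero_le_one]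
    refine setIntegral_congr_fun measurableSet_Ioc (fun r hr => ?_)
    exact (hf r θ hr.1).symm
  have e2 : (∫ θ in (0 : ℝ)..(2 * Real.pi), ∫ r in (0 : ℝ)..1, P.dens h r θ * r)
      = ∫ r in (0 : ℝ)..1, ∫ θ in (0 : ℝ)..(2 * Real.pi), f (r, θ) := by
    rw [← U17.swap f hfc 0 (2 * Real.pi) 0 1 hpi zero_le_one]
    exact intervalIntegral.integral_congr (fun θ _ => e1 θ)
  rw [e2]
  -- abbreviations
  set IH := ∫ θ in (0 : ℝ)..(2 * Real.pi), Hh h P.K θ ^ 2 with hIH
  set IK := ∫ θ in (0 : ℝ)..(2 * Real.pi), hhigh h P.K θ ^ 2 with hIK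
  let E0 : ℝ → ℝ := fun r => (deriv P.g r ^ 2 + (P.q r ^ 2 - P.lam) * P.g r ^ 2) * r
  let Eb : ℕ → ℝ → ℝ := fun k r =>
    (deriv (P.bb k) r ^ 2 + (qn P.B (P.m + k) r ^ 2 - P.lam) * P.bb k r ^ 2) * r
  let Ea : ℕ → ℝ → ℝ := fun k r =>
    (deriv (P.aa k) r ^ 2 + (qn P.B (P.m - k) r ^ 2 - P.lam) * P.aa k r ^ 2) * r
  let EG : ℝ → ℝ := fun r => (deriv P.GG r ^ 2 + (P.q r ^ 2 - P.lam) * P.GG r ^ 2) * r
  let EH : ℝ → ℝ := fun r => (P.X (r ^ 2) * P.g r) ^ 2 / r
  have e3 : (∫ r in (0 : ℝ)..1, ∫ θ in (0 : ℝ)..(2 * Real.pi), f (r, θ))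
      = ∫ r in (0 : ℝ)..1, (2 * Real.pi * E0 r
        + 2 * Real.pi * (∑ k ∈ Finset.Icc 2 P.K, hsq h k * (P.y k ^ 2 * Eb k r + P.x k ^ 2 * Ea k r))
        + EG r * IH + P.M ^ 2 * (EH r * IK)) := by
    rw [intervalIntegral.integral_of_le zero_le_one, intervalIntegral.integral_of_le zero_le_one]
    refine setIntegral_congr_fun measurableSet_Ioc (fun r hr => ?_)
    have hr0 : 0 < r := hr.1
    have hA1 := h1 P h r hG hA hr0
    have e4 : (∫ θ in (0 : ℝ)..(2 * Real.pi), f (r, θ))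
        = (∫ θ in (0 : ℝ)..(2 * Real.pi), P.dens h r θ) * r := by
      rw [← intervalIntegral.integral_mul_const]
      exact intervalIntegral.integral_congr (fun θ _ => hf r θ hr0)
    show (∫ θ in (0 : ℝ)..(2 * Real.pi), f (r, θ)) = _
    rw [e4, hA1]
    have e5 : P.GG r ^ 2 / r ^ 2 * IK * r = P.M ^ 2 * (EH r * IK) := by
      show P.GG r ^ 2 / r ^ 2 * IK * r = P.M ^ 2 * ((P.X (r ^ 2) * P.g r) ^ 2 / r * IK)
      unfold Par.GG
      field_simp
    have e6 : (∑ k ∈ Finset.Icc 2 P.K, hsq h k *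
        (P.y k ^ 2 * (deriv (P.bb k) r ^ 2 + (qn P.B (P.m + k) r ^ 2 - P.lam) * P.bb k r ^ 2)
          + P.x k ^ 2 * (deriv (P.aa k) r ^ 2 + (qn P.B (P.m - k) r ^ 2 - P.lam) * P.aa k r ^ 2))) * r
        = ∑ k ∈ Finset.Icc 2 P.K, hsq h k * (P.y k ^ 2 * Eb k r + P.x k ^ 2 * Ea k r) := by
      rw [Finset.sum_mul]
      refine Finset.sum_congr rfl (fun k _ => ?_)
      show _ = hsq h k * (P.y k ^ 2 * ((deriv (P.bb k) r ^ 2
        + (qn P.B (P.m + k) r ^ 2 - P.lam) * P.bb k r ^ 2) * r)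
        + P.x k ^ 2 * ((deriv (P.aa k) r ^ 2
          + (qn P.B (P.m - k) r ^ 2 - P.lam) * P.aa k r ^ 2) * r))
      ring
    rw [← e6, ← e5]
    show _ = 2 * Real.pi * ((deriv P.g r ^ 2 + (P.q r ^ 2 - P.lam) * P.g r ^ 2) * r) + _
      + ((deriv P.GG r ^ 2 + (P.q r ^ 2 - P.lam) * P.GG r ^ 2) * r) * IH + _
    ring
  rw [e3]
  -- the radial integrals
  have hD := hG.data
  have hF1 : 0 < P.F P.m 1 := (hD.rad P.m).pos 1 (by norm_num)
  have m0 := U17.mode h2 h4 P.B P.lam (P.m : ℤ) P.F (hD.rad _)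
  have mb : ∀ k : ℕ, IntervalIntegrable (Eb k) volume 0 1 ∧
      (∫ r in (0 : ℝ)..1, Eb k r) = dtn P.F (P.m + k) :=
    fun k => U17.mode h2 h4 P.B P.lam ((P.m : ℤ) + k) P.F (hD.rad _)
  have ma : ∀ k : ℕ, IntervalIntegrable (Ea k) volume 0 1 ∧
      (∫ r in (0 : ℝ)..1, Ea k r) = dtn P.F (P.m - k) :=
    fun k => U17.mode h2 h4 P.B P.lam ((P.m : ℤ) - k) P.F (hD.rad _)
  have m0i : IntervalIntegrable E0 volume 0 1 := m0.1
  have m0e : (∫ r in (0 : ℝ)..1, E0 r) = 0 := by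
    have := m0.2
    rw [hD.zero] at this
    exact this
  obtain ⟨s0, hs0, hX0⟩ := hG.X0
  have hd1 : deriv (radf (P.m : ℤ) (P.F P.m)) 1 = 0 := by
    have := hD.zero
    unfold dtn at this
    rcases (div_eq_zero_iff).1 this with h5 | h5
    · exact h5
    · exact absurd h5 hF1.ne'
  obtain ⟨hGi, hGe⟩ := h3 P.B P.lam (P.m : ℤ) (P.F P.m) P.X s0 (hD.rad _) hd1
    (hG.Xs.of_le (by norm_num)) hs0 hX0
  have hEG : EG = fun r => (P.M ^ 2 / P.F P.m 1 ^ 2) *
      ((deriv (fun t => P.X (t ^ 2) * radf (P.m : ℤ) (P.F P.m) t) r ^ 2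
      + (qn P.B (P.m : ℤ) r ^ 2 - P.lam) * (P.X (r ^ 2) * radf (P.m : ℤ) (P.F P.m) r) ^ 2) * r) := by
    funext r
    have hd : deriv P.GG r = P.M / P.F P.m 1 *
        deriv (fun t => P.X (t ^ 2) * radf (P.m : ℤ) (P.F P.m) t) r := by
      have hh : P.GG = fun t => P.M / P.F P.m 1 * (P.X (t ^ 2) * radf (P.m : ℤ) (P.F P.m) t) := by
        funext t
        unfold Par.GG Par.g
        ring
      rw [hh]
      exact deriv_const_mul_field _
    show (deriv P.GG r ^ 2 + (P.q r ^ 2 - P.lam) * P.GG r ^ 2) * r = _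
    rw [hd]
    unfold Par.GG Par.g Par.q
    field_simp
  have hEGi : IntervalIntegrable EG volume 0 1 := by
    rw [hEG]
    exact hGi.const_mul _
  have hEGe : (∫ r in (0 : ℝ)..1, EG r) = P.M ^ 2 * P.I1 := by
    rw [hEG, intervalIntegral.integral_const_mul, hGe]
    unfold Par.I1 Par.g
    rw [← intervalIntegral.integral_const_mul, ← intervalIntegral.integral_const_mul]
    refine intervalIntegral.integral_congr (fun r _ => ?_)
    show P.M ^ 2 / P.F P.m 1 ^ 2 * ((deriv (fun t => P.X (t ^ 2)) r) ^ 2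
        * radf (P.m : ℤ) (P.F P.m) r ^ 2 * r)
      = P.M ^ 2 * ((deriv (fun t => P.X (t ^ 2)) r) ^ 2 * (radf P.m (P.F P.m) r / P.F P.m 1) ^ 2 * r)
    field_simp
  have hgc : Continuous P.g := by
    obtain ⟨_, h5, _⟩ := h4 P.B P.lam (P.m : ℤ) (P.F P.m) (hD.rad _)
    exact h5.continuous.div_const _
  have hEHc : Continuous EH := U17.cont2 P.X P.g hG.Xs.continuous hgc s0 hs0 hX0
  have hEHi : IntervalIntegrable EH volume 0 1 := hEHc.intervalIntegrable 0 1
  have hEHe : (∫ r in (0 : ℝ)..1, EH r) = P.I2 := rfl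
  have hterm : ∀ k : ℕ, IntervalIntegrable (fun r =>
      hsq h k * (P.y k ^ 2 * Eb k r + P.x k ^ 2 * Ea k r)) volume 0 1 := fun k =>
    (((mb k).1.const_mul (P.y k ^ 2)).add ((ma k).1.const_mul (P.x k ^ 2))).const_mul (hsq h k)
  have hSi : IntervalIntegrable (fun r => ∑ k ∈ Finset.Icc 2 P.K,
      hsq h k * (P.y k ^ 2 * Eb k r + P.x k ^ 2 * Ea k r)) volume 0 1 := by
    have h6 := IntervalIntegrable.sum (Finset.Icc 2 P.K) (f := fun (k : ℕ) (r : ℝ) =>
      hsq h k * (P.y k ^ 2 * Eb k r + P.x k ^ 2 * Ea k r)) (fun k _ => hterm k)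
    refine h6.congr ?_
    intro r _
    simp
  have hSe : (∫ r in (0 : ℝ)..1, ∑ k ∈ Finset.Icc 2 P.K,
      hsq h k * (P.y k ^ 2 * Eb k r + P.x k ^ 2 * Ea k r))
      = ∑ k ∈ Finset.Icc 2 P.K, hsq h k *
        (P.y k ^ 2 * dtn P.F (P.m + k) + P.x k ^ 2 * dtn P.F (P.m - k)) := by
    rw [intervalIntegral.integral_finsetSum (fun k _ => hterm k)]
    refine Finset.sum_congr rfl (fun k _ => ?_)
    rw [intervalIntegral.integral_const_mul, intervalIntegral.integral_add
      ((mb k).1.const_mul _) ((ma k).1.const_mul _), intervalIntegral.integral_const_mul,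
      intervalIntegral.integral_const_mul, (mb k).2, (ma k).2]
  rw [intervalIntegral.integral_add
      (((m0i.const_mul _).add (hSi.const_mul _)).add (hEGi.mul_const _))
      ((hEHi.mul_const _).const_mul _),
    intervalIntegral.integral_add ((m0i.const_mul _).add (hSi.const_mul _)) (hEGi.mul_const _),
    intervalIntegral.integral_add (m0i.const_mul _) (hSi.const_mul _),
    intervalIntegral.integral_const_mul, intervalIntegral.integral_const_mul,
    intervalIntegral.integral_mul_const, intervalIntegral.integral_const_mul,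
    intervalIntegral.integral_mul_const, m0e, hSe, hEGe, hEHe]
  ring

end Pool.Agent.MFK

end

section

/-! # Integrated expansion of the outer part (item U20) -/

set_option autoImplicit false

namespace Pool.Agent.MFK

open MeasureTheory Set Filter Topology

namespace U20

lemma cont_Ck (h : ℝ → ℝ) (k : ℕ) : Continuous (Ck h k) := by
  unfold Ck
  fun_prop

lemma cont_V1 (P : Par) (h : ℝ → ℝ) (r : ℝ) : Continuous (fun θ => P.V1 h r θ) := by
  unfold Par.V1
  exact continuous_finsetSum _ (fun k _ => continuous_const.mul (cont_Ck h k))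

lemma cont_V2t (P : Par) (h : ℝ → ℝ) (r : ℝ) (hc : Continuous (hhigh h P.K)) :
    Continuous (fun θ => P.V2t h r θ) := by
  unfold Par.V2t
  exact (continuous_finsetSum _ (fun k _ => continuous_const.mul (cont_Ck h k))).add
    (continuous_const.mul hc)

lemma cont_lin (P : Par) (h : ℝ → ℝ) (hc : Continuous (hhigh h P.K)) : Continuous (P.lin h) := by
  unfold Par.lin
  exact (continuous_const.mul (cont_V2t P h 1 hc)).add (continuous_const.mul (cont_V1 P h 1))

lemma hlow_bound (h : ℝ → ℝ) (K : ℕ) (θ s : ℝ) (hs : ∀ k ∈ Finset.Icc 1 K, |Ck h k θ| ≤ s) :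
    |hlow h K θ| ≤ 2 * K * s := by
  unfold hlow
  calc |∑ k ∈ Finset.Icc 1 K, 2 * Ck h k θ| ≤ ∑ k ∈ Finset.Icc 1 K, |2 * Ck h k θ| :=
        Finset.abs_sum_le_sum_abs _ _
    _ ≤ ∑ _k ∈ Finset.Icc 1 K, 2 * s := by
        refine Finset.sum_le_sum (fun k hk => ?_)
        rw [abs_mul, abs_of_pos (two_pos : (0 : ℝ) < 2)]
        have := hs k hk
        linarith
    _ = 2 * K * s := by
        rw [Finset.sum_const, Nat.card_Icc, nsmul_eq_mul, Nat.add_sub_cancel]
        ring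

end U20

open U20 in
theorem uOut (h1 : UOutPt) (h2 : UFour5) (h3 : UInt) (h4 : UBary) (h5 : UFour1) (h6 : UFour2) :
    UOut := by
  intro P hP
  obtain ⟨C0, hC0, ε0, hε0, hpt⟩ := h1 P hP
  obtain ⟨Cb, hCb, hbar⟩ := h4
  have hpi := Real.pi_pos
  set c0 : ℝ := 2 * (P.K : ℝ) + 4 with hc0
  have hc0p : 1 ≤ c0 := by
    have : (0 : ℝ) ≤ P.K := by positivity
    rw [hc0]
    linarith
  refine ⟨C0 * (8 + 6 * c0 + 8 * Real.pi * c0 ^ 2), by positivity, min ε0 (1 / 2), by positivity, ?_⟩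
  intro ρ η hη hN
  have hη1 : η ≤ ε0 := hη.trans (min_le_left _ _)
  have hη2 : η ≤ 1 / 2 := hη.trans (min_le_right _ _)
  have hη0 : 0 ≤ η := (abs_nonneg _).trans (hN.close 0)
  obtain ⟨hA, -⟩ := hbar ρ η hη2 hN
  set h : ℝ → ℝ := fun s => (ρ s ^ 2 - 1) / 2 with hh
  set S : ℝ := ∫ θ in (0 : ℝ)..(2 * Real.pi), h θ ^ 2 with hS
  have hpi0 : (0 : ℝ) ≤ 2 * Real.pi := by positivity
  have hcont : Continuous h := hA.cont
  have hb : ∀ θ, |h θ| ≤ 2 * η := by
    intro θ
    have h7 := hN.close θ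
    have e : h θ = (ρ θ - 1) * ((ρ θ - 1) / 2 + 1) := by
      simp only [hh]
      ring
    rw [e, abs_mul]
    have h8 : |(ρ θ - 1) / 2 + 1| ≤ 2 := by
      rw [abs_le] at h7 ⊢
      constructor <;> linarith [h7.1, h7.2]
    calc |ρ θ - 1| * |(ρ θ - 1) / 2 + 1| ≤ η * 2 :=
          mul_le_mul h7 h8 (abs_nonneg _) hη0
      _ = 2 * η := by ring
  have hS0 : 0 ≤ S := intervalIntegral.integral_nonneg hpi0 (fun θ _ => sq_nonneg _)
  have hS1 : S ≤ (2 * η) ^ 2 * (2 * Real.pi) := by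
    have h7 : S ≤ ∫ θ in (0 : ℝ)..(2 * Real.pi), (2 * η) ^ 2 := by
      refine intervalIntegral.integral_mono_on hpi0 ?_ ?_ (fun θ _ => ?_)
      · exact (hcont.pow 2).intervalIntegrable _ _
      · exact continuous_const.intervalIntegrable _ _
      · exact sq_le_sq' (by linarith [(abs_le.1 (hb θ)).1]) (abs_le.1 (hb θ)).2
    rw [intervalIntegral.integral_const, smul_eq_mul, sub_zero] at h7
    linarith
  set s : ℝ := Real.sqrt S with hs
  have hs0 : 0 ≤ s := Real.sqrt_nonneg _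
  have hss : s ^ 2 = S := Real.sq_sqrt hS0
  have hs1 : s ≤ 6 * η := by
    rw [hs, Real.sqrt_le_left (by positivity)]
    refine hS1.trans ?_
    have h7 : Real.pi ≤ 4 := Real.pi_le_four
    have h8 : (2 * η) ^ 2 * (2 * Real.pi) = (8 * Real.pi) * η ^ 2 := by ring
    rw [h8]
    have h9 : (6 * η) ^ 2 = 36 * η ^ 2 := by ring
    rw [h9]
    exact mul_le_mul_of_nonneg_right (by linarith) (sq_nonneg _)
  obtain ⟨hCS, hq, hH⟩ := h2 h P.K hA
  obtain ⟨-, -, hhc, -, -⟩ := h6 h P.K hA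
  have hhS : ∫ θ in (0 : ℝ)..(2 * Real.pi), hhigh h P.K θ ^ 2 ≤ S := by
    have h7 := h5 h P.K hA
    have h8 : 0 ≤ 4 * Real.pi * ∑ k ∈ Finset.Icc 1 P.K, hsq h k := by
      refine mul_nonneg (by positivity) (Finset.sum_nonneg (fun k _ => ?_))
      unfold hsq
      positivity
    linarith
  have hCk : ∀ k : ℕ, 1 ≤ k → ∀ θ, |Ck h k θ| ≤ s ∧ |Sk h k θ| ≤ s := by
    intro k hk θ
    have h7 := hCS k θ
    have h8 : Real.sqrt (hsq h k) ≤ s := Real.sqrt_le_sqrt (hq k hk)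
    exact ⟨h7.1.trans h8, h7.2.trans h8⟩
  have hmain : ∀ θ, |(∫ r in (1 : ℝ)..(ρ θ), P.dens h r θ * r)
      - ((P.p ^ 2 - P.lam) * h θ + P.p * P.M * h θ ^ 2 + 2 * h θ * P.lin h θ)|
      ≤ C0 * ((8 + 6 * c0) * η) * h θ ^ 2 + C0 * (4 * c0 ^ 2 * η * S) := by
    intro θ
    have hR0 : 0 ≤ |h θ| + c0 * s := by positivity
    have hsR : s ≤ |h θ| + c0 * s := by nlinarith [abs_nonneg (h θ)]
    have h7 := hpt h θ (ρ θ) (|h θ| + c0 * s) hA ((hN.close θ).trans hη1) hR0 ?_ ?_ ?_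
    · have e : (ρ θ ^ 2 - 1) / 2 = h θ := rfl
      rw [e] at h7
      refine h7.trans ?_
      have h8 : |h θ| ^ 2 = h θ ^ 2 := sq_abs _
      have h9 := hb θ
      have h10 := abs_nonneg (h θ)
      rw [mul_assoc C0, ← mul_add]
      refine mul_le_mul_of_nonneg_left ?_ hC0.le
      rw [← h8]
      generalize |h θ| = x at *
      have h11 : x ^ 2 * x ≤ x ^ 2 * (2 * η) := mul_le_mul_of_nonneg_left h9 (sq_nonneg _)
      have h12 : x ^ 2 * (c0 * s) ≤ x ^ 2 * (c0 * (6 * η)) :=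
        mul_le_mul_of_nonneg_left (mul_le_mul_of_nonneg_left hs1 (by linarith)) (sq_nonneg _)
      have h13 : x * (x + c0 * s) ^ 2 ≤ x * (2 * (x ^ 2 + (c0 * s) ^ 2)) := by
        refine mul_le_mul_of_nonneg_left ?_ h10
        nlinarith [sq_nonneg (x - c0 * s)]
      have h14 : x * (c0 ^ 2 * S) ≤ (2 * η) * (c0 ^ 2 * S) :=
        mul_le_mul_of_nonneg_right h9 (by positivity)
      have h15 : (c0 * s) ^ 2 = c0 ^ 2 * S := by rw [mul_pow, hss]
      rw [h15] at h13
      nlinarith [h11, h12, h13, h14]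
    · have h8 : |hlow h P.K θ| ≤ 2 * P.K * s :=
        hlow_bound h P.K θ s (fun k hk => (hCk k (Finset.mem_Icc.1 hk).1 θ).1)
      unfold hhigh
      calc |h θ - hlow h P.K θ| ≤ |h θ| + |hlow h P.K θ| := abs_sub _ _
        _ ≤ |h θ| + c0 * s := by
          rw [hc0]
          nlinarith
    · refine (hH θ).trans ?_
      have h8 : Real.sqrt (∫ θ in (0 : ℝ)..(2 * Real.pi), hhigh h P.K θ ^ 2) ≤ s :=
        Real.sqrt_le_sqrt hhS
      have h9 : (0 : ℝ) ≤ 2 * P.K * s := by positivity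
      rw [hc0]
      nlinarith [abs_nonneg (h θ)]
    · intro k hk
      have h8 := hCk k (by have := (Finset.mem_Icc.1 hk).1; omega) θ
      exact ⟨h8.1.trans hsR, h8.2.trans hsR⟩
  -- continuity
  have hρ0 : ∀ θ, 0 ≤ ρ θ := by
    intro θ
    have := (abs_le.1 (hN.close θ)).1
    linarith
  obtain ⟨hi1, hi2⟩ := h3 P h hP hA
  have hDc : Continuous (fun θ => ∫ r in (1 : ℝ)..(ρ θ), P.dens h r θ * r) := by
    have e : (fun θ => ∫ r in (1 : ℝ)..(ρ θ), P.dens h r θ * r) = fun θ =>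
        (∫ r in (0 : ℝ)..(ρ θ), P.dens h r θ * r) - ∫ r in (0 : ℝ)..((fun _ => (1 : ℝ)) θ),
          P.dens h r θ * r := by
      funext θ
      exact (intervalIntegral.integral_interval_sub_left (hi1 θ (ρ θ) (hρ0 θ))
        (hi1 θ 1 zero_le_one)).symm
    rw [e]
    exact (hi2 ρ hN.cont hρ0).sub (hi2 (fun _ => 1) continuous_const (fun _ => zero_le_one))
  have hlin := cont_lin P h hhc
  have i1 : IntervalIntegrable (fun θ => ∫ r in (1 : ℝ)..(ρ θ), P.dens h r θ * r) volume 0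
      (2 * Real.pi) := hDc.intervalIntegrable _ _
  have i2 : IntervalIntegrable (fun θ => (P.p ^ 2 - P.lam) * h θ) volume 0 (2 * Real.pi) :=
    (continuous_const.mul hcont).intervalIntegrable _ _
  have i3 : IntervalIntegrable (fun θ => P.p * P.M * h θ ^ 2) volume 0 (2 * Real.pi) :=
    (continuous_const.mul (hcont.pow 2)).intervalIntegrable _ _
  have i4 : IntervalIntegrable (fun θ => 2 * h θ * P.lin h θ) volume 0 (2 * Real.pi) :=
    ((continuous_const.mul hcont).mul hlin).intervalIntegrable _ _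
  have hI : (∫ θ in (0 : ℝ)..(2 * Real.pi), ((∫ r in (1 : ℝ)..(ρ θ), P.dens h r θ * r)
      - ((P.p ^ 2 - P.lam) * h θ + P.p * P.M * h θ ^ 2 + 2 * h θ * P.lin h θ))) =
      (∫ θ in (0 : ℝ)..(2 * Real.pi), ∫ r in (1 : ℝ)..(ρ θ), P.dens h r θ * r) -
      (P.p * P.M * (∫ θ in (0 : ℝ)..(2 * Real.pi), h θ ^ 2) +
        2 * ∫ θ in (0 : ℝ)..(2 * Real.pi), h θ * P.lin h θ) := by
    rw [intervalIntegral.integral_sub i1 ((i2.add i3).add i4),
      intervalIntegral.integral_add (i2.add i3) i4, intervalIntegral.integral_add i2 i3,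
      intervalIntegral.integral_const_mul, intervalIntegral.integral_const_mul, hA.mean]
    have e : (∫ θ in (0 : ℝ)..(2 * Real.pi), 2 * h θ * P.lin h θ) =
        2 * ∫ θ in (0 : ℝ)..(2 * Real.pi), h θ * P.lin h θ := by
      rw [← intervalIntegral.integral_const_mul]
      exact intervalIntegral.integral_congr (fun θ _ => by ring)
    rw [e]
    ring
  have e1 : (∫ θ in (0 : ℝ)..(2 * Real.pi), ((ρ θ ^ 2 - 1) / 2) * P.lin h θ) =
    ∫ θ in (0 : ℝ)..(2 * Real.pi), h θ * P.lin h θ := rfl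
  rw [← hS] at hI
  rw [e1, ← hI]
  have hfc : Continuous (fun θ => (∫ r in (1 : ℝ)..(ρ θ), P.dens h r θ * r)
      - ((P.p ^ 2 - P.lam) * h θ + P.p * P.M * h θ ^ 2 + 2 * h θ * P.lin h θ)) :=
    hDc.sub (((continuous_const.mul hcont).add (continuous_const.mul (hcont.pow 2))).add
      ((continuous_const.mul hcont).mul hlin))
  refine (intervalIntegral.abs_integral_le_integral_abs hpi0).trans ?_
  have j1 : IntervalIntegrable (fun θ => C0 * ((8 + 6 * c0) * η) * h θ ^ 2) volume 0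
      (2 * Real.pi) := (continuous_const.mul (hcont.pow 2)).intervalIntegrable _ _
  have j2 : IntervalIntegrable (fun _ : ℝ => C0 * (4 * c0 ^ 2 * η * S)) volume 0
      (2 * Real.pi) := continuous_const.intervalIntegrable _ _
  have j3 : IntervalIntegrable (fun θ => C0 * ((8 + 6 * c0) * η) * h θ ^ 2 +
      C0 * (4 * c0 ^ 2 * η * S)) volume 0 (2 * Real.pi) := j1.add j2
  refine (intervalIntegral.integral_mono_on hpi0 (hfc.abs.intervalIntegrable _ _) j3
    (fun θ _ => hmain θ)).trans ?_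
  rw [intervalIntegral.integral_add j1 j2, intervalIntegral.integral_const_mul,
    intervalIntegral.integral_const, smul_eq_mul, sub_zero, ← hS]
  apply le_of_eq
  ring

end Pool.Agent.MFK

end

section

set_option autoImplicit false

namespace Pool.Agent.MFK

open MeasureTheory Set Filter Topology

namespace U21

theorem radf_one (n : ℤ) (F : ℝ → ℝ) : radf n F 1 = F 1 := by
  simp [radf]

theorem cont_Ck (h : ℝ → ℝ) (k : ℕ) : Continuous (fun θ => Ck h k θ) := by
  unfold Ck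
  fun_prop

theorem bb_one (P : Par) (hG : P.Good) (k : ℕ) : P.bb k 1 = 1 := by
  have h := (hG.data.rad (P.m + k)).pos 1 (by norm_num)
  unfold Par.bb
  rw [radf_one]
  exact div_self h.ne'

theorem aa_one (P : Par) (hG : P.Good) (k : ℕ) : P.aa k 1 = 1 := by
  have h := (hG.data.rad (P.m - k)).pos 1 (by norm_num)
  unfold Par.aa
  rw [radf_one]
  exact div_self h.ne'

theorem g_one (P : Par) (hG : P.Good) : P.g 1 = 1 := by
  have h := (hG.data.rad P.m).pos 1 (by norm_num)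
  unfold Par.g
  rw [radf_one]
  exact div_self h.ne'

theorem X_one (P : Par) (hG : P.Good) : P.X 1 = 1 := by
  obtain ⟨s1, hs1, h⟩ := hG.X1
  exact h 1 hs1.le

theorem GG_one (P : Par) (hG : P.Good) : P.GG 1 = P.M := by
  unfold Par.GG
  rw [one_pow, X_one P hG, g_one P hG]
  ring

theorem lin_eq (P : Par) (hG : P.Good) (h : ℝ → ℝ) (θ : ℝ) :
    h θ * P.lin h θ = (∑ k ∈ Finset.Icc 2 P.K,
      (P.y k * (P.p ^ 2 - P.lam - k * P.p) + P.x k * (P.p ^ 2 - P.lam + k * P.p)) * (h θ * Ck h k θ))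
      - P.p * P.M * (h θ * hhigh h P.K θ) := by
  unfold Par.lin Par.V2t Par.V1 Par.ps Par.ph
  simp only [bb_one P hG, aa_one P hG, GG_one P hG, mul_one]
  have e1 : (∑ k ∈ Finset.Icc 2 P.K,
      (P.y k * (P.p ^ 2 - P.lam - k * P.p) + P.x k * (P.p ^ 2 - P.lam + k * P.p)) * (h θ * Ck h k θ))
      = h θ * (-P.p * (∑ k ∈ Finset.Icc 2 P.K, (k : ℝ) * (P.y k - P.x k) * Ck h k θ)
        + (P.p ^ 2 - P.lam) * ∑ k ∈ Finset.Icc 2 P.K, (P.y k + P.x k) * Ck h k θ) := by
    rw [Finset.mul_sum, Finset.mul_sum, ← Finset.sum_add_distrib, Finset.mul_sum]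
    refine Finset.sum_congr rfl fun k _ => ?_
    ring
  rw [e1]
  ring

end U21

theorem uLin (h1 : UFour4) (h2 : UFour2) : ULin := by
  intro P h hG hA
  obtain ⟨hCk, hhh⟩ := h1 h P.K hA
  have hcont := (h2 h P.K hA).2.2.1
  have hc : Continuous h := hA.cont
  simp only [U21.lin_eq P hG h]
  have i1 : ∀ k : ℕ, Continuous (fun θ => (P.y k * (P.p ^ 2 - P.lam - k * P.p)
      + P.x k * (P.p ^ 2 - P.lam + k * P.p)) * (h θ * Ck h k θ)) := fun k =>
    continuous_const.mul (hc.mul (U21.cont_Ck h k))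
  rw [intervalIntegral.integral_sub, intervalIntegral.integral_finsetSum,
    intervalIntegral.integral_const_mul, hhh]
  · congr 1
    rw [Finset.mul_sum]
    refine Finset.sum_congr rfl fun k hk => ?_
    rw [intervalIntegral.integral_const_mul, hCk k (by have := (Finset.mem_Icc.1 hk).1; omega)]
    ring
  · intro k _
    exact (i1 k).intervalIntegrable _ _
  · exact (continuous_finsetSum _ fun k _ => i1 k).intervalIntegrable _ _
  · exact (continuous_const.mul (hc.mul hcont)).intervalIntegrable _ _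

end Pool.Agent.MFK

end

section

/-! # Existence of good parameters (item U8) -/

set_option autoImplicit false

namespace Pool.Agent.MFK

open MeasureTheory Set Filter Topology

namespace U8

/-- the cut-off -/
noncomputable def cut (s0 s1 : ℝ) (s : ℝ) : ℝ := Real.smoothTransition ((s - s0) / (s1 - s0))

lemma cut_smooth (s0 s1 : ℝ) : ContDiff ℝ 2 (cut s0 s1) := by
  unfold cut
  exact Real.smoothTransition.contDiff.comp ((contDiff_id.sub contDiff_const).div_const _)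

lemma cut_zero {s0 s1 s : ℝ} (h : s0 < s1) (hs : s ≤ s0) : cut s0 s1 s = 0 := by
  unfold cut
  exact Real.smoothTransition.zero_of_nonpos
    (div_nonpos_of_nonpos_of_nonneg (by linarith) (by linarith))

lemma cut_one {s0 s1 s : ℝ} (h : s0 < s1) (hs : s1 ≤ s) : cut s0 s1 s = 1 := by
  unfold cut
  refine Real.smoothTransition.one_of_one_le ?_
  rw [le_div_iff₀ (by linarith)]
  linarith

lemma cut_nonneg (s0 s1 s : ℝ) : 0 ≤ cut s0 s1 s := Real.smoothTransition.nonneg _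
lemma cut_le_one (s0 s1 s : ℝ) : cut s0 s1 s ≤ 1 := Real.smoothTransition.le_one _

/-- bound for the second integral -/
lemma I2_le (g : ℝ → ℝ) (hg : Continuous g) (C a s1 : ℝ) (hC : ∀ r ∈ Icc (0 : ℝ) 1, |g r| ≤ C)
    (ha : 1 / 2 ≤ a) (ha1 : a < 1) (hs1 : a ^ 2 < s1) :
    (∫ r in (0 : ℝ)..1, (cut (a ^ 2) s1 (r ^ 2) * g r) ^ 2 / r) ≤ 2 * C ^ 2 * (1 - a) := by
  have hC0 : 0 ≤ C := (abs_nonneg _).trans (hC 0 ⟨le_refl _, zero_le_one⟩)
  have ha0 : 0 < a := by linarith
  have hz : ∀ r ∈ Icc (0 : ℝ) a, (cut (a ^ 2) s1 (r ^ 2) * g r) ^ 2 / r = 0 := by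
    intro r hr
    have : r ^ 2 ≤ a ^ 2 := pow_le_pow_left₀ hr.1 hr.2 2
    rw [cut_zero hs1 this]
    simp
  have hi1 : IntervalIntegrable (fun r : ℝ => (cut (a ^ 2) s1 (r ^ 2) * g r) ^ 2 / r) volume 0 a := by
    have h0 : IntervalIntegrable (fun _ : ℝ => (0 : ℝ)) volume 0 a := intervalIntegrable_const
    refine h0.congr ?_
    intro r hr
    rw [uIoc_of_le ha0.le] at hr
    exact (hz r ⟨hr.1.le, hr.2⟩).symm
  have hi2 : IntervalIntegrable (fun r : ℝ => (cut (a ^ 2) s1 (r ^ 2) * g r) ^ 2 / r) volume a 1 := by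
    refine ContinuousOn.intervalIntegrable ?_
    rw [uIcc_of_le ha1.le]
    refine ContinuousOn.div ?_ continuousOn_id ?_
    · have hc : Continuous (fun r : ℝ => cut (a ^ 2) s1 (r ^ 2)) :=
        (cut_smooth _ _).continuous.comp (continuous_pow 2)
      exact ((hc.mul hg).pow 2).continuousOn
    · intro r hr
      exact (lt_of_lt_of_le ha0 hr.1).ne'
  rw [← intervalIntegral.integral_add_adjacent_intervals hi1 hi2]
  have e1 : (∫ r in (0 : ℝ)..a, (cut (a ^ 2) s1 (r ^ 2) * g r) ^ 2 / r) = 0 := by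
    rw [intervalIntegral.integral_congr (g := fun _ => (0 : ℝ))]
    · simp
    · intro r hr
      rw [uIcc_of_le ha0.le] at hr
      exact hz r hr
  rw [e1, zero_add]
  have e2 : ‖∫ r in a..1, (cut (a ^ 2) s1 (r ^ 2) * g r) ^ 2 / r‖ ≤ 2 * C ^ 2 * |1 - a| := by
    refine intervalIntegral.norm_integral_le_of_norm_le_const ?_
    intro r hr
    rw [uIoc_of_le ha1.le] at hr
    have hr0 : 0 < r := lt_trans ha0 hr.1
    have hgr := hC r ⟨hr0.le, hr.2⟩
    have h1 : |cut (a ^ 2) s1 (r ^ 2) * g r| ≤ C := by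
      rw [abs_mul, abs_of_nonneg (cut_nonneg _ _ _)]
      calc cut (a ^ 2) s1 (r ^ 2) * |g r| ≤ 1 * |g r| :=
            mul_le_mul_of_nonneg_right (cut_le_one _ _ _) (abs_nonneg _)
        _ = |g r| := one_mul _
        _ ≤ C := hgr
    have h2 : (cut (a ^ 2) s1 (r ^ 2) * g r) ^ 2 ≤ C ^ 2 := by
      rw [← sq_abs]
      exact pow_le_pow_left₀ (abs_nonneg _) h1 2
    rw [Real.norm_of_nonneg (div_nonneg (sq_nonneg _) hr0.le), div_le_iff₀ hr0]
    have h3 : 1 ≤ 2 * r := by linarith [hr.1]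
    nlinarith [sq_nonneg C, mul_le_mul_of_nonneg_left h3 (sq_nonneg C)]
  rw [abs_of_pos (by linarith : (0 : ℝ) < 1 - a)] at e2
  exact (le_abs_self _).trans e2

end U8

theorem uPar (h : RReg) : UPar := by
  intro B lam m F hB data hp hneg
  obtain ⟨hd, -, -, hpos, -, -, -, -⟩ := h B lam m (F m) (data.rad m)
  -- the normalised ground state
  set g : ℝ → ℝ := fun r => radf m (F m) r / F m 1 with hgdef
  have hgc : Continuous g :=
    (continuous_iff_continuousAt.2 fun r => (hd r).continuousAt).div_const _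
  obtain ⟨C, hC⟩ : ∃ C, ∀ r ∈ Icc (0 : ℝ) 1, |g r| ≤ C := by
    obtain ⟨C, hC⟩ := isCompact_Icc.exists_bound_of_continuousOn (s := Icc (0 : ℝ) 1) hgc.continuousOn
    exact ⟨C, fun r hr => hC r hr⟩
  set p : ℝ := B / 2 - m with hpdef
  set M : ℝ := B / 2 + m with hMdef
  have hM : 0 < M := by
    have : (0 : ℝ) ≤ m := Nat.cast_nonneg m
    rw [hMdef]; linarith
  -- the choice of the cut-off
  set δ : ℝ := min (1 / 2) (p / (8 * M * (C ^ 2 + 1))) with hδ
  have hden : 0 < 8 * M * (C ^ 2 + 1) := by positivity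
  have hδ0 : 0 < δ := lt_min (by norm_num) (div_pos hp hden)
  have hδ1 : δ ≤ 1 / 2 := min_le_left _ _
  have hδ2 : δ * (8 * M * (C ^ 2 + 1)) ≤ p := by
    rw [← le_div_iff₀ hden]
    exact min_le_right _ _
  set a : ℝ := 1 - δ with ha
  have ha1 : a < 1 := by rw [ha]; linarith
  have ha2 : 1 / 2 ≤ a := by rw [ha]; linarith
  have ha0 : 0 < a := by linarith
  have hasq : a ^ 2 < 1 := by nlinarith
  set s1 : ℝ := (a ^ 2 + 1) / 2 with hs1
  have hs1a : a ^ 2 < s1 := by rw [hs1]; linarith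
  have hs1b : s1 < 1 := by rw [hs1]; linarith
  set X : ℝ → ℝ := U8.cut (a ^ 2) s1 with hX
  have hI2 := U8.I2_le g hgc C a s1 hC ha2 ha1 hs1a
  -- the choice of `K`
  set I1 : ℝ := ∫ r in (0 : ℝ)..1, (deriv (fun t => X (t ^ 2)) r) ^ 2 * g r ^ 2 * r with hI1
  obtain ⟨K, hK⟩ := exists_nat_ge (4 * M * |I1| / p)
  have hch : ∀ k : ℕ, ∃ xy : ℝ × ℝ, 2 ≤ k → 2 * p * M + 2 * xy.2 * (p ^ 2 - lam - k * p)
      + 2 * xy.1 * (p ^ 2 - lam + k * p) + xy.2 ^ 2 * dtn F ((m : ℤ) + k)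
      + xy.1 ^ 2 * dtn F ((m : ℤ) - k) < 0 := by
    intro k
    by_cases hk : 2 ≤ k
    · obtain ⟨x, y, hxy⟩ := hneg k hk
      exact ⟨(x, y), fun _ => hxy⟩
    · exact ⟨(0, 0), fun h => absurd h hk⟩
  choose xy hxy using hch
  refine ⟨⟨B, lam, m, F, fun k => (xy k).1, fun k => (xy k).2, K, X⟩, ?_, rfl, rfl⟩
  refine ⟨hB, data, hp, U8.cut_smooth _ _, ⟨a ^ 2, by positivity, fun s hs => U8.cut_zero hs1a hs⟩,
    ⟨s1, hs1b, fun s hs => U8.cut_one hs1a hs⟩, ?_, ?_⟩
  · intro k hk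
    exact hxy k (Finset.mem_Icc.1 hk).1
  · change M ^ 2 * (I1 / ((K : ℝ) + 1) ^ 2
      + ∫ r in (0 : ℝ)..1, (X (r ^ 2) * g r) ^ 2 / r) ≤ p * M / 2
    have hA : M ^ 2 * (∫ r in (0 : ℝ)..1, (X (r ^ 2) * g r) ^ 2 / r) ≤ p * M / 4 := by
      have h1 : M ^ 2 * (∫ r in (0 : ℝ)..1, (X (r ^ 2) * g r) ^ 2 / r)
          ≤ M ^ 2 * (2 * C ^ 2 * (1 - a)) := mul_le_mul_of_nonneg_left hI2 (sq_nonneg M)
      have h2 : 1 - a = δ := by rw [ha]; ring
      rw [h2] at h1
      have h3 : M * (δ * (8 * M * (C ^ 2 + 1))) ≤ M * p := mul_le_mul_of_nonneg_left hδ2 hM.le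
      have h4 : 0 ≤ M ^ 2 * δ := by positivity
      nlinarith [h1, h3, h4]
    have hBd : M ^ 2 * (I1 / ((K : ℝ) + 1) ^ 2) ≤ p * M / 4 := by
      have hK0 : (0 : ℝ) ≤ K := Nat.cast_nonneg K
      have hK1 : 4 * M * |I1| ≤ K * p := by rwa [div_le_iff₀ hp] at hK
      have hsq : (K : ℝ) ≤ ((K : ℝ) + 1) ^ 2 := by nlinarith
      have hsq0 : (0 : ℝ) < ((K : ℝ) + 1) ^ 2 := by positivity
      rw [← mul_div_assoc, div_le_iff₀ hsq0]
      have h5 : M ^ 2 * I1 ≤ M ^ 2 * |I1| := mul_le_mul_of_nonneg_left (le_abs_self _) (sq_nonneg M)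
      have h6 : M * (4 * M * |I1|) ≤ M * (K * p) := mul_le_mul_of_nonneg_left hK1 hM.le
      have h7 : M * p * K ≤ M * p * ((K : ℝ) + 1) ^ 2 :=
        mul_le_mul_of_nonneg_left hsq (mul_pos hM hp).le
      nlinarith [h5, h6, h7]
    rw [mul_add]
    linarith

end Pool.Agent.MFK

end

section

/-! Item U9: smoothness and polar form of the modes. -/

set_option autoImplicit false

namespace Pool.Agent.MFK

open MeasureTheory Set Filter Topology

namespace U9

lemma cd1 : ContDiff ℝ 1 (fun z : ℝ × ℝ => (⟨z.1, z.2⟩ : ℂ)) := by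
  have e : (fun z : ℝ × ℝ => (⟨z.1, z.2⟩ : ℂ)) =
      fun z : ℝ × ℝ => ((z.1 : ℝ) : ℂ) + ((z.2 : ℝ) : ℂ) * Complex.I := by
    funext z; exact Complex.mk_eq_add_mul_I _ _
  rw [e]
  exact (Complex.ofRealCLM.contDiff.comp contDiff_fst).add
    ((Complex.ofRealCLM.contDiff.comp contDiff_snd).mul contDiff_const)

lemma cd2 : ContDiff ℝ 1 (fun z : ℝ × ℝ => (⟨z.1, -z.2⟩ : ℂ)) := by
  have e : (fun z : ℝ × ℝ => (⟨z.1, -z.2⟩ : ℂ)) =
      fun z : ℝ × ℝ => ((z.1 : ℝ) : ℂ) + (-((z.2 : ℝ) : ℂ)) * Complex.I := by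
    funext z; rw [Complex.mk_eq_add_mul_I]; push_cast; ring
  rw [e]
  exact (Complex.ofRealCLM.contDiff.comp contDiff_fst).add
    ((Complex.ofRealCLM.contDiff.comp contDiff_snd).neg.mul contDiff_const)

lemma pol1 (r θ : ℝ) (N : ℕ) : (⟨r * Real.cos θ, r * Real.sin θ⟩ : ℂ) ^ N =
    (r : ℂ) ^ N * Complex.exp (Complex.I * N * θ) := by
  have e : (⟨r * Real.cos θ, r * Real.sin θ⟩ : ℂ) = (r : ℂ) * Complex.exp (θ * Complex.I) := by
    rw [Complex.mk_eq_add_mul_I, Complex.exp_mul_I]; push_cast; ring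
  rw [e, mul_pow, ← Complex.exp_nat_mul]
  congr 2; ring

lemma pol2 (r θ : ℝ) (N : ℕ) : (⟨r * Real.cos θ, -(r * Real.sin θ)⟩ : ℂ) ^ N =
    (r : ℂ) ^ N * Complex.exp (-(Complex.I * N * θ)) := by
  have e : (⟨r * Real.cos θ, -(r * Real.sin θ)⟩ : ℂ) =
      (r : ℂ) * Complex.exp ((-θ : ℂ) * Complex.I) := by
    rw [Complex.mk_eq_add_mul_I, Complex.exp_mul_I, Complex.cos_neg, Complex.sin_neg]
    push_cast; ring
  rw [e, mul_pow, ← Complex.exp_nat_mul]
  congr 2; ring

end U9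

open U9 in
theorem uMode : UMode := by
  intro n F hF
  have hF1 : ContDiff ℝ 1 (fun z : ℝ × ℝ => ((F (z.1 ^ 2 + z.2 ^ 2) : ℝ) : ℂ)) := by
    have h1 : ContDiff ℝ 1 (fun z : ℝ × ℝ => z.1 ^ 2 + z.2 ^ 2) :=
      (contDiff_fst.pow 2).add (contDiff_snd.pow 2)
    exact Complex.ofRealCLM.contDiff.comp ((hF.of_le (by norm_num)).comp h1)
  refine ⟨?_, ?_⟩
  · unfold wmode
    by_cases hn : 0 ≤ n
    · simp only [hn, if_true]
      exact (cd1.pow _).mul hF1
    · simp only [hn, if_false]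
      exact (cd2.pow _).mul hF1
  · intro r θ _
    have hr : (r * Real.cos θ) ^ 2 + (r * Real.sin θ) ^ 2 = r ^ 2 := by
      have := Real.sin_sq_add_cos_sq θ
      nlinarith
    unfold wmode pt radf
    simp only [hr]
    by_cases hn : 0 ≤ n
    · rw [if_pos hn, pol1]
      have e : ((n.natAbs : ℕ) : ℂ) = (n : ℂ) := by
        have h1 : ((n.natAbs : ℤ)) = n := Int.natAbs_of_nonneg hn
        calc ((n.natAbs : ℕ) : ℂ) = (((n.natAbs : ℕ) : ℤ) : ℂ) := (Int.cast_natCast _).symm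
          _ = (n : ℂ) := by rw [h1]
      rw [e]; push_cast; ring
    · rw [if_neg hn, pol2]
      have e : ((n.natAbs : ℕ) : ℂ) = -(n : ℂ) := by
        have h1 : ((n.natAbs : ℤ)) = -n := Int.ofNat_natAbs_of_nonpos (by omega)
        calc ((n.natAbs : ℕ) : ℂ) = (((n.natAbs : ℕ) : ℤ) : ℂ) := (Int.cast_natCast _).symm
          _ = -(n : ℂ) := by rw [h1, Int.cast_neg]
      rw [e]
      have e2 : -(Complex.I * -(n : ℂ) * θ) = Complex.I * n * θ := by ring
      rw [e2]; push_cast; ring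

end Pool.Agent.MFK

end

section

/-! # The energy excess is negative -/

set_option autoImplicit false

namespace Pool.Agent.MFK

open MeasureTheory Set Filter Topology

namespace UJ

theorem exists_neg_bound {ι : Type*} (S : Finset ι) (f : ι → ℝ) (h : ∀ k ∈ S, f k < 0) :
    ∃ c > (0 : ℝ), ∀ k ∈ S, f k ≤ -c := by
  classical
  induction S using Finset.induction_on with
  | empty => exact ⟨1, one_pos, by simp⟩
  | insert a S ha ih =>
    obtain ⟨c, hc, h1⟩ := ih (fun k hk => h k (Finset.mem_insert_of_mem hk))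
    refine ⟨min c (-f a), lt_min hc (by linarith [h a (Finset.mem_insert_self _ _)]), ?_⟩
    intro k hk
    rcases Finset.mem_insert.1 hk with rfl | hk
    · linarith [min_le_right c (-f k)]
    · linarith [min_le_left c (-f a), h1 k hk]

theorem hsq_nonneg (h : ℝ → ℝ) (k : ℕ) : 0 ≤ hsq h k := by unfold hsq; positivity

theorem sum_one_le (h : ℝ → ℝ) (K : ℕ) :
    ∑ k ∈ Finset.Icc 1 K, hsq h k ≤ hsq h 1 + ∑ k ∈ Finset.Icc 2 K, hsq h k := by
  have h1 : Finset.Icc 1 K ⊆ insert 1 (Finset.Icc 2 K) := by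
    intro k hk
    simp only [Finset.mem_Icc, Finset.mem_insert] at hk ⊢
    omega
  refine (Finset.sum_le_sum_of_subset_of_nonneg h1 (fun i _ _ => hsq_nonneg h i)).trans ?_
  rw [Finset.sum_insert (by simp)]

theorem algebra {p M c0 C1 C2 η S T W I1 I2 h1 s2 sF J A Kr : ℝ} (_hp : 0 < p) (hM : 0 < M)
    (hc0 : 0 < c0) (_hC1 : 0 < C1) (_hC2 : 0 < C2) (_hη : 0 ≤ η) (hS : 0 ≤ S) (hT : 0 ≤ T)
    (hs2 : 0 ≤ s2) (hpi : 3 < Real.pi)
    (hW : Kr ^ 2 * W ≤ T) (hKr : 0 < Kr) (hI1 : 0 ≤ I1) (hsm : M ^ 2 * (I1 / Kr ^ 2 + I2) ≤ p * M / 2)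
    (hST : S ≤ 4 * Real.pi * (h1 + s2) + T) (hh1 : h1 ≤ C2 * η * S)
    (hF : sF ≤ -c0 * s2)
    (hA : sF = 2 * p * M * s2 + A)
    (hJ : J ≤ 2 * Real.pi * A + M ^ 2 * (I1 * W + I2 * T) + p * M * S - 2 * (p * M * T) + C1 * η * S) :
    J ≤ -(min (c0 / 2) (p * M / 2)) * S
      + (min (c0 / 2) (p * M / 2) * 4 * Real.pi * C2 + 4 * Real.pi * p * M * C2 + C1) * η * S := by
  have hpM : 0 < p * M := mul_pos _hp hM
  set c := min (c0 / 2) (p * M / 2) with hc
  have hc1 : c ≤ c0 / 2 := min_le_left _ _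
  have hc2 : c ≤ p * M / 2 := min_le_right _ _
  have hcpos : 0 < c := lt_min (by positivity) (by positivity)
  have hWT : I1 * W ≤ I1 / Kr ^ 2 * T := by
    have : W ≤ T / Kr ^ 2 := by
      rw [le_div_iff₀ (by positivity)]; linarith
    calc I1 * W ≤ I1 * (T / Kr ^ 2) := mul_le_mul_of_nonneg_left this hI1
      _ = I1 / Kr ^ 2 * T := by ring
  have h3 : M ^ 2 * (I1 * W + I2 * T) ≤ p * M / 2 * T := by
    calc M ^ 2 * (I1 * W + I2 * T) ≤ M ^ 2 * ((I1 / Kr ^ 2 + I2) * T) := by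
            apply mul_le_mul_of_nonneg_left _ (by positivity)
            nlinarith
      _ = M ^ 2 * (I1 / Kr ^ 2 + I2) * T := by ring
      _ ≤ p * M / 2 * T := mul_le_mul_of_nonneg_right hsm hT
  have h4 : p * M * S ≤ p * M * (4 * Real.pi * (h1 + s2) + T) := mul_le_mul_of_nonneg_left hST hpM.le
  have h5 : 4 * Real.pi * p * M * h1 ≤ 4 * Real.pi * p * M * (C2 * η * S) :=
    mul_le_mul_of_nonneg_left hh1 (by positivity)
  have h6 : 2 * Real.pi * sF ≤ 2 * Real.pi * (-c0 * s2) := mul_le_mul_of_nonneg_left hF (by positivity)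
  have h7 : c * S ≤ c * (4 * Real.pi * (C2 * η * S + s2) + T) := by
    apply mul_le_mul_of_nonneg_left _ hcpos.le
    have : 4 * Real.pi * h1 ≤ 4 * Real.pi * (C2 * η * S) := mul_le_mul_of_nonneg_left hh1 (by positivity)
    nlinarith
  have h8 : c * (4 * Real.pi * s2) ≤ c0 / 2 * (4 * Real.pi * s2) :=
    mul_le_mul_of_nonneg_right hc1 (by positivity)
  have h9 : c * T ≤ p * M / 2 * T := mul_le_mul_of_nonneg_right hc2 hT
  have h10 : A = sF - 2 * p * M * s2 := by linarith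
  rw [h10] at hJ
  nlinarith

end UJ

open UJ in
theorem uJ (h1 : UDisc) (h2 : UOut) (h3 : ULin) (h4 : UBary) (h5 : UFour1) (h6 : UFour3)
    (h7 : UInt) : UJ := by
  intro P hP
  obtain ⟨C1, hC1, ε1, hε1, hout⟩ := h2 P hP
  obtain ⟨C2, hC2, hbary⟩ := h4
  obtain ⟨c0, hc0, hneg⟩ := exists_neg_bound (Finset.Icc 2 P.K) P.form hP.neg
  have hp := hP.hp
  have hB := hP.hB
  have hM : 0 < P.M := by
    unfold Par.M; positivity
  have hpM : 0 < P.p * P.M := mul_pos hp hM
  set c := min (c0 / 2) (P.p * P.M / 2) with hc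
  have hcpos : 0 < c := lt_min (by positivity) (by positivity)
  set C3 := c * 4 * Real.pi * C2 + 4 * Real.pi * P.p * P.M * C2 + C1 with hC3
  have hpi := Real.pi_gt_three
  have hC3pos : 0 < C3 := by positivity
  refine ⟨min (min ε1 (1 / 2)) (c / (2 * C3)), by positivity, c / 2, by positivity, ?_⟩
  intro ρ hρ
  set η := min (min ε1 (1 / 2)) (c / (2 * C3)) with hη
  have hηpos : 0 < η := by positivity
  have hη1 : η ≤ ε1 := (min_le_left _ _).trans (min_le_left _ _)
  have hη2 : η ≤ 1 / 2 := (min_le_left _ _).trans (min_le_right _ _)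
  have hη3 : η ≤ c / (2 * C3) := min_le_right _ _
  have hout' := hout ρ η hη1 hρ
  obtain ⟨hadm, hh1⟩ := hbary ρ η hη2 hρ
  set h : ℝ → ℝ := fun s => (ρ s ^ 2 - 1) / 2 with hh
  have hlin := h3 P h hP hadm
  have hdisc := h1 P h hP hadm
  have hfour := h5 h P.K hadm
  have hwirt := h6 h P.K hadm
  obtain ⟨hint1, hint2⟩ := h7 P h hP hadm
  have hρ0 : ∀ θ, 0 ≤ ρ θ := fun θ => by
    have := abs_le.1 (hρ.close θ); linarith
  -- splitting
  have hcont1 : Continuous (fun θ => ∫ r in (0 : ℝ)..(ρ θ), P.dens h r θ * r) :=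
    hint2 ρ hρ.cont hρ0
  have hcont2 : Continuous (fun θ => ∫ r in (0 : ℝ)..1, P.dens h r θ * r) :=
    hint2 (fun _ => 1) continuous_const (fun _ => zero_le_one)
  have hsplit : ∀ θ, (∫ r in (0 : ℝ)..(ρ θ), P.dens h r θ * r)
      = (∫ r in (0 : ℝ)..1, P.dens h r θ * r) + ∫ r in (1 : ℝ)..(ρ θ), P.dens h r θ * r := by
    intro θ
    rw [intervalIntegral.integral_add_adjacent_intervals (hint1 θ 1 zero_le_one)]
    exact (hint1 θ 1 zero_le_one).symm.trans (hint1 θ (ρ θ) (hρ0 θ))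
  have hcont3 : Continuous (fun θ => ∫ r in (1 : ℝ)..(ρ θ), P.dens h r θ * r) := by
    have : (fun θ => ∫ r in (1 : ℝ)..(ρ θ), P.dens h r θ * r)
        = fun θ => (∫ r in (0 : ℝ)..(ρ θ), P.dens h r θ * r) - ∫ r in (0 : ℝ)..1, P.dens h r θ * r := by
      funext θ; rw [hsplit θ]; ring
    rw [this]
    exact hcont1.sub hcont2
  have hJ : (∫ θ in (0 : ℝ)..(2 * Real.pi), ∫ r in (0 : ℝ)..(ρ θ), P.dens h r θ * r)
      = (∫ θ in (0 : ℝ)..(2 * Real.pi), ∫ r in (0 : ℝ)..1, P.dens h r θ * r)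
        + ∫ θ in (0 : ℝ)..(2 * Real.pi), ∫ r in (1 : ℝ)..(ρ θ), P.dens h r θ * r := by
    rw [← intervalIntegral.integral_add (hcont2.intervalIntegrable _ _) (hcont3.intervalIntegrable _ _)]
    congr 1
    funext θ
    exact hsplit θ
  have hSnn : 0 ≤ ∫ θ in (0 : ℝ)..(2 * Real.pi), h θ ^ 2 :=
    intervalIntegral.integral_nonneg (by positivity) (fun θ _ => sq_nonneg _)
  have hTnn : 0 ≤ ∫ θ in (0 : ℝ)..(2 * Real.pi), hhigh h P.K θ ^ 2 :=
    intervalIntegral.integral_nonneg (by positivity) (fun θ _ => sq_nonneg _)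
  have hI1 : 0 ≤ P.I1 := by
    unfold Par.I1
    refine intervalIntegral.integral_nonneg zero_le_one (fun r hr => ?_)
    have := hr.1
    positivity
  have hST : (∫ θ in (0 : ℝ)..(2 * Real.pi), h θ ^ 2)
      ≤ 4 * Real.pi * (hsq h 1 + ∑ k ∈ Finset.Icc 2 P.K, hsq h k)
        + ∫ θ in (0 : ℝ)..(2 * Real.pi), hhigh h P.K θ ^ 2 := by
    rw [hfour]
    have := sum_one_le h P.K
    have h2 : 4 * Real.pi * (∑ k ∈ Finset.Icc 1 P.K, hsq h k)
        ≤ 4 * Real.pi * (hsq h 1 + ∑ k ∈ Finset.Icc 2 P.K, hsq h k) :=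
      mul_le_mul_of_nonneg_left this (by positivity)
    linarith
  have hF : (∑ k ∈ Finset.Icc 2 P.K, hsq h k * P.form k) ≤ -c0 * ∑ k ∈ Finset.Icc 2 P.K, hsq h k := by
    rw [Finset.mul_sum]
    refine Finset.sum_le_sum (fun k hk => ?_)
    nlinarith [hsq_nonneg h k, hneg k hk]
  have hA : (∑ k ∈ Finset.Icc 2 P.K, hsq h k * P.form k)
      = 2 * P.p * P.M * (∑ k ∈ Finset.Icc 2 P.K, hsq h k)
        + ((∑ k ∈ Finset.Icc 2 P.K, hsq h k *
            (P.y k ^ 2 * dtn P.F (P.m + k) + P.x k ^ 2 * dtn P.F (P.m - k)))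
          + 2 * ∑ k ∈ Finset.Icc 2 P.K, hsq h k *
            (P.y k * (P.p ^ 2 - P.lam - k * P.p) + P.x k * (P.p ^ 2 - P.lam + k * P.p))) := by
    rw [Finset.mul_sum, Finset.mul_sum, ← Finset.sum_add_distrib, ← Finset.sum_add_distrib]
    refine Finset.sum_congr rfl (fun k _ => ?_)
    unfold Par.form
    ring
  have habs := abs_le.1 hout'
  have key := algebra (J := ∫ θ in (0 : ℝ)..(2 * Real.pi), ∫ r in (0 : ℝ)..(ρ θ), P.dens h r θ * r)
    hp hM hc0 hC1 hC2 hηpos.le hSnn hTnn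
    (Finset.sum_nonneg (fun k _ => hsq_nonneg h k)) hpi hwirt (by positivity) hI1 hP.small
    hST hh1 hF hA (by
      rw [hJ, hdisc]
      have h8 : (fun θ => ((ρ θ ^ 2 - 1) / 2) * P.lin h θ) = fun θ => h θ * P.lin h θ := rfl
      have h9 := habs.2
      rw [show (∫ θ in (0 : ℝ)..(2 * Real.pi), ((ρ θ ^ 2 - 1) / 2) * P.lin h θ)
        = ∫ θ in (0 : ℝ)..(2 * Real.pi), h θ * P.lin h θ from rfl, hlin] at h9
      rw [show (∫ θ in (0 : ℝ)..(2 * Real.pi), ((ρ θ ^ 2 - 1) / 2) ^ 2)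
        = ∫ θ in (0 : ℝ)..(2 * Real.pi), h θ ^ 2 from rfl] at h9
      linarith)
  refine key.trans ?_
  have h10 : C3 * η * (∫ θ in (0 : ℝ)..(2 * Real.pi), h θ ^ 2)
      ≤ c / 2 * ∫ θ in (0 : ℝ)..(2 * Real.pi), h θ ^ 2 := by
    apply mul_le_mul_of_nonneg_right _ hSnn
    calc C3 * η ≤ C3 * (c / (2 * C3)) := mul_le_mul_of_nonneg_left hη3 hC3pos.le
      _ = c / 2 := by field_simp
  linarith

end Pool.Agent.MFK

end
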