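import Pool.Agent.Work.MP_8826fd_mp.StmtsL
import Pool.Agent.Work.MP_8826fd_mp.Bd.B01

/-! Bundle of small proof modules (one section per former module). -/

section

/-! # Basic properties of radial solutions -/

set_option autoImplicit false

namespace Pool.Agent.MFK

open MeasureTheory Set Filter Topology

namespace Basic

theorem contDiff_radf {n : ℤ} {F : ℝ → ℝ} (hF : ContDiff ℝ 2 F) : ContDiff ℝ 2 (radf n F) := by
  unfold radf
  exact (contDiff_id.pow _).mul (hF.comp (contDiff_id.pow 2))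

theorem hasDerivAt_radf {n : ℤ} {F : ℝ → ℝ} (hF : ContDiff ℝ 2 F) (r : ℝ) :
    HasDerivAt (radf n F) (n.natAbs * r ^ (n.natAbs - 1) * F (r ^ 2)
      + r ^ n.natAbs * (deriv F (r ^ 2) * (2 * r))) r := by
  have h1 : HasDerivAt (fun r : ℝ => r ^ n.natAbs) (n.natAbs * r ^ (n.natAbs - 1)) r :=
    hasDerivAt_pow _ r
  have h2 : HasDerivAt F (deriv F (r ^ 2)) (r ^ 2) :=
    ((hF.differentiable (by norm_num)) (r ^ 2)).hasDerivAt
  have h3 : HasDerivAt (fun r : ℝ => r ^ 2) (2 * r) r := by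
    simpa using hasDerivAt_pow 2 r
  have h4 : HasDerivAt (fun r : ℝ => F (r ^ 2)) (deriv F (r ^ 2) * (2 * r)) r :=
    HasDerivAt.comp (h₂ := F) (h := fun r : ℝ => r ^ 2) r h2 h3
  exact h1.mul h4

end Basic

open Basic in
theorem rReg : RReg := by
  intro B lam n F h
  have hF := h.smooth
  have hc := contDiff_radf (n := n) hF
  have hd : ∀ r, HasDerivAt (radf n F) (deriv (radf n F) r) r := fun r =>
    ((hc.differentiable (by norm_num)) r).hasDerivAt
  have hcd : Continuous (deriv (radf n F)) := hc.continuous_deriv (by norm_num)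
  have hpos : ∀ r, 0 < r → 0 < radf n F r := fun r hr =>
    mul_pos (pow_pos hr _) (h.pos _ (by positivity))
  have hderiv : ∀ r, deriv (radf n F) r = n.natAbs * r ^ (n.natAbs - 1) * F (r ^ 2)
      + r ^ n.natAbs * (deriv F (r ^ 2) * (2 * r)) := fun r => (hasDerivAt_radf hF r).deriv
  have hFc : Continuous F := hF.continuous
  have hFd : Continuous (deriv F) := hF.continuous_deriv (by norm_num)
  refine ⟨hd, hc, hcd, hpos, ?_, ?_, ?_, ?_⟩
  · simp [radf]
  · intro r hr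
    have h1 := h.ode r hr
    have h2 : HasDerivAt (fun t => (t * deriv (radf n F) t) / t)
        ((r * ((qn B n r) ^ 2 - lam) * radf n F r * r - r * deriv (radf n F) r * 1) / r ^ 2) r :=
      h1.div (hasDerivAt_id r) hr.ne'
    have h3 : HasDerivAt (deriv (radf n F))
        ((r * ((qn B n r) ^ 2 - lam) * radf n F r * r - r * deriv (radf n F) r * 1) / r ^ 2) r := by
      refine h2.congr_of_eventuallyEq ?_
      filter_upwards [lt_mem_nhds hr] with t ht
      field_simp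
    convert h3 using 1
    field_simp
  · have h1 : Tendsto (fun r : ℝ => (n.natAbs : ℝ) + 2 * r ^ 2 * (deriv F (r ^ 2) / F (r ^ 2)))
        (𝓝[>] 0) (𝓝 (n.natAbs : ℝ)) := by
      have h2 : ContinuousAt (fun r : ℝ => (n.natAbs : ℝ) + 2 * r ^ 2 * (deriv F (r ^ 2) / F (r ^ 2))) 0 := by
        have hne : F ((0 : ℝ) ^ 2) ≠ 0 := (h.pos _ (by norm_num)).ne'
        have ha : ContinuousAt (fun r : ℝ => deriv F (r ^ 2)) 0 :=
          (hFd.comp (continuous_pow 2)).continuousAt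
        have hb : ContinuousAt (fun r : ℝ => F (r ^ 2)) 0 :=
          (hFc.comp (continuous_pow 2)).continuousAt
        exact continuousAt_const.add ((continuousAt_const.mul (continuousAt_id.pow 2)).mul (ha.div hb hne))
      have h3 := h2.tendsto.mono_left (nhdsWithin_le_nhds (s := Ioi 0))
      simpa using h3
    refine h1.congr' ?_
    filter_upwards [self_mem_nhdsWithin] with r hr
    have hr : 0 < r := hr
    rw [hderiv r]
    unfold radf
    have hne : F (r ^ 2) ≠ 0 := (h.pos _ (by positivity)).ne'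
    rcases Nat.eq_zero_or_pos n.natAbs with h0 | h0
    · rw [h0]; simp; field_simp
    · obtain ⟨N, hN⟩ := Nat.exists_eq_succ_of_ne_zero h0.ne'
      rw [hN]
      simp only [Nat.succ_eq_add_one, Nat.add_sub_cancel]
      field_simp
      ring
  · obtain ⟨C1, hC1⟩ := (isCompact_Icc (a := (0 : ℝ)) (b := 1)).exists_bound_of_continuousOn
      (f := radf n F) hc.continuous.continuousOn
    obtain ⟨C2, hC2⟩ := (isCompact_Icc (a := (0 : ℝ)) (b := 1)).exists_bound_of_continuousOn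
      (f := deriv (radf n F)) hcd.continuousOn
    obtain ⟨C3, hC3⟩ := (isCompact_Icc (a := (0 : ℝ)) (b := 1)).exists_bound_of_continuousOn
      (f := fun r : ℝ => (n : ℝ) * (r ^ (n.natAbs - 1) * F (r ^ 2)))
      (by fun_prop)
    refine ⟨max C1 (max C2 C3), fun r hr => ?_⟩
    have hr' : r ∈ Icc (0 : ℝ) 1 := ⟨hr.1.le, hr.2⟩
    refine ⟨(hC1 r hr').trans (le_max_left _ _),
      (hC2 r hr').trans ((le_max_left _ _).trans (le_max_right _ _)), ?_⟩
    refine le_trans (le_of_eq ?_) ((hC3 r hr').trans ((le_max_right _ _).trans (le_max_right _ _)))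
    rw [Real.norm_eq_abs]
    congr 1
    unfold radf
    rcases Nat.eq_zero_or_pos n.natAbs with h0 | h0
    · have : n = 0 := by simpa using h0
      simp [this]
    · obtain ⟨N, hN⟩ := Nat.exists_eq_succ_of_ne_zero h0.ne'
      rw [hN]
      simp only [Nat.succ_eq_add_one, Nat.add_sub_cancel]
      have : r ≠ 0 := hr.1.ne'
      field_simp
      ring

end Pool.Agent.MFK

end

section

/-! Item K1: the series of the Kummer function converges. -/

set_option autoImplicit false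

namespace Pool.Agent.MFK

open Filter Topology

namespace K1

lemma kc_succ (A b : ℝ) (k : ℕ) :
    kc A b (k + 1) = kc A b k * ((A + k) / ((b + k) * (k + 1))) := by
  unfold kc
  rw [Finset.prod_range_succ]

/-- the ratio of consecutive coefficients tends to zero -/
lemma ratio_tendsto (A b z : ℝ) :
    Tendsto (fun k : ℕ => |(A + k) / ((b + k) * (k + 1))| * |z|) atTop (𝓝 0) := by
  have h1 : Tendsto (fun k : ℕ => (A + k) / (b + k)) atTop (𝓝 1) := by
    have h2 : Tendsto (fun k : ℕ => (b + (k : ℝ))) atTop atTop :=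
      tendsto_atTop_add_const_left _ _ tendsto_natCast_atTop_atTop
    have h3 : Tendsto (fun k : ℕ => 1 + (A - b) / (b + (k : ℝ))) atTop (𝓝 (1 + 0)) :=
      tendsto_const_nhds.add (h2.const_div_atTop _)
    rw [add_zero] at h3
    refine h3.congr' ?_
    filter_upwards [h2.eventually_gt_atTop 0] with k hk
    field_simp
    ring
  have h4 : Tendsto (fun k : ℕ => (1 : ℝ) / ((k : ℝ) + 1)) atTop (𝓝 0) :=
    tendsto_one_div_add_atTop_nhds_zero_nat
  have h5 := ((h1.mul h4).abs).mul_const |z|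
  rw [mul_zero, abs_zero, zero_mul] at h5
  refine h5.congr fun k => ?_
  congr 2
  rw [div_mul_div_comm, mul_one]

end K1

open K1 in
theorem kSum : KSum := by
  intro A b z _
  have habs : Summable (fun k => |kc A b k * z ^ k|) := by
    have hr := ratio_tendsto A b z
    have hev : ∀ᶠ k : ℕ in atTop, ‖(|kc A b (k + 1) * z ^ (k + 1)| : ℝ)‖ ≤
        (1 / 2) * ‖(|kc A b k * z ^ k| : ℝ)‖ := by
      filter_upwards [hr.eventually (gt_mem_nhds (show (0 : ℝ) < 1 / 2 by norm_num))] with k hk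
      rw [Real.norm_eq_abs, Real.norm_eq_abs, abs_abs, abs_abs, kc_succ, pow_succ]
      have e : kc A b k * ((A + k) / ((b + k) * (k + 1))) * (z ^ k * z) =
          ((A + k) / ((b + k) * (k + 1)) * z) * (kc A b k * z ^ k) := by ring
      rw [e, abs_mul, abs_mul]
      exact mul_le_mul_of_nonneg_right hk.le (abs_nonneg _)
    exact summable_of_ratio_norm_eventually_le (by norm_num) hev
  exact ⟨habs.of_abs, habs⟩

end Pool.Agent.MFK

end

section

/-! Item K2: termwise derivative of the Kummer series. -/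

set_option autoImplicit false

namespace Pool.Agent.MFK

open Filter Topology

namespace K2

lemma kc_succ (A b : ℝ) (k : ℕ) :
    kc A b (k + 1) = kc A b k * ((A + k) / ((b + k) * (k + 1))) := by
  unfold kc
  rw [Finset.prod_range_succ]

lemma kc_shift (A b : ℝ) (hb : 0 < b) (k : ℕ) :
    kc A b (k + 1) * ((k : ℝ) + 1) = A / b * kc (A + 1) (b + 1) k := by
  induction k with
  | zero =>
    simp [kc]
  | succ k ih =>
    have hk : (0 : ℝ) < (k : ℝ) + 1 := by positivity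
    have hk2 : (0 : ℝ) < (k : ℝ) + 1 + 1 := by positivity
    have hbk : (0 : ℝ) < b + 1 + k := by positivity
    have e : kc A b (k + 1) = A / b * kc (A + 1) (b + 1) k / ((k : ℝ) + 1) := by
      rw [← ih]
      field_simp
    rw [kc_succ A b (k + 1), kc_succ (A + 1) (b + 1) k, e]
    push_cast
    have hb2 : b + ((k : ℝ) + 1) = b + 1 + k := by ring
    have hA2 : A + ((k : ℝ) + 1) = A + 1 + k := by ring
    rw [hb2, hA2]
    field_simp

end K2

open K2 in
theorem kDer (h : KSum) : KDer := by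
  intro A b z hb
  set R : ℝ := |z| + 1 with hR
  have hR0 : 0 < R := by positivity
  set u : ℕ → ℝ := fun k => |kc A b k| * (k * R ^ (k - 1)) with hu
  have hsu : Summable u := by
    rw [← summable_nat_add_iff 1]
    have h1 := ((h (A + 1) (b + 1) R (by linarith)).2).mul_left |A / b|
    refine h1.congr fun k => ?_
    rw [hu]
    simp only [Nat.add_sub_cancel]
    rw [← abs_mul, ← mul_assoc, ← kc_shift A b hb k, abs_mul, abs_mul, abs_of_pos (pow_pos hR0 k),
      abs_of_pos (show (0 : ℝ) < (k : ℝ) + 1 by positivity)]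
    push_cast
    ring
  have hd : HasDerivAt (fun y : ℝ => ∑' k : ℕ, kc A b k * y ^ k)
      (∑' k : ℕ, kc A b k * (k * z ^ (k - 1))) z := by
    refine hasDerivAt_tsum_of_isPreconnected (g := fun (k : ℕ) (y : ℝ) => kc A b k * y ^ k)
      (g' := fun (k : ℕ) (y : ℝ) => kc A b k * (k * y ^ (k - 1)))
      (t := Metric.ball (0 : ℝ) R) hsu Metric.isOpen_ball
      (convex_ball (0 : ℝ) R).isPreconnected ?_ ?_ (y₀ := (0 : ℝ)) ?_ ?_ ?_
    · intro k y _
      exact (hasDerivAt_pow k y).const_mul (kc A b k)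
    · intro k y hy
      rw [mem_ball_zero_iff, Real.norm_eq_abs] at hy
      rw [Real.norm_eq_abs, abs_mul, abs_mul, abs_pow, Nat.abs_cast]
      refine mul_le_mul_of_nonneg_left ?_ (abs_nonneg _)
      refine mul_le_mul_of_nonneg_left ?_ (Nat.cast_nonneg k)
      exact pow_le_pow_left₀ (abs_nonneg y) hy.le _
    · rw [mem_ball_zero_iff, norm_zero]
      exact hR0
    · exact (h A b 0 hb).1
    · rw [mem_ball_zero_iff, Real.norm_eq_abs, hR]
      linarith
  have hs2 : Summable (fun k : ℕ => kc A b k * (k * z ^ (k - 1))) := by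
    refine Summable.of_norm_bounded hsu fun k => ?_
    rw [Real.norm_eq_abs, abs_mul, abs_mul, abs_pow, Nat.abs_cast]
    refine mul_le_mul_of_nonneg_left ?_ (abs_nonneg _)
    refine mul_le_mul_of_nonneg_left ?_ (Nat.cast_nonneg k)
    exact pow_le_pow_left₀ (abs_nonneg z) (by rw [hR]; linarith) _
  have e : (∑' k : ℕ, kc A b k * (k * z ^ (k - 1))) = Phi1 A b z := by
    rw [hs2.tsum_eq_zero_add]
    unfold Phi1 Phi
    rw [← tsum_mul_left]
    simp only [Nat.cast_zero, zero_mul, mul_zero, zero_add, Nat.add_sub_cancel]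
    refine tsum_congr fun k => ?_
    rw [← mul_assoc (A / b), ← kc_shift A b hb k]
    push_cast
    ring
  rw [← e]
  exact hd

end Pool.Agent.MFK

end

section

/-! # Item K3: second derivative and smoothness of the Kummer function -/

set_option autoImplicit false

namespace Pool.Agent.MFK

open Set Filter Topology

theorem kDer2 (h : KDer) : KDer2 := by
  intro A b z hb
  have h1 : HasDerivAt (Phi (A + 1) (b + 1)) (Phi1 (A + 1) (b + 1) z) z :=
    h (A + 1) (b + 1) z (by linarith)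
  have h2 := h1.const_mul (A / b)
  have e1 : A + 1 + 1 = A + 2 := by ring
  have e2 : b + 1 + 1 = b + 2 := by ring
  have e3 : A / b * Phi1 (A + 1) (b + 1) z = Phi2 A b z := by
    unfold Phi1 Phi2
    rw [e1, e2]
  rw [← e3]
  exact h2

namespace K3

theorem contPhi (h : KDer) (A b : ℝ) (hb : 0 < b) : Continuous (Phi A b) :=
  continuous_iff_continuousAt.2 fun z => (h A b z hb).continuousAt

theorem derivPhi (h : KDer) (A b : ℝ) (hb : 0 < b) :
    deriv (Phi A b) = fun z => A / b * Phi (A + 1) (b + 1) z := by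
  funext z
  exact (h A b z hb).deriv

theorem smoothNat (h : KDer) (k : ℕ) : ∀ A b : ℝ, 0 < b → ContDiff ℝ k (Phi A b) := by
  induction k with
  | zero =>
    intro A b hb
    exact contDiff_zero.2 (contPhi h A b hb)
  | succ k ih =>
    intro A b hb
    have h1 : ContDiff ℝ ((k : WithTop ℕ∞) + 1) (Phi A b) := by
      rw [contDiff_succ_iff_deriv]
      refine ⟨fun z => (h A b z hb).differentiableAt, ?_, ?_⟩
      · intro hk
        simp at hk
      · rw [derivPhi h A b hb]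
        exact contDiff_const.mul (ih (A + 1) (b + 1) (by linarith))
    exact_mod_cast h1

end K3

theorem kSmooth (h : KDer) : KSmooth := by
  intro A b hb
  exact K3.smoothNat h 2 A b hb

end Pool.Agent.MFK

end

section

/-! # Kummer's equation from the contiguous relations (item K5) -/

set_option autoImplicit false

namespace Pool.Agent.MFK

open MeasureTheory Set Filter Topology

theorem kOde (h1 : KUp) (h2 : KDown) (h3 : KDer) (h4 : KDer2) : KOde := by
  intro A b z hb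
  have hb1 : 0 < b + 1 := by linarith
  have e1 := h1 A b z hb
  have e2 := h2 A b z hb
  have hd1 : HasDerivAt (fun t => Phi A b t - Phi1 A b t) (Phi1 A b z - Phi2 A b z) z :=
    (h3 A b z hb).sub (h4 A b z hb)
  have hd2 : HasDerivAt (fun t => (b - A) / b * Phi A (b + 1) t)
      ((b - A) / b * Phi1 A (b + 1) z) z := (h3 A (b + 1) z hb1).const_mul _
  have hfun : (fun t => Phi A b t - Phi1 A b t) = fun t => (b - A) / b * Phi A (b + 1) t := by
    funext t
    exact h1 A b t hb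
  rw [hfun] at hd1
  have e3 : Phi1 A b z - Phi2 A b z = (b - A) / b * Phi1 A (b + 1) z := hd1.unique hd2
  have hb' : b ≠ 0 := hb.ne'
  have e4 : (b - A) / b * (b * Phi A (b + 1) z + z * Phi1 A (b + 1) z)
      = (b - A) * Phi A b z := by
    rw [e2]
    field_simp
  have e5 : b * (Phi A b z - Phi1 A b z) + z * (Phi1 A b z - Phi2 A b z)
      = (b - A) * Phi A b z := by
    rw [e1, e3, ← e4]
    ring
  linarith [e5]

end Pool.Agent.MFK

end

section

/-! # K6: positivity and bounds of Kummer functions -/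

set_option autoImplicit false

namespace Pool.Agent.MFK

namespace K6

theorem kc_zero (A b : ℝ) : kc A b 0 = 1 := by
  unfold kc
  simp

theorem kc_nonneg (A b : ℝ) (hA : 0 ≤ A) (hb : 0 < b) (k : ℕ) : 0 ≤ kc A b k := by
  unfold kc
  apply Finset.prod_nonneg
  intro i _
  positivity

theorem term_nonneg (A b z : ℝ) (hA : 0 ≤ A) (hb : 0 < b) (hz : 0 ≤ z) (k : ℕ) :
    0 ≤ kc A b k * z ^ k :=
  mul_nonneg (kc_nonneg A b hA hb k) (pow_nonneg hz k)

theorem one_le_Phi (h : KSum) (A b z : ℝ) (hA : 0 ≤ A) (hb : 0 < b) (hz : 0 ≤ z) :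
    1 ≤ Phi A b z := by
  have h1 := (h A b z hb).1
  have h2 := h1.le_tsum 0 (fun j _ => term_nonneg A b z hA hb hz j)
  have h3 : kc A b 0 * z ^ 0 = 1 := by
    rw [kc_zero, pow_zero, mul_one]
  rw [h3] at h2
  exact h2

theorem kc_mono (A b : ℝ) (hA : 0 ≤ A) (hAb : A ≤ b) (hb : 0 < b) (k : ℕ) :
    kc A b k ≤ kc (A + 1) (b + 1) k := by
  unfold kc
  apply Finset.prod_le_prod
  · intro i _
    positivity
  · intro i _
    have hi : (0 : ℝ) ≤ (i : ℝ) := Nat.cast_nonneg i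
    have h1 : 0 < (b + i) * ((i : ℝ) + 1) := by positivity
    have h2 : 0 < (b + 1 + i) * ((i : ℝ) + 1) := by positivity
    rw [div_le_div_iff₀ h1 h2]
    have h3 : (A + i) * (b + 1 + i) ≤ (A + 1 + i) * (b + i) := by nlinarith
    nlinarith [mul_le_mul_of_nonneg_right h3 (by positivity : (0 : ℝ) ≤ (i : ℝ) + 1)]

theorem Phi_le (h : KSum) (A b z : ℝ) (hA : 0 ≤ A) (hAb : A ≤ b) (hb : 0 < b) (hz : 0 ≤ z) :
    Phi A b z ≤ Phi (A + 1) (b + 1) z := by
  unfold Phi
  refine Summable.tsum_le_tsum (fun k => ?_) (h A b z hb).1 (h (A + 1) (b + 1) z (by linarith)).1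
  exact mul_le_mul_of_nonneg_right (kc_mono A b hA hAb hb k) (pow_nonneg hz k)

end K6

theorem kPosBd (h : KSum) (hu : KUp) : KPos ∧ KBd := by
  refine ⟨?_, ?_⟩
  · intro A b z hA hb hz
    refine ⟨K6.one_le_Phi h A b z hA hb hz, ?_⟩
    unfold Phi1
    have h1 := K6.one_le_Phi h (A + 1) (b + 1) z (by linarith) (by linarith) hz
    exact mul_nonneg (div_nonneg hA hb.le) (by linarith)
  · intro A b z hA hAb hb hz
    refine ⟨?_, ?_⟩
    · unfold Phi1
      exact mul_le_mul_of_nonneg_left (K6.Phi_le h A b z hA hAb hb hz) (div_nonneg hA hb.le)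
    · have h1 := hu A b z hb
      have h2 := K6.one_le_Phi h A (b + 1) z hA (by linarith) hz
      have h3 : 0 ≤ (b - A) / b * Phi A (b + 1) z :=
        mul_nonneg (div_nonneg (by linarith) hb.le) (by linarith)
      linarith

end Pool.Agent.MFK

end

section

set_option autoImplicit false

namespace Pool.Agent.MFK

open MeasureTheory Set Filter Topology

theorem kCont (h : KSum) : KCont := by
  intro b z hb
  rw [continuous_iff_continuousAt]
  intro A0
  have hs : ContinuousOn (fun A => ∑' k, kc A b k * z ^ k) (Metric.ball A0 1) := by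
    refine continuousOn_tsum (u := fun k => |kc (|A0| + 1) b k * |z| ^ k|) ?_ ((h _ b |z| hb).2) ?_
    · intro k
      refine ContinuousOn.mul ?_ continuousOn_const
      unfold kc
      refine Continuous.continuousOn ?_
      refine continuous_finsetProd _ (fun i _ => ?_)
      exact (continuous_id.add continuous_const).div_const _
    · intro k A hA
      rw [Real.norm_eq_abs, abs_mul, abs_mul, abs_pow, abs_pow, abs_abs]
      refine mul_le_mul_of_nonneg_right ?_ (by positivity)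
      unfold kc
      rw [Finset.abs_prod, Finset.abs_prod]
      refine Finset.prod_le_prod (fun i _ => abs_nonneg _) (fun i _ => ?_)
      have hbi : (0 : ℝ) < (b + i) * (i + 1) := by positivity
      rw [abs_div, abs_div]
      refine div_le_div_of_nonneg_right ?_ (abs_nonneg _)
      have hA' : |A - A0| < 1 := by simpa [Real.dist_eq] using hA
      have h1 : |A| ≤ |A0| + 1 := by
        calc |A| = |A0 + (A - A0)| := by ring_nf
          _ ≤ |A0| + |A - A0| := abs_add_le _ _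
          _ ≤ |A0| + 1 := by linarith
      calc |A + (i : ℝ)| ≤ |A| + |(i : ℝ)| := abs_add_le _ _
        _ = |A| + i := by rw [abs_of_nonneg (Nat.cast_nonneg i : (0 : ℝ) ≤ i)]
        _ ≤ |A0| + 1 + i := by linarith
        _ ≤ |(|A0| + 1 + (i : ℝ))| := le_abs_self _
  exact hs.continuousAt (Metric.ball_mem_nhds _ one_pos)

end Pool.Agent.MFK

end

section

/-! # Bessel and Parseval for the coefficients `fc` (item L1) -/

set_option autoImplicit false

namespace Pool.Agent.MFK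

open MeasureTheory Set Filter Topology

namespace L1

lemma two_pi_pos' : (0 : ℝ) < 2 * Real.pi := by positivity

lemma coeff_eq (v : ℝ → ℂ) (n : ℤ) : fourierCoeffOn two_pi_pos' v n = fc v n := by
  rw [fourierCoeffOn_eq_integral, fc, sub_zero, Complex.real_smul]
  congr 1
  refine intervalIntegral.integral_congr fun θ _ => ?_
  have hpi : (Real.pi : ℂ) ≠ 0 := Complex.ofReal_ne_zero.2 Real.pi_ne_zero
  change fourier (-n) ((θ : ℝ) : AddCircle (2 * Real.pi)) • v θ = _
  rw [fourier_coe_apply, smul_eq_mul, mul_comm]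
  congr 2
  push_cast
  field_simp

lemma memLp (v : ℝ → ℂ) (hv : Continuous v) :
    MemLp v 2 (volume.restrict (Ioc (0 : ℝ) (2 * Real.pi))) := by
  obtain ⟨C, hC⟩ := (isCompact_Icc (a := (0 : ℝ)) (b := 2 * Real.pi)).exists_bound_of_continuousOn
    hv.continuousOn
  refine MemLp.of_bound hv.aestronglyMeasurable C ?_
  refine (ae_restrict_iff' measurableSet_Ioc).2 (Eventually.of_forall fun θ hθ => ?_)
  exact hC θ (Ioc_subset_Icc_self hθ)

lemma hs (v : ℝ → ℂ) (hv : Continuous v) :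
    HasSum (fun n : ℤ => 2 * Real.pi * ‖fc v n‖ ^ 2)
      (∫ θ in (0 : ℝ)..(2 * Real.pi), ‖v θ‖ ^ 2) := by
  have h := (hasSum_sq_fourierCoeffOn two_pi_pos' (memLp v hv)).mul_left (2 * Real.pi)
  simp only [coeff_eq] at h
  have e : 2 * Real.pi * ((2 * Real.pi - 0)⁻¹ • ∫ θ in (0 : ℝ)..(2 * Real.pi), ‖v θ‖ ^ 2) =
      ∫ θ in (0 : ℝ)..(2 * Real.pi), ‖v θ‖ ^ 2 := by
    rw [sub_zero, smul_eq_mul, mul_inv_cancel_left₀ two_pi_pos'.ne']
  rwa [e] at h

end L1

theorem lBessel : LBessel := fun v S hv =>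
  sum_le_hasSum S (fun _ _ => by positivity) (L1.hs v hv)

theorem lPars : LPars := fun v hv _ => L1.hs v hv

end Pool.Agent.MFK

end

section

/-! # Fourier coefficients of a `C¹` function on the punctured disc -/

set_option autoImplicit false

namespace Pool.Agent.MFK

open MeasureTheory Set Filter Topology

namespace L2

/-- a uniform bound near `t₀` -/
theorem bdd {g : ℝ × ℝ → ℂ} (hg : ContinuousOn g (Ioo 0 1 ×ˢ univ)) {t₀ : ℝ} (ht : t₀ ∈ Ioo (0 : ℝ) 1) :
    ∃ C : ℝ, ∃ s ∈ 𝓝 t₀, s ⊆ Ioo (0 : ℝ) 1 ∧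
      ∀ t ∈ s, ∀ θ ∈ Icc (0 : ℝ) (2 * Real.pi), ‖g (t, θ)‖ ≤ C := by
  have h1 : 0 < t₀ := ht.1
  have h2 : t₀ < 1 := ht.2
  have hsub : Icc (t₀ / 2) ((1 + t₀) / 2) ⊆ Ioo (0 : ℝ) 1 := by
    intro t ht
    exact ⟨by linarith [ht.1], by linarith [ht.2]⟩
  have hK : IsCompact (Icc (t₀ / 2) ((1 + t₀) / 2) ×ˢ Icc (0 : ℝ) (2 * Real.pi)) :=
    isCompact_Icc.prod isCompact_Icc
  obtain ⟨C, hC⟩ := hK.exists_bound_of_continuousOn
    (hg.mono (prod_mono hsub (subset_univ _)))
  refine ⟨C, Icc (t₀ / 2) ((1 + t₀) / 2), Icc_mem_nhds (by linarith) (by linarith), hsub, ?_⟩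
  intro t ht θ hθ
  exact hC (t, θ) ⟨ht, hθ⟩

theorem contθ {g : ℝ × ℝ → ℂ} (hg : ContinuousOn g (Ioo 0 1 ×ˢ univ)) {t : ℝ} (ht : t ∈ Ioo (0 : ℝ) 1) :
    Continuous (fun θ => g (t, θ)) := by
  rw [← continuousOn_univ]
  exact hg.comp (by fun_prop) (fun θ _ => ⟨ht, mem_univ _⟩)

theorem contt {g : ℝ × ℝ → ℂ} (hg : ContinuousOn g (Ioo 0 1 ×ˢ univ)) {t : ℝ} (ht : t ∈ Ioo (0 : ℝ) 1)
    (θ : ℝ) : ContinuousAt (fun t => g (t, θ)) t := by
  have h : ContinuousOn (fun t => g (t, θ)) (Ioo 0 1) :=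
    hg.comp (by fun_prop) (fun s hs => ⟨hs, mem_univ _⟩)
  exact h.continuousAt (Ioo_mem_nhds ht.1 ht.2)

theorem uIoc_sub {θ : ℝ} (h : θ ∈ uIoc (0 : ℝ) (2 * Real.pi)) : θ ∈ Icc (0 : ℝ) (2 * Real.pi) := by
  rw [uIoc_of_le (by positivity)] at h
  exact ⟨h.1.le, h.2⟩

theorem contInt {g : ℝ × ℝ → ℂ} (hg : ContinuousOn g (Ioo 0 1 ×ˢ univ)) :
    ContinuousOn (fun t => ∫ θ in (0 : ℝ)..(2 * Real.pi), g (t, θ)) (Ioo 0 1) := by
  intro t₀ ht₀
  refine ContinuousAt.continuousWithinAt ?_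
  obtain ⟨C, s, hs, hsub, hC⟩ := bdd hg ht₀
  refine intervalIntegral.continuousAt_of_dominated_interval (F := fun t θ => g (t, θ))
    (bound := fun _ => C) ?_ ?_ ?_ ?_
  · filter_upwards [hs] with t ht
    exact (contθ hg (hsub ht)).aestronglyMeasurable
  · filter_upwards [hs] with t ht
    exact Eventually.of_forall fun θ hθ => hC t ht θ (uIoc_sub hθ)
  · exact intervalIntegrable_const
  · exact Eventually.of_forall fun θ _ => contt hg ht₀ θ

theorem derivInt {g g' : ℝ × ℝ → ℂ} (hg : ContinuousOn g (Ioo 0 1 ×ˢ univ))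
    (hg' : ContinuousOn g' (Ioo 0 1 ×ˢ univ))
    (hd : ∀ t ∈ Ioo (0 : ℝ) 1, ∀ θ, HasDerivAt (fun s => g (s, θ)) (g' (t, θ)) t)
    {r : ℝ} (hr : r ∈ Ioo (0 : ℝ) 1) :
    HasDerivAt (fun t => ∫ θ in (0 : ℝ)..(2 * Real.pi), g (t, θ))
      (∫ θ in (0 : ℝ)..(2 * Real.pi), g' (r, θ)) r := by
  obtain ⟨C, s, hs, hsub, hC⟩ := bdd hg' hr
  refine (intervalIntegral.hasDerivAt_integral_of_dominated_loc_of_deriv_le
    (F := fun t θ => g (t, θ)) (F' := fun t θ => g' (t, θ)) (bound := fun _ => C) hs ?_ ?_ ?_ ?_ ?_ ?_).2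
  · filter_upwards [hs] with t ht
    exact (contθ hg (hsub ht)).aestronglyMeasurable
  · exact (contθ hg hr).intervalIntegrable _ _
  · exact (contθ hg' hr).aestronglyMeasurable
  · exact Eventually.of_forall fun θ hθ t ht => hC t ht θ (uIoc_sub hθ)
  · exact intervalIntegrable_const
  · exact Eventually.of_forall fun θ _ t ht => hd t (hsub ht) θ

theorem cont_pt : Continuous (fun x : ℝ × ℝ => pt x.1 x.2) := by
  unfold pt
  fun_prop

theorem pt_mem {t θ : ℝ} (ht : t ∈ Ioo (0 : ℝ) 1) : pt t θ ∈ disc := by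
  show (t * Real.cos θ) ^ 2 + (t * Real.sin θ) ^ 2 < 1
  have h1 : (t * Real.cos θ) ^ 2 + (t * Real.sin θ) ^ 2 = t ^ 2 := by
    have := Real.sin_sq_add_cos_sq θ
    linear_combination t ^ 2 * this
  rw [h1]
  have := ht.1
  have := ht.2
  nlinarith

theorem isOpen_disc : IsOpen disc := by
  unfold disc
  exact isOpen_lt (by fun_prop) continuous_const

theorem hasDerivAt_pt_r (r θ : ℝ) : HasDerivAt (fun t => pt t θ) (Real.cos θ, Real.sin θ) r := by
  unfold pt
  have h1 : HasDerivAt (fun t : ℝ => t * Real.cos θ) (Real.cos θ) r := by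
    simpa using (hasDerivAt_id r).mul_const (Real.cos θ)
  have h2 : HasDerivAt (fun t : ℝ => t * Real.sin θ) (Real.sin θ) r := by
    simpa using (hasDerivAt_id r).mul_const (Real.sin θ)
  exact h1.prodMk h2

theorem hasDerivAt_pt_t (r θ : ℝ) :
    HasDerivAt (fun t => pt r t) (-(r * Real.sin θ), r * Real.cos θ) θ := by
  unfold pt
  have h1 : HasDerivAt (fun t : ℝ => r * Real.cos t) (-(r * Real.sin θ)) θ := by
    have h := (Real.hasDerivAt_cos θ).const_mul r
    rw [mul_neg] at h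
    exact h
  have h2 : HasDerivAt (fun t : ℝ => r * Real.sin t) (r * Real.cos θ) θ :=
    (Real.hasDerivAt_sin θ).const_mul r
  exact h1.prodMk h2

theorem hasDerivAt_r {u : ℝ × ℝ → ℂ} {r θ : ℝ} (hu : DifferentiableAt ℝ u (pt r θ)) :
    HasDerivAt (fun t => u (pt t θ)) (fderiv ℝ u (pt r θ) (Real.cos θ, Real.sin θ)) r := by
  have := hu.hasFDerivAt.comp_hasDerivAt (x := r) (f := fun t => pt t θ) (hasDerivAt_pt_r r θ)
  exact this

theorem hasDerivAt_t {u : ℝ × ℝ → ℂ} {r θ : ℝ} (hu : DifferentiableAt ℝ u (pt r θ)) :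
    HasDerivAt (fun t => u (pt r t))
      (fderiv ℝ u (pt r θ) (-(r * Real.sin θ), r * Real.cos θ)) θ := by
  have := hu.hasFDerivAt.comp_hasDerivAt (x := θ) (f := fun t => pt r t) (hasDerivAt_pt_t r θ)
  exact this

/-- the phase -/
noncomputable def ee (n : ℤ) (θ : ℝ) : ℂ := Complex.exp (-(Complex.I * n * θ))

theorem cont_ee (n : ℤ) : Continuous (ee n) := by
  unfold ee
  fun_prop

theorem hasDerivAt_ee (n : ℤ) (θ : ℝ) : HasDerivAt (ee n) (ee n θ * (-(Complex.I * n))) θ := by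
  have h1 : HasDerivAt (fun t : ℝ => -((Complex.I * n) * (t : ℂ))) (-((Complex.I * n) * 1)) θ :=
    ((Complex.ofRealCLM.hasDerivAt (x := θ)).const_mul (Complex.I * n)).neg
  rw [mul_one] at h1
  exact h1.cexp

theorem ee_zero (n : ℤ) : ee n 0 = 1 := by
  simp [ee]

theorem ee_two_pi (n : ℤ) : ee n (2 * Real.pi) = 1 := by
  unfold ee
  rw [Complex.exp_eq_one_iff]
  refine ⟨-n, ?_⟩
  push_cast
  ring

end L2

open L2 in
theorem lCoef : LCoef := by
  intro B u hu n r hr0 hr1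
  have hr : r ∈ Ioo (0 : ℝ) 1 := ⟨hr0, hr1⟩
  have hdiff : ∀ t ∈ Ioo (0 : ℝ) 1, ∀ θ, DifferentiableAt ℝ u (pt t θ) := fun t ht θ =>
    (hu.differentiableOn (by norm_num)).differentiableAt (isOpen_disc.mem_nhds (pt_mem ht))
  have hD : ContinuousOn (fderiv ℝ u) disc := hu.continuousOn_fderiv_of_isOpen isOpen_disc le_rfl
  have hmaps : MapsTo (fun x : ℝ × ℝ => pt x.1 x.2) (Ioo (0 : ℝ) 1 ×ˢ univ) disc :=
    fun x hx => pt_mem hx.1
  have hu0 : ContinuousOn (fun x : ℝ × ℝ => u (pt x.1 x.2)) (Ioo (0 : ℝ) 1 ×ˢ univ) :=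
    hu.continuousOn.comp cont_pt.continuousOn hmaps
  have hD0 : ContinuousOn (fun x : ℝ × ℝ => fderiv ℝ u (pt x.1 x.2)) (Ioo (0 : ℝ) 1 ×ˢ univ) :=
    hD.comp cont_pt.continuousOn hmaps
  have hur : ContinuousOn (fun x : ℝ × ℝ => fderiv ℝ u (pt x.1 x.2) (Real.cos x.2, Real.sin x.2))
      (Ioo (0 : ℝ) 1 ×ˢ univ) := hD0.clm_apply (by fun_prop)
  have hut : ContinuousOn (fun x : ℝ × ℝ =>
      fderiv ℝ u (pt x.1 x.2) (-(x.1 * Real.sin x.2), x.1 * Real.cos x.2))
      (Ioo (0 : ℝ) 1 ×ˢ univ) := hD0.clm_apply (by fun_prop)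
  have he : ContinuousOn (fun x : ℝ × ℝ => ee n x.2) (Ioo (0 : ℝ) 1 ×ˢ univ) :=
    ((cont_ee n).comp continuous_snd).continuousOn
  have edr : ∀ t ∈ Ioo (0 : ℝ) 1, (fun θ => deriv (fun s => u (pt s θ)) t)
      = fun θ => fderiv ℝ u (pt t θ) (Real.cos θ, Real.sin θ) := fun t ht => by
    funext θ
    exact (hasDerivAt_r (hdiff t ht θ)).deriv
  have edt : (fun θ => deriv (fun s => u (pt r s)) θ)
      = fun θ => fderiv ℝ u (pt r θ) (-(r * Real.sin θ), r * Real.cos θ) := by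
    funext θ
    exact (hasDerivAt_t (hdiff r hr θ)).deriv
  refine ⟨?_, ?_, ?_⟩
  · rw [edr r hr]
    unfold fc
    refine HasDerivAt.const_mul _ ?_
    exact derivInt (g := fun x => u (pt x.1 x.2) * ee n x.2)
      (g' := fun x => fderiv ℝ u (pt x.1 x.2) (Real.cos x.2, Real.sin x.2) * ee n x.2)
      (hu0.mul he) (hur.mul he)
      (fun t ht θ => (hasDerivAt_r (hdiff t ht θ)).mul_const (ee n θ)) hr
  · have c0 : Continuous (fun θ => u (pt r θ)) := contθ hu0 hr
    have c1 : Continuous (fun θ => fderiv ℝ u (pt r θ) (-(r * Real.sin θ), r * Real.cos θ)) :=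
      contθ hut hr
    have hparts : (∫ θ in (0 : ℝ)..(2 * Real.pi),
        fderiv ℝ u (pt r θ) (-(r * Real.sin θ), r * Real.cos θ) * ee n θ)
        = Complex.I * n * ∫ θ in (0 : ℝ)..(2 * Real.pi), u (pt r θ) * ee n θ := by
      have h1 := intervalIntegral.integral_mul_deriv_eq_deriv_mul (a := 0) (b := 2 * Real.pi)
        (u := fun θ => u (pt r θ)) (v := ee n)
        (u' := fun θ => fderiv ℝ u (pt r θ) (-(r * Real.sin θ), r * Real.cos θ))
        (v' := fun θ => ee n θ * (-(Complex.I * n)))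
        (fun θ _ => hasDerivAt_t (hdiff r hr θ)) (fun θ _ => hasDerivAt_ee n θ)
        (c1.intervalIntegrable _ _) (((cont_ee n).mul continuous_const).intervalIntegrable _ _)
      have h2 : pt r (2 * Real.pi) = pt r 0 := by
        simp [pt]
      rw [h2, ee_two_pi, ee_zero, sub_self, zero_sub] at h1
      have h3 : (∫ θ in (0 : ℝ)..(2 * Real.pi), u (pt r θ) * (ee n θ * (-(Complex.I * n))))
          = -(Complex.I * n * ∫ θ in (0 : ℝ)..(2 * Real.pi), u (pt r θ) * ee n θ) := by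
        rw [← intervalIntegral.integral_const_mul, ← intervalIntegral.integral_neg]
        congr 1
        funext θ
        ring
      rw [h3] at h1
      exact (neg_injective h1).symm
    have hfun : (fun θ => ((1 / r : ℝ) : ℂ) * deriv (fun t => u (pt r t)) θ
          - Complex.I * ((B * r / 2 : ℝ) : ℂ) * u (pt r θ))
        = fun θ => ((1 / r : ℝ) : ℂ) * fderiv ℝ u (pt r θ) (-(r * Real.sin θ), r * Real.cos θ)
          - Complex.I * ((B * r / 2 : ℝ) : ℂ) * u (pt r θ) := by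
      funext θ
      rw [← congrFun edt θ]
    rw [hfun]
    unfold fc
    have hsplit : (∫ θ in (0 : ℝ)..(2 * Real.pi),
        (((1 / r : ℝ) : ℂ) * fderiv ℝ u (pt r θ) (-(r * Real.sin θ), r * Real.cos θ)
          - Complex.I * ((B * r / 2 : ℝ) : ℂ) * u (pt r θ)) * Complex.exp (-(Complex.I * n * θ)))
        = ((1 / r : ℝ) : ℂ) * (∫ θ in (0 : ℝ)..(2 * Real.pi),
            fderiv ℝ u (pt r θ) (-(r * Real.sin θ), r * Real.cos θ) * ee n θ)
          - Complex.I * ((B * r / 2 : ℝ) : ℂ) * ∫ θ in (0 : ℝ)..(2 * Real.pi), u (pt r θ) * ee n θ := by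
      rw [← intervalIntegral.integral_const_mul, ← intervalIntegral.integral_const_mul,
        ← intervalIntegral.integral_sub]
      · congr 1
        funext θ
        unfold ee
        ring
      · exact ((c1.mul (cont_ee n)).const_mul _).intervalIntegrable _ _
      · exact ((c0.mul (cont_ee n)).const_mul _).intervalIntegrable _ _
    rw [hsplit, hparts]
    have hee : (∫ θ in (0 : ℝ)..(2 * Real.pi), u (pt r θ) * Complex.exp (-(Complex.I * n * θ)))
        = ∫ θ in (0 : ℝ)..(2 * Real.pi), u (pt r θ) * ee n θ := rfl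
    rw [hee]
    have hr' : (r : ℂ) ≠ 0 := by exact_mod_cast hr0.ne'
    unfold qn
    push_cast
    field_simp
  · have h1 := contInt (g := fun x => fderiv ℝ u (pt x.1 x.2) (Real.cos x.2, Real.sin x.2) * ee n x.2)
      (hur.mul he)
    have h2 : ContinuousOn (fun t => ((1 / (2 * Real.pi) : ℝ) : ℂ) * ∫ θ in (0 : ℝ)..(2 * Real.pi),
        fderiv ℝ u (pt t θ) (Real.cos θ, Real.sin θ) * ee n θ) (Ioo 0 1) :=
      continuousOn_const.mul h1
    refine h2.congr ?_
    intro t ht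
    show fc (fun θ => deriv (fun s => u (pt s θ)) t) n = _
    rw [edr t ht]
    rfl

end Pool.Agent.MFK

end

section

/-! # Behaviour of the Fourier coefficients at the centre (item L3) -/

set_option autoImplicit false

namespace Pool.Agent.MFK

open MeasureTheory Set Filter Topology

namespace L3

lemma fc_bound {v : ℝ → ℂ} {n : ℤ} {C : ℝ} (h : ∀ θ, ‖v θ‖ ≤ C) : ‖fc v n‖ ≤ C := by
  have hp : (0 : ℝ) < 2 * Real.pi := by positivity
  have h1 : ‖∫ θ in (0 : ℝ)..(2 * Real.pi), v θ * Complex.exp (-(Complex.I * n * θ))‖ ≤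
      C * |2 * Real.pi - 0| := by
    refine intervalIntegral.norm_integral_le_of_norm_le_const fun θ _ => ?_
    have e : -(Complex.I * n * θ) = ((-(n * θ) : ℝ) : ℂ) * Complex.I := by
      push_cast
      ring
    rw [norm_mul, e, Complex.norm_exp_ofReal_mul_I, mul_one]
    exact h θ
  rw [fc, norm_mul, Complex.norm_real, Real.norm_eq_abs, abs_of_pos (by positivity)]
  rw [sub_zero, abs_of_pos hp] at h1
  calc 1 / (2 * Real.pi) * ‖∫ θ in (0 : ℝ)..(2 * Real.pi), v θ * Complex.exp (-(Complex.I * n * θ))‖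
      ≤ 1 / (2 * Real.pi) * (C * (2 * Real.pi)) := by gcongr
    _ = C := by field_simp

lemma fc_const {n : ℤ} (hn : n ≠ 0) (c : ℂ) : fc (fun _ => c) n = 0 := by
  have hn' : (n : ℂ) ≠ 0 := Int.cast_ne_zero.2 hn
  have hI : -(Complex.I * n) ≠ 0 := neg_ne_zero.2 (mul_ne_zero Complex.I_ne_zero hn')
  have h1 : ∫ θ in (0 : ℝ)..(2 * Real.pi), c * Complex.exp (-(Complex.I * n * θ)) = 0 := by
    rw [intervalIntegral.integral_const_mul]
    have e : ∀ θ : ℝ, Complex.exp (-(Complex.I * n * θ)) =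
        Complex.exp (-(Complex.I * n) * (θ : ℂ)) := fun θ => by rw [neg_mul]
    simp only [e]
    rw [integral_exp_mul_complex hI]
    have e2 : -(Complex.I * n) * ((2 * Real.pi : ℝ) : ℂ) = ((-n : ℤ) : ℂ) *
        (2 * Real.pi * Complex.I) := by
      push_cast
      ring
    rw [e2, Complex.exp_int_mul_two_pi_mul_I]
    simp
  rw [fc, h1, mul_zero]

lemma fc_sub {v : ℝ → ℂ} (hv : Continuous v) (n : ℤ) (c : ℂ) :
    fc v n = fc (fun θ => v θ - c) n + fc (fun _ => c) n := by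
  rw [fc, fc, fc, ← mul_add, ← intervalIntegral.integral_add]
  · congr 1
    refine intervalIntegral.integral_congr fun θ _ => ?_
    ring
  · exact (by fun_prop : Continuous fun θ : ℝ =>
      (v θ - c) * Complex.exp (-(Complex.I * n * θ))).intervalIntegrable _ _
  · exact (by fun_prop : Continuous fun θ : ℝ =>
      c * Complex.exp (-(Complex.I * n * θ))).intervalIntegrable _ _

lemma pt_norm (t θ : ℝ) : ‖pt t θ‖ ≤ |t| := by
  rw [pt, Prod.norm_mk, Real.norm_eq_abs, Real.norm_eq_abs, abs_mul, abs_mul]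
  exact max_le (mul_le_of_le_one_right (abs_nonneg _) (Real.abs_cos_le_one _))
    (mul_le_of_le_one_right (abs_nonneg _) (Real.abs_sin_le_one _))

lemma disc_open : IsOpen disc := by
  apply isOpen_lt <;> fun_prop

lemma pt_mem {t : ℝ} (h0 : 0 < t) (h1 : t < 1) (θ : ℝ) : pt t θ ∈ disc := by
  change (t * Real.cos θ) ^ 2 + (t * Real.sin θ) ^ 2 < 1
  have e : (t * Real.cos θ) ^ 2 + (t * Real.sin θ) ^ 2 = t ^ 2 := by
    rw [mul_pow, mul_pow, ← mul_add, Real.cos_sq_add_sin_sq, mul_one]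
  rw [e]
  exact pow_lt_one₀ h0.le h1 two_ne_zero

lemma cont {u : ℝ × ℝ → ℂ} (hu : ContDiffOn ℝ 1 u disc) {t : ℝ} (h0 : 0 < t) (h1 : t < 1) :
    Continuous fun θ => u (pt t θ) := by
  refine hu.continuousOn.comp_continuous ?_ (pt_mem h0 h1)
  unfold pt
  fun_prop

lemma near {u : ℝ × ℝ → ℂ} (hu : ContDiffOn ℝ 1 u disc) {ε : ℝ} (hε : 0 < ε) :
    ∀ᶠ t in 𝓝[>] (0 : ℝ), (0 < t ∧ t < 1) ∧ ∀ θ, ‖u (pt t θ) - u 0‖ ≤ ε := by
  have h0 : (0 : ℝ × ℝ) ∈ disc := by
    change (0 : ℝ) ^ 2 + (0 : ℝ) ^ 2 < 1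
    norm_num
  have hc : ContinuousAt u 0 := hu.continuousOn.continuousAt (disc_open.mem_nhds h0)
  obtain ⟨δ, hδ, h⟩ := Metric.continuousAt_iff.1 hc ε hε
  have hm : Ioo (0 : ℝ) (min δ 1) ∈ 𝓝[>] (0 : ℝ) := Ioo_mem_nhdsGT (lt_min hδ one_pos)
  filter_upwards [hm] with t ht
  refine ⟨⟨ht.1, ht.2.trans_le (min_le_right _ _)⟩, fun θ => ?_⟩
  have h2 : dist (pt t θ) 0 < δ := by
    rw [dist_zero_right]
    refine (pt_norm t θ).trans_lt ?_
    rw [abs_of_pos ht.1]
    exact ht.2.trans_le (min_le_left _ _)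
  have h3 := h h2
  rw [dist_eq_norm] at h3
  exact h3.le

end L3

theorem lZero : LZero := by
  intro u hu n
  constructor
  · intro hn
    rw [Metric.tendsto_nhds]
    intro ε hε
    filter_upwards [L3.near hu (half_pos hε)] with t ht
    rw [dist_zero_right, L3.fc_sub (L3.cont hu ht.1.1 ht.1.2) n (u 0), L3.fc_const hn, add_zero]
    exact (L3.fc_bound ht.2).trans_lt (half_lt_self hε)
  · refine ⟨‖u 0‖ + 1, ?_⟩
    filter_upwards [L3.near hu one_pos] with t ht
    refine L3.fc_bound fun θ => ?_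
    have h1 : u (pt t θ) = u 0 + (u (pt t θ) - u 0) := by ring
    rw [h1]
    exact (norm_add_le _ _).trans (add_le_add le_rfl (ht.2 θ))

end Pool.Agent.MFK

end

section

/-! # The Picone identity on a compact interval -/

set_option autoImplicit false

namespace Pool.Agent.MFK

open MeasureTheory Set Filter Topology

namespace L4

lemma cross (w : ℝ) (z z' : ℂ) :
    2 * w * inner ℝ z z' ≤ ‖z'‖ ^ 2 + w ^ 2 * ‖z‖ ^ 2 := by
  have h := norm_sub_sq_real z' (w • z)
  rw [norm_smul, mul_pow, Real.norm_eq_abs, sq_abs, real_inner_smul_right,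
    real_inner_comm z z'] at h
  have h2 : 0 ≤ ‖z' - w • z‖ ^ 2 := by positivity
  linarith

/-- the derivative of `r w |f|^2` -/
lemma der {B lam : ℝ} {n : ℤ} {a a' : ℝ → ℝ} {f : ℝ → ℂ} {z' : ℂ} {r : ℝ} (hr : 0 < r)
    (ha : HasDerivAt a (a' r) r) (hpos : 0 < a r)
    (ha' : HasDerivAt a' (((qn B n r) ^ 2 - lam) * a r - a' r / r) r) (hf : HasDerivAt f z' r) :
    HasDerivAt (fun x => x * (a' x / a x) * ‖f x‖ ^ 2)
      (r * ((qn B n r) ^ 2 - lam) * ‖f r‖ ^ 2 - r * (a' r / a r) ^ 2 * ‖f r‖ ^ 2 +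
        r * (2 * (a' r / a r) * inner ℝ (f r) z')) r := by
  have h1 : HasDerivAt (fun x => a' x / a x) _ r := ha'.fun_div ha hpos.ne'
  have h2 : HasDerivAt (fun x => x * (a' x / a x)) _ r := (hasDerivAt_id' r).fun_mul h1
  have h3 : HasDerivAt (fun x => ‖f x‖ ^ 2) (2 * inner ℝ (f r) z') r := hf.norm_sq
  have h4 : HasDerivAt (fun x => x * (a' x / a x) * ‖f x‖ ^ 2) _ r := h2.fun_mul h3
  convert! h4 using 1
  have hr' : r ≠ 0 := hr.ne'
  have hp' : a r ≠ 0 := hpos.ne'
  field_simp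
  ring

end L4

open L4 in
theorem lPicone (h : RReg) : LPicone := by
  intro B lam n F f f' s t hR hs hst hf hf'
  obtain ⟨hd1, hC2, hc1, hpos, -, hd2, -, -⟩ := h B lam n F hR
  have hIcc : ∀ r ∈ Icc s t, 0 < r := fun r hr => lt_of_lt_of_le hs hr.1
  have hca : Continuous (radf n F) := hC2.continuous
  have hfc : ContinuousOn f (Icc s t) := fun r hr => (hf r hr).continuousAt.continuousWithinAt
  have hw : ContinuousOn (fun r => deriv (radf n F) r / radf n F r) (Icc s t) :=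
    hc1.continuousOn.div hca.continuousOn fun r hr => (hpos r (hIcc r hr)).ne'
  have hq : ContinuousOn (fun r => qn B n r) (Icc s t) := by
    unfold qn
    exact (continuousOn_const.div continuousOn_id fun r hr => (hIcc r hr).ne').sub
      (by fun_prop)
  have hin : ContinuousOn (fun r => inner ℝ (f r) (f' r)) (Icc s t) := hfc.inner hf'
  have hnf : ContinuousOn (fun r => ‖f r‖ ^ 2) (Icc s t) := hfc.norm.pow 2
  have hnf' : ContinuousOn (fun r => ‖f' r‖ ^ 2) (Icc s t) := hf'.norm.pow 2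
  set G' : ℝ → ℝ := fun r => r * ((qn B n r) ^ 2 - lam) * ‖f r‖ ^ 2 -
    r * (deriv (radf n F) r / radf n F r) ^ 2 * ‖f r‖ ^ 2 +
    r * (2 * (deriv (radf n F) r / radf n F r) * inner ℝ (f r) (f' r)) with hG'
  have hG'c : ContinuousOn G' (Icc s t) := by
    rw [hG']
    exact (((continuousOn_id.mul ((hq.pow 2).sub continuousOn_const)).mul hnf).sub
      ((continuousOn_id.mul (hw.pow 2)).mul hnf)).add
      (continuousOn_id.mul ((continuousOn_const.mul hw).mul hin))
  have hRc : ContinuousOn (fun r => (‖f' r‖ ^ 2 + (qn B n r ^ 2 - lam) * ‖f r‖ ^ 2) * r)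
      (Icc s t) :=
    (hnf'.add (((hq.pow 2).sub continuousOn_const).mul hnf)).mul continuousOn_id
  have hftc := intervalIntegral.integral_eq_sub_of_hasDerivAt (a := s) (b := t)
    (f := fun x => x * (deriv (radf n F) x / radf n F x) * ‖f x‖ ^ 2) (f' := G')
    (fun r hr => by
      rw [uIcc_of_le hst] at hr
      exact der (hIcc r hr) (hd1 r) (hpos r (hIcc r hr)) (hd2 r (hIcc r hr)) (hf r hr))
    (hG'c.intervalIntegrable_of_Icc hst)
  rw [← hftc]
  apply intervalIntegral.integral_mono_on hst (hG'c.intervalIntegrable_of_Icc hst)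
    (hRc.intervalIntegrable_of_Icc hst)
  intro r hr
  have h1 := cross (deriv (radf n F) r / radf n F r) (f r) (f' r)
  have h2 := mul_le_mul_of_nonneg_left h1 (hIcc r hr).le
  rw [hG']
  show _ ≤ (‖f' r‖ ^ 2 + (qn B n r ^ 2 - lam) * ‖f r‖ ^ 2) * r
  linarith

end Pool.Agent.MFK

end

section

/-! # Item L5: the radial inequality on `(0,1)` -/

set_option autoImplicit false

namespace Pool.Agent.MFK

open MeasureTheory Set Filter Topology

namespace L5

/-- a function with square integrable derivative is bounded near `1` -/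
theorem bdd_near_one (f f' : ℝ → ℂ) (G : ℝ → ℝ)
    (hf : ∀ r ∈ Ioo (0 : ℝ) 1, HasDerivAt f (f' r) r) (hf' : ContinuousOn f' (Ioo 0 1))
    (hG : IntegrableOn G (Ioc 0 1)) (hGf : ∀ r ∈ Ioo (0 : ℝ) 1, ‖f' r‖ ^ 2 * r ≤ G r) :
    ∃ C : ℝ, 0 ≤ C ∧ ∀ t ∈ Ico (1 / 2 : ℝ) 1, ‖f t‖ ≤ C := by
  have hG0 : ∀ r ∈ Ioo (0 : ℝ) 1, 0 ≤ G r := fun r hr =>
    (mul_nonneg (by positivity) hr.1.le).trans (hGf r hr)
  have hH : IntegrableOn (fun r => 1 + 2 * |G r|) (Ioc (0 : ℝ) 1) := by
    refine Integrable.add ?_ (hG.abs.const_mul 2)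
    simp
  have hH' : ∀ s t : ℝ, 0 ≤ s → s ≤ t → t ≤ 1 →
      IntervalIntegrable (fun r => 1 + 2 * |G r|) volume s t := by
    intro s t hs hst ht
    rw [intervalIntegrable_iff_integrableOn_Ioc_of_le hst]
    exact hH.mono_set (Ioc_subset_Ioc hs ht)
  refine ⟨‖f (1 / 2)‖ + ∫ r in (1 / 2 : ℝ)..1, (1 + 2 * |G r|), ?_, ?_⟩
  · refine add_nonneg (norm_nonneg _) (intervalIntegral.integral_nonneg (by norm_num) ?_)
    intro r _
    positivity
  intro t ht
  have hsub : Icc (1 / 2 : ℝ) t ⊆ Ioo 0 1 := fun x hx => ⟨by linarith [hx.1], by linarith [hx.2, ht.2]⟩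
  have hc : ContinuousOn f' (Icc (1 / 2) t) := hf'.mono hsub
  have hi : IntervalIntegrable f' volume (1 / 2) t := by
    apply ContinuousOn.intervalIntegrable
    rwa [uIcc_of_le ht.1]
  have hftc : ∫ r in (1 / 2 : ℝ)..t, f' r = f t - f (1 / 2) := by
    apply intervalIntegral.integral_eq_sub_of_hasDerivAt _ hi
    intro r hr
    rw [uIcc_of_le ht.1] at hr
    exact hf r (hsub hr)
  have h1 : ‖f t - f (1 / 2)‖ ≤ ∫ r in (1 / 2 : ℝ)..t, (1 + 2 * |G r|) := by
    rw [← hftc]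
    refine (intervalIntegral.norm_integral_le_integral_norm ht.1).trans ?_
    apply intervalIntegral.integral_mono_on ht.1 hi.norm (hH' _ _ (by norm_num) ht.1 ht.2.le)
    intro r hr
    have hr' := hsub hr
    have h2 := hGf r hr'
    have h3 : ‖f' r‖ ^ 2 ≤ 2 * |G r| := by
      have : ‖f' r‖ ^ 2 * (1 / 2) ≤ ‖f' r‖ ^ 2 * r := by
        apply mul_le_mul_of_nonneg_left hr.1 (by positivity)
      linarith [le_abs_self (G r)]
    nlinarith [sq_nonneg (‖f' r‖ - 1 / 2)]
  have h4 : ∫ r in (1 / 2 : ℝ)..t, (1 + 2 * |G r|) ≤ ∫ r in (1 / 2 : ℝ)..1, (1 + 2 * |G r|) := by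
    rw [← intervalIntegral.integral_add_adjacent_intervals (hH' (1 / 2) t (by norm_num) ht.1 ht.2.le)
      (hH' t 1 (by linarith [ht.1]) ht.2.le le_rfl)]
    have : 0 ≤ ∫ r in t..1, (1 + 2 * |G r|) := by
      apply intervalIntegral.integral_nonneg ht.2.le
      intro r _
      positivity
    linarith
  have h5 : ‖f t‖ ≤ ‖f (1 / 2)‖ + ‖f t - f (1 / 2)‖ := by
    have := norm_add_le (f (1 / 2)) (f t - f (1 / 2))
    simpa using this
  linarith

end L5

theorem lRad (h : RReg) (h2 : LPicone) : LRad := by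
  intro B lam n F f f' hlam hR hD1 hf hf' hz hbd hI1 hI2
  obtain ⟨hd, hC2, hcd, hpos, h1, hode, hlim, hC⟩ := h B lam n F hR
  have hg : IntegrableOn (fun r => (‖f' r‖ ^ 2 + (qn B n r ^ 2 - lam) * ‖f r‖ ^ 2) * r) (Ioc 0 1) := by
    have h3 := hI1.sub (hI2.const_mul lam)
    refine h3.congr (Eventually.of_forall fun r => ?_)
    simp only [Pi.sub_apply]
    ring
  have hgI : IntegrableOn (fun r => (‖f' r‖ ^ 2 + (qn B n r ^ 2 - lam) * ‖f r‖ ^ 2) * r)
      (uIcc (0 : ℝ) 1) := by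
    rw [uIcc_of_le zero_le_one, integrableOn_Icc_iff_integrableOn_Ioc]
    exact hg
  have hprim := intervalIntegral.continuousOn_primitive_interval hgI
  rw [uIcc_of_le zero_le_one] at hprim
  have hII : ∀ s t : ℝ, 0 ≤ s → s ≤ t → t ≤ 1 → IntervalIntegrable
      (fun r => (‖f' r‖ ^ 2 + (qn B n r ^ 2 - lam) * ‖f r‖ ^ 2) * r) volume s t := by
    intro s t hs hst ht
    rw [intervalIntegrable_iff_integrableOn_Ioc_of_le hst]
    exact hg.mono_set (Ioc_subset_Ioc hs ht)
  -- lower boundary term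
  have hlow : Tendsto (fun s => s * (deriv (radf n F) s / radf n F s) * ‖f s‖ ^ 2) (𝓝[>] 0) (𝓝 0) := by
    by_cases hn : n = 0
    · have h3 : Tendsto (fun r => r * (deriv (radf n F) r / radf n F r)) (𝓝[>] 0) (𝓝 0) := by
        have := hlim
        rw [hn] at this ⊢
        simpa using this
      obtain ⟨C, hC⟩ := hbd
      refine squeeze_zero_norm' (a := fun s => |s * (deriv (radf n F) s / radf n F s)| * C ^ 2) ?_ ?_
      · filter_upwards [hC] with s hs
        rw [norm_mul, Real.norm_eq_abs, Real.norm_eq_abs, abs_of_nonneg (sq_nonneg ‖f s‖)]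
        apply mul_le_mul_of_nonneg_left _ (abs_nonneg _)
        exact pow_le_pow_left₀ (norm_nonneg _) hs 2
      · have := (h3.abs).mul_const (C ^ 2)
        simpa using this
    · have h3 := (hz hn).norm.pow 2
      have h4 := hlim.mul h3
      simpa using h4
  -- the inequality on `(0,t)`
  have hstep : ∀ t ∈ Ioo (0 : ℝ) 1, t * (deriv (radf n F) t / radf n F t) * ‖f t‖ ^ 2
      ≤ ∫ r in (0 : ℝ)..t, (‖f' r‖ ^ 2 + (qn B n r ^ 2 - lam) * ‖f r‖ ^ 2) * r := by
    intro t ht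
    have hp : Tendsto (fun s => ∫ r in (0 : ℝ)..s,
        (‖f' r‖ ^ 2 + (qn B n r ^ 2 - lam) * ‖f r‖ ^ 2) * r) (𝓝[>] 0) (𝓝 0) := by
      have h3 := (hprim 0 ⟨le_rfl, zero_le_one⟩).mono_left
        (nhdsWithin_mono 0 (Ioc_subset_Icc_self (a := (0 : ℝ)) (b := 1)))
      rw [nhdsWithin_Ioc_eq_nhdsGT zero_lt_one] at h3
      simpa using h3
    have hl : Tendsto (fun s => t * (deriv (radf n F) t / radf n F t) * ‖f t‖ ^ 2
        - s * (deriv (radf n F) s / radf n F s) * ‖f s‖ ^ 2) (𝓝[>] 0)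
        (𝓝 (t * (deriv (radf n F) t / radf n F t) * ‖f t‖ ^ 2 - 0)) := tendsto_const_nhds.sub hlow
    have hr : Tendsto (fun s => (∫ r in (0 : ℝ)..t,
        (‖f' r‖ ^ 2 + (qn B n r ^ 2 - lam) * ‖f r‖ ^ 2) * r) - ∫ r in (0 : ℝ)..s,
        (‖f' r‖ ^ 2 + (qn B n r ^ 2 - lam) * ‖f r‖ ^ 2) * r) (𝓝[>] 0)
        (𝓝 ((∫ r in (0 : ℝ)..t,
        (‖f' r‖ ^ 2 + (qn B n r ^ 2 - lam) * ‖f r‖ ^ 2) * r) - 0)) := tendsto_const_nhds.sub hp
    have hle := le_of_tendsto_of_tendsto hl hr (by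
      filter_upwards [Ioo_mem_nhdsGT ht.1] with s hs
      have h3 := h2 B lam n F f f' s t hR hs.1 hs.2.le
        (fun r hr => hf r ⟨by linarith [hr.1, hs.1], by linarith [hr.2, ht.2]⟩)
        (hf'.mono fun r hr => ⟨by linarith [hr.1, hs.1], by linarith [hr.2, ht.2]⟩)
      have h4 := intervalIntegral.integral_add_adjacent_intervals
        (hII 0 s le_rfl hs.1.le (by linarith [hs.2, ht.2])) (hII s t hs.1.le hs.2.le ht.2.le)
      linarith)
    simpa using hle
  -- upper boundary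
  obtain ⟨C, hC0, hCb⟩ := L5.bdd_near_one f f'
    (fun r => (‖f' r‖ ^ 2 + qn B n r ^ 2 * ‖f r‖ ^ 2) * r) hf hf' hI1 (by
      intro r hr
      apply mul_le_mul_of_nonneg_right _ hr.1.le
      nlinarith [mul_nonneg (sq_nonneg (qn B n r)) (sq_nonneg ‖f r‖)])
  have hDc : Tendsto (fun t => min (t * (deriv (radf n F) t / radf n F t)) 0 * C ^ 2) (𝓝[<] 1) (𝓝 0) := by
    have h3 : ContinuousAt (fun t => min (t * (deriv (radf n F) t / radf n F t)) 0 * C ^ 2) 1 := by
      have h4 : ContinuousAt (radf n F) 1 := (hd 1).continuousAt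
      have h5 : ContinuousAt (deriv (radf n F)) 1 := hcd.continuousAt
      have h6 : radf n F 1 ≠ 0 := (hpos 1 zero_lt_one).ne'
      exact ((continuousAt_id.mul (h5.div h4 h6)).min continuousAt_const).mul continuousAt_const
    have h4 := h3.tendsto.mono_left (nhdsWithin_le_nhds (s := Iio (1 : ℝ)))
    have h5 : min (1 * (deriv (radf n F) 1 / radf n F 1)) 0 * C ^ 2 = 0 := by
      rw [min_eq_right, zero_mul]
      rw [one_mul]
      exact div_nonneg hD1 (hpos 1 zero_lt_one).le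
    rwa [h5] at h4
  have hup : Tendsto (fun t => ∫ r in (0 : ℝ)..t,
      (‖f' r‖ ^ 2 + (qn B n r ^ 2 - lam) * ‖f r‖ ^ 2) * r) (𝓝[<] 1)
      (𝓝 (∫ r in (0 : ℝ)..1, (‖f' r‖ ^ 2 + (qn B n r ^ 2 - lam) * ‖f r‖ ^ 2) * r)) := by
    have h3 := (hprim 1 ⟨zero_le_one, le_rfl⟩).mono_left
      (nhdsWithin_mono 1 (show Ico (0 : ℝ) 1 ⊆ Icc 0 1 from Ico_subset_Icc_self))
    rwa [nhdsWithin_Ico_eq_nhdsLT zero_lt_one] at h3
  have key : 0 ≤ ∫ r in (0 : ℝ)..1, (‖f' r‖ ^ 2 + (qn B n r ^ 2 - lam) * ‖f r‖ ^ 2) * r := by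
    refine le_of_tendsto_of_tendsto hDc hup ?_
    filter_upwards [Ioo_mem_nhdsLT (show (1 / 2 : ℝ) < 1 by norm_num)] with t ht
    refine le_trans ?_ (hstep t ⟨by linarith [ht.1], ht.2⟩)
    have h3 : ‖f t‖ ^ 2 ≤ C ^ 2 := pow_le_pow_left₀ (norm_nonneg _) (hCb t ⟨ht.1.le, ht.2⟩) 2
    have h4 : min (t * (deriv (radf n F) t / radf n F t)) 0 ≤ 0 := min_le_right _ _
    have h5 : min (t * (deriv (radf n F) t / radf n F t)) 0 ≤ t * (deriv (radf n F) t / radf n F t) :=
      min_le_left _ _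
    calc min (t * (deriv (radf n F) t / radf n F t)) 0 * C ^ 2
        ≤ min (t * (deriv (radf n F) t / radf n F t)) 0 * ‖f t‖ ^ 2 := by
          nlinarith
      _ ≤ t * (deriv (radf n F) t / radf n F t) * ‖f t‖ ^ 2 := by
          apply mul_le_mul_of_nonneg_right h5 (by positivity)
  have hsplit : ∫ r in (0 : ℝ)..1, (‖f' r‖ ^ 2 + (qn B n r ^ 2 - lam) * ‖f r‖ ^ 2) * r
      = (∫ r in (0 : ℝ)..1, (‖f' r‖ ^ 2 + qn B n r ^ 2 * ‖f r‖ ^ 2) * r)
        - lam * ∫ r in (0 : ℝ)..1, ‖f r‖ ^ 2 * r := by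
    rw [← intervalIntegral.integral_const_mul, ← intervalIntegral.integral_sub]
    · congr 1
      ext r
      ring
    · rw [intervalIntegrable_iff_integrableOn_Ioc_of_le zero_le_one]
      exact hI1
    · rw [intervalIntegrable_iff_integrableOn_Ioc_of_le zero_le_one]
      exact hI2.const_mul lam
  rw [hsplit] at key
  linarith

end Pool.Agent.MFK

end

section

/-! # MP_8826fd: the inequality for one admissible function (item L6) -/

set_option autoImplicit false

namespace Pool.Agent.MFK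

open MeasureTheory Set Filter Topology

namespace L6

theorem isOpen_disc : IsOpen disc := by
  have : disc = (fun x : ℝ × ℝ => x.1 ^ 2 + x.2 ^ 2) ⁻¹' (Iio 1) := rfl
  rw [this]
  exact isOpen_Iio.preimage (by fun_prop)

theorem pt_mem {r : ℝ} (h0 : 0 < r) (h1 : r < 1) (θ : ℝ) : pt r θ ∈ disc := by
  show (r * Real.cos θ) ^ 2 + (r * Real.sin θ) ^ 2 < 1
  have : (r * Real.cos θ) ^ 2 + (r * Real.sin θ) ^ 2 = r ^ 2 := by
    have := Real.sin_sq_add_cos_sq θ
    nlinarith
  rw [this]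
  nlinarith

theorem cont_pt (r : ℝ) : Continuous (fun θ => pt r θ) := by
  unfold pt
  fun_prop

theorem diffAt {u : ℝ × ℝ → ℂ} (hu : ContDiffOn ℝ 1 u disc) {x : ℝ × ℝ} (hx : x ∈ disc) :
    DifferentiableAt ℝ u x :=
  (hu.differentiableOn (by norm_num)).differentiableAt (isOpen_disc.mem_nhds hx)

theorem cont_fderiv {u : ℝ × ℝ → ℂ} (hu : ContDiffOn ℝ 1 u disc) :
    ContinuousOn (fun x => fderiv ℝ u x) disc :=
  hu.continuousOn_fderiv_of_isOpen isOpen_disc le_rfl

theorem cont_comp {E : Type*} [TopologicalSpace E] {g : ℝ × ℝ → E} (hg : ContinuousOn g disc)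
    {r : ℝ} (h0 : 0 < r) (h1 : r < 1) : Continuous (fun θ => g (pt r θ)) := by
  have h : ContinuousOn (fun θ => g (pt r θ)) univ :=
    hg.comp (cont_pt r).continuousOn (fun θ _ => pt_mem h0 h1 θ)
  exact continuousOn_univ.mp h

theorem deriv_r {u : ℝ × ℝ → ℂ} (hu : ContDiffOn ℝ 1 u disc) {r : ℝ} (h0 : 0 < r) (h1 : r < 1)
    (θ : ℝ) : deriv (fun t => u (pt t θ)) r = fderiv ℝ u (pt r θ) (Real.cos θ, Real.sin θ) := by
  have hp : HasDerivAt (fun t : ℝ => pt t θ) (Real.cos θ, Real.sin θ) r := by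
    unfold pt
    have a : HasDerivAt (fun t : ℝ => t * Real.cos θ) (Real.cos θ) r := by
      simpa using (hasDerivAt_id r).mul_const (Real.cos θ)
    have b : HasDerivAt (fun t : ℝ => t * Real.sin θ) (Real.sin θ) r := by
      simpa using (hasDerivAt_id r).mul_const (Real.sin θ)
    exact a.prodMk b
  exact ((diffAt hu (pt_mem h0 h1 θ)).hasFDerivAt.comp_hasDerivAt r hp).deriv

theorem deriv_t {u : ℝ × ℝ → ℂ} (hu : ContDiffOn ℝ 1 u disc) {r : ℝ} (h0 : 0 < r) (h1 : r < 1)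
    (θ : ℝ) : deriv (fun t => u (pt r t)) θ
      = fderiv ℝ u (pt r θ) (r * (-Real.sin θ), r * Real.cos θ) := by
  have hp : HasDerivAt (fun t : ℝ => pt r t) (r * (-Real.sin θ), r * Real.cos θ) θ := by
    unfold pt
    exact ((Real.hasDerivAt_cos θ).const_mul r).prodMk ((Real.hasDerivAt_sin θ).const_mul r)
  exact ((diffAt hu (pt_mem h0 h1 θ)).hasFDerivAt.comp_hasDerivAt θ hp).deriv

theorem cont_dr {u : ℝ × ℝ → ℂ} (hu : ContDiffOn ℝ 1 u disc) {r : ℝ} (h0 : 0 < r) (h1 : r < 1) :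
    Continuous (fun θ => deriv (fun t => u (pt t θ)) r) := by
  have h : (fun θ => deriv (fun t => u (pt t θ)) r)
      = fun θ => fderiv ℝ u (pt r θ) (Real.cos θ, Real.sin θ) := by
    funext θ
    exact deriv_r hu h0 h1 θ
  rw [h]
  exact (cont_comp (cont_fderiv hu) h0 h1).clm_apply (by fun_prop)

theorem cont_dt {u : ℝ × ℝ → ℂ} (hu : ContDiffOn ℝ 1 u disc) {r : ℝ} (h0 : 0 < r) (h1 : r < 1) :
    Continuous (fun θ => deriv (fun t => u (pt r t)) θ) := by
  have h : (fun θ => deriv (fun t => u (pt r t)) θ)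
      = fun θ => fderiv ℝ u (pt r θ) (r * (-Real.sin θ), r * Real.cos θ) := by
    funext θ
    exact deriv_t hu h0 h1 θ
  rw [h]
  exact (cont_comp (cont_fderiv hu) h0 h1).clm_apply (by fun_prop)

/-- the pointwise Bessel inequality -/
theorem bessel_pt (h1 : PDens) (h3 : LBessel) (h5 : LCoef) (B : ℝ) {u : ℝ × ℝ → ℂ}
    (hu : ContDiffOn ℝ 1 u disc) (S : Finset ℤ) {r : ℝ} (hr0 : 0 < r) (hr1 : r < 1) :
    ∑ n ∈ S, 2 * Real.pi * (‖fc (fun θ => deriv (fun t => u (pt t θ)) r) n‖ ^ 2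
        + qn B n r ^ 2 * ‖fc (fun θ => u (pt r θ)) n‖ ^ 2)
      ≤ ∫ θ in (0 : ℝ)..(2 * Real.pi), eden B u (pt r θ) := by
  have hcu : Continuous (fun θ => u (pt r θ)) := cont_comp hu.continuousOn hr0 hr1
  have hcr := cont_dr hu hr0 hr1
  have hct := cont_dt hu hr0 hr1
  have hv : Continuous (fun θ => (1 / r : ℝ) * deriv (fun t => u (pt r t)) θ
      - Complex.I * ((B * r / 2 : ℝ) : ℂ) * u (pt r θ)) :=
    (continuous_const.mul hct).sub (continuous_const.mul hcu)
  have hE : ∀ θ, eden B u (pt r θ) = ‖deriv (fun t => u (pt t θ)) r‖ ^ 2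
      + ‖(1 / r : ℝ) * deriv (fun t => u (pt r t)) θ
        - Complex.I * ((B * r / 2 : ℝ) : ℂ) * u (pt r θ)‖ ^ 2 :=
    fun θ => (h1 B u r θ hr0 (diffAt hu (pt_mem hr0 hr1 θ))).2.2
  have hI : (∫ θ in (0 : ℝ)..(2 * Real.pi), eden B u (pt r θ))
      = (∫ θ in (0 : ℝ)..(2 * Real.pi), ‖deriv (fun t => u (pt t θ)) r‖ ^ 2)
        + ∫ θ in (0 : ℝ)..(2 * Real.pi), ‖(1 / r : ℝ) * deriv (fun t => u (pt r t)) θ
        - Complex.I * ((B * r / 2 : ℝ) : ℂ) * u (pt r θ)‖ ^ 2 := by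
    rw [← intervalIntegral.integral_add]
    · exact intervalIntegral.integral_congr (fun θ _ => hE θ)
    · exact (hcr.norm.pow 2).intervalIntegrable _ _
    · exact (hv.norm.pow 2).intervalIntegrable _ _
  have b1 := h3 _ S hcr
  have b2 := h3 _ S hv
  have b3 : ∀ n : ℤ, 2 * Real.pi * ‖fc (fun θ => (1 / r : ℝ) * deriv (fun t => u (pt r t)) θ
      - Complex.I * ((B * r / 2 : ℝ) : ℂ) * u (pt r θ)) n‖ ^ 2
      = 2 * Real.pi * (qn B n r ^ 2 * ‖fc (fun θ => u (pt r θ)) n‖ ^ 2) := by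
    intro n
    rw [(h5 B u hu n r hr0 hr1).2.1, norm_mul, norm_mul, Complex.norm_I, one_mul,
      Complex.norm_real, mul_pow, Real.norm_eq_abs, sq_abs]
  rw [Finset.sum_congr rfl (fun n _ => b3 n)] at b2
  rw [hI]
  calc ∑ n ∈ S, 2 * Real.pi * (‖fc (fun θ => deriv (fun t => u (pt t θ)) r) n‖ ^ 2
        + qn B n r ^ 2 * ‖fc (fun θ => u (pt r θ)) n‖ ^ 2)
      = ∑ n ∈ S, 2 * Real.pi * ‖fc (fun θ => deriv (fun t => u (pt t θ)) r) n‖ ^ 2
        + ∑ n ∈ S, 2 * Real.pi * (qn B n r ^ 2 * ‖fc (fun θ => u (pt r θ)) n‖ ^ 2) := by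
        rw [← Finset.sum_add_distrib]
        exact Finset.sum_congr rfl (fun n _ => by ring)
    _ ≤ _ := add_le_add b1 b2

/-- continuity on `(0,1)` gives measurability on `(0,1]` -/
theorem aesm {g : ℝ → ℝ} (hg : ContinuousOn g (Ioo 0 1)) :
    AEStronglyMeasurable g (volume.restrict (Ioc (0 : ℝ) 1)) := by
  rw [← restrict_Ioo_eq_restrict_Ioc]
  exact hg.aestronglyMeasurable measurableSet_Ioo

/-- a function continuous on `(0,1)` between `0` and an integrable function is integrable -/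
theorem integ {g k : ℝ → ℝ} (hg : ContinuousOn g (Ioo 0 1)) (hk : IntegrableOn k (Ioc 0 1))
    (h0 : ∀ r ∈ Ioo (0 : ℝ) 1, 0 ≤ g r) (h1 : ∀ r ∈ Ioo (0 : ℝ) 1, g r ≤ k r) :
    IntegrableOn g (Ioc 0 1) := by
  refine Integrable.mono' hk (aesm hg) ?_
  rw [← restrict_Ioo_eq_restrict_Ioc]
  refine (ae_restrict_iff' measurableSet_Ioo).mpr (Filter.Eventually.of_forall fun r hr => ?_)
  rw [Real.norm_eq_abs, abs_of_nonneg (h0 r hr)]
  exact h1 r hr

end L6

open L6 in
theorem lFun (h1 : PDens) (h2 : PIntD) (h3 : LBessel) (h4 : LPars) (h5 : LCoef) (h6 : LZero)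
    (h7 : LRad) (h8 : RReg) : LFun := by
  intro B lam m F u hB hD hu hi2 hie
  have hpi : 0 < 2 * Real.pi := by positivity
  -- notation
  set f : ℤ → ℝ → ℂ := fun n r => fc (fun θ => u (pt r θ)) n with hf
  set f' : ℤ → ℝ → ℂ := fun n r => fc (fun θ => deriv (fun t => u (pt t θ)) r) n with hf'
  have hder : ∀ n : ℤ, ∀ r ∈ Ioo (0 : ℝ) 1, HasDerivAt (f n) (f' n r) r :=
    fun n r hr => (h5 B u hu n r hr.1 hr.2).1
  have hcf' : ∀ n : ℤ, ContinuousOn (f' n) (Ioo 0 1) :=
    fun n => (h5 B u hu n (1/2) (by norm_num) (by norm_num)).2.2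
  have hcf : ∀ n : ℤ, ContinuousOn (f n) (Ioo 0 1) :=
    fun n r hr => (hder n r hr).continuousAt.continuousWithinAt
  have hcq : ∀ n : ℤ, ContinuousOn (fun r => qn B n r) (Ioo 0 1) := by
    intro n
    unfold qn
    refine ContinuousOn.sub (ContinuousOn.div continuousOn_const continuousOn_id ?_) (by fun_prop)
    intro r hr
    exact hr.1.ne'
  have hcg : ∀ n : ℤ, ContinuousOn (fun r => (‖f' n r‖ ^ 2 + qn B n r ^ 2 * ‖f n r‖ ^ 2) * r)
      (Ioo 0 1) := fun n =>
    ((((hcf' n).norm.pow 2).add (((hcq n).pow 2).mul ((hcf n).norm.pow 2))).mul continuousOn_id)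
  have hch : ∀ n : ℤ, ContinuousOn (fun r => ‖f n r‖ ^ 2 * r) (Ioo 0 1) := fun n =>
    ((hcf n).norm.pow 2).mul continuousOn_id
  -- polar coordinates
  obtain ⟨-, hEi, hEe⟩ := h2 _ hie
  obtain ⟨-, hNi, hNe⟩ := h2 _ hi2
  have hN : ∀ r ∈ Ioo (0 : ℝ) 1, HasSum (fun n : ℤ => 2 * Real.pi * ‖f n r‖ ^ 2)
      (∫ θ in (0 : ℝ)..(2 * Real.pi), ‖u (pt r θ)‖ ^ 2) := by
    intro r hr
    refine h4 _ (cont_comp hu.continuousOn hr.1 hr.2) ?_
    intro θ
    simp only [pt, Real.cos_add_two_pi, Real.sin_add_two_pi]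
  -- integrability
  have hgi : ∀ n : ℤ, IntegrableOn (fun r => (‖f' n r‖ ^ 2 + qn B n r ^ 2 * ‖f n r‖ ^ 2) * r)
      (Ioc 0 1) := by
    intro n
    refine integ (hcg n) (hEi.const_mul ((2 * Real.pi)⁻¹)) ?_ ?_
    · intro r hr
      have := hr.1.le
      positivity
    · intro r hr
      have := bessel_pt h1 h3 h5 B hu {n} hr.1 hr.2
      rw [Finset.sum_singleton] at this
      have h' : (‖f' n r‖ ^ 2 + qn B n r ^ 2 * ‖f n r‖ ^ 2)
          ≤ (2 * Real.pi)⁻¹ * ∫ θ in (0 : ℝ)..(2 * Real.pi), eden B u (pt r θ) := by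
        rw [inv_mul_eq_div, le_div_iff₀ hpi]
        linarith [this]
      calc (‖f' n r‖ ^ 2 + qn B n r ^ 2 * ‖f n r‖ ^ 2) * r
          ≤ ((2 * Real.pi)⁻¹ * ∫ θ in (0 : ℝ)..(2 * Real.pi), eden B u (pt r θ)) * r :=
            mul_le_mul_of_nonneg_right h' hr.1.le
        _ = _ := by ring
  have hhi : ∀ n : ℤ, IntegrableOn (fun r => ‖f n r‖ ^ 2 * r) (Ioc 0 1) := by
    intro n
    refine integ (hch n) (hNi.const_mul ((2 * Real.pi)⁻¹)) ?_ ?_
    · intro r hr
      have := hr.1.le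
      positivity
    · intro r hr
      have h0 := le_hasSum (hN r hr) n (fun j _ => by positivity)
      have h' : ‖f n r‖ ^ 2
          ≤ (2 * Real.pi)⁻¹ * ∫ θ in (0 : ℝ)..(2 * Real.pi), ‖u (pt r θ)‖ ^ 2 := by
        rw [inv_mul_eq_div, le_div_iff₀ hpi]
        linarith [h0]
      calc ‖f n r‖ ^ 2 * r
          ≤ ((2 * Real.pi)⁻¹ * ∫ θ in (0 : ℝ)..(2 * Real.pi), ‖u (pt r θ)‖ ^ 2) * r :=
            mul_le_mul_of_nonneg_right h' hr.1.le
        _ = _ := by ring
  -- the radial inequality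
  have hrad : ∀ n : ℤ, lam * ∫ r in (0 : ℝ)..1, ‖f n r‖ ^ 2 * r
      ≤ ∫ r in (0 : ℝ)..1, (‖f' n r‖ ^ 2 + qn B n r ^ 2 * ‖f n r‖ ^ 2) * r := by
    intro n
    have hdn : 0 ≤ deriv (radf n (F n)) 1 := by
      have h0 := hD.nonneg n
      have hp := (hD.rad n).pos 1 zero_le_one
      unfold dtn at h0
      by_contra hneg
      have := div_neg_of_neg_of_pos (not_le.mp hneg) hp
      linarith
    exact h7 B lam n (F n) (f n) (f' n) hD.lam_pos (hD.rad n) hdn (hder n) (hcf' n)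
      ((h6 u hu n).1) ((h6 u hu n).2) (hgi n) (hhi n)
  -- finite sums
  have hfin : ∀ S : Finset ℤ, ∑ n ∈ S, 2 * Real.pi * ∫ r in (0 : ℝ)..1,
      (‖f' n r‖ ^ 2 + qn B n r ^ 2 * ‖f n r‖ ^ 2) * r ≤ ∫ x in disc, eden B u x := by
    intro S
    rw [hEe]
    simp only [intervalIntegral.integral_of_le (zero_le_one' ℝ)]
    simp only [← integral_const_mul]
    rw [← integral_finsetSum]
    · refine integral_mono_ae ?_ hEi ?_
      · exact integrable_finsetSum _ (fun n _ => (hgi n).const_mul _)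
      · rw [← restrict_Ioo_eq_restrict_Ioc]
        refine (ae_restrict_iff' measurableSet_Ioo).mpr
          (Filter.Eventually.of_forall fun r hr => ?_)
        have := bessel_pt h1 h3 h5 B hu S hr.1 hr.2
        calc ∑ n ∈ S, 2 * Real.pi * ((‖f' n r‖ ^ 2 + qn B n r ^ 2 * ‖f n r‖ ^ 2) * r)
            = (∑ n ∈ S, 2 * Real.pi * (‖f' n r‖ ^ 2 + qn B n r ^ 2 * ‖f n r‖ ^ 2)) * r := by
              rw [Finset.sum_mul]
              exact Finset.sum_congr rfl (fun n _ => by ring)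
          _ ≤ _ := mul_le_mul_of_nonneg_right this hr.1.le
    · exact fun n _ => (hgi n).const_mul _
  -- the sum over all modes
  have hae : ∀ᵐ r ∂(volume.restrict (Ioc (0 : ℝ) 1)),
      HasSum (fun n : ℤ => 2 * Real.pi * (‖f n r‖ ^ 2 * r))
        ((∫ θ in (0 : ℝ)..(2 * Real.pi), ‖u (pt r θ)‖ ^ 2) * r) := by
    rw [← restrict_Ioo_eq_restrict_Ioc]
    refine (ae_restrict_iff' measurableSet_Ioo).mpr (Filter.Eventually.of_forall fun r hr => ?_)
    have := (hN r hr).mul_right r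
    simpa only [mul_assoc] using this
  have hpos : ∀ n : ℤ, ∀ᵐ r ∂(volume.restrict (Ioc (0 : ℝ) 1)),
      ‖2 * Real.pi * (‖f n r‖ ^ 2 * r)‖ ≤ 2 * Real.pi * (‖f n r‖ ^ 2 * r) := by
    intro n
    refine (ae_restrict_iff' measurableSet_Ioc).mpr (Filter.Eventually.of_forall fun r hr => ?_)
    have := hr.1.le
    rw [Real.norm_eq_abs, abs_of_nonneg (by positivity)]
  have hsum : HasSum (fun n : ℤ => ∫ r in Ioc (0 : ℝ) 1, 2 * Real.pi * (‖f n r‖ ^ 2 * r))
      (∫ r in Ioc (0 : ℝ) 1, (∫ θ in (0 : ℝ)..(2 * Real.pi), ‖u (pt r θ)‖ ^ 2) * r) := by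
    refine hasSum_integral_of_dominated_convergence
      (fun (n : ℤ) (r : ℝ) => 2 * Real.pi * (‖f n r‖ ^ 2 * r)) ?_ hpos ?_ ?_ hae
    · intro n
      exact ((hhi n).const_mul _).aestronglyMeasurable
    · filter_upwards [hae] with r hr using hr.summable
    · refine hNi.congr ?_
      filter_upwards [hae] with r hr using hr.tsum_eq.symm
  rw [hNe, intervalIntegral.integral_of_le (zero_le_one' ℝ)]
  refine hasSum_le_of_sum_le (hsum.mul_left lam) (fun S => ?_)
  refine le_trans ?_ (hfin S)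
  refine Finset.sum_le_sum (fun n _ => ?_)
  have := mul_le_mul_of_nonneg_left (hrad n) hpi.le
  rw [intervalIntegral.integral_of_le (zero_le_one' ℝ)] at this
  rw [integral_const_mul]
  calc lam * (2 * Real.pi * ∫ r in Ioc (0 : ℝ) 1, ‖f n r‖ ^ 2 * r)
      = 2 * Real.pi * (lam * ∫ r in Ioc (0 : ℝ) 1, ‖f n r‖ ^ 2 * r) := by ring
    _ ≤ _ := this

end Pool.Agent.MFK

end

section

/-! # Lower bound for the disc from the inequality for one function -/

set_option autoImplicit false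

namespace Pool.Agent.MFK

open MeasureTheory Set Filter Topology

namespace L7

theorem isOpen_disc : IsOpen disc := by
  have hc : Continuous (fun x : ℝ × ℝ => x.1 ^ 2 + x.2 ^ 2) := by fun_prop
  exact isOpen_lt hc continuous_const

theorem disc_sub : disc ⊆ Metric.ball (0 : ℝ × ℝ) 1 := by
  intro x hx
  have hx' : x.1 ^ 2 + x.2 ^ 2 < 1 := hx
  rw [mem_ball_zero_iff, Prod.norm_def, max_lt_iff, Real.norm_eq_abs, Real.norm_eq_abs]
  constructor
  · rw [← sq_lt_one_iff_abs_lt_one]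
    nlinarith [sq_nonneg x.2]
  · rw [← sq_lt_one_iff_abs_lt_one]
    nlinarith [sq_nonneg x.1]

theorem vol_lt : volume disc < ⊤ :=
  (measure_mono disc_sub).trans_lt Metric.isBounded_ball.measure_lt_top

theorem vol_pos : 0 < volume disc := by
  refine isOpen_disc.measure_pos volume ⟨(0, 0), ?_⟩
  show (0 : ℝ) ^ 2 + 0 ^ 2 < 1
  norm_num

theorem eden_const (B : ℝ) (c : ℂ) (x : ℝ × ℝ) :
    eden B (fun _ => c) x = ‖Complex.I * ((-(B * x.2 / 2) : ℝ) : ℂ) * c‖ ^ 2
      + ‖Complex.I * ((B * x.1 / 2 : ℝ) : ℂ) * c‖ ^ 2 := by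
  unfold eden
  have hf : fderiv ℝ (fun _ : ℝ × ℝ => c) x = 0 := by
    exact fderiv_const_apply c
  rw [hf]
  have z1 : (0 : ℝ × ℝ →L[ℝ] ℂ) ((1 : ℝ), (0 : ℝ)) = 0 := rfl
  have z2 : (0 : ℝ × ℝ →L[ℝ] ℂ) ((0 : ℝ), (1 : ℝ)) = 0 := rfl
  rw [z1, z2, zero_sub, zero_sub, norm_neg, norm_neg]

theorem eden_const_bd (B : ℝ) (c : ℂ) (x : ℝ × ℝ) (hx : x ∈ disc) :
    ‖eden B (fun _ => c) x‖ ≤ (B / 2) ^ 2 * ‖c‖ ^ 2 := by
  have hx' : x.1 ^ 2 + x.2 ^ 2 < 1 := hx
  have h0 : eden B (fun _ => c) x = (B / 2) ^ 2 * (x.1 ^ 2 + x.2 ^ 2) * ‖c‖ ^ 2 := by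
    rw [eden_const, norm_mul, norm_mul, norm_mul, norm_mul, Complex.norm_I, Complex.norm_real,
      Complex.norm_real, Real.norm_eq_abs, Real.norm_eq_abs, one_mul, one_mul, mul_pow, mul_pow,
      sq_abs, sq_abs]
    ring
  have hn : (0 : ℝ) ≤ (B / 2) ^ 2 * (x.1 ^ 2 + x.2 ^ 2) * ‖c‖ ^ 2 := by positivity
  rw [h0, Real.norm_eq_abs, abs_of_nonneg hn]
  have h1 : (B / 2) ^ 2 * (x.1 ^ 2 + x.2 ^ 2) ≤ (B / 2) ^ 2 * 1 :=
    mul_le_mul_of_nonneg_left hx'.le (by positivity)
  have h2 := mul_le_mul_of_nonneg_right h1 (by positivity : (0 : ℝ) ≤ ‖c‖ ^ 2)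
  rw [mul_one] at h2
  exact h2

theorem eden_const_cont (B : ℝ) (c : ℂ) : Continuous (fun x => eden B (fun _ => c) x) := by
  have e : (fun x => eden B (fun _ => c) x) = fun x : ℝ × ℝ =>
      ‖Complex.I * ((-(B * x.2 / 2) : ℝ) : ℂ) * c‖ ^ 2
      + ‖Complex.I * ((B * x.1 / 2 : ℝ) : ℂ) * c‖ ^ 2 := by
    funext x
    exact eden_const B c x
  rw [e]
  fun_prop

end L7

theorem lB (h : LFun) : StLB := by
  intro B lam m F hB hD
  unfold lamN
  refine le_csInf ?_ ?_
  · set V : ℝ := (volume disc).toReal with hV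
    have hVpos : 0 < V := ENNReal.toReal_pos L7.vol_pos.ne' L7.vol_lt.ne
    set c : ℂ := ((1 / Real.sqrt V : ℝ) : ℂ) with hc
    have hcn : ‖c‖ ^ 2 = 1 / V := by
      rw [hc, Complex.norm_real, Real.norm_eq_abs, sq_abs, div_pow, one_pow,
        Real.sq_sqrt hVpos.le]
    refine ⟨∫ x in disc, eden B (fun _ => c) x, fun _ => c, contDiffOn_const, ?_, ?_, ?_, rfl⟩
    · exact integrableOn_const L7.vol_lt.ne
    · refine Measure.integrableOn_of_bounded (M := (B / 2) ^ 2 * ‖c‖ ^ 2) L7.vol_lt.ne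
        (L7.eden_const_cont B c).aestronglyMeasurable ?_
      exact (ae_restrict_mem L7.isOpen_disc.measurableSet).mono
        (fun x hx => L7.eden_const_bd B c x hx)
    · rw [setIntegral_const, hcn, Measure.real, ← hV, smul_eq_mul]
      field_simp
  · rintro q ⟨u, hu, h1, h2, h3, rfl⟩
    have := h B lam m F u hB hD hu h1 h2
    rw [h3, mul_one] at this
    exact this

end Pool.Agent.MFK

end

section

/-! # Energy density in polar coordinates -/

set_option autoImplicit false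

namespace Pool.Agent.MFK

open MeasureTheory Set Filter Topology

namespace P1

theorem hasDerivAt_pt_r (r θ : ℝ) : HasDerivAt (fun t => pt t θ) (Real.cos θ, Real.sin θ) r := by
  unfold pt
  have h1 : HasDerivAt (fun t : ℝ => t * Real.cos θ) (Real.cos θ) r := by
    simpa using (hasDerivAt_id r).mul_const (Real.cos θ)
  have h2 : HasDerivAt (fun t : ℝ => t * Real.sin θ) (Real.sin θ) r := by
    simpa using (hasDerivAt_id r).mul_const (Real.sin θ)
  exact h1.prodMk h2

theorem hasDerivAt_pt_t (r θ : ℝ) :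
    HasDerivAt (fun t => pt r t) (-(r * Real.sin θ), r * Real.cos θ) θ := by
  unfold pt
  have h1 : HasDerivAt (fun t : ℝ => r * Real.cos t) (-(r * Real.sin θ)) θ := by
    have h := (Real.hasDerivAt_cos θ).const_mul r
    rw [mul_neg] at h
    exact h
  have h2 : HasDerivAt (fun t : ℝ => r * Real.sin t) (r * Real.cos θ) θ :=
    (Real.hasDerivAt_sin θ).const_mul r
  exact h1.prodMk h2

/-- the two partial derivatives in terms of the derivative of `u` -/
theorem hasDerivAt_r {u : ℝ × ℝ → ℂ} {r θ : ℝ} (hu : DifferentiableAt ℝ u (pt r θ)) :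
    HasDerivAt (fun t => u (pt t θ)) (fderiv ℝ u (pt r θ) (Real.cos θ, Real.sin θ)) r := by
  have := hu.hasFDerivAt.comp_hasDerivAt (x := r) (f := fun t => pt t θ) (hasDerivAt_pt_r r θ)
  exact this

theorem hasDerivAt_t {u : ℝ × ℝ → ℂ} {r θ : ℝ} (hu : DifferentiableAt ℝ u (pt r θ)) :
    HasDerivAt (fun t => u (pt r t))
      (fderiv ℝ u (pt r θ) (-(r * Real.sin θ), r * Real.cos θ)) θ := by
  have := hu.hasFDerivAt.comp_hasDerivAt (x := θ) (f := fun t => pt r t) (hasDerivAt_pt_t r θ)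
  exact this

theorem fderiv_lin (L : ℝ × ℝ →L[ℝ] ℂ) (a b : ℝ) :
    L (a, b) = (a : ℂ) * L (1, 0) + (b : ℂ) * L (0, 1) := by
  have h : ((a, b) : ℝ × ℝ) = a • ((1 : ℝ), (0 : ℝ)) + b • ((0 : ℝ), (1 : ℝ)) := by
    simp
  rw [h, map_add, map_smul, map_smul]
  simp

theorem alg (X Y w : ℂ) (B r c s : ℝ) (hr : 0 < r) (hcs : c ^ 2 + s ^ 2 = 1) :
    ‖X - Complex.I * ((-(B * (r * s) / 2) : ℝ) : ℂ) * w‖ ^ 2
      + ‖Y - Complex.I * ((B * (r * c) / 2 : ℝ) : ℂ) * w‖ ^ 2
    = ‖(c : ℂ) * X + (s : ℂ) * Y‖ ^ 2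
      + ‖((1 / r : ℝ) : ℂ) * (((-(r * s) : ℝ) : ℂ) * X + ((r * c : ℝ) : ℂ) * Y)
          - Complex.I * ((B * r / 2 : ℝ) : ℂ) * w‖ ^ 2 := by
  have e : ((1 / r : ℝ) : ℂ) * (((-(r * s) : ℝ) : ℂ) * X + ((r * c : ℝ) : ℂ) * Y)
      = -(s : ℂ) * X + (c : ℂ) * Y := by
    have hr' : (r : ℂ) ≠ 0 := by exact_mod_cast hr.ne'
    push_cast
    field_simp
  rw [e]
  have hsq : ∀ z : ℂ, ‖z‖ ^ 2 = z.re ^ 2 + z.im ^ 2 := by
    intro z
    rw [← Complex.normSq_eq_norm_sq, Complex.normSq_apply]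
    ring
  simp only [hsq]
  simp
  have hs : s ^ 2 = 1 - c ^ 2 := by linarith
  ring_nf
  have h3 : s ^ 2 = 1 - c ^ 2 := hs
  have h4 : s ^ 3 = (1 - c ^ 2) * s := by rw [pow_succ, hs]
  simp only [h3]
  ring

end P1

open P1 in
theorem pDens : PDens := by
  intro B u r θ hr hu
  have h1 := hasDerivAt_r hu
  have h2 := hasDerivAt_t hu
  have e1 := h1.deriv
  have e2 := h2.deriv
  refine ⟨by rw [e1]; exact h1, by rw [e2]; exact h2, ?_⟩
  rw [e1, e2, fderiv_lin _ (Real.cos θ), fderiv_lin _ (-(r * Real.sin θ))]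
  have := alg (fderiv ℝ u (pt r θ) (1, 0)) (fderiv ℝ u (pt r θ) (0, 1)) (u (pt r θ)) B r
    (Real.cos θ) (Real.sin θ) hr (by rw [add_comm]; exact Real.sin_sq_add_cos_sq θ)
  unfold eden
  exact this

end Pool.Agent.MFK

end

section

set_option autoImplicit false

namespace Pool.Agent.MFK

open MeasureTheory Set Filter Topology

namespace P2

/-- the angular integrand in polar coordinates -/
noncomputable def kf (ρ : ℝ → ℝ) (f : ℝ × ℝ → ℝ) (p : ℝ × ℝ) : ℝ :=
  if p.1 < ρ p.2 then f (pt p.1 p.2) * p.1 else 0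

theorem meas_polarDom {ρ : ℝ → ℝ} (hρ : Continuous ρ) : MeasurableSet (polarDom ρ) := by
  unfold polarDom
  refine measurableSet_lt (by fun_prop) ?_
  have h1 : Measurable fun x : ℝ × ℝ => (⟨x.1, x.2⟩ : ℂ) := by
    exact Complex.measurableEquivRealProd.symm.measurable
  exact (hρ.measurable.comp (Complex.measurable_arg.comp h1)).pow_const 2

theorem mem_polarDom {ρ : ℝ → ℝ} (hpos : ∀ θ, 0 < ρ θ) {r θ : ℝ} (hr : 0 < r)
    (h1 : -Real.pi < θ) (h2 : θ < Real.pi) : pt r θ ∈ polarDom ρ ↔ r < ρ θ := by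
  have ha : Complex.arg (⟨r * Real.cos θ, r * Real.sin θ⟩ : ℂ) = θ := by
    have := Complex.arg_mul_cos_add_sin_mul_I hr (show θ ∈ Ioc (-Real.pi) Real.pi from ⟨h1, h2.le⟩)
    refine Eq.trans (congrArg Complex.arg ?_) this
    rw [← Complex.ofReal_cos, ← Complex.ofReal_sin]
    apply Complex.ext
    · simp [-Complex.ofReal_cos, -Complex.ofReal_sin]
    · simp [-Complex.ofReal_cos, -Complex.ofReal_sin]
  unfold polarDom pt
  simp only [mem_ofPred_eq, ha]
  rw [show (r * Real.cos θ) ^ 2 + (r * Real.sin θ) ^ 2 = r ^ 2 by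
    nlinarith [Real.sin_sq_add_cos_sq θ]]
  exact sq_lt_sq₀ hr.le (hpos θ).le

theorem base {ρ : ℝ → ℝ} (f : ℝ × ℝ → ℝ) (hρ : Continuous ρ) (hpos : ∀ θ, 0 < ρ θ)
    (hf : IntegrableOn f (polarDom ρ)) :
    Integrable (kf ρ f) ((volume.restrict (Ioi (0 : ℝ))).prod
      (volume.restrict (Ioo (-Real.pi) Real.pi))) ∧
    (∫ x in polarDom ρ, f x) = ∫ p, kf ρ f p ∂((volume.restrict (Ioi (0 : ℝ))).prod
      (volume.restrict (Ioo (-Real.pi) Real.pi))) := by
  have hm := meas_polarDom hρ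
  have hg : Integrable ((polarDom ρ).indicator f) := (integrable_indicator_iff hm).2 hf
  have hts : MeasurableSet polarCoord.target := polarCoord.open_target.measurableSet
  have hprod : (volume.restrict (Ioi (0 : ℝ))).prod (volume.restrict (Ioo (-Real.pi) Real.pi))
      = (volume : Measure (ℝ × ℝ)).restrict polarCoord.target := by
    rw [Measure.prod_restrict, polarCoord_target]
    rfl
  have heq : ∀ p ∈ polarCoord.target,
      p.1 • (polarDom ρ).indicator f (polarCoord.symm p) = kf ρ f p := by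
    intro p hp
    rw [polarCoord_target] at hp
    obtain ⟨hp1, hp2⟩ := hp
    have hsym : polarCoord.symm p = pt p.1 p.2 := rfl
    rw [hsym]
    have hmem := mem_polarDom hpos (θ := p.2) hp1 hp2.1 hp2.2
    unfold kf
    by_cases h : p.1 < ρ p.2
    · rw [indicator_of_mem (hmem.2 h), if_pos h, smul_eq_mul, mul_comm]
    · rw [indicator_of_notMem (fun hc => h (hmem.1 hc)), if_neg h, smul_zero]
  rw [hprod]
  constructor
  · have h1 : IntegrableOn ((polarDom ρ).indicator f) (polarCoord.symm '' polarCoord.target) :=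
      hg.integrableOn
    rw [integrableOn_image_iff_integrableOn_abs_det_fderiv_smul volume hts
      (fun p _ => (hasFDerivAt_polarCoord_symm p).hasFDerivWithinAt) polarCoord.symm.injOn] at h1
    refine (integrableOn_congr_fun ?_ hts).1 h1
    intro p hp
    have hp1 : 0 < p.1 := by
      rw [polarCoord_target] at hp
      exact hp.1
    simp only [det_fderivPolarCoordSymm, abs_of_pos hp1]
    exact heq p hp
  · rw [← integral_indicator hm, ← integral_comp_polarCoord_symm]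
    exact setIntegral_congr_fun hts heq

/-- a 2π-periodic property which holds a.e. on `(-π, π)` holds a.e. on `(0, 2π]` -/
theorem ae_shift (P : ℝ → Prop) (hP : ∀ θ, P (θ + 2 * Real.pi) ↔ P θ)
    (h : ∀ᵐ θ ∂(volume.restrict (Ioo (-Real.pi) Real.pi)), P θ) :
    ∀ᵐ θ ∂(volume.restrict (Ioc 0 (2 * Real.pi))), P θ := by
  rw [ae_restrict_iff' measurableSet_Ioo] at h
  rw [ae_restrict_iff' measurableSet_Ioc]
  have h2 : ∀ᵐ θ : ℝ, θ - 2 * Real.pi ∈ Ioo (-Real.pi) Real.pi → P (θ - 2 * Real.pi) :=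
    (measurePreserving_sub_right volume (2 * Real.pi)).quasiMeasurePreserving.ae h
  filter_upwards [h, h2, Measure.ae_ne volume Real.pi] with θ h1 h2 h3 h4
  rcases lt_or_gt_of_ne h3 with h5 | h5
  · exact h1 ⟨by linarith [h4.1, Real.pi_pos], h5⟩
  · have := h2 ⟨by linarith, by linarith [h4.2, Real.pi_pos]⟩
    rw [← hP] at this
    simpa using this

theorem shift_integrableOn (Φ : ℝ → ℝ) (hP : ∀ θ, Φ (θ + 2 * Real.pi) = Φ θ)
    (h : IntegrableOn Φ (Ioo (-Real.pi) Real.pi)) : IntegrableOn Φ (Ioc 0 (2 * Real.pi)) := by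
  have hper : Function.Periodic Φ (2 * Real.pi) := hP
  have h1 : IntervalIntegrable Φ volume (-Real.pi) (-Real.pi + 2 * Real.pi) := by
    rw [show -Real.pi + 2 * Real.pi = Real.pi by ring,
      intervalIntegrable_iff_integrableOn_Ioo_of_le (by linarith [Real.pi_pos])]
    exact h
  have h2 := hper.intervalIntegrable (by positivity) h1 0 (2 * Real.pi)
  exact (intervalIntegrable_iff_integrableOn_Ioc_of_le (by positivity)).1 h2

theorem shift_integral (Φ : ℝ → ℝ) (hP : ∀ θ, Φ (θ + 2 * Real.pi) = Φ θ) :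
    ∫ θ in Ioo (-Real.pi) Real.pi, Φ θ = ∫ θ in (0 : ℝ)..(2 * Real.pi), Φ θ := by
  have hper : Function.Periodic Φ (2 * Real.pi) := hP
  have h1 := hper.intervalIntegral_add_eq (-Real.pi) 0
  rw [zero_add, show -Real.pi + 2 * Real.pi = Real.pi by ring] at h1
  rw [← h1, intervalIntegral.integral_of_le (by linarith [Real.pi_pos]),
    integral_Ioc_eq_integral_Ioo]

theorem pt_per (r θ : ℝ) : pt r (θ + 2 * Real.pi) = pt r θ := by
  unfold pt
  rw [Real.cos_add_two_pi, Real.sin_add_two_pi]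

theorem slice_int {ρ : ℝ → ℝ} (f : ℝ × ℝ → ℝ) (hpos : ∀ θ, 0 < ρ θ) (θ : ℝ) :
    ∫ r in Ioi (0 : ℝ), kf ρ f (r, θ) = ∫ r in (0 : ℝ)..(ρ θ), f (pt r θ) * r := by
  rw [intervalIntegral.integral_of_le (hpos θ).le, integral_Ioc_eq_integral_Ioo]
  have h1 : (fun r => kf ρ f (r, θ)) = (Iio (ρ θ)).indicator (fun r => f (pt r θ) * r) := by
    funext r
    unfold kf
    by_cases h : r < ρ θ
    · rw [if_pos h, indicator_of_mem (show r ∈ Iio (ρ θ) from h)]
    · rw [if_neg h, indicator_of_notMem (show r ∉ Iio (ρ θ) from h)]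
  rw [h1, setIntegral_indicator measurableSet_Iio, Ioi_inter_Iio]

theorem slice_intble {ρ : ℝ → ℝ} (f : ℝ × ℝ → ℝ) (θ : ℝ)
    (h : Integrable (fun r => kf ρ f (r, θ)) (volume.restrict (Ioi (0 : ℝ)))) :
    IntegrableOn (fun r => f (pt r θ) * r) (Ioc 0 (ρ θ)) := by
  rw [integrableOn_Ioc_iff_integrableOn_Ioo]
  have h1 : IntegrableOn (fun r => kf ρ f (r, θ)) (Ioo 0 (ρ θ)) :=
    IntegrableOn.mono_set h (fun r hr => hr.1)
  refine (integrableOn_congr_fun ?_ measurableSet_Ioo).1 h1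
  intro r hr
  simp only [kf, if_pos hr.2]

end P2

open P2 in
theorem pInt : PInt := by
  intro ρ f hρ hpos hper hf
  obtain ⟨hk, hke⟩ := base f hρ hpos hf
  have hper2 : ∀ θ, (∫ r in (0 : ℝ)..(ρ (θ + 2 * Real.pi)), f (pt r (θ + 2 * Real.pi)) * r)
      = ∫ r in (0 : ℝ)..(ρ θ), f (pt r θ) * r := by
    intro θ
    rw [hper]
    simp only [pt_per]
  refine ⟨?_, ?_, ?_⟩
  · refine ae_shift _ (fun θ => ?_) ?_
    · rw [hper]
      simp only [pt_per]
    · filter_upwards [hk.prod_left_ae] with θ hθ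
      exact slice_intble f θ hθ
  · refine shift_integrableOn _ hper2 ?_
    have h1 := hk.integral_prod_right
    simp only [slice_int f hpos] at h1
    exact h1
  · rw [hke, integral_prod_symm _ hk]
    simp only [slice_int f hpos]
    exact shift_integral _ hper2

open P2 in
theorem pIntD : PIntD := by
  intro f hf
  have hdisc : disc = polarDom (fun _ => 1) := by
    unfold disc polarDom
    simp
  rw [hdisc] at hf ⊢
  obtain ⟨hk, hke⟩ := base f continuous_const (fun _ => one_pos) hf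
  have hae : ∀ᵐ r ∂(volume.restrict (Ioc (0 : ℝ) 1)), r < 1 := by
    rw [ae_restrict_iff' measurableSet_Ioc]
    filter_upwards [Measure.ae_ne volume (1 : ℝ)] with r h1 h2
    exact lt_of_le_of_ne h2.2 h1
  have hsl : ∀ r, r < 1 → ∫ θ in Ioo (-Real.pi) Real.pi, kf (fun _ => 1) f (r, θ)
      = (∫ θ in (0 : ℝ)..(2 * Real.pi), f (pt r θ)) * r := by
    intro r hr
    simp only [kf, if_pos hr]
    rw [integral_mul_const, shift_integral (fun θ => f (pt r θ)) (fun θ => by simp only [pt_per])]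
  refine ⟨?_, ?_, ?_⟩
  · have h1 := ae_restrict_of_ae_restrict_of_subset (s := Ioc (0 : ℝ) 1) (fun r hr => hr.1)
      hk.prod_right_ae
    filter_upwards [h1, hae, ae_restrict_mem measurableSet_Ioc] with r h2 h3 h4
    refine shift_integrableOn _ (fun θ => by simp only [pt_per]) ?_
    simp only [kf, if_pos h3] at h2
    have h5 := h2.mul_const r⁻¹
    simp only [mul_assoc, mul_inv_cancel₀ h4.1.ne', mul_one] at h5
    exact h5
  · have h1 : IntegrableOn (fun r => ∫ θ in Ioo (-Real.pi) Real.pi, kf (fun _ => 1) f (r, θ))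
        (Ioc (0 : ℝ) 1) :=
      IntegrableOn.mono_set hk.integral_prod_left (fun r hr => hr.1)
    refine Integrable.congr h1 ?_
    filter_upwards [hae] with r hr
    exact hsl r hr
  · rw [hke, integral_prod _ hk, intervalIntegral.integral_of_le zero_le_one,
      integral_Ioc_eq_integral_Ioo]
    have h1 : (fun r => ∫ θ in Ioo (-Real.pi) Real.pi, kf (fun _ => 1) f (r, θ))
        = (Iio (1 : ℝ)).indicator (fun r => (∫ θ in (0 : ℝ)..(2 * Real.pi), f (pt r θ)) * r) := by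
      funext r
      by_cases h : r < 1
      · rw [indicator_of_mem (show r ∈ Iio (1 : ℝ) from h), hsl r h]
      · rw [indicator_of_notMem (show r ∉ Iio (1 : ℝ) from h)]
        simp only [kf, if_neg h, integral_zero]
    rw [h1, setIntegral_indicator measurableSet_Iio, Ioi_inter_Iio]

end Pool.Agent.MFK

end

section

/-! # The radial solutions (item R1) -/

set_option autoImplicit false

namespace Pool.Agent.MFK

open MeasureTheory Set Filter Topology

namespace R1

lemma dE (B t : ℝ) : HasDerivAt (fun t : ℝ => Real.exp (-(B * t ^ 2 / 4)))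
    (Real.exp (-(B * t ^ 2 / 4)) * (-(B * t / 2))) t := by
  have h : HasDerivAt (fun t : ℝ => -(B * t ^ 2 / 4)) (-(B * t / 2)) t := by
    have h1 := (((hasDerivAt_pow 2 t).const_mul B).div_const 4).neg
    convert! h1 using 1
    push_cast
    ring
  exact h.exp

lemma dZ (B t : ℝ) : HasDerivAt (fun t : ℝ => B * t ^ 2 / 2) (B * t) t := by
  have h1 := ((hasDerivAt_pow 2 t).const_mul B).div_const 2
  convert! h1 using 1
  push_cast
  ring

lemma dP (h4 : KDer) (A b B t : ℝ) (hb : 0 < b) :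
    HasDerivAt (fun t : ℝ => Phi A b (B * t ^ 2 / 2)) (Phi1 A b (B * t ^ 2 / 2) * (B * t)) t :=
  HasDerivAt.comp (h := fun t : ℝ => B * t ^ 2 / 2) (h₂ := Phi A b) t
    (h4 A b (B * t ^ 2 / 2) hb) (dZ B t)

lemma dP1 (h5 : KDer2) (A b B t : ℝ) (hb : 0 < b) :
    HasDerivAt (fun t : ℝ => Phi1 A b (B * t ^ 2 / 2)) (Phi2 A b (B * t ^ 2 / 2) * (B * t)) t :=
  HasDerivAt.comp (h := fun t : ℝ => B * t ^ 2 / 2) (h₂ := Phi1 A b) t
    (h5 A b (B * t ^ 2 / 2) hb) (dZ B t)

lemma pow_aux (N : ℕ) (t : ℝ) : (N : ℝ) * t ^ (N - 1) * t = N * t ^ N := by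
  rcases N with _ | N
  · simp
  · rw [Nat.add_sub_cancel, pow_succ]
    ring

lemma radf_eq (B lam : ℝ) (n : ℤ) : radf n (FK B lam n) = fun t : ℝ => t ^ n.natAbs *
    (Real.exp (-(B * t ^ 2 / 4)) * Phi (An B lam n) (n.natAbs + 1) (B * t ^ 2 / 2)) := by
  funext t
  rfl

lemma d_radf (h4 : KDer) (B lam : ℝ) (n : ℤ) (t : ℝ) :
    HasDerivAt (radf n (FK B lam n))
      ((n.natAbs : ℝ) * t ^ (n.natAbs - 1) *
        (Real.exp (-(B * t ^ 2 / 4)) * Phi (An B lam n) (n.natAbs + 1) (B * t ^ 2 / 2)) +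
      t ^ n.natAbs * (Real.exp (-(B * t ^ 2 / 4)) * (-(B * t / 2)) *
        Phi (An B lam n) (n.natAbs + 1) (B * t ^ 2 / 2) +
        Real.exp (-(B * t ^ 2 / 4)) *
          (Phi1 (An B lam n) (n.natAbs + 1) (B * t ^ 2 / 2) * (B * t)))) t := by
  rw [radf_eq]
  exact (hasDerivAt_pow _ t).mul ((dE B t).mul (dP h4 _ _ B t (by positivity)))

lemma t_deriv (h4 : KDer) (B lam : ℝ) (n : ℤ) :
    (fun t : ℝ => t * deriv (radf n (FK B lam n)) t) = fun t : ℝ =>
      ((n.natAbs : ℝ) * t ^ n.natAbs - B / 2 * t ^ (n.natAbs + 2)) *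
        (Real.exp (-(B * t ^ 2 / 4)) * Phi (An B lam n) (n.natAbs + 1) (B * t ^ 2 / 2)) +
      B * t ^ (n.natAbs + 2) * (Real.exp (-(B * t ^ 2 / 4)) *
        Phi1 (An B lam n) (n.natAbs + 1) (B * t ^ 2 / 2)) := by
  funext t
  rw [(d_radf h4 B lam n t).deriv]
  have h := pow_aux n.natAbs t
  rw [pow_add]
  linear_combination (Real.exp (-(B * t ^ 2 / 4)) *
    Phi (An B lam n) (n.natAbs + 1) (B * t ^ 2 / 2)) * h

lemma An_nonneg {B lam : ℝ} (n : ℤ) (hB : 0 < B) (hl : lam < B) : 0 ≤ An B lam n := by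
  unfold An
  have h1 : lam / (2 * B) ≤ 1 / 2 := by
    rw [div_le_div_iff₀ (by positivity) (by norm_num)]
    linarith
  have h2 : (0 : ℝ) ≤ (if n < 0 then (n.natAbs : ℝ) else 0) := by
    split_ifs <;> positivity
  linarith

lemma An_eq {B lam : ℝ} (n : ℤ) (hB : 0 < B) :
    2 * B * An B lam n = B * ((n.natAbs : ℝ) + 1 - n) - lam := by
  unfold An
  have h1 : 2 * B * (lam / (2 * B)) = lam := by field_simp
  split_ifs with h
  · have h2 : (n.natAbs : ℝ) = -(n : ℝ) := by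
      rw [Nat.cast_natAbs, Int.cast_abs]
      exact abs_of_neg (by exact_mod_cast h)
    rw [h2]
    linear_combination -h1
  · have h2 : (n.natAbs : ℝ) = (n : ℝ) := by
      rw [Nat.cast_natAbs, Int.cast_abs]
      exact abs_of_nonneg (by exact_mod_cast not_lt.1 h)
    rw [h2]
    linear_combination -h1

lemma sq_eq (n : ℤ) : (n.natAbs : ℝ) ^ 2 = (n : ℝ) ^ 2 := by
  rw [Nat.cast_natAbs, Int.cast_abs, sq_abs]

end R1

open R1 in
theorem rRad (h1 : KSmooth) (h2 : KPos) (h3 : KOde) (h4 : KDer) (h5 : KDer2) : RRad := by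
  intro B lam n hB hl
  have hb : (0 : ℝ) < (n.natAbs : ℝ) + 1 := by positivity
  refine ⟨?_, ?_, ?_⟩
  · have e : FK B lam n = fun s : ℝ => Real.exp (-(B * s / 4)) *
        Phi (An B lam n) (n.natAbs + 1) (B * s / 2) := rfl
    rw [e]
    refine ContDiff.mul ?_ ?_
    · exact ((contDiff_const.mul contDiff_id).div_const 4).neg.exp
    · exact (h1 _ _ hb).comp ((contDiff_const.mul contDiff_id).div_const 2)
  · intro s hs
    unfold FK
    have h6 := (h2 (An B lam n) (n.natAbs + 1) (B * s / 2) (An_nonneg n hB hl) hb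
      (by positivity)).1
    have h7 := Real.exp_pos (-(B * s / 4))
    exact mul_pos h7 (by linarith)
  · intro r hr
    rw [t_deriv h4]
    have hN := pow_aux n.natAbs r
    have hp := hasDerivAt_pow n.natAbs r
    have hp2 := hasDerivAt_pow (n.natAbs + 2) r
    have hE := dE B r
    have hP := dP h4 (An B lam n) (n.natAbs + 1) B r hb
    have hP1 := dP1 h5 (An B lam n) (n.natAbs + 1) B r hb
    have hode := h3 (An B lam n) (n.natAbs + 1) (B * r ^ 2 / 2) hb
    have hmain := (((hp.const_mul (n.natAbs : ℝ)).sub (hp2.const_mul (B / 2))).mul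
      (hE.mul hP)).add ((hp2.const_mul B).mul (hE.mul hP1))
    have hAe := An_eq (lam := lam) n hB
    have hsq := sq_eq n
    have e2 : n.natAbs + 2 - 1 = n.natAbs + 1 := rfl
    rw [e2] at hmain
    refine hmain.congr_deriv ?_
    rw [radf_eq]
    unfold qn
    have hr0 : r ≠ 0 := hr.ne'
    have hN' : (n.natAbs : ℝ) * r ^ (n.natAbs - 1) = n.natAbs * r ^ n.natAbs / r := by
      rw [eq_div_iff hr0]
      exact hN
    simp only [Pi.mul_apply, Pi.sub_apply]
    simp only [pow_succ r n.natAbs, pow_add r n.natAbs 2]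
    generalize Phi (An B lam n) (n.natAbs + 1) (B * r ^ 2 / 2) = p0 at *
    generalize Phi1 (An B lam n) (n.natAbs + 1) (B * r ^ 2 / 2) = p1 at *
    generalize Phi2 (An B lam n) (n.natAbs + 1) (B * r ^ 2 / 2) = p2 at *
    generalize Real.exp (-(B * r ^ 2 / 4)) = E at *
    generalize An B lam n = A at *
    rw [hN']
    generalize r ^ n.natAbs = P at *
    push_cast
    generalize (n.natAbs : ℝ) = N at *
    generalize (n : ℝ) = m at *
    have hx : r * ((m / r - B * r / 2) ^ 2 - lam) =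
        m ^ 2 / r - m * B * r + B ^ 2 * r ^ 3 / 4 - lam * r := by
      field_simp
      ring
    rw [hx]
    linear_combination (2 * B * r * E * P) * hode + (E * P * p0 / r) * hsq + (E * P * p0 * r) * hAe

end Pool.Agent.MFK

end

section

/-! # Item R10: F4 and F5 for the Dirichlet to Neumann numbers -/

set_option autoImplicit false

namespace Pool.Agent.MFK

open MeasureTheory Set Filter Topology

namespace R10

theorem ratio (h2 : KPos) (h3 : KBd) {A b z : ℝ} (hA : 0 ≤ A) (hAb : A ≤ b) (hb : 0 < b)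
    (hz : 0 ≤ z) : 0 ≤ Phi1 A b z / Phi A b z ∧ Phi1 A b z / Phi A b z ≤ 1 := by
  obtain ⟨hp, hp1⟩ := h2 A b z hA hb hz
  have hp0 : 0 < Phi A b z := by linarith
  refine ⟨div_nonneg hp1 hp0.le, ?_⟩
  rw [div_le_one hp0]
  exact (h3 A b z hA hAb hb hz).2

theorem mono (h2 : KPos) (h5 : KF4) {A b z : ℝ} (hA : 0 ≤ A) (hAb : A ≤ b) (hb : 0 < b)
    (hz : 0 ≤ z) : Phi1 A (b + 1) z / Phi A (b + 1) z ≤ Phi1 A b z / Phi A b z := by
  have hp := (h2 A b z hA hb hz).1
  have hp' := (h2 A (b + 1) z hA (by linarith) hz).1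
  rw [div_le_div_iff₀ (by linarith) (by linarith)]
  exact h5 A b z hA hAb hb hz

theorem quad (h2 : KPos) (h4 : KOde) (h6 : KF5) {A b z : ℝ} (hA : 0 ≤ A) (hAb : A ≤ b)
    (hb : 0 < b) (hz : 0 ≤ z) :
    (b - z + 2 * z * (Phi1 A b z / Phi A b z)) ^ 2 ≤ (b - z) ^ 2 + 4 * z * A := by
  have hp := (h2 A b z hA hb hz).1
  have hp0 : 0 < Phi A b z := by linarith
  have hode := h4 A b z hb
  have hcs := h6 A b z hA hAb hb hz
  set R := Phi1 A b z / Phi A b z with hR
  have h7 : Phi1 A b z = R * Phi A b z := by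
    rw [hR]
    field_simp
  have h8 : z * (R * Phi A b z) ^ 2 ≤ (A * Phi A b z - (b - z) * (R * Phi A b z)) * Phi A b z := by
    rw [← h7]
    calc z * Phi1 A b z ^ 2 ≤ z * (Phi2 A b z * Phi A b z) := mul_le_mul_of_nonneg_left hcs hz
      _ = (z * Phi2 A b z) * Phi A b z := by ring
      _ = (A * Phi A b z - (b - z) * Phi1 A b z) * Phi A b z := by
          rw [show z * Phi2 A b z = A * Phi A b z - (b - z) * Phi1 A b z by linarith]
  have h9 : 0 ≤ (A - (b - z) * R - z * R ^ 2) * Phi A b z ^ 2 := by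
    have : (A - (b - z) * R - z * R ^ 2) * Phi A b z ^ 2
        = (A * Phi A b z - (b - z) * (R * Phi A b z)) * Phi A b z - z * (R * Phi A b z) ^ 2 := by
      ring
    rw [this]
    linarith
  have h10 : 0 ≤ A - (b - z) * R - z * R ^ 2 :=
    nonneg_of_mul_nonneg_left h9 (pow_pos hp0 2)
  have h11 : (b - z + 2 * z * R) ^ 2 = (b - z) ^ 2 + 4 * z * A
      - 4 * (z * (A - (b - z) * R - z * R ^ 2)) := by ring
  rw [h11]
  linarith [mul_nonneg hz h10]

end R10

theorem rF (h1 : RVal) (h2 : KPos) (h3 : KBd) (h4 : KOde) (h5 : KF4) (h6 : KF5) : RF := by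
  intro B lam hB hl hlB
  have hz : 0 ≤ B / 2 := by positivity
  set A0 : ℝ := 1 / 2 - lam / (2 * B) with hA0
  have hA0p : 0 ≤ A0 := by
    have : lam / (2 * B) ≤ 1 / 2 := by
      rw [div_le_div_iff₀ (by positivity) (by norm_num)]
      linarith
    linarith
  have hA01 : A0 ≤ 1 := by
    have : 0 ≤ lam / (2 * B) := by positivity
    linarith
  have hBA : 2 * B * A0 = B - lam := by
    rw [hA0]
    field_simp
  -- values
  have hv : ∀ n : ℕ, dtn (fun n => FK B lam n) (n : ℤ) = (n : ℝ) - B / 2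
      + B * (Phi1 A0 (n + 1) (B / 2) / Phi A0 (n + 1) (B / 2)) := by
    intro n
    have h := (h1 B lam n hB).2 hlB.le
    have hn : An B lam (n : ℤ) = A0 := by
      unfold An
      rw [if_neg (by omega), add_zero]
    rw [hn, Int.natAbs_natCast] at h
    exact h
  have hvn : ∀ N : ℕ, dtn (fun n => FK B lam n) (-(N : ℤ)) = (N : ℝ) - B / 2
      + B * (Phi1 (A0 + N) (N + 1) (B / 2) / Phi (A0 + N) (N + 1) (B / 2)) := by
    intro N
    have h := (h1 B lam (-(N : ℤ)) hB).2 hlB.le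
    have hn : An B lam (-(N : ℤ)) = A0 + N := by
      unfold An
      rw [Int.natAbs_neg, Int.natAbs_natCast]
      split_ifs with h0
      · rfl
      · have : N = 0 := by omega
        subst this
        simp [hA0]
    rw [hn, Int.natAbs_neg, Int.natAbs_natCast] at h
    exact h
  have hn0 : ∀ n : ℕ, (0 : ℝ) < (n : ℝ) + 1 := fun n => by positivity
  have hAn : ∀ n : ℕ, A0 ≤ (n : ℝ) + 1 := fun n => by
    linarith [(Nat.cast_nonneg n : (0 : ℝ) ≤ n)]
  have hAN : ∀ N : ℕ, 0 ≤ A0 + N := fun N => by positivity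
  have hAN' : ∀ N : ℕ, A0 + N ≤ (N : ℝ) + 1 := fun N => by linarith
  refine ⟨?_, ?_, ?_, ?_, ?_⟩
  · intro n
    have h7 := hv (n + 1)
    push_cast at h7
    rw [h7, hv n]
    have h8 := R10.mono h2 h5 hA0p (hAn n) (hn0 n) hz
    have h9 := mul_le_mul_of_nonneg_left h8 hB.le
    linarith
  · intro n
    rw [hv n]
    have h8 := R10.quad h2 h4 h6 hA0p (hAn n) (hn0 n) hz
    set R := Phi1 A0 (n + 1) (B / 2) / Phi A0 (n + 1) (B / 2)
    calc ((n : ℝ) - B / 2 + B * R + 1) ^ 2 = ((n : ℝ) + 1 - B / 2 + 2 * (B / 2) * R) ^ 2 := by ring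
      _ ≤ ((n : ℝ) + 1 - B / 2) ^ 2 + 4 * (B / 2) * A0 := h8
      _ = ((n : ℝ) + 1 - B / 2) ^ 2 + B - lam := by linarith
  · intro N
    rw [hvn N]
    have h8 := R10.quad h2 h4 h6 (hAN N) (hAN' N) (hn0 N) hz
    set R := Phi1 (A0 + N) (N + 1) (B / 2) / Phi (A0 + N) (N + 1) (B / 2)
    calc ((N : ℝ) - B / 2 + B * R + 1) ^ 2 = ((N : ℝ) + 1 - B / 2 + 2 * (B / 2) * R) ^ 2 := by ring
      _ ≤ ((N : ℝ) + 1 - B / 2) ^ 2 + 4 * (B / 2) * (A0 + N) := h8
      _ = ((N : ℝ) + 1 + B / 2) ^ 2 - B - lam := by linear_combination hBA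
  · intro N
    rw [hvn N]
    have h8 := (R10.ratio h2 h3 (hAN N) (hAN' N) (hn0 N) hz).2
    have h9 := mul_le_mul_of_nonneg_left h8 hB.le
    linarith
  · intro n
    rw [hv n]
    have h8 := (R10.ratio h2 h3 hA0p (hAn n) (hn0 n) hz).1
    have h9 := mul_nonneg hB.le h8
    linarith

end Pool.Agent.MFK

end

section

/-! # Value and derivative of the radial part at `r = 1` -/

set_option autoImplicit false

namespace Pool.Agent.MFK

namespace R2

theorem hasDeriv (h1 : KDer) (B lam : ℝ) (n : ℤ) :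
    HasDerivAt (radf n (FK B lam n)) (Real.exp (-(B / 4)) *
      (((n.natAbs : ℝ) - B / 2) * Phi (An B lam n) (n.natAbs + 1) (B / 2)
        + B * Phi1 (An B lam n) (n.natAbs + 1) (B / 2))) 1 := by
  have hb : (0 : ℝ) < (n.natAbs : ℝ) + 1 := by positivity
  have hsq : HasDerivAt (fun r : ℝ => r ^ 2) (2 * 1) 1 := by
    have := hasDerivAt_pow 2 (1 : ℝ)
    simpa using this
  have hlin1 : HasDerivAt (fun r : ℝ => -(B * r ^ 2 / 4)) (-(B / 2)) 1 := by
    have h := ((hsq.const_mul B).div_const 4).neg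
    have e : -(B * (2 * 1) / 4) = -(B / 2) := by ring
    rw [e] at h
    exact h
  have hexp : HasDerivAt (fun r : ℝ => Real.exp (-(B * r ^ 2 / 4)))
      (Real.exp (-(B / 4)) * (-(B / 2))) 1 := by
    have h := hlin1.exp
    have e : -(B * (1 : ℝ) ^ 2 / 4) = -(B / 4) := by ring
    rw [e] at h
    exact h
  have hlin2 : HasDerivAt (fun r : ℝ => B * r ^ 2 / 2) B 1 := by
    have h := (hsq.const_mul B).div_const 2
    have e : B * (2 * 1) / 2 = B := by ring
    rw [e] at h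
    exact h
  have hphi : HasDerivAt (fun r : ℝ => Phi (An B lam n) (n.natAbs + 1) (B * r ^ 2 / 2))
      (Phi1 (An B lam n) (n.natAbs + 1) (B / 2) * B) 1 := by
    have e : B * (1 : ℝ) ^ 2 / 2 = B / 2 := by ring
    have h0 : HasDerivAt (Phi (An B lam n) (n.natAbs + 1))
        (Phi1 (An B lam n) (n.natAbs + 1) (B / 2)) (B * (1 : ℝ) ^ 2 / 2) := by
      rw [e]
      exact h1 _ _ _ hb
    exact h0.comp (1 : ℝ) hlin2
  have hF : HasDerivAt (fun r : ℝ => Real.exp (-(B * r ^ 2 / 4)) *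
      Phi (An B lam n) (n.natAbs + 1) (B * r ^ 2 / 2))
      (Real.exp (-(B / 4)) * (-(B / 2)) * Phi (An B lam n) (n.natAbs + 1) (B / 2) +
        Real.exp (-(B / 4)) * (Phi1 (An B lam n) (n.natAbs + 1) (B / 2) * B)) 1 := by
    have h := hexp.mul hphi
    have e1 : -(B * (1 : ℝ) ^ 2 / 4) = -(B / 4) := by ring
    have e2 : B * (1 : ℝ) ^ 2 / 2 = B / 2 := by ring
    rw [e1, e2] at h
    exact h
  have hpow : HasDerivAt (fun r : ℝ => r ^ n.natAbs) (n.natAbs : ℝ) 1 := by
    have h := hasDerivAt_pow n.natAbs (1 : ℝ)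
    simpa using h
  have hall := hpow.mul hF
  have e1 : -(B * (1 : ℝ) ^ 2 / 4) = -(B / 4) := by ring
  have e2 : B * (1 : ℝ) ^ 2 / 2 = B / 2 := by ring
  have e3 : (1 : ℝ) ^ n.natAbs = 1 := one_pow _
  rw [e1, e2, e3] at hall
  have efun : radf n (FK B lam n) = (fun r : ℝ => r ^ n.natAbs) *
      (fun r : ℝ => Real.exp (-(B * r ^ 2 / 4)) *
        Phi (An B lam n) (n.natAbs + 1) (B * r ^ 2 / 2)) := by
    funext r
    rfl
  rw [efun]
  refine hall.congr_deriv ?_
  ring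

end R2

theorem rVal (h1 : KDer) (h2 : KPos) : RVal := by
  intro B lam n hB
  have hd := (R2.hasDeriv h1 B lam n).deriv
  refine ⟨hd, ?_⟩
  intro hlam
  have hb : (0 : ℝ) < (n.natAbs : ℝ) + 1 := by positivity
  have hA : 0 ≤ An B lam n := by
    have h1 : lam / (2 * B) ≤ 1 / 2 := by
      rw [div_le_div_iff₀ (by positivity) (by norm_num)]
      linarith
    have h2 : (0 : ℝ) ≤ (if n < 0 then (n.natAbs : ℝ) else 0) := by
      split_ifs
      · positivity
      · exact le_refl _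
    unfold An
    linarith
  have hPhi : 1 ≤ Phi (An B lam n) (n.natAbs + 1) (B / 2) := (h2 _ _ _ hA hb (by positivity)).1
  have hPhi0 : Phi (An B lam n) (n.natAbs + 1) (B / 2) ≠ 0 := by
    intro h
    rw [h] at hPhi
    linarith
  have hval : FK B lam n 1 = Real.exp (-(B / 4)) * Phi (An B lam n) (n.natAbs + 1) (B / 2) := by
    unfold FK
    rw [mul_one]
  have hE : Real.exp (-(B / 4)) ≠ 0 := (Real.exp_pos _).ne'
  unfold dtn
  rw [hd]
  show _ / FK B lam n 1 = _
  rw [hval]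
  field_simp

end Pool.Agent.MFK

end

section

/-! # Ladder relation up (item R3) -/

set_option autoImplicit false

namespace Pool.Agent.MFK

namespace R3

theorem An_nat (B lam : ℝ) (n : ℕ) : An B lam (n : ℤ) = 1 / 2 - lam / (2 * B) := by
  unfold An
  rw [if_neg (by omega), add_zero]

theorem An_succ (B lam : ℝ) (n : ℕ) : An B lam ((n : ℤ) + 1) = 1 / 2 - lam / (2 * B) := by
  unfold An
  rw [if_neg (by omega), add_zero]

theorem radf_nat (B lam : ℝ) (n : ℕ) (r : ℝ) :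
    radf (n : ℤ) (FK B lam (n : ℤ)) r
      = r ^ n * (Real.exp (-(B * r ^ 2 / 4)) *
          Phi (1 / 2 - lam / (2 * B)) ((n : ℝ) + 1) (B * r ^ 2 / 2)) := by
  unfold radf FK
  rw [An_nat, Int.natAbs_natCast]

theorem radf_succ (B lam : ℝ) (n : ℕ) (r : ℝ) :
    radf ((n : ℤ) + 1) (FK B lam ((n : ℤ) + 1)) r
      = r ^ (n + 1) * (Real.exp (-(B * r ^ 2 / 4)) *
          Phi (1 / 2 - lam / (2 * B)) ((n : ℝ) + 1 + 1) (B * r ^ 2 / 2)) := by
  have h : ((n : ℤ) + 1).natAbs = n + 1 := by omega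
  unfold radf FK
  rw [An_succ, h]
  push_cast
  ring_nf

theorem hasDeriv (h1 : KDer) (B lam : ℝ) (n : ℕ) (r : ℝ) (hr : 0 < r) :
    HasDerivAt (radf (n : ℤ) (FK B lam (n : ℤ)))
      ((n / r - B * r / 2) * (r ^ n * (Real.exp (-(B * r ^ 2 / 4)) *
          Phi (1 / 2 - lam / (2 * B)) ((n : ℝ) + 1) (B * r ^ 2 / 2)))
        + B * r * (r ^ n * (Real.exp (-(B * r ^ 2 / 4)) *
          Phi1 (1 / 2 - lam / (2 * B)) ((n : ℝ) + 1) (B * r ^ 2 / 2)))) r := by
  have hf : radf (n : ℤ) (FK B lam (n : ℤ)) = fun r : ℝ =>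
      r ^ n * (Real.exp (-(B * r ^ 2 / 4)) *
          Phi (1 / 2 - lam / (2 * B)) ((n : ℝ) + 1) (B * r ^ 2 / 2)) := by
    funext t
    exact radf_nat B lam n t
  rw [hf]
  have hb : (0 : ℝ) < (n : ℝ) + 1 := by positivity
  have hz : HasDerivAt (fun t : ℝ => B * t ^ 2 / 2) (B * r) r := by
    have := ((hasDerivAt_pow 2 r).const_mul B).div_const 2
    refine this.congr_deriv ?_
    norm_num
    ring
  have he : HasDerivAt (fun t : ℝ => -(B * t ^ 2 / 4)) (-(B * r / 2)) r := by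
    have := (((hasDerivAt_pow 2 r).const_mul B).div_const 4).neg
    refine this.congr_deriv ?_
    norm_num
    ring
  have hP := (h1 (1 / 2 - lam / (2 * B)) ((n : ℝ) + 1) (B * r ^ 2 / 2) hb).comp r hz
  have hE := he.exp
  have hn : HasDerivAt (fun t : ℝ => t ^ n) ((n / r) * r ^ n) r := by
    refine (hasDerivAt_pow n r).congr_deriv ?_
    rcases Nat.eq_zero_or_pos n with h0 | h0
    · subst h0
      simp
    · obtain ⟨k, rfl⟩ : ∃ k, n = k + 1 := ⟨n - 1, by omega⟩
      rw [Nat.add_sub_cancel, pow_succ]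
      field_simp
  refine (hn.mul (hE.mul hP)).congr_deriv ?_
  simp only [Function.comp, Pi.mul_apply]
  ring

end R3

/-- ladder relation up -/
theorem rUp (h1 : KDer) (h2 : KUp) : RUp := by
  intro B lam n r hB _ hr
  have hb : (0 : ℝ) < (n : ℝ) + 1 := by positivity
  rw [(R3.hasDeriv h1 B lam n r hr).deriv, R3.radf_nat, R3.radf_succ]
  have h := h2 (1 / 2 - lam / (2 * B)) ((n : ℝ) + 1) (B * r ^ 2 / 2) hb
  have h3 : B * ((n + 1 - (1 / 2 - lam / (2 * B))) / (n + 1)) * (r ^ (n + 1) *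
      (Real.exp (-(B * r ^ 2 / 4)) * Phi (1 / 2 - lam / (2 * B)) ((n : ℝ) + 1 + 1) (B * r ^ 2 / 2)))
      = B * r * r ^ n * Real.exp (-(B * r ^ 2 / 4)) *
        (((n : ℝ) + 1 - (1 / 2 - lam / (2 * B))) / ((n : ℝ) + 1)
          * Phi (1 / 2 - lam / (2 * B)) ((n : ℝ) + 1 + 1) (B * r ^ 2 / 2)) := by
    ring
  rw [h3, ← h]
  ring

end Pool.Agent.MFK

end

section

/-! # R4: the downward ladder relation -/

set_option autoImplicit false

namespace Pool.Agent.MFK

open MeasureTheory Set Filter Topology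

namespace R4

theorem hasDeriv_radf (h1 : KDer) (B lam : ℝ) (n : ℤ) (r : ℝ) (N : ℕ) (hN : n.natAbs = N)
    (hr : 0 < r) :
    HasDerivAt (radf n (FK B lam n))
      ((N : ℝ) * r ^ N / r * (Real.exp (-(B * r ^ 2 / 4)) * Phi (An B lam n) (N + 1) (B * r ^ 2 / 2))
        + r ^ N * (Real.exp (-(B * r ^ 2 / 4)) * (-(B * r / 2))
            * Phi (An B lam n) (N + 1) (B * r ^ 2 / 2)
          + Real.exp (-(B * r ^ 2 / 4)) * (Phi1 (An B lam n) (N + 1) (B * r ^ 2 / 2) * (B * r)))) r := by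
  have hb : (0 : ℝ) < (N : ℝ) + 1 := by positivity
  have e1 : HasDerivAt (fun t : ℝ => B * t ^ 2 / 2) (B * r) r := by
    have := ((hasDerivAt_pow 2 r).const_mul B).div_const 2
    refine this.congr_deriv ?_
    norm_num
    ring
  have e2 : HasDerivAt (fun t : ℝ => -(B * t ^ 2 / 4)) (-(B * r / 2)) r := by
    have := (((hasDerivAt_pow 2 r).const_mul B).div_const 4).neg
    refine this.congr_deriv ?_
    norm_num
    ring
  have e3 := e2.exp
  have e4 := (h1 (An B lam n) ((N : ℝ) + 1) (B * r ^ 2 / 2) hb).comp r e1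
  have e5 := e3.mul e4
  have e6 : HasDerivAt (fun t : ℝ => t ^ N) ((N : ℝ) * r ^ N / r) r := by
    refine (hasDerivAt_pow N r).congr_deriv ?_
    rcases N with _ | N
    · simp
    · rw [pow_succ]
      simp only [Nat.add_sub_cancel]
      field_simp
  have e7 := e6.mul e5
  have e8 : radf n (FK B lam n) = (fun t : ℝ => t ^ N) * ((fun t : ℝ => Real.exp (-(B * t ^ 2 / 4)))
      * (Phi (An B lam n) ((N : ℝ) + 1) ∘ fun t : ℝ => B * t ^ 2 / 2)) := by
    funext t
    simp only [radf, FK, hN, Pi.mul_apply, Function.comp]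
  rw [e8]
  refine e7.congr_deriv ?_
  simp only [Pi.mul_apply, Function.comp]

end R4

theorem rDown (h1 : KDer) (h2 : KDown) : RDown := by
  intro B lam n hB hlam
  rcases lt_or_ge 0 n with hn | hn
  · obtain ⟨k, rfl⟩ : ∃ k : ℕ, n = (k : ℤ) + 1 := ⟨(n - 1).toNat, by omega⟩
    refine ⟨2 * ((k : ℝ) + 1), by positivity, fun r hr => ?_⟩
    have hN : ((k : ℤ) + 1).natAbs = k + 1 := by omega
    rw [(R4.hasDeriv_radf h1 B lam ((k : ℤ) + 1) r (k + 1) hN hr).deriv]
    have hA1 : An B lam ((k : ℤ) + 1) = 1 / 2 - lam / (2 * B) := by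
      unfold An
      rw [if_neg (by omega)]
      ring
    have hA2 : An B lam ((k : ℤ) + 1 - 1) = 1 / 2 - lam / (2 * B) := by
      unfold An
      rw [if_neg (by omega)]
      ring
    have hN2 : ((k : ℤ) + 1 - 1).natAbs = k := by omega
    have hd := h2 (1 / 2 - lam / (2 * B)) ((k : ℝ) + 1) (B * r ^ 2 / 2) (by positivity)
    simp only [radf, FK, hN, hN2, hA1, hA2]
    push_cast
    have hr' : r ≠ 0 := hr.ne'
    rw [show r ^ (k + 1) = r ^ k * r from pow_succ r k]
    set E := Real.exp (-(B * r ^ 2 / 4))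
    set P := Phi (1 / 2 - lam / (2 * B)) ((k : ℝ) + 1 + 1) (B * r ^ 2 / 2)
    set P1 := Phi1 (1 / 2 - lam / (2 * B)) ((k : ℝ) + 1 + 1) (B * r ^ 2 / 2)
    set Q := Phi (1 / 2 - lam / (2 * B)) ((k : ℝ) + 1) (B * r ^ 2 / 2)
    have : (((k : ℝ) + 1) / r + B * r / 2) * (r ^ k * r * (E * P)) +
        (((k : ℝ) + 1) * (r ^ k * r) / r * (E * P) +
          r ^ k * r * (E * (-(B * r / 2)) * P + E * (P1 * (B * r))))
        = 2 * r ^ k * E * (((k : ℝ) + 1) * P + B * r ^ 2 / 2 * P1) := by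
      field_simp
      ring
    rw [this, hd]
    ring
  · obtain ⟨k, rfl⟩ : ∃ k : ℕ, n = -(k : ℤ) := ⟨(-n).toNat, by omega⟩
    have hAn : An B lam (-(k : ℤ)) = 1 / 2 - lam / (2 * B) + k := by
      unfold An
      rcases Nat.eq_zero_or_pos k with hk | hk
      · subst hk
        simp
      · rw [if_pos (by omega)]
        have : (-(k : ℤ)).natAbs = k := by omega
        rw [this]
    have hAn2 : An B lam (-(k : ℤ) - 1) = 1 / 2 - lam / (2 * B) + k + 1 := by
      unfold An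
      rw [if_pos (by omega)]
      have : (-(k : ℤ) - 1).natAbs = k + 1 := by omega
      rw [this]
      push_cast
      ring
    have hApos : 0 < An B lam (-(k : ℤ)) := by
      rw [hAn]
      have : lam / (2 * B) < 1 / 2 := by
        rw [div_lt_iff₀ (by positivity)]
        linarith
      have : (0 : ℝ) ≤ (k : ℝ) := Nat.cast_nonneg k
      linarith
    refine ⟨B * (An B lam (-(k : ℤ)) / ((k : ℝ) + 1)), by positivity, fun r hr => ?_⟩
    have hN : (-(k : ℤ)).natAbs = k := by omega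
    have hN2 : (-(k : ℤ) - 1).natAbs = k + 1 := by omega
    rw [(R4.hasDeriv_radf h1 B lam (-(k : ℤ)) r k hN hr).deriv]
    have hAA : An B lam (-(k : ℤ) - 1) = An B lam (-(k : ℤ)) + 1 := by
      rw [hAn, hAn2]
    simp only [radf, FK, hN, hN2, hAA, Phi1]
    push_cast
    have hr' : r ≠ 0 := hr.ne'
    rw [show r ^ (k + 1) = r ^ k * r from pow_succ r k]
    have hk1 : (k : ℝ) + 1 ≠ 0 := by positivity
    field_simp
    ring

end Pool.Agent.MFK

end

section

/-!
# [8826fd R5] recursion for the Dirichlet to Neumann numbers from the ladder relations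
-/

set_option autoImplicit false

namespace Pool.Agent.MFK

open MeasureTheory Set Filter Topology

namespace R5

/-- the derivative at `1` of the left hand side of the ladder relations -/
theorem hd (B n a1 a2 : ℝ) {a : ℝ → ℝ} (ha : HasDerivAt a (deriv a 1) 1)
    (ha2 : HasDerivAt (deriv a) a2 1) (h1 : a 1 = a1) (e : ℝ) :
    HasDerivAt (fun r => (n / r + B * r / 2) * a r + e * deriv a r)
      ((-n + B / 2) * a1 + (n + B / 2) * deriv a 1 + e * a2) 1 := by
  have h2 : HasDerivAt (fun r : ℝ => n / r + B * r / 2) (-n + B / 2) 1 := by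
    have h3 : HasDerivAt (fun r : ℝ => n / r) (-n) 1 := by
      have := (hasDerivAt_inv (one_ne_zero (α := ℝ))).const_mul n
      convert! this using 1
      norm_num
    have h4 : HasDerivAt (fun r : ℝ => B * r / 2) (B / 2) 1 := by
      have := ((hasDerivAt_id (1 : ℝ)).const_mul B).div_const 2
      simpa using this
    exact h3.add h4
  have h5 := (h2.mul ha).add (ha2.const_mul e)
  convert! h5 using 1
  rw [h1]
  ring

theorem key (B lam n m e : ℝ) {a b : ℝ → ℝ} {C F1 G1 : ℝ} (ha : HasDerivAt a (deriv a 1) 1)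
    (ha2 : HasDerivAt (deriv a) (((n - B / 2) ^ 2 - lam) * a 1 - deriv a 1) 1)
    (hb : HasDerivAt b (deriv b 1) 1) (h1 : a 1 = F1) (h2 : b 1 = G1) (hF : 0 < F1) (hG : 0 < G1)
    (hC : 0 < C) (hm : m = n)
    (hl : ∀ r : ℝ, 0 < r → (n / r + B * r / 2) * a r + e * deriv a r = C * b r) :
    0 < m + B / 2 + e * (deriv a 1 / F1) ∧
    deriv b 1 / G1 * (m + B / 2 + e * (deriv a 1 / F1)) =
      (-n + B / 2) + (n + B / 2) * (deriv a 1 / F1) +
        e * ((n - B / 2) ^ 2 - lam - deriv a 1 / F1) := by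
  subst hm
  have h3 := hl 1 one_pos
  rw [h1, h2] at h3
  have h4 : m + B / 2 + e * (deriv a 1 / F1) = C * G1 / F1 := by
    rw [← h3]
    field_simp
  have h5 : HasDerivAt (fun r => (m / r + B * r / 2) * a r + e * deriv a r) (C * deriv b 1) 1 := by
    refine (hb.const_mul C).congr_of_eventuallyEq ?_
    filter_upwards [lt_mem_nhds (one_pos (α := ℝ))] with r hr
    exact hl r hr
  have h6 := (hd B m F1 _ ha ha2 h1 e).unique h5
  rw [h4]
  refine ⟨by positivity, ?_⟩
  have h7 : deriv b 1 / G1 * (C * G1 / F1) = C * deriv b 1 / F1 := by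
    field_simp
  rw [h7, ← h6, h1]
  field_simp

end R5

theorem rRec (h : RReg) : RRecUp ∧ RRecDown := by
  constructor
  · intro B lam n F G C hF hG hC hl
    obtain ⟨ha, -, -, -, ha1, ha2, -, -⟩ := h B lam n F hF
    obtain ⟨hb, -, -, -, hb1, -, -, -⟩ := h B lam (n + 1) G hG
    have ha2' := ha2 1 one_pos
    simp only [qn, div_one, mul_one] at ha2'
    have hk := R5.key B lam n n (-1) (ha 1) ha2' (hb 1) ha1 hb1 (hF.pos 1 zero_le_one)
      (hG.pos 1 zero_le_one) hC rfl (fun r hr => by rw [← hl r hr]; ring)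
    obtain ⟨h1, h2⟩ := hk
    refine ⟨by linarith, ?_⟩
    linear_combination h2
  · intro B lam n F G C hF hG hC hl
    obtain ⟨ha, -, -, -, ha1, ha2, -, -⟩ := h B lam n F hF
    obtain ⟨hb, -, -, -, hb1, -, -, -⟩ := h B lam (n - 1) G hG
    have ha2' := ha2 1 one_pos
    simp only [qn, div_one, mul_one] at ha2'
    have hk := R5.key B lam n n 1 (ha 1) ha2' (hb 1) ha1 hb1 (hF.pos 1 zero_le_one)
      (hG.pos 1 zero_le_one) hC rfl (fun r hr => by rw [← hl r hr]; ring)
    obtain ⟨h1, h2⟩ := hk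
    refine ⟨by linarith, ?_⟩
    linear_combination h2

end Pool.Agent.MFK

end

section

/-! # Signs of `a_n'(1)` -/

set_option autoImplicit false

namespace Pool.Agent.MFK

open MeasureTheory Set Filter Topology

namespace R7

theorem phi_zero (b z : ℝ) : Phi 0 b z = 1 := by
  unfold Phi
  rw [tsum_eq_single 0]
  · simp [kc]
  · intro k hk
    have : kc 0 b k = 0 := by
      unfold kc
      exact Finset.prod_eq_zero (i := 0) (Finset.mem_range.2 (Nat.pos_of_ne_zero hk)) (by simp)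
    rw [this, zero_mul]

theorem neg_case (h1 : RVal) (h2 : KPos) (h3 : KBd) (h4 : KUp) (B : ℝ) (hB : 0 < B) (lam : ℝ)
    (n : ℤ) (hl : lam ≤ B) (hn : n < 0) : 0 < deriv (radf n (FK B lam n)) 1 := by
  rw [(h1 B lam n hB).1]
  refine mul_pos (Real.exp_pos _) ?_
  have hN : (1 : ℝ) ≤ (n.natAbs : ℝ) := by
    have : 1 ≤ n.natAbs := by omega
    exact_mod_cast this
  set N : ℝ := (n.natAbs : ℝ) with hNd
  have hA : An B lam n = 1 / 2 - lam / (2 * B) + N := by
    unfold An; rw [if_pos hn]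
  have hlB : lam / (2 * B) ≤ 1 / 2 := by
    rw [div_le_div_iff₀ (by positivity) (by norm_num)]; linarith
  have hAN : N ≤ An B lam n := by rw [hA]; linarith
  have hA0 : 0 ≤ An B lam n := by linarith
  have hb : 0 < N + 1 := by linarith
  have hz : 0 ≤ B / 2 := by linarith
  obtain ⟨hp1, hp2⟩ := h2 (An B lam n) (N + 1) (B / 2) hA0 hb hz
  rcases le_or_gt (An B lam n) (N + 1) with hc | hc
  · obtain ⟨hk, _⟩ := h3 (An B lam n) (N + 1) (B / 2) hA0 hc hb hz
    have hr : (1 : ℝ) / 2 ≤ An B lam n / (N + 1) := by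
      rw [div_le_div_iff₀ (by norm_num) hb]; linarith
    have h5 : 1 / 2 * Phi (An B lam n) (N + 1) (B / 2) ≤ Phi1 (An B lam n) (N + 1) (B / 2) :=
      (mul_le_mul_of_nonneg_right hr (by linarith)).trans hk
    have h6 : B * (1 / 2 * Phi (An B lam n) (N + 1) (B / 2)) ≤
        B * Phi1 (An B lam n) (N + 1) (B / 2) := mul_le_mul_of_nonneg_left h5 hB.le
    have h7 : 0 < N * Phi (An B lam n) (N + 1) (B / 2) := mul_pos (by linarith) (by linarith)
    nlinarith
  · have hk := h4 (An B lam n) (N + 1) (B / 2) hb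
    obtain ⟨hp3, _⟩ := h2 (An B lam n) (N + 1 + 1) (B / 2) hA0 (by linarith) hz
    have h5 : (N + 1 - An B lam n) / (N + 1) * Phi (An B lam n) (N + 1 + 1) (B / 2) ≤ 0 :=
      mul_nonpos_of_nonpos_of_nonneg (div_nonpos_of_nonpos_of_nonneg (by linarith) hb.le)
        (by linarith)
    have h6 : B * Phi (An B lam n) (N + 1) (B / 2) ≤ B * Phi1 (An B lam n) (N + 1) (B / 2) :=
      mul_le_mul_of_nonneg_left (by linarith) hB.le
    have h7 : 0 < (N + B / 2) * Phi (An B lam n) (N + 1) (B / 2) :=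
      mul_pos (by linarith) (by linarith)
    nlinarith

theorem big_case (h1 : RVal) (h2 : KPos) (B : ℝ) (hB : 0 < B) (lam : ℝ)
    (n : ℕ) (hl : lam ≤ B) (hn : B / 2 < n) : 0 < deriv (radf n (FK B lam n)) 1 := by
  rw [(h1 B lam n hB).1]
  refine mul_pos (Real.exp_pos _) ?_
  have hA : An B lam n = 1 / 2 - lam / (2 * B) := by
    unfold An; rw [if_neg (by omega), add_zero]
  have hlB : lam / (2 * B) ≤ 1 / 2 := by
    rw [div_le_div_iff₀ (by positivity) (by norm_num)]; linarith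
  obtain ⟨hp1, hp2⟩ := h2 (An B lam n) (((n : ℤ).natAbs : ℝ) + 1) (B / 2) (by rw [hA]; linarith)
    (by positivity) (by linarith)
  have hcast : (((n : ℤ).natAbs : ℕ) : ℝ) = n := by simp
  rw [hcast] at hp1 hp2 ⊢
  have h5 : 0 < ((n : ℝ) - B / 2) * Phi (An B lam n) ((n : ℝ) + 1) (B / 2) :=
    mul_pos (by linarith) (by linarith)
  have h6 : 0 ≤ B * Phi1 (An B lam n) ((n : ℝ) + 1) (B / 2) := mul_nonneg hB.le hp2
  linarith

theorem zero_case (h5 : RRad) (h6 : RReg) (B : ℝ) (hB : 0 < B) (n : ℕ) :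
    0 < deriv (radf n (FK B 0 n)) 1 := by
  have hR := h5 B 0 n hB hB
  obtain ⟨hd, hc, hcd, hpos, h1v, _, _, _⟩ := h6 B 0 n _ hR
  set a := radf (n : ℤ) (FK B 0 n) with had
  set G : ℝ → ℝ := fun t => t * deriv a t with hG
  have hGd : ∀ r, 0 < r → HasDerivAt G (r * ((qn B n r) ^ 2 - 0) * a r) r := fun r hr => hR.ode r hr
  have hGc : Continuous G := continuous_id.mul hcd
  have hmono : MonotoneOn G (Icc 0 1) := by
    refine monotoneOn_of_deriv_nonneg (convex_Icc 0 1) hGc.continuousOn ?_ ?_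
    · intro x hx
      rw [interior_Icc] at hx
      exact (hGd x hx.1).differentiableAt.differentiableWithinAt
    · intro x hx
      rw [interior_Icc] at hx
      rw [(hGd x hx.1).deriv]
      have := hpos x hx.1
      have hx0 := hx.1
      have h7 : 0 ≤ (qn B n x) ^ 2 - 0 := by rw [sub_zero]; positivity
      positivity
  have hG0 : G 0 = 0 := by simp [hG]
  have hG1 : G 1 = deriv a 1 := by simp [hG]
  rw [← hG1]
  by_contra hcon
  push Not at hcon
  have hzero : ∀ t ∈ Icc (0 : ℝ) 1, G t = 0 := by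
    intro t ht
    have h7 := hmono (left_mem_Icc.2 zero_le_one) ht ht.1
    have h8 := hmono ht (right_mem_Icc.2 zero_le_one) ht.2
    rw [hG0] at h7
    linarith
  have hq : ∀ t : ℝ, 0 < t → t < 1 → qn B n t = 0 := by
    intro t ht0 ht1
    have h7 : HasDerivAt G 0 t := by
      refine (hasDerivAt_const t (0 : ℝ)).congr_of_eventuallyEq ?_
      filter_upwards [Ioo_mem_nhds ht0 ht1] with s hs
      exact hzero s ⟨hs.1.le, hs.2.le⟩
    have h8 := (hGd t ht0).unique h7
    have h9 := hpos t ht0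
    rw [sub_zero] at h8
    rcases mul_eq_zero.1 h8 with h | h
    · rcases mul_eq_zero.1 h with h | h
      · exact absurd h ht0.ne'
      · exact pow_eq_zero_iff (two_ne_zero) |>.1 h
    · exact absurd h h9.ne'
  have ha := hq (1 / 2) (by norm_num) (by norm_num)
  have hb := hq (1 / 3) (by norm_num) (by norm_num)
  unfold qn at ha hb
  have h9 : (n : ℝ) / (1 / 2) = 2 * n := by ring
  have h10 : (n : ℝ) / (1 / 3) = 3 * n := by ring
  push_cast at ha hb
  rw [h9] at ha
  rw [h10] at hb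
  linarith

theorem top_case (h1 : RVal) (B : ℝ) (hB : 0 < B) : deriv (radf 0 (FK B B 0)) 1 < 0 := by
  have h := (h1 B B 0 hB).1
  have hA : An B B 0 = 0 := by
    unfold An
    rw [if_neg (by norm_num)]
    field_simp
    norm_num
  rw [hA] at h
  rw [h, phi_zero]
  have h2 : Phi1 0 (((0 : ℤ).natAbs : ℝ) + 1) (B / 2) = 0 := by unfold Phi1; simp
  rw [h2]
  refine mul_neg_of_pos_of_neg (Real.exp_pos _) ?_
  simp
  linarith

end R7

theorem rSign (h1 : RVal) (h2 : KPos) (h3 : KBd) (h4 : KUp) (h5 : RRad) (h6 : RReg) : RSign := by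
  intro B hB
  exact ⟨fun lam n hl hn => R7.neg_case h1 h2 h3 h4 B hB lam n hl hn,
    fun lam n hl hn => R7.big_case h1 h2 B hB lam n hl hn,
    fun n => R7.zero_case h5 h6 B hB n, R7.top_case h1 B hB⟩

end Pool.Agent.MFK

end

section

/-! # Continuity of `a_n'(1)` in the energy -/

set_option autoImplicit false

namespace Pool.Agent.MFK

theorem rCont (h1 : RVal) (h2 : KCont) : RCont := by
  intro B n hB
  have e : (fun lam => deriv (radf (n : ℤ) (FK B lam (n : ℤ))) 1) = fun lam =>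
      Real.exp (-(B / 4)) *
    ((((n : ℤ).natAbs : ℝ) - B / 2) * Phi (An B lam n) ((n : ℤ).natAbs + 1) (B / 2)
      + B * Phi1 (An B lam n) ((n : ℤ).natAbs + 1) (B / 2)) := by
    funext lam
    exact (h1 B lam n hB).1
  show Continuous (fun lam => deriv (radf (n : ℤ) (FK B lam (n : ℤ))) 1)
  rw [e]
  have hb : (0 : ℝ) < ((n : ℤ).natAbs : ℝ) + 1 := by positivity
  have hb1 : (0 : ℝ) < ((n : ℤ).natAbs : ℝ) + 1 + 1 := by positivity
  have hA : Continuous (fun lam => An B lam (n : ℤ)) := by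
    unfold An
    exact (continuous_const.sub (continuous_id.div_const (2 * B))).add continuous_const
  have hA1 : Continuous (fun lam => An B lam (n : ℤ) + 1) := hA.add continuous_const
  have hP : Continuous (fun lam => Phi (An B lam n) ((n : ℤ).natAbs + 1) (B / 2)) :=
    (h2 (((n : ℤ).natAbs : ℝ) + 1) (B / 2) hb).comp hA
  have hP1 : Continuous (fun lam => Phi1 (An B lam n) ((n : ℤ).natAbs + 1) (B / 2)) := by
    have h3 : Continuous (fun lam => Phi (An B lam (n : ℤ) + 1) (((n : ℤ).natAbs : ℝ) + 1 + 1)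
        (B / 2)) := (h2 (((n : ℤ).natAbs : ℝ) + 1 + 1) (B / 2) hb1).comp hA1
    unfold Phi1
    exact (hA.div_const _).mul h3
  exact continuous_const.mul ((continuous_const.mul hP).add (continuous_const.mul hP1))

end Pool.Agent.MFK

end

section

/-! # Existence of the ground state (item R9) -/

set_option autoImplicit false

namespace Pool.Agent.MFK

open MeasureTheory Set Filter Topology

namespace R9

/-- abstract version: finitely many continuous functions, all positive at `0`, one negative at `B` -/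
theorem exists_first {B : ℝ} (hB : 0 < B) (N0 : ℕ) (g : ℕ → ℝ → ℝ) (hg : ∀ n, Continuous (g n))
    (h0 : ∀ n, 0 < g n 0) (h1 : g 0 B < 0) :
    ∃ lam : ℝ, 0 < lam ∧ lam < B ∧ (∀ n ≤ N0, 0 ≤ g n lam) ∧ ∃ m ≤ N0, g m lam = 0 := by
  set S : Set ℝ := Icc 0 B ∩ ⋃ n ∈ Finset.range (N0 + 1), {l | g n l ≤ 0} with hS
  have memS : ∀ l, l ∈ S ↔ (0 ≤ l ∧ l ≤ B) ∧ ∃ n ≤ N0, g n l ≤ 0 := by
    intro l
    simp only [hS, mem_inter_iff, mem_Icc, mem_iUnion, Finset.mem_range, mem_ofPred_eq,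
      Nat.lt_succ_iff, exists_prop]
  have hclosed : IsClosed (⋃ n ∈ Finset.range (N0 + 1), {l | g n l ≤ 0}) :=
    isClosed_biUnion_finset fun n _ => isClosed_le (hg n) continuous_const
  have hcomp : IsCompact S := isCompact_Icc.inter_right hclosed
  have hne : S.Nonempty := ⟨B, (memS B).2 ⟨⟨hB.le, le_rfl⟩, 0, Nat.zero_le _, h1.le⟩⟩
  have hmem : sInf S ∈ S := hcomp.sInf_mem hne
  set lam := sInf S with hlam
  have hlow : ∀ l ∈ S, lam ≤ l := fun l hl => csInf_le hcomp.bddBelow hl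
  obtain ⟨⟨hl0, hlB⟩, m, hm, hgm⟩ := (memS lam).1 hmem
  have hpos : 0 < lam := by
    rcases hl0.eq_or_lt with h | h
    · rw [← h] at hgm
      exact absurd (h0 m) (not_lt.2 hgm)
    · exact h
  have hltB : lam < B := by
    have hev : ∀ᶠ l in 𝓝 B, g 0 l < 0 := (hg 0).continuousAt.eventually_lt continuousAt_const h1
    have hev2 : ∀ᶠ l in 𝓝[<] B, g 0 l < 0 := hev.filter_mono nhdsWithin_le_nhds
    have hev3 : ∀ᶠ l in 𝓝[<] B, l ∈ Ioo 0 B := Ioo_mem_nhdsLT hB
    obtain ⟨l, hl1, hl2⟩ := (hev2.and hev3).exists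
    exact lt_of_le_of_lt (hlow l ((memS l).2 ⟨⟨hl2.1.le, hl2.2.le⟩, 0, Nat.zero_le _, hl1.le⟩)) hl2.2
  have hge : ∀ n ≤ N0, 0 ≤ g n lam := by
    intro n hn
    have ht : Tendsto (g n) (𝓝[<] lam) (𝓝 (g n lam)) :=
      (hg n).continuousAt.tendsto.mono_left nhdsWithin_le_nhds
    refine ge_of_tendsto ht ?_
    filter_upwards [Ioo_mem_nhdsLT hpos] with l hl
    by_contra hneg
    push Not at hneg
    have := hlow l ((memS l).2 ⟨⟨hl.1.le, (hl.2.trans hltB).le⟩, n, hn, hneg.le⟩)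
    exact absurd hl.2 (not_lt.2 this)
  exact ⟨lam, hpos, hltB, hge, m, hm, le_antisymm hgm (hge m hm)⟩

end R9

theorem rGround (h1 : RSign) (h2 : RCont) : RGround := by
  intro B hB
  obtain ⟨s1, s2, s3, s4⟩ := h1 B hB
  obtain ⟨lam, hpos, hlt, hge, m, hm, hz⟩ := R9.exists_first hB ⌈B / 2⌉₊
    (fun n lam => deriv (radf n (FK B lam n)) 1) (fun n => h2 B n hB) s3 (by simpa using s4)
  refine ⟨lam, m, hpos, hlt, fun n => ?_, hz⟩
  rcases lt_or_ge n 0 with hn | hn
  · exact (s1 lam n hlt.le hn).le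
  · obtain ⟨k, rfl⟩ := Int.eq_ofNat_of_zero_le hn
    by_cases hk : k ≤ ⌈B / 2⌉₊
    · exact hge k hk
    · push Not at hk
      exact (s2 lam k hlt.le (Nat.lt_of_ceil_lt hk)).le

end Pool.Agent.MFK

end

section

/-! # Spectral data of the disc -/

set_option autoImplicit false

namespace Pool.Agent.MFK

open MeasureTheory Set Filter Topology

theorem spec (h1 : RRad) (h2 : RUp) (h3 : RDown) (h4 : RRecUp) (h5 : RRecDown) (h6 : RGround)
    (h7 : RF) : StSpec := by
  intro B hB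
  obtain ⟨lam, m, hl0, hlB, hnn, hz⟩ := h6 B hB
  set F : ℤ → ℝ → ℝ := fun n => FK B lam n with hF
  have hrad : ∀ n : ℤ, Rad B lam n (F n) := fun n => h1 B lam n hB hlB
  have hF1 : ∀ n : ℤ, 0 < F n 1 := fun n => (hrad n).pos 1 zero_le_one
  have hdnn : ∀ n : ℤ, 0 ≤ dtn F n := fun n => div_nonneg (hnn n) (hF1 n).le
  have hdz : dtn F (m : ℤ) = 0 := by
    unfold dtn
    rw [show deriv (radf (m : ℤ) (F (m : ℤ))) 1 = 0 from hz]
    simp
  have hup : ∀ k : ℕ, 0 < (B / 2 + m) + k - dtn F ((m : ℤ) + k) ∧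
      dtn F ((m : ℤ) + (k + 1 : ℕ)) * ((B / 2 + m) + k - dtn F ((m : ℤ) + k))
        = (1 + (B / 2 + m) + k) * dtn F ((m : ℤ) + k)
          - (k - (B / 2 - m)) * (k - (B / 2 - m) + 1) + lam := by
    intro k
    have hr := h4 B lam ((m + k : ℕ) : ℤ) (F ((m + k : ℕ) : ℤ)) (F (((m + k : ℕ) : ℤ) + 1))
      (B * ((((m + k : ℕ) : ℝ) + 1 - (1 / 2 - lam / (2 * B))) / (((m + k : ℕ) : ℝ) + 1)))
      (hrad _) (hrad _) ?_ ?_
    · have e1 : ((m : ℤ) + (k + 1 : ℕ)) = ((m + k : ℕ) : ℤ) + 1 := by push_cast; ring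
      have e2 : ((m : ℤ) + k) = ((m + k : ℕ) : ℤ) := by push_cast; ring
      rw [e1, e2]
      obtain ⟨ha, hb⟩ := hr
      unfold dtn
      constructor
      · have : ((((m + k : ℕ) : ℤ) : ℝ)) = m + k := by push_cast; ring
        rw [this] at ha
        linarith
      · have : ((((m + k : ℕ) : ℤ) : ℝ)) = m + k := by push_cast; ring
        rw [this] at hb
        linear_combination hb
    · have : lam / (2 * B) < 1 / 2 := by
        rw [div_lt_iff₀ (by positivity)]; linarith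
      have h8 : (0 : ℝ) < ((m + k : ℕ) : ℝ) + 1 - (1 / 2 - lam / (2 * B)) := by
        have : 0 < lam / (2 * B) := by positivity
        have h9 : (0 : ℝ) ≤ ((m + k : ℕ) : ℝ) := Nat.cast_nonneg _
        linarith
      positivity
    · intro r hr
      have := h2 B lam (m + k) r hB hlB hr
      simpa using this
  have hdown : ∀ k : ℕ, 0 < dtn F ((m : ℤ) - k) + (B / 2 + m) - k ∧
      dtn F ((m : ℤ) - (k + 1 : ℕ)) * (dtn F ((m : ℤ) - k) + (B / 2 + m) - k)
        = ((B / 2 + m) - k - 1) * dtn F ((m : ℤ) - k)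
          + ((B / 2 - m) + k) * ((B / 2 - m) + k + 1) - lam := by
    intro k
    obtain ⟨C, hC, hl⟩ := h3 B lam ((m : ℤ) - k) hB hlB
    obtain ⟨ha, hb⟩ := h5 B lam ((m : ℤ) - k) (F ((m : ℤ) - k)) (F (((m : ℤ) - k) - 1)) C
      (hrad _) (hrad _) hC hl
    have e1 : ((m : ℤ) - (k + 1 : ℕ)) = ((m : ℤ) - k) - 1 := by push_cast; ring
    rw [e1]
    unfold dtn
    constructor
    · push_cast at ha
      linarith
    · push_cast at hb
      linear_combination hb
  have hal0 : dtn F ((m : ℤ) - (0 : ℕ)) = 0 := by simpa using hdz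
  have hbe0 : dtn F ((m : ℤ) + (0 : ℕ)) = 0 := by simpa using hdz
  refine ⟨lam, m, F, ⟨hl0, hlB, hrad, hdnn, hdz⟩, ?_⟩
  obtain ⟨f1, f2, f3, f4, f5⟩ := h7 B lam hB hl0 hlB
  have hM : (0 : ℝ) < B / 2 + m := by positivity
  refine ⟨?_, by ring, hl0, by linarith, hal0, hbe0, fun k => hdnn _, fun k => hdnn _,
    fun k => (hdown k).1, fun k => (hup k).1, fun k => (hdown k).2, fun k => (hup k).2,
    ?_, ?_, ?_, ?_, ?_, ?_⟩
  · -- 0 < p
    have ha := (hdown 0).2
    have hb := (hup 0).2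
    rw [hal0] at ha
    rw [hbe0] at hb
    have ha' := hdnn ((m : ℤ) - (0 + 1 : ℕ))
    have hb' := hdnn ((m : ℤ) + (0 + 1 : ℕ))
    simp only [Nat.cast_zero] at ha hb
    by_contra hneg
    have h10 : 0 ≤ dtn F ((m : ℤ) - (0 + 1 : ℕ)) * (B / 2 + m) := mul_nonneg ha' hM.le
    have h11 : 0 ≤ dtn F ((m : ℤ) + (0 + 1 : ℕ)) * (B / 2 + m) := mul_nonneg hb' hM.le
    nlinarith
  · intro k
    have := f1 (m + k)
    have e1 : ((m : ℤ) + (k + 1 : ℕ)) = ((m + k : ℕ) : ℤ) + 1 := by push_cast; ring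
    have e2 : ((m : ℤ) + k) = ((m + k : ℕ) : ℤ) := by push_cast; ring
    simp only [e1, e2]
    exact this
  · intro k
    have := f2 (m + k)
    have e2 : ((m : ℤ) + k) = ((m + k : ℕ) : ℤ) := by push_cast; ring
    simp only [e2]
    refine this.trans (le_of_eq ?_)
    push_cast; ring
  · intro k hk
    have := f2 (m - k)
    have e2 : ((m : ℤ) - k) = ((m - k : ℕ) : ℤ) := by push_cast [hk]; ring
    simp only [e2]
    refine this.trans (le_of_eq ?_)
    push_cast [hk]; ring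
  · intro k hk
    have := f3 (k - m)
    have e2 : ((m : ℤ) - k) = -((k - m : ℕ) : ℤ) := by push_cast [hk]; ring
    simp only [e2]
    refine this.trans (le_of_eq ?_)
    push_cast [hk]; ring
  · intro k hk
    have := f4 (k - m)
    have e2 : ((m : ℤ) - k) = -((k - m : ℕ) : ℤ) := by push_cast [hk]; ring
    simp only [e2]
    refine this.trans (le_of_eq ?_)
    push_cast [hk]; ring
  · intro k
    have := f5 (m + k)
    have e2 : ((m : ℤ) + k) = ((m + k : ℕ) : ℤ) := by push_cast; ring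
    simp only [e2]
    refine le_trans (le_of_eq ?_) this
    push_cast; ring

end Pool.Agent.MFK

end
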